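import Pool.Agent.N721.SR.C2k
import Pool.Agent.N721.SR.Cut2

/-! # Graphs without `C_{2k}`: regular partitions -/

set_option autoImplicit false
set_option maxHeartbeats 400000
set_option linter.unusedSectionVars false

open Finset

namespace Pool.Agent.N721.SR

theorem isHermitian_adj {V : Type} [Fintype V] [DecidableEq V] (G : SimpleGraph V)
    [DecidableRel G.Adj] : (G.adjMatrix ℝ).IsHermitian := by
  rw [Matrix.IsHermitian, Matrix.conjTranspose_eq_transpose_of_trivial]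
  exact G.transpose_adjMatrix

theorem adj_nonneg {V : Type} (G : SimpleGraph V) [DecidableRel G.Adj] (x y : V) :
    0 ≤ G.adjMatrix ℝ x y := by
  rw [SimpleGraph.adjMatrix_apply]; split_ifs <;> norm_num

theorem adj_mono {V : Type} {G G' : SimpleGraph V} [DecidableRel G.Adj] [DecidableRel G'.Adj]
    (h : G ≤ G') (x y : V) : G.adjMatrix ℝ x y ≤ G'.adjMatrix ℝ x y := by
  rw [SimpleGraph.adjMatrix_apply, SimpleGraph.adjMatrix_apply]
  by_cases h1 : G.Adj x y
  · rw [if_pos h1, if_pos (h h1)]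
  · rw [if_neg h1]; split_ifs <;> norm_num

/-- deleting vertices `v` with many closed walks -/
theorem local_clean {V : Type} [Fintype V] [DecidableEq V] (G : SimpleGraph V)
    [DecidableRel G.Adj] (H₁ : Finset V) (m : ℕ) (hm : 1 ≤ m) (t : ℝ) (ht : 0 ≤ t) :
    ∀ v, ((del G (H₁ ∪ univ.filter fun v => t < ((del G H₁).adjMatrix ℝ ^ m) v v)).adjMatrix ℝ
      ^ m) v v ≤ t := by
  set H₂ := univ.filter fun v => t < ((del G H₁).adjMatrix ℝ ^ m) v v with hH₂
  intro v
  by_cases hv : v ∈ H₁ ∪ H₂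
  · obtain ⟨m, rfl⟩ : ∃ j, m = j + 1 := ⟨m - 1, by omega⟩
    have h1 : ∀ w, (del G (H₁ ∪ H₂)).adjMatrix ℝ v w = 0 := by
      intro w
      rw [SimpleGraph.adjMatrix_apply, if_neg fun h => h.2.1 hv]
    rw [pow_succ', Matrix.mul_apply, sum_eq_zero fun w _ => by rw [h1 w, zero_mul]]
    exact ht
  · have hle : del G (H₁ ∪ H₂) ≤ del G H₁ := by
      intro x y h
      exact ⟨h.1, fun hx => h.2.1 (mem_union_left _ hx), fun hy => h.2.2 (mem_union_left _ hy)⟩
    have h1 := (pow_mono_entry _ _ (adj_nonneg (del G (H₁ ∪ H₂)))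
      (adj_mono hle) m v v).2
    refine h1.trans ?_
    rw [mem_union, not_or] at hv
    have h2 := hv.2
    rw [hH₂, mem_filter] at h2
    push Not at h2
    exact h2 (mem_univ v)

theorem c2k_regular {k : ℕ} (hk : 2 ≤ k) (η : ℝ) (hη : 0 < η) :
    ∃ K : ℕ, ∀ (V : Type) [Fintype V] [DecidableEq V] (G : SimpleGraph V) [DecidableRel G.Adj],
      (SimpleGraph.cycleGraph (2 * k)).Free G →
      ∃ (H : Finset V) (P : V → Fin K),
        ∑ x ∈ H, (G.degree x : ℝ) ≤ η * (Fintype.card V : ℝ) ^ (1 + 1 / (k : ℝ)) ∧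
        Regular ((del G H).adjMatrix ℝ) P (η * (Fintype.card V : ℝ) ^ (1 / (k : ℝ))) := by
  classical
  have hP := c2k_her hk
  have hk0 : (0 : ℝ) < k := by
    have : 0 < k := by omega
    exact_mod_cast this
  have hk2 : (2 : ℝ) ≤ k := by exact_mod_cast hk
  have hα0 : 0 < 1 / (k : ℝ) := by positivity
  have hα1 : 1 / (k : ℝ) ≤ 1 := by
    rw [div_le_one hk0]; linarith
  obtain ⟨C₀, hC₀, hF⟩ := bondy_simonovits hk hP
  obtain ⟨B, n₀, hB, hn₀, htail⟩ := hP.tail (1 / (k : ℝ)) C₀ hα0 hα1 hC₀ hF (η / 2) (by positivity)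
  set M₁ : ℝ := (8 * (k : ℝ) ^ 2) ^ (k - 1) * B ^ k with hM₁
  have hM₁0 : 0 < M₁ := by positivity
  set θ : ℝ := η / (2 * B) with hθ
  have hθ0 : 0 < θ := by positivity
  set M₂ : ℝ := M₁ / θ with hM₂
  have hM₂0 : 0 < M₂ := by positivity
  obtain ⟨K₁, hK₁⟩ := regular_of_diag k (by omega) M₂ η hM₂0.le hη
  refine ⟨max K₁ n₀, fun V _ _ G _ hG => ?_⟩
  set n : ℝ := (Fintype.card V : ℝ) with hn
  set N : ℝ := n ^ (1 / (k : ℝ)) with hN
  rcases lt_or_ge (Fintype.card V) n₀ with hlt | hge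
  · have hcard : Fintype.card V ≤ Fintype.card (Fin (max K₁ n₀)) := by
      rw [Fintype.card_fin]
      exact hlt.le.trans (le_max_right _ _)
    obtain ⟨e⟩ := Function.Embedding.nonempty_of_card_le hcard
    refine ⟨∅, e, by simp only [sum_empty]; positivity, fun f g => ?_⟩
    simp only [avg_inj _ _ e.injective, sub_self, zero_mul, sum_const_zero, abs_zero]
    positivity
  · have hn1 : 1 ≤ Fintype.card V := hn₀.trans hge
    have hn0 : 0 < n := by rw [hn]; exact_mod_cast hn1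
    have hN0 : 0 < N := by positivity
    have hNk : N ^ k = n := rpow_root (by omega) n hn0.le
    have hrp : n ^ (1 + 1 / (k : ℝ)) = n * N := by
      rw [Real.rpow_add hn0, Real.rpow_one]
    set H₁ : Finset V := univ.filter fun x => B * N < ee G {x} univ with hH₁
    obtain ⟨ht, -⟩ := htail V G hG hge H₁ (fun x hx => by
      rw [hH₁, mem_filter] at hx
      exact hx.2)
    rw [← hn, ← hN] at ht
    have hx₁ : ∀ x ∉ H₁, ee G {x} univ ≤ B * N := by
      intro x hx
      rw [hH₁, mem_filter] at hx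
      push Not at hx
      exact hx (mem_univ x)
    have hdeg : ∀ v, ((del G H₁).degree v : ℝ) ≤ B * N :=
      del_degree G H₁ (B * N) (by positivity) hx₁
    have hfree : (SimpleGraph.cycleGraph (2 * k)).Free (del G H₁) := by
      intro hcon
      exact hG (hcon.trans (SimpleGraph.IsContained.of_le (del_le G H₁)))
    have htr := trace_C2k (del G H₁) hk hfree (B * N) hdeg
    rw [mul_pow B N k, hNk, ← hn] at htr
    set H₂ := univ.filter fun v => M₂ * n < ((del G H₁).adjMatrix ℝ ^ (2 * k)) v v with hH₂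
    have hdiag := local_clean G H₁ (2 * k) (by omega) (M₂ * n) (by positivity)
    rw [← hH₂] at hdiag
    have hH₂c : (#H₂ : ℝ) ≤ θ * n := by
      have h1 : (#H₂ : ℝ) * (M₂ * n) ≤ ∑ v, ((del G H₁).adjMatrix ℝ ^ (2 * k)) v v := by
        calc (#H₂ : ℝ) * (M₂ * n) ≤ ∑ v ∈ H₂, ((del G H₁).adjMatrix ℝ ^ (2 * k)) v v := by
              rw [← nsmul_eq_mul]
              exact card_nsmul_le_sum _ _ _ fun x hx => by
                rw [hH₂, mem_filter] at hx
                exact hx.2.le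
          _ ≤ _ := by
              refine sum_le_sum_of_subset_of_nonneg (subset_univ _) fun v _ _ => ?_
              exact (pow_mono_entry _ _ (adj_nonneg (del G H₁)) (fun _ _ => le_rfl)
                (2 * k) v v).1
      have h2 : (#H₂ : ℝ) * (M₂ * n) ≤ (θ * n) * (M₂ * n) := by
        refine (h1.trans htr).trans (le_of_eq ?_)
        have e1 : θ * M₂ = M₁ := by rw [hM₂]; field_simp
        calc (8 * (k : ℝ) ^ 2) ^ (k - 1) * (B ^ k * n) * n = M₁ * (n * n) := by rw [hM₁]; ring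
          _ = (θ * M₂) * (n * n) := by rw [e1]
          _ = _ := by ring
      exact le_of_mul_le_mul_right h2 (by positivity)
    obtain ⟨P, hPreg⟩ := hK₁ V ((del G (H₁ ∪ H₂)).adjMatrix ℝ) (isHermitian_adj _) N hN0 (by
      intro v
      have e1 : N ^ (2 * k) = n * n := by rw [two_mul, pow_add, hNk]
      rw [e1, ← hn]
      calc _ ≤ (M₂ * n) * n := mul_le_mul_of_nonneg_right (hdiag v) hn0.le
        _ = _ := by ring)
    refine ⟨H₁ ∪ H₂, fun x => Fin.castLE (le_max_left K₁ n₀) (P x), ?_,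
      hPreg.comp _ (Fin.castLE_injective _)⟩
    have e1 : ∑ x ∈ H₁ ∪ H₂, (G.degree x : ℝ) ≤
        ∑ x ∈ H₁, (G.degree x : ℝ) + ∑ x ∈ H₂ \ H₁, (G.degree x : ℝ) := by
      have e2 : H₁ ∪ H₂ = H₁ ∪ (H₂ \ H₁) := by rw [union_sdiff_self_eq_union]
      rw [e2, sum_union disjoint_sdiff]
    have e3 : ∑ x ∈ H₂ \ H₁, (G.degree x : ℝ) ≤ (θ * n) * (B * N) := by
      calc ∑ x ∈ H₂ \ H₁, (G.degree x : ℝ) ≤ ∑ _x ∈ H₂ \ H₁, B * N := by
            refine sum_le_sum fun x hx => ?_
            rw [mem_sdiff] at hx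
            have := hx₁ x hx.2
            rwa [ee_degree, sum_singleton] at this
        _ = (#(H₂ \ H₁) : ℝ) * (B * N) := by rw [sum_const, nsmul_eq_mul]
        _ ≤ (#H₂ : ℝ) * (B * N) := by
            have : #(H₂ \ H₁) ≤ #H₂ := card_le_card sdiff_subset
            have h2 : (#(H₂ \ H₁) : ℝ) ≤ #H₂ := by exact_mod_cast this
            gcongr
        _ ≤ _ := by gcongr
    rw [ee_degree] at ht
    have e4 : (θ * n) * (B * N) = η / 2 * (n * N) := by rw [hθ]; field_simp
    rw [hrp]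
    rw [e4] at e3
    linarith

theorem c2k_cut {k : ℕ} (hk : 2 ≤ k) (η : ℝ) (hη : 0 < η) :
    ∃ K : ℕ, ∀ (V : Type) [Fintype V] [DecidableEq V] (G : SimpleGraph V) [DecidableRel G.Adj],
      (SimpleGraph.cycleGraph (2 * k)).Free G →
      ∃ P : V → Fin K, ∀ S T : Finset V,
        |∑ x ∈ S, ∑ y ∈ T, (G.adjMatrix ℝ x y - avg (G.adjMatrix ℝ) P x y)| ≤
          η * (Fintype.card V : ℝ) ^ (1 + 1 / (k : ℝ)) := by
  obtain ⟨K, hK⟩ := c2k_regular hk (η / 5) (by positivity)
  refine ⟨K, fun V _ _ G _ hG => ?_⟩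
  obtain ⟨H, P, hH, hP⟩ := hK V G hG
  refine ⟨P, fun S T => ?_⟩
  rcases isEmpty_or_nonempty V with hV | hV
  · have hS : S = ∅ := Finset.eq_empty_of_isEmpty S
    rw [hS, sum_empty, abs_zero]
    positivity
  have hn0 : (0 : ℝ) < (Fintype.card V : ℝ) := by exact_mod_cast Fintype.card_pos
  have h1 := cut_of_regular G H P _ _ (by positivity) hH hP S T
  refine h1.trans (le_of_eq ?_)
  rw [Real.rpow_add hn0, Real.rpow_one]
  ring

end Pool.Agent.N721.SR
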