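import Pool.Agent.N721.SR.Girth
import Pool.Agent.TH815.GR8

/-! # Regular partitions for all graphs without cycles of length at most `2 k` -/

set_option autoImplicit false
set_option maxHeartbeats 400000
set_option linter.unusedSectionVars false

open Finset

namespace Pool.Agent.N721.SR

variable {V : Type} [Fintype V] [DecidableEq V]

theorem avg_comp {K L : ℕ} (A : Matrix V V ℝ) (P : V → Fin K) (e : Fin K → Fin L)
    (he : Function.Injective e) (u v : V) : avg A (fun x => e (P x)) u v = avg A P u v := by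
  unfold avg
  have h : ∀ w : V, (univ.filter fun x => e (P x) = e (P w)) = univ.filter fun x => P x = P w := by
    intro w
    ext x
    simp only [mem_filter, mem_univ, true_and]
    exact he.eq_iff
  rw [h u, h v]

theorem Regular.comp {K L : ℕ} {A : Matrix V V ℝ} {P : V → Fin K} {δ : ℝ} (h : Regular A P δ)
    (e : Fin K → Fin L) (he : Function.Injective e) : Regular A (fun x => e (P x)) δ := by
  intro f g
  simp only [avg_comp A P e he]
  exact h f g

theorem avg_inj {K : ℕ} (A : Matrix V V ℝ) (P : V → Fin K) (hP : Function.Injective P) (u v : V) :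
    avg A P u v = A u v := by
  unfold avg
  have h : ∀ w : V, (univ.filter fun x => P x = P w) = {w} := by
    intro w
    ext x
    simp only [mem_filter, mem_univ, true_and, mem_singleton]
    exact hP.eq_iff
  rw [h u, h v]
  simp

/-- `G` without the edges at the vertices of `H` -/
def del (G : SimpleGraph V) (H : Finset V) : SimpleGraph V where
  Adj x y := G.Adj x y ∧ x ∉ H ∧ y ∉ H
  symm := ⟨fun _ _ h => ⟨h.1.symm, h.2.2, h.2.1⟩⟩
  loopless := ⟨fun _ h => G.loopless.irrefl _ h.1⟩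

instance (G : SimpleGraph V) [DecidableRel G.Adj] (H : Finset V) : DecidableRel (del G H).Adj :=
  fun x y => inferInstanceAs (Decidable (G.Adj x y ∧ x ∉ H ∧ y ∉ H))

theorem del_le (G : SimpleGraph V) (H : Finset V) : del G H ≤ G := fun _ _ h => h.1

theorem no_cycle_mono {G G' : SimpleGraph V} (h : G' ≤ G) {M : ℕ}
    (hg : ∀ (v : V) (p : G.Walk v v), p.IsCycle → M < p.length) :
    ∀ (v : V) (p : G'.Walk v v), p.IsCycle → M < p.length := by
  intro v p hp
  have h1 := hg v (p.mapLe h) (hp.mapLe h)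
  rwa [SimpleGraph.Walk.length_map] at h1

theorem rpow_root {k : ℕ} (hk : 1 ≤ k) (n : ℝ) (hn : 0 ≤ n) : (n ^ (1 / (k : ℝ))) ^ k = n := by
  rw [← Real.rpow_natCast, ← Real.rpow_mul hn]
  rw [one_div, inv_mul_cancel₀ (by positivity), Real.rpow_one]

/-- all degrees at most `b n ^ (1 / k)` -/
theorem diag_root (G : SimpleGraph V) [DecidableRel G.Adj] {k : ℕ} (hk : 1 ≤ k)
    (hg : ∀ (v : V) (p : G.Walk v v), p.IsCycle → 2 * k < p.length) (b : ℝ)
    (hD : ∀ v, (G.degree v : ℝ) ≤ b * (Fintype.card V : ℝ) ^ (1 / (k : ℝ))) (v : V) :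
    (G.adjMatrix ℝ ^ (2 * k)) v v * (Fintype.card V : ℝ) ≤
      (((2 * k).choose k : ℝ) * b ^ k) * ((Fintype.card V : ℝ) ^ (1 / (k : ℝ))) ^ (2 * k) := by
  have h1 := diag_le G hg _ hD v
  have h2 := rpow_root hk (Fintype.card V : ℝ) (Nat.cast_nonneg _)
  rw [mul_pow, h2] at h1
  have h3 : ((Fintype.card V : ℝ) ^ (1 / (k : ℝ))) ^ (2 * k) = (Fintype.card V : ℝ) ^ 2 := by
    rw [mul_comm 2 k, pow_mul, h2]
  rw [h3]
  have h4 : (0 : ℝ) ≤ (Fintype.card V : ℝ) := Nat.cast_nonneg _
  calc _ ≤ ((2 * k).choose k : ℝ) * (b ^ k * (Fintype.card V : ℝ)) * (Fintype.card V : ℝ) :=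
        mul_le_mul_of_nonneg_right h1 h4
    _ = _ := by ring

theorem regular_degree (k : ℕ) (hk : 1 ≤ k) (b η : ℝ) (hb : 0 ≤ b) (hη : 0 < η) :
    ∃ K : ℕ, ∀ (V : Type) [Fintype V] [DecidableEq V] (G : SimpleGraph V) [DecidableRel G.Adj],
      (∀ (v : V) (p : G.Walk v v), p.IsCycle → 2 * k < p.length) →
      (∀ v, (G.degree v : ℝ) ≤ b * (Fintype.card V : ℝ) ^ (1 / (k : ℝ))) →
      ∃ P : V → Fin K, Regular (G.adjMatrix ℝ) P (η * (Fintype.card V : ℝ) ^ (1 / (k : ℝ))) := by
  obtain ⟨K, hK⟩ := regular_of_diag k hk (((2 * k).choose k : ℝ) * b ^ k) η (by positivity) hη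
  refine ⟨K, fun V _ _ G _ hg hD => ?_⟩
  rcases isEmpty_or_nonempty V with hV | hV
  · exact ⟨fun v => (hV.false v).elim, fun f g => by simp⟩
  have hn0 : (0 : ℝ) < (Fintype.card V : ℝ) := by exact_mod_cast Fintype.card_pos
  refine hK V (G.adjMatrix ℝ) ?_ _ (by positivity) (diag_root G hk hg b hD)
  rw [Matrix.IsHermitian, Matrix.conjTranspose_eq_transpose_of_trivial]
  exact G.transpose_adjMatrix

/-- **All graphs without cycles of length at most `2 k`.** -/
theorem regular_girth (k : ℕ) (hk : 1 ≤ k) (η : ℝ) (hη : 0 < η) :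
    ∃ K : ℕ, ∀ (V : Type) [Fintype V] [DecidableEq V] (G : SimpleGraph V) [DecidableRel G.Adj],
      (∀ (v : V) (p : G.Walk v v), p.IsCycle → 2 * k < p.length) →
      ∃ (H : Finset V) (P : V → Fin K),
        ∑ x ∈ H, (G.degree x : ℝ) ≤ η * (Fintype.card V : ℝ) ^ (1 + 1 / (k : ℝ)) ∧
        (∀ x ∉ H, (G.degree x : ℝ) ≤ 128 / η * (Fintype.card V : ℝ) ^ (1 / (k : ℝ)) ∨ H = ∅) ∧
        Regular ((del G H).adjMatrix ℝ) P (η * (Fintype.card V : ℝ) ^ (1 / (k : ℝ))) := by
  obtain ⟨K₁, hK₁⟩ := regular_degree k hk (128 / η) η (by positivity) hη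
  set n₀ : ℕ := ⌈(16 / η) ^ k⌉₊ + 1 with hn₀
  refine ⟨max K₁ n₀, fun V _ _ G _ hg => ?_⟩
  set n : ℝ := (Fintype.card V : ℝ) with hn
  set N : ℝ := n ^ (1 / (k : ℝ)) with hN
  rcases lt_or_ge (Fintype.card V) n₀ with hlt | hge
  · -- few vertices
    have hcard : Fintype.card V ≤ Fintype.card (Fin (max K₁ n₀)) := by
      rw [Fintype.card_fin]
      exact hlt.le.trans (le_max_right _ _)
    obtain ⟨e⟩ := Function.Embedding.nonempty_of_card_le hcard
    refine ⟨∅, e, by simp only [sum_empty]; positivity, fun x _ => Or.inr rfl, fun f g => ?_⟩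
    simp only [avg_inj _ _ e.injective, sub_self, zero_mul, sum_const_zero, abs_zero]
    positivity
  · have hnn : (16 / η) ^ k ≤ n := by
      have h1 : (16 / η) ^ k ≤ (⌈(16 / η) ^ k⌉₊ : ℝ) := Nat.le_ceil _
      have h2 : ((⌈(16 / η) ^ k⌉₊ + 1 : ℕ) : ℝ) ≤ n := by
        rw [hn]; exact_mod_cast hge
      push_cast at h2
      linarith
    have hNN : 16 / η ≤ N := by
      have h1 : (16 / η) ^ k ≤ N ^ k := by rw [hN, rpow_root hk n (Nat.cast_nonneg _)]; exact hnn
      exact le_of_pow_le_pow_left₀ (by omega) (by positivity) h1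
    have hn0 : 0 < n := lt_of_lt_of_le (by positivity) hnn
    have hrp : n ^ (1 + 1 / (k : ℝ)) = n * N := by
      rw [Real.rpow_add hn0, Real.rpow_one]
    set H := univ.filter (fun x => 128 / η * n ^ (1 / (k : ℝ)) < (G.degree x : ℝ)) with hH
    have hdegH : ∀ x ∉ H, (G.degree x : ℝ) ≤ 128 / η * N := by
      intro x hx
      rw [hH, mem_filter] at hx
      push Not at hx
      exact hx (mem_univ x)
    have hdel : ∀ x, ((del G H).degree x : ℝ) ≤ 128 / η * N := by
      intro x
      by_cases hx : x ∈ H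
      · have h1 : (del G H).degree x = 0 := by
          rw [← SimpleGraph.card_neighborFinset_eq_degree, SimpleGraph.neighborFinset_eq_filter,
            Finset.card_eq_zero]
          refine Finset.filter_eq_empty_iff.2 fun y _ hy => hy.2.1 hx
        rw [h1]
        push_cast
        positivity
      · refine le_trans ?_ (hdegH x hx)
        have : (del G H).degree x ≤ G.degree x := SimpleGraph.degree_le_of_le (del_le G H)
        exact_mod_cast this
    obtain ⟨P, hP⟩ := hK₁ V (del G H) (no_cycle_mono (del_le G H) hg) hdel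
    refine ⟨H, fun x => Fin.castLE (le_max_left K₁ n₀) (P x), ?_, fun x hx => Or.inl (hdegH x hx),
      hP.comp _ (Fin.castLE_injective _)⟩
    have h1 := Pool.TH815.GR.tail G hk hg (128 / η) (by positivity)
    rw [← hn, ← hH] at h1
    refine h1.trans ?_
    rw [hrp]
    have h2 : 64 / (128 / η) = η / 2 := by field_simp; norm_num
    rw [h2]
    have h3 : 16 ≤ η * N := by
      rw [div_le_iff₀ hη] at hNN
      linarith
    nlinarith [mul_le_mul_of_nonneg_left h3 hn0.le]

end Pool.Agent.N721.SR
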