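import Pool.Agent.N721.SR.All

/-! # Regular partitions in the cut norm -/

set_option autoImplicit false
set_option maxHeartbeats 400000
set_option linter.unusedSectionVars false

open Finset

namespace Pool.Agent.N721.SR

variable {V : Type} [Fintype V] [DecidableEq V]

theorem avg_add {K : ℕ} (A B : Matrix V V ℝ) (P : V → Fin K) (u v : V) :
    avg (fun x y => A x y + B x y) P u v = avg A P u v + avg B P u v := by
  unfold avg
  rw [← add_div]
  congr 1
  simp only [sum_add_distrib]

theorem avg_nonneg {K : ℕ} (A : Matrix V V ℝ) (hA : ∀ x y, 0 ≤ A x y) (P : V → Fin K) (u v : V) :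
    0 ≤ avg A P u v := by
  unfold avg
  exact div_nonneg (sum_nonneg fun x _ => sum_nonneg fun y _ => hA x y) (by positivity)

theorem sum_avg {K : ℕ} (A : Matrix V V ℝ) (P : V → Fin K) :
    ∑ u, ∑ v, avg A P u v = ∑ u, ∑ v, A u v := by
  have h1 : ∀ x, av P (fun _ => (1 : ℝ)) x = 1 := by
    intro x
    unfold av
    simp only [mul_one]
    exact ker_sum P x
  have h := bilin_avg A P (fun _ => 1) (fun _ => 1)
  simpa only [mul_one, h1] using h

theorem adj_del (G : SimpleGraph V) [DecidableRel G.Adj] (H : Finset V) (x y : V) :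
    (del G H).adjMatrix ℝ x y = if G.Adj x y ∧ x ∉ H ∧ y ∉ H then 1 else 0 := by
  rw [SimpleGraph.adjMatrix_apply]
  rfl

/-- The cut norm form. -/
theorem cut_girth (k : ℕ) (hk : 1 ≤ k) (η : ℝ) (hη : 0 < η) :
    ∃ K : ℕ, ∀ (V : Type) [Fintype V] [DecidableEq V] (G : SimpleGraph V) [DecidableRel G.Adj],
      (∀ (v : V) (p : G.Walk v v), p.IsCycle → 2 * k < p.length) →
      ∃ P : V → Fin K, ∀ S T : Finset V,
        |∑ x ∈ S, ∑ y ∈ T, (G.adjMatrix ℝ x y - avg (G.adjMatrix ℝ) P x y)| ≤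
          η * (Fintype.card V : ℝ) ^ (1 + 1 / (k : ℝ)) := by
  obtain ⟨K, hK⟩ := regular_girth k hk (η / 5) (by positivity)
  refine ⟨K, fun V _ _ G _ hg => ?_⟩
  obtain ⟨H, P, hH, -, hP⟩ := hK V G hg
  refine ⟨P, fun S T => ?_⟩
  rcases isEmpty_or_nonempty V with hV | hV
  · have hS : S = ∅ := Finset.eq_empty_of_isEmpty S
    rw [hS, sum_empty, abs_zero]
    positivity
  set n : ℝ := (Fintype.card V : ℝ) with hn
  have hn0 : 0 < n := by rw [hn]; exact_mod_cast Fintype.card_pos
  set N : ℝ := n ^ (1 / (k : ℝ)) with hN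
  have hN0 : 0 < N := by positivity
  have hrp : n ^ (1 + 1 / (k : ℝ)) = n * N := by
    rw [Real.rpow_add hn0, Real.rpow_one]
  rw [hrp] at hH ⊢
  set A' : Matrix V V ℝ := (del G H).adjMatrix ℝ with hA'
  set E : Matrix V V ℝ := fun x y => G.adjMatrix ℝ x y - A' x y with hE
  have hA : (G.adjMatrix ℝ) = fun x y => A' x y + E x y := by
    funext x y
    rw [hE]
    ring
  have hE0 : ∀ x y, 0 ≤ E x y := by
    intro x y
    show 0 ≤ G.adjMatrix ℝ x y - (del G H).adjMatrix ℝ x y
    rw [adj_del, SimpleGraph.adjMatrix_apply]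
    by_cases h1 : G.Adj x y
    · rw [if_pos h1]
      split_ifs <;> norm_num
    · rw [if_neg h1, if_neg fun h => h1 h.1, sub_zero]
  have hEle : ∀ x y, E x y ≤ (if x ∈ H then G.adjMatrix ℝ x y else 0) +
      (if y ∈ H then G.adjMatrix ℝ x y else 0) := by
    intro x y
    show G.adjMatrix ℝ x y - (del G H).adjMatrix ℝ x y ≤ _
    rw [adj_del]
    simp only [SimpleGraph.adjMatrix_apply]
    by_cases h1 : G.Adj x y <;> by_cases h2 : x ∈ H <;> by_cases h3 : y ∈ H <;> simp [h1, h2, h3]
  have hrow : ∀ x, ∑ y, G.adjMatrix ℝ x y = (G.degree x : ℝ) := by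
    intro x
    simp only [SimpleGraph.adjMatrix_apply]
    rw [← Finset.sum_filter, Finset.sum_const, nsmul_eq_mul, mul_one,
      ← G.card_neighborFinset_eq_degree, G.neighborFinset_eq_filter]
  have hEs : ∑ x, ∑ y, E x y ≤ 2 * (η / 5 * (n * N)) := by
    calc ∑ x, ∑ y, E x y ≤ ∑ x, ∑ y, ((if x ∈ H then G.adjMatrix ℝ x y else 0) +
          (if y ∈ H then G.adjMatrix ℝ x y else 0)) :=
          sum_le_sum fun x _ => sum_le_sum fun y _ => hEle x y
      _ = ∑ x, ∑ y, (if x ∈ H then G.adjMatrix ℝ x y else 0) +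
          ∑ y, ∑ x, (if y ∈ H then G.adjMatrix ℝ x y else 0) := by
          simp only [sum_add_distrib]
          congr 1
          exact sum_comm
      _ = 2 * ∑ x ∈ H, (G.degree x : ℝ) := by
          have e1 : ∀ x, ∑ y, (if x ∈ H then G.adjMatrix ℝ x y else 0) =
              if x ∈ H then (G.degree x : ℝ) else 0 := by
            intro x
            split_ifs
            · exact hrow x
            · exact sum_const_zero
          have e2 : ∀ y, ∑ x, (if y ∈ H then G.adjMatrix ℝ x y else 0) =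
              if y ∈ H then (G.degree y : ℝ) else 0 := by
            intro y
            split_ifs
            · rw [← hrow y]
              refine sum_congr rfl fun x _ => ?_
              simp only [SimpleGraph.adjMatrix_apply, G.adj_comm x y]
            · exact sum_const_zero
          simp only [e1, e2, Finset.sum_ite_mem, Finset.univ_inter]
          ring
      _ ≤ _ := by linarith
  have hsplit : ∑ x ∈ S, ∑ y ∈ T, (G.adjMatrix ℝ x y - avg (G.adjMatrix ℝ) P x y) =
      ∑ x ∈ S, ∑ y ∈ T, (A' x y - avg A' P x y) + ∑ x ∈ S, ∑ y ∈ T, E x y -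
        ∑ x ∈ S, ∑ y ∈ T, avg E P x y := by
    rw [← sum_add_distrib, ← sum_sub_distrib]
    refine sum_congr rfl fun x _ => ?_
    rw [← sum_add_distrib, ← sum_sub_distrib]
    refine sum_congr rfl fun y _ => ?_
    have h1 : avg (G.adjMatrix ℝ) P x y = avg A' P x y + avg E P x y := by
      conv_lhs => rw [hA]
      exact avg_add A' E P x y
    have h2 : G.adjMatrix ℝ x y = A' x y + E x y := by rw [hE]; ring
    rw [h1, h2]
    ring
  have hsub : ∀ B : Matrix V V ℝ, (∀ x y, 0 ≤ B x y) →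
      0 ≤ ∑ x ∈ S, ∑ y ∈ T, B x y ∧ ∑ x ∈ S, ∑ y ∈ T, B x y ≤ ∑ x, ∑ y, B x y := by
    intro B hB
    refine ⟨sum_nonneg fun x _ => sum_nonneg fun y _ => hB x y, ?_⟩
    calc ∑ x ∈ S, ∑ y ∈ T, B x y ≤ ∑ x ∈ S, ∑ y, B x y :=
          sum_le_sum fun x _ => sum_le_univ_sum_of_nonneg fun y => hB x y
      _ ≤ ∑ x, ∑ y, B x y := sum_le_univ_sum_of_nonneg fun x => sum_nonneg fun y _ => hB x y
  have hE1 := hsub E hE0
  have hE2 := hsub (fun x y => avg E P x y) (fun x y => avg_nonneg E hE0 P x y)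
  rw [sum_avg E P] at hE2
  have hmain : |∑ x ∈ S, ∑ y ∈ T, (A' x y - avg A' P x y)| ≤ η / 5 * (n * N) := by
    have h1 := hP (fun x => if x ∈ S then 1 else 0) (fun y => if y ∈ T then 1 else 0)
    have h2 : ∑ u, ∑ v, (A' u v - avg A' P u v) * (if u ∈ S then (1 : ℝ) else 0) *
        (if v ∈ T then (1 : ℝ) else 0) = ∑ x ∈ S, ∑ y ∈ T, (A' x y - avg A' P x y) := by
      have e1 : ∀ u, ∑ v, (A' u v - avg A' P u v) * (if u ∈ S then (1 : ℝ) else 0) *
          (if v ∈ T then (1 : ℝ) else 0) =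
            if u ∈ S then ∑ y ∈ T, (A' u y - avg A' P u y) else 0 := by
        intro u
        split_ifs
        · simp only [mul_one, mul_ite, mul_zero, Finset.sum_ite_mem, Finset.univ_inter]
        · simp
      simp only [e1, Finset.sum_ite_mem, Finset.univ_inter]
    rw [h2] at h1
    refine h1.trans ?_
    have h3 : ∀ U : Finset V, Real.sqrt (∑ u, (if u ∈ U then (1 : ℝ) else 0) ^ 2) ≤
        Real.sqrt n := by
      intro U
      refine Real.sqrt_le_sqrt ?_
      calc ∑ u, (if u ∈ U then (1 : ℝ) else 0) ^ 2 ≤ ∑ _u : V, (1 : ℝ) :=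
            sum_le_sum fun u _ => by split_ifs <;> norm_num
        _ = n := by simp [hn]
    calc _ ≤ η / 5 * N * Real.sqrt n * Real.sqrt n :=
          mul_le_mul (mul_le_mul_of_nonneg_left (h3 S) (by positivity)) (h3 T)
            (Real.sqrt_nonneg _) (by positivity)
      _ = η / 5 * (n * N) := by
          rw [mul_assoc (η / 5 * N), Real.mul_self_sqrt hn0.le]; ring
  rw [hsplit]
  have hm := abs_le.1 hmain
  rw [abs_le]
  constructor
  · linarith [hm.1, hE1.1, hE2.2]
  · linarith [hm.2, hE1.2, hE2.1]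

end Pool.Agent.N721.SR
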