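import Pool.Agent.N721.SR.Gen2

/-! # Graphs without `K_{r,r}` -/

set_option autoImplicit false
set_option maxHeartbeats 400000
set_option linter.unusedSectionVars false

open Finset

namespace Pool.Agent.N721.SR

/-- the class of graphs not containing `H` -/
def FreeCls {W : Type} (H : SimpleGraph W) : ∀ (V : Type), SimpleGraph V → Prop :=
  fun _ G => H.Free G

theorem freeCls_her {W : Type} (H : SimpleGraph W) (a b : W) (hab : H.Adj a b) :
    Her (FreeCls H) where
  comap V W' φ G h := by
    intro hcon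
    exact h (hcon.trans ⟨(SimpleGraph.Embedding.comap φ G).toCopy⟩)
  bot n := by
    rintro ⟨f⟩
    exact (f.toHom.map_adj hab).elim

theorem kst_free {V : Type} [Fintype V] [DecidableEq V] (G : SimpleGraph V) [DecidableRel G.Adj]
    (r : ℕ) (hG : (completeBipartiteGraph (Fin r) (Fin r)).Free G) (S : Finset V) (hS : #S = r) :
    #(univ.filter fun v => S ⊆ G.neighborFinset v) < r := by
  by_contra hcon
  push Not at hcon
  obtain ⟨T, hT, hTc⟩ := Finset.exists_subset_card_eq hcon
  apply hG
  set f : Fin r → V := fun i => (S.equivFin.symm (Fin.cast hS.symm i) : V) with hf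
  set g : Fin r → V := fun i => (T.equivFin.symm (Fin.cast hTc.symm i) : V) with hg
  have hfi : Function.Injective f := by
    intro i j hij
    have h1 := S.equivFin.symm.injective (Subtype.ext hij)
    exact Fin.ext (by simpa using congrArg Fin.val h1)
  have hgi : Function.Injective g := by
    intro i j hij
    have h1 := T.equivFin.symm.injective (Subtype.ext hij)
    exact Fin.ext (by simpa using congrArg Fin.val h1)
  have hadj : ∀ i j, G.Adj (f i) (g j) := by
    intro i j
    have h1 : f i ∈ S := (S.equivFin.symm _).2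
    have h2 : g j ∈ T := (T.equivFin.symm _).2
    have h3 := (mem_filter.1 (hT h2)).2 h1
    rw [SimpleGraph.mem_neighborFinset] at h3
    exact h3.symm
  refine ⟨⟨⟨Sum.elim f g, ?_⟩, ?_⟩⟩
  · rintro (i | i) (j | j) h
    · simp [completeBipartiteGraph] at h
    · exact hadj i j
    · exact (hadj j i).symm
    · simp [completeBipartiteGraph] at h
  · rintro (i | i) (j | j) h
    · exact congrArg Sum.inl (hfi h)
    · exact absurd h (hadj i j).ne
    · exact absurd h.symm (hadj j i).ne
    · exact congrArg Sum.inr (hgi h)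

theorem kst_count {V : Type} [Fintype V] [DecidableEq V] (G : SimpleGraph V) [DecidableRel G.Adj]
    (r : ℕ) (hG : (completeBipartiteGraph (Fin r) (Fin r)).Free G) :
    ∑ v, (G.degree v + 1 - r) ^ r ≤ r * Fintype.card V ^ r := by
  classical
  have h1 : ∑ v, (G.degree v).choose r = ∑ S ∈ powersetCard r (univ : Finset V),
      #(univ.filter fun v => S ⊆ G.neighborFinset v) := by
    have e1 : ∀ v, (G.degree v).choose r =
        #((powersetCard r (univ : Finset V)).filter fun S => S ⊆ G.neighborFinset v) := by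
      intro v
      rw [← G.card_neighborFinset_eq_degree, ← card_powersetCard]
      congr 1
      ext S
      simp only [mem_powersetCard, mem_filter, subset_univ, true_and]
      exact and_comm
    simp only [e1, card_filter]
    exact sum_comm
  have h2 : ∑ v, (G.degree v).choose r ≤ (Fintype.card V).choose r * r := by
    rw [h1]
    calc _ ≤ ∑ _S ∈ powersetCard r (univ : Finset V), r :=
          sum_le_sum fun S hS => (kst_free G r hG S (mem_powersetCard.1 hS).2).le
      _ = _ := by rw [sum_const, card_powersetCard, card_univ, smul_eq_mul]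
  calc ∑ v, (G.degree v + 1 - r) ^ r ≤ ∑ v, r.factorial * (G.degree v).choose r := by
        refine sum_le_sum fun v _ => ?_
        rw [← Nat.descFactorial_eq_factorial_mul_choose]
        exact Nat.pow_sub_le_descFactorial _ _
    _ = r.factorial * ∑ v, (G.degree v).choose r := by rw [mul_sum]
    _ ≤ r.factorial * ((Fintype.card V).choose r * r) := Nat.mul_le_mul_left _ h2
    _ = r * (r.factorial * (Fintype.card V).choose r) := by ring
    _ = r * (Fintype.card V).descFactorial r := by
        rw [Nat.descFactorial_eq_factorial_mul_choose]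
    _ ≤ _ := Nat.mul_le_mul_left _ (Nat.descFactorial_le_pow _ _)

theorem kst_bound {V : Type} [Fintype V] [DecidableEq V] (G : SimpleGraph V) [DecidableRel G.Adj]
    (r : ℕ) (hr : 1 ≤ r) (hG : (completeBipartiteGraph (Fin r) (Fin r)).Free G)
    (hn : 1 ≤ Fintype.card V) :
    ∑ v, (G.degree v : ℝ) ≤ 2 * r * (Fintype.card V : ℝ) ^ (2 - 1 / (r : ℝ)) := by
  set n := Fintype.card V with hnd
  have hn0 : (0 : ℝ) < n := by exact_mod_cast hn
  have hn1 : (1 : ℝ) ≤ n := by exact_mod_cast hn
  have hr0 : (0 : ℝ) < r := by exact_mod_cast hr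
  have hr1 : (1 : ℝ) ≤ r := by exact_mod_cast hr
  obtain ⟨t, rfl⟩ : ∃ t, r = t + 1 := ⟨r - 1, by omega⟩
  set e : V → ℝ := fun v => ((G.degree v + 1 - (t + 1) : ℕ) : ℝ) with he
  have h1 : ∑ v, e v ^ (t + 1) ≤ ((t + 1 : ℕ) : ℝ) * (n : ℝ) ^ (t + 1) := by
    have h0 : ((∑ v, (G.degree v + 1 - (t + 1)) ^ (t + 1) : ℕ) : ℝ) ≤
        (((t + 1) * Fintype.card V ^ (t + 1) : ℕ) : ℝ) := by
      exact_mod_cast kst_count G (t + 1) hG
    simp only [Nat.cast_sum, Nat.cast_pow, Nat.cast_mul] at h0
    exact h0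
  have h2 := pow_sum_div_card_le_sum_pow (s := (univ : Finset V)) (f := e)
    (fun v _ => Nat.cast_nonneg _) t
  rw [card_univ, ← hnd, div_le_iff₀ (by positivity)] at h2
  set E := ∑ v, e v with hE
  have hE0 : 0 ≤ E := sum_nonneg fun v _ => Nat.cast_nonneg _
  set Y : ℝ := (n : ℝ) ^ (2 - 1 / ((t + 1 : ℕ) : ℝ)) with hY
  have hYpow : Y ^ (t + 1) = (n : ℝ) ^ (t + 1) * (n : ℝ) ^ t := by
    rw [hY, ← Real.rpow_natCast, ← Real.rpow_mul hn0.le, ← pow_add, ← Real.rpow_natCast]
    congr 1
    have : (((t + 1 : ℕ) : ℝ)) ≠ 0 := hr0.ne'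
    rw [sub_mul, one_div_mul_cancel this]
    push_cast
    ring
  have hY0 : 0 < Y := by positivity
  have h3 : E ≤ ((t + 1 : ℕ) : ℝ) * Y := by
    refine le_of_pow_le_pow_left₀ (n := t + 1) (by omega) (by positivity) ?_
    rw [mul_pow, hYpow]
    calc E ^ (t + 1) ≤ (∑ v, e v ^ (t + 1)) * (n : ℝ) ^ t := h2
      _ ≤ (((t + 1 : ℕ) : ℝ) * (n : ℝ) ^ (t + 1)) * (n : ℝ) ^ t := by gcongr
      _ ≤ (((t + 1 : ℕ) : ℝ) ^ (t + 1) * (n : ℝ) ^ (t + 1)) * (n : ℝ) ^ t := by
          gcongr
          exact le_self_pow₀ hr1 (by omega)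
      _ = _ := by ring
  have h4 : (n : ℝ) ≤ Y := by
    calc (n : ℝ) = (n : ℝ) ^ (1 : ℝ) := (Real.rpow_one _).symm
      _ ≤ _ := by
        refine Real.rpow_le_rpow_of_exponent_le hn1 ?_
        have : 1 / ((t + 1 : ℕ) : ℝ) ≤ 1 := by
          rw [div_le_one hr0]; exact hr1
        linarith
  calc ∑ v, (G.degree v : ℝ) ≤ ∑ v, (e v + ((t + 1 : ℕ) : ℝ)) := by
        refine sum_le_sum fun v _ => ?_
        have : G.degree v ≤ (G.degree v + 1 - (t + 1)) + (t + 1) := by omega
        have h5 : (G.degree v : ℝ) ≤ ((G.degree v + 1 - (t + 1) : ℕ) : ℝ) + ((t + 1 : ℕ) : ℝ) := by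
          exact_mod_cast this
        exact h5
    _ = E + n * ((t + 1 : ℕ) : ℝ) := by
        rw [sum_add_distrib, sum_const, card_univ, nsmul_eq_mul]
    _ ≤ ((t + 1 : ℕ) : ℝ) * Y + Y * ((t + 1 : ℕ) : ℝ) := by gcongr
    _ = _ := by ring

theorem kst_preconnected (r : ℕ) (hr : 1 ≤ r) :
    (completeBipartiteGraph (Fin r) (Fin r)).Preconnected := by
  have hlr : ∀ i j, (completeBipartiteGraph (Fin r) (Fin r)).Adj (Sum.inl i) (Sum.inr j) := by
    intro i j; simp [completeBipartiteGraph]
  set z : Fin r := ⟨0, by omega⟩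
  have h1 : ∀ j, (completeBipartiteGraph (Fin r) (Fin r)).Reachable (Sum.inl z) (Sum.inr j) :=
    fun j => (hlr z j).reachable
  have h2 : ∀ i, (completeBipartiteGraph (Fin r) (Fin r)).Reachable (Sum.inl z) (Sum.inl i) :=
    fun i => (h1 z).trans (hlr i z).symm.reachable
  have h3 : ∀ x, (completeBipartiteGraph (Fin r) (Fin r)).Reachable (Sum.inl z) x := by
    rintro (i | j)
    · exact h2 i
    · exact h1 j
  exact fun x y => (h3 x).symm.trans (h3 y)

/-- twice the extremal number -/
theorem freeCls_F {W : Type} (H : SimpleGraph W) (hP : Her (FreeCls H)) (n : ℕ) :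
    hP.F n = 2 * (SimpleGraph.extremalNumber n H : ℝ) := by
  classical
  have hdeg : ∀ (G : SimpleGraph (Fin n)) [DecidableRel G.Adj],
      ee G univ univ = 2 * (#G.edgeFinset : ℝ) := by
    intro G _
    rw [ee_degree, ← Nat.cast_sum, SimpleGraph.sum_degrees_eq_twice_card_edges]
    push_cast
    rfl
  apply le_antisymm
  · have h1 := SimpleGraph.card_edgeFinset_le_extremalNumber (hP.best_P n : H.Free (hP.best n))
    rw [Fintype.card_fin] at h1
    unfold Her.F
    rw [hdeg]
    have : (#(hP.best n).edgeFinset : ℝ) ≤ (SimpleGraph.extremalNumber n H : ℝ) := by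
      exact_mod_cast h1
    linarith
  · have h1 : SimpleGraph.extremalNumber n H ≤ ⌊hP.F n / 2⌋₊ := by
      have h2 := (SimpleGraph.extremalNumber_le_iff (V := Fin n) H ⌊hP.F n / 2⌋₊).2 (by
        intro G inst hG
        apply Nat.le_floor
        have h3 := hP.le_F G hG univ
        rw [card_univ, Fintype.card_fin, @hdeg G inst] at h3
        have h4 : (#G.edgeFinset : ℝ) ≤ hP.F n / 2 := by linarith
        exact_mod_cast h4)
      rwa [Fintype.card_fin] at h2
    have h5 : (0 : ℝ) ≤ hP.F n / 2 := by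
      have := ee_nonneg (hP.best n) univ univ
      unfold Her.F
      linarith
    have h6 : ((SimpleGraph.extremalNumber n H : ℕ) : ℝ) ≤ hP.F n / 2 := by
      calc ((SimpleGraph.extremalNumber n H : ℕ) : ℝ) ≤ (⌊hP.F n / 2⌋₊ : ℝ) := by exact_mod_cast h1
        _ ≤ _ := Nat.floor_le h5
    linarith

end Pool.Agent.N721.SR
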