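import Pool.Agent.N721.SR.Trace
import Pool.Agent.N721.SR.Kst
import Pool.Agent.N721.SR.Cut

/-! # The bound of Bondy and Simonovits -/

set_option autoImplicit false
set_option maxHeartbeats 400000
set_option linter.unusedSectionVars false

open Finset

namespace Pool.Agent.N721.SR

theorem avg_degree_pow {V : Type} [Fintype V] [DecidableEq V] (G : SimpleGraph V)
    [DecidableRel G.Adj] (k : ℕ) (hn : 0 < Fintype.card V) :
    (ee G univ univ / Fintype.card V) ^ (2 * k) ≤ ∑ v, (G.adjMatrix ℝ ^ (2 * k)) v v := by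
  have hA : (G.adjMatrix ℝ).IsHermitian := by
    rw [Matrix.IsHermitian, Matrix.conjTranspose_eq_transpose_of_trivial]
    exact G.transpose_adjMatrix
  have h := exists_eig hA
  set φ : V → V → ℝ := fun i v => hA.eigenvectorBasis i v with hφ
  set l := hA.eigenvalues with hl
  set n : ℝ := (Fintype.card V : ℝ) with hnd
  have hn0 : 0 < n := by rw [hnd]; exact_mod_cast hn
  rw [h.trace k]
  set c : V → ℝ := fun i => co φ (fun _ => 1) i with hc
  have hc2 : ∑ i, c i ^ 2 = n := by
    rw [hc, h.parseval]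
    simp [hnd]
  have hb : ee G univ univ = ∑ i, c i ^ 2 * l i := by
    have h1 := h.bilin (fun _ => 1) (fun _ => 1)
    simp only [mul_one] at h1
    have h2 : ee G univ univ = ∑ u, ∑ v, G.adjMatrix ℝ u v := by
      unfold ee
      refine sum_congr rfl fun x _ => sum_congr rfl fun y _ => ?_
      rw [SimpleGraph.adjMatrix_apply]
      by_cases hxy : G.Adj x y <;> simp [hxy]
    rw [h2, h1]
    exact sum_congr rfl fun i _ => by simp only [hc]; ring
  have h3 := Real.pow_arith_mean_le_arith_mean_pow_of_even univ (fun i => c i ^ 2 / n) l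
    (fun i _ => by positivity) (by rw [← sum_div, hc2, div_self hn0.ne']) (even_two_mul k)
  have h4 : ∑ i, c i ^ 2 / n * l i = ee G univ univ / n := by
    rw [hb, sum_div]
    exact sum_congr rfl fun i _ => by ring
  rw [h4] at h3
  refine h3.trans (sum_le_sum fun i _ => ?_)
  have h5 : c i ^ 2 / n ≤ 1 := by
    rw [div_le_one hn0, ← hc2]
    exact single_le_sum (f := fun i => c i ^ 2) (fun i _ => sq_nonneg _) (mem_univ i)
  have h6 : 0 ≤ l i ^ (2 * k) := by rw [pow_mul]; positivity
  calc c i ^ 2 / n * l i ^ (2 * k) ≤ 1 * l i ^ (2 * k) := mul_le_mul_of_nonneg_right h5 h6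
    _ = _ := one_mul _

variable {P : ∀ (V : Type), SimpleGraph V → Prop}

theorem Her.tail_core (hP : Her P) (α a ρ : ℝ) (hα : 0 < α) (hα1 : α ≤ 1) (ha : 0 < a)
    (hρ0 : 0 < ρ) (hρ1 : ρ ≤ 1 / 4) {V : Type} [Fintype V] [DecidableEq V] (G : SimpleGraph V)
    (hG : P V G) (hn : 1 ≤ ρ * Fintype.card V)
    (hF : ∀ t : ℕ, 1 ≤ t → t ≤ Fintype.card V → hP.F t ≤ a * (t : ℝ) ^ (1 + α)) (H : Finset V)
    (hH : ∀ x ∈ H, a / ρ * (Fintype.card V : ℝ) ^ α < ee G {x} univ) :
    ee G H univ ≤ 18 * a * ρ ^ α * (Fintype.card V * (Fintype.card V : ℝ) ^ α) := by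
  set n := Fintype.card V with hnd
  have hn0 : (0 : ℝ) < n := by
    by_contra hcon
    push Not at hcon
    have : ρ * (n : ℝ) ≤ 0 := mul_nonpos_of_nonneg_of_nonpos hρ0.le hcon
    linarith
  have hn1 : 1 ≤ n := by
    have : 0 < n := by exact_mod_cast hn0
    omega
  set N : ℝ := (n : ℝ) ^ α with hN
  have hN0 : 0 < N := by positivity
  have hrp : (n : ℝ) ^ (1 + α) = n * N := by rw [Real.rpow_add hn0, Real.rpow_one]
  have hHle : (#H : ℝ) ≤ ρ * n := by
    have h1 : (#H : ℝ) * (a / ρ * N) ≤ ee G H univ := by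
      rw [ee_degree', ← nsmul_eq_mul]
      exact card_nsmul_le_sum _ _ _ fun x hx => (hH x hx).le
    have h2 : ee G H univ ≤ a * (n * N) := by
      calc ee G H univ ≤ ee G univ univ := ee_mono G (subset_univ _) Subset.rfl
        _ ≤ hP.F #(univ : Finset V) := hP.le_F G hG univ
        _ ≤ a * (n : ℝ) ^ (1 + α) := by rw [card_univ]; exact hF n hn1 le_rfl
        _ = _ := by rw [hrp]
    have h3 : (#H : ℝ) * (a / ρ * N) ≤ (ρ * n) * (a / ρ * N) := by
      refine (h1.trans h2).trans (le_of_eq ?_)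
      field_simp
    exact le_of_mul_le_mul_right h3 (by positivity)
  set s : ℕ := ⌈ρ * n⌉₊ with hs
  have hs1 : 1 ≤ s := by
    rw [hs, Nat.one_le_ceil_iff]
    positivity
  have hs2 : ρ * n ≤ s := Nat.le_ceil _
  have hs3 : (s : ℝ) ≤ 2 * (ρ * n) := by
    have : (s : ℝ) < ρ * n + 1 := Nat.ceil_lt_add_one (by positivity)
    linarith
  have hM : ((n / s + 1 : ℕ) : ℝ) ≤ 2 / ρ := by
    have h1 : ((n / s : ℕ) : ℝ) ≤ 1 / ρ := by
      calc ((n / s : ℕ) : ℝ) ≤ (n : ℝ) / s := Nat.cast_div_le
        _ ≤ n / (ρ * n) := by gcongr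
        _ = 1 / ρ := by field_simp
    have h2 : 1 ≤ 1 / ρ := by
      rw [le_div_iff₀ hρ0]; linarith
    push_cast
    have : 2 / ρ = 1 / ρ + 1 / ρ := by ring
    linarith
  set B : ℝ := a * (3 * (ρ * n)) ^ (1 + α) with hB
  have hB0 : 0 ≤ B := by positivity
  have h1 := hP.small_set G hG H s hs1 B (fun t ht => by
    have htr : (t : ℝ) ≤ 3 * (ρ * n) := by
      have : (t : ℝ) ≤ #H + s := by exact_mod_cast ht
      linarith
    rcases Nat.eq_zero_or_pos t with h0 | h0
    · have : hP.F t = 0 := by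
        rw [h0]
        unfold Her.F ee
        simp
      rw [this]
      exact hB0
    · have htn : t ≤ n := by
        have h5 : 3 * (ρ * (n : ℝ)) ≤ 3 * (1 / 4 * n) := by gcongr
        have h6 : (t : ℝ) ≤ n := by linarith
        exact_mod_cast h6
      refine (hF t h0 htn).trans ?_
      rw [hB]
      refine mul_le_mul_of_nonneg_left ?_ ha.le
      exact Real.rpow_le_rpow (by positivity) htr (by positivity))
  have h2 : B ≤ 9 * a * ρ * ρ ^ α * (n * N) := by
    have e1 : (3 * (ρ * (n : ℝ))) ^ (1 + α) = 3 ^ (1 + α) * (ρ * ρ ^ α * (n * N)) := by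
      rw [Real.mul_rpow (by norm_num) (by positivity), Real.mul_rpow hρ0.le hn0.le,
        Real.rpow_add hρ0, Real.rpow_one, hrp]
    have e2 : (3 : ℝ) ^ (1 + α) ≤ 9 := by
      calc (3 : ℝ) ^ (1 + α) ≤ (3 : ℝ) ^ (2 : ℝ) :=
            Real.rpow_le_rpow_of_exponent_le (by norm_num) (by linarith)
        _ = 9 := by norm_num
    rw [hB, e1]
    calc a * (3 ^ (1 + α) * (ρ * ρ ^ α * (n * N))) ≤ a * (9 * (ρ * ρ ^ α * (n * N))) := by
          gcongr
      _ = _ := by ring
  calc ee G H univ ≤ ((n / s + 1 : ℕ) : ℝ) * B := h1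
    _ ≤ 2 / ρ * (9 * a * ρ * ρ ^ α * (n * N)) := by gcongr
    _ = 18 * a * ρ ^ α * (n * N) := by field_simp; norm_num

theorem F_le_sq (hP : Her P) (m : ℕ) : hP.F m ≤ (m : ℝ) * m := by
  unfold Her.F ee
  calc _ ≤ ∑ _x : Fin m, ∑ _y : Fin m, (1 : ℝ) :=
        sum_le_sum fun x _ => sum_le_sum fun y _ => by split_ifs <;> norm_num
    _ = _ := by simp

theorem ee_del {V : Type} [Fintype V] [DecidableEq V] (G : SimpleGraph V) (H : Finset V) :
    ee G univ univ ≤ ee (del G H) univ univ + 2 * ee G H univ := by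
  classical
  have h1 : ee G univ univ ≤ ∑ x, ∑ y, (aa (del G H) x y + ((if x ∈ H then aa G x y else 0) +
      (if y ∈ H then aa G x y else 0))) := by
    rw [ee_eq]
    refine sum_le_sum fun x _ => sum_le_sum fun y _ => ?_
    unfold aa del
    simp only
    by_cases h1 : G.Adj x y <;> by_cases h2 : x ∈ H <;> by_cases h3 : y ∈ H <;> simp [h1, h2, h3]
  refine h1.trans (le_of_eq ?_)
  simp only [sum_add_distrib]
  have e1 : ∑ x, ∑ y, (if x ∈ H then aa G x y else 0) = ee G H univ := by
    rw [ee_eq, ← sum_filter_add_sum_filter_not univ (fun x => x ∈ H)]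
    have z : ∑ x ∈ univ.filter (fun x => ¬ x ∈ H), ∑ y, (if x ∈ H then aa G x y else 0) = 0 :=
      sum_eq_zero fun x hx => by
        have := (mem_filter.1 hx).2
        simp [this]
    rw [z, add_zero, filter_univ_mem]
    refine sum_congr rfl fun x hx => ?_
    simp only [hx, if_true]
  have e2 : ∑ x, ∑ y, (if y ∈ H then aa G x y else 0) = ee G H univ := by
    rw [← e1, sum_comm]
    refine sum_congr rfl fun x _ => sum_congr rfl fun y _ => ?_
    rw [aa_comm G y x]
  rw [e1, e2, ← ee_eq]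
  ring

theorem del_degree {V : Type} [Fintype V] [DecidableEq V] (G : SimpleGraph V)
    [DecidableRel G.Adj] (H : Finset V) (B : ℝ) (hB : 0 ≤ B)
    (h : ∀ x ∉ H, ee G {x} univ ≤ B) (v : V) : ((del G H).degree v : ℝ) ≤ B := by
  by_cases hv : v ∈ H
  · have h1 : (del G H).degree v = 0 := by
      rw [← SimpleGraph.card_neighborFinset_eq_degree, SimpleGraph.neighborFinset_eq_filter,
        Finset.card_eq_zero]
      refine Finset.filter_eq_empty_iff.2 fun y _ hy => hy.2.1 hv
    rw [h1]
    push_cast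
    exact hB
  · refine le_trans ?_ (h v hv)
    rw [ee_degree, sum_singleton]
    have : (del G H).degree v ≤ G.degree v := SimpleGraph.degree_le_of_le (del_le G H)
    exact_mod_cast this

/-- **The bound of Bondy and Simonovits.** -/
theorem bondy_simonovits {k : ℕ} (hk : 2 ≤ k)
    (hP : Her (FreeCls (SimpleGraph.cycleGraph (2 * k)))) :
    ∃ C₀ : ℝ, 0 < C₀ ∧ ∀ n : ℕ, 1 ≤ n → hP.F n ≤ C₀ * (n : ℝ) ^ (1 + 1 / (k : ℝ)) := by
  classical
  have hk0 : (0 : ℝ) < k := by
    have : 0 < k := by omega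
    exact_mod_cast this
  have hk2 : (2 : ℝ) ≤ k := by exact_mod_cast hk
  set α : ℝ := 1 / (k : ℝ) with hα
  have hα0 : 0 < α := by positivity
  have hα1 : α ≤ 1 := by
    rw [hα, div_le_one hk0]; linarith
  set ρ : ℝ := (1 / 72) ^ k with hρ
  have hρ0 : 0 < ρ := by positivity
  have hρα : ρ ^ α = 1 / 72 := by
    rw [hρ, ← Real.rpow_natCast, ← Real.rpow_mul (by norm_num), hα, mul_one_div_cancel hk0.ne',
      Real.rpow_one]
  have hρ1 : ρ ≤ 1 / 4 := by
    calc ρ ≤ (1 / 72 : ℝ) ^ 1 := by
          rw [hρ]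
          exact pow_le_pow_of_le_one (by norm_num) (by norm_num) (by omega)
      _ ≤ 1 / 4 := by norm_num
  set L : ℝ := 4 ^ k * (8 * (k : ℝ) ^ 2) ^ (k - 1) / ρ ^ k with hL
  have hL0 : 0 < L := by positivity
  set C₀ : ℝ := 1 / ρ + 1 + L with hC₀
  have hC₀0 : 0 < C₀ := by positivity
  set a : ℕ → ℝ := fun t => hP.F t / (t : ℝ) ^ (1 + α) with ha
  -- records are bounded
  have key : ∀ m : ℕ, 1 ≤ m → (∀ t, 1 ≤ t → t ≤ m → a t ≤ a m) → a m ≤ C₀ := by
    intro m hm hrec
    have hm0 : (0 : ℝ) < m := by exact_mod_cast hm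
    have hm1 : (1 : ℝ) ≤ m := by exact_mod_cast hm
    set N : ℝ := (m : ℝ) ^ α with hN
    have hN0 : 0 < N := by positivity
    have hN1 : 1 ≤ N := Real.one_le_rpow hm1 hα0.le
    have hrp : (m : ℝ) ^ (1 + α) = m * N := by rw [Real.rpow_add hm0, Real.rpow_one]
    have hNk : N ^ k = m := by rw [hN, hα]; exact rpow_root (by omega) _ hm0.le
    have hFm : hP.F m = a m * (m * N) := by
      rw [ha, ← hrp]
      simp only
      rw [div_mul_cancel₀ _ (by positivity)]
    rcases lt_or_ge (ρ * m) 1 with hsmall | hbig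
    · have h1 : a m ≤ m := by
        rw [ha]
        simp only
        rw [hrp, div_le_iff₀ (by positivity)]
        refine (F_le_sq hP m).trans ?_
        have : (m : ℝ) * m ≤ m * (m * N) := by
          refine mul_le_mul_of_nonneg_left ?_ hm0.le
          nlinarith
        exact this
      have h2 : (m : ℝ) ≤ 1 / ρ := by
        rw [le_div_iff₀ hρ0]
        linarith
      linarith
    · rcases le_or_gt (a m) 0 with hneg | hpos
      · linarith
      set G := hP.best m with hG
      have hPG : (SimpleGraph.cycleGraph (2 * k)).Free G := hP.best_P m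
      set K : ℝ := a m / ρ with hK
      set H : Finset (Fin m) := univ.filter fun x => K * N < ee G {x} univ with hH
      have htail := hP.tail_core α (a m) ρ hα0 hα1 hpos hρ0 hρ1 G hPG
        (by rw [Fintype.card_fin]; exact hbig) (fun t h1 h2 => by
          rw [Fintype.card_fin] at h2
          have h3 : (0 : ℝ) < t := by exact_mod_cast h1
          have h4 := hrec t h1 h2
          rw [ha] at h4
          simp only at h4
          rw [div_le_iff₀ (by positivity)] at h4
          exact h4) H (fun x hx => by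
          rw [hH, mem_filter] at hx
          rw [Fintype.card_fin]
          exact hx.2)
      rw [Fintype.card_fin, hρα] at htail
      have hdeg : ∀ v, ((del G H).degree v : ℝ) ≤ K * N := del_degree G H (K * N) (by positivity)
        (fun x hx => by
          rw [hH, mem_filter] at hx
          push Not at hx
          exact hx (mem_univ x))
      have hfree : (SimpleGraph.cycleGraph (2 * k)).Free (del G H) := by
        intro hcon
        exact hPG (hcon.trans (SimpleGraph.IsContained.of_le (del_le G H)))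
      have htr := trace_C2k (del G H) hk hfree (K * N) hdeg
      have havg := avg_degree_pow (del G H) k (by rw [Fintype.card_fin]; omega)
      have hee := ee_del G H
      have hF' : ee G univ univ = a m * (m * N) := hFm
      rw [Fintype.card_fin] at htr havg
      have h1 : a m * N / 2 ≤ ee (del G H) univ univ / m := by
        rw [le_div_iff₀ hm0]
        nlinarith
      have h2 : (a m * N / 2) ^ (2 * k) ≤ (8 * (k : ℝ) ^ 2) ^ (k - 1) * (K * N) ^ k * m :=
        (pow_le_pow_left₀ (by positivity) h1 _).trans (havg.trans htr)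
      have h3 : (a m * N / 2) ^ (2 * k) = (a m ^ k / 4 ^ k) * (a m ^ k * (m * m)) := by
        have e1 : (a m * N / 2) ^ (2 * k) = ((a m * N / 2) ^ 2) ^ k := by rw [← pow_mul]
        have e2 : (a m * N / 2) ^ 2 = (a m * a m * (N * N)) / 4 := by ring
        rw [e1, e2, div_pow, mul_pow, mul_pow, mul_pow, hNk]
        ring
      have h4 : (8 * (k : ℝ) ^ 2) ^ (k - 1) * (K * N) ^ k * m =
          ((8 * (k : ℝ) ^ 2) ^ (k - 1) / ρ ^ k) * (a m ^ k * (m * m)) := by
        rw [mul_pow K N k, hNk, hK, div_pow]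
        ring
      rw [h3, h4] at h2
      have h5 : a m ^ k / 4 ^ k ≤ (8 * (k : ℝ) ^ 2) ^ (k - 1) / ρ ^ k :=
        le_of_mul_le_mul_right h2 (by positivity)
      have h6 : a m ^ k ≤ L := by
        rw [div_le_iff₀ (by positivity)] at h5
        refine h5.trans (le_of_eq ?_)
        rw [hL]
        ring
      rcases le_total (a m) 1 with hle | hge
      · have : 0 < 1 / ρ := by positivity
        linarith
      · have h7 : a m ≤ a m ^ k := le_self_pow₀ hge (by omega)
        have : 0 < 1 / ρ := by positivity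
        linarith
  refine ⟨C₀, hC₀0, fun n hn => ?_⟩
  obtain ⟨m, hm, hmax⟩ := exists_max_image (Finset.Icc 1 n) a ⟨1, mem_Icc.2 ⟨le_rfl, hn⟩⟩
  rw [mem_Icc] at hm
  have h1 := key m hm.1 (fun t h1 h2 => hmax t (mem_Icc.2 ⟨h1, h2.trans hm.2⟩))
  have h2 := (hmax n (mem_Icc.2 ⟨hn, le_rfl⟩)).trans h1
  have hn0 : (0 : ℝ) < n := by exact_mod_cast hn
  rw [ha] at h2
  simp only at h2
  rw [div_le_iff₀ (by positivity)] at h2
  exact h2

end Pool.Agent.N721.SR
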