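import Pool.Agent.N721.SR.Bs

/-! # Graphs without `C_{2k}`: expander form -/

set_option autoImplicit false
set_option maxHeartbeats 400000
set_option linter.unusedSectionVars false

open Finset

namespace Pool.Agent.N721.SR

theorem cycleGraph_adj01 (m : ℕ) (hm : 3 ≤ m) :
    (SimpleGraph.cycleGraph m).Adj ⟨0, by omega⟩ ⟨1, by omega⟩ := by
  obtain ⟨n, rfl⟩ : ∃ n, m = n + 2 := ⟨m - 2, by omega⟩
  rw [SimpleGraph.cycleGraph_adj]
  right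
  ext
  simp

theorem c2k_her {k : ℕ} (hk : 2 ≤ k) : Her (FreeCls (SimpleGraph.cycleGraph (2 * k))) :=
  freeCls_her _ _ _ (cycleGraph_adj01 (2 * k) (by omega))

theorem c2k_preconnected (k : ℕ) : (SimpleGraph.cycleGraph (2 * k)).Preconnected := by
  exact SimpleGraph.cycleGraph_preconnected

theorem c2k_iff {k : ℕ} (hk : 2 ≤ k) :
    (∃ c : ℝ, 0 < c ∧ ∃ N : ℕ, ∀ n : ℕ, N ≤ n → c * (n : ℝ) ^ ((1 : ℝ) + 1 / (k : ℝ)) ≤
      ((SimpleGraph.extremalNumber n (SimpleGraph.cycleGraph (2 * k)) : ℕ) : ℝ)) ↔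
    ∃ C : ℝ, ∀ d : ℕ, 1 ≤ d → ∃ (m : ℕ) (G : SimpleGraph (Fin m)) (_ : DecidableRel G.Adj),
      0 < m ∧ (m : ℝ) ≤ C * (d : ℝ) ^ k ∧ (SimpleGraph.cycleGraph (2 * k)).Free G ∧
      (∀ x, d ≤ G.degree x ∧ (G.degree x : ℝ) ≤ C * d) ∧
      (∀ X : Finset (Fin m), 2 * #X ≤ m →
        d * #X ≤ #((X ×ˢ Xᶜ).filter fun p => G.Adj p.1 p.2)) ∧
      ∀ f : Fin m → ℝ, ∑ x, f x = 0 →
        d * ∑ x, f x ^ 2 ≤ C * ∑ x, ∑ y, G.adjMatrix ℝ x y * (f x - f y) ^ 2 := by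
  classical
  have hP := c2k_her hk
  have hk0 : (0 : ℝ) < k := by
    have : 0 < k := by omega
    exact_mod_cast this
  have hk2 : (2 : ℝ) ≤ k := by exact_mod_cast hk
  set α : ℝ := 1 / (k : ℝ) with hα
  have hα0 : 0 < α := by positivity
  have hα1 : α ≤ 1 := by
    rw [hα, div_le_one hk0]; linarith
  obtain ⟨C₀, hC₀, hF⟩ := bondy_simonovits hk hP
  have key : (∃ c : ℝ, 0 < c ∧ ∃ N : ℕ, ∀ n : ℕ, N ≤ n → c * (n : ℝ) ^ (1 + α) ≤ hP.F n) ↔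
      ExpForm (FreeCls (SimpleGraph.cycleGraph (2 * k))) α := by
    constructor
    · rintro ⟨c, hc, N, hN⟩
      exact hP.expForm α C₀ hα0 hα1 hC₀ hF c hc N hN
    · intro h
      exact hP.lower_of_expForm (fun m n hm G hG =>
        copG_free _ (c2k_preconnected k) m n hm G hG) α hα0 h
  have e3 : (∃ c : ℝ, 0 < c ∧ ∃ N : ℕ, ∀ n : ℕ, N ≤ n → c * (n : ℝ) ^ ((1 : ℝ) + α) ≤
      ((SimpleGraph.extremalNumber n (SimpleGraph.cycleGraph (2 * k)) : ℕ) : ℝ)) ↔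
      ∃ c : ℝ, 0 < c ∧ ∃ N : ℕ, ∀ n : ℕ, N ≤ n → c * (n : ℝ) ^ (1 + α) ≤ hP.F n := by
    simp only [freeCls_F]
    constructor
    · rintro ⟨c, hc, N, hN⟩
      refine ⟨2 * c, by positivity, N, fun n hn => ?_⟩
      have := hN n hn
      linarith
    · rintro ⟨c, hc, N, hN⟩
      refine ⟨c / 2, by positivity, N, fun n hn => ?_⟩
      have := hN n hn
      linarith
  have e4 : ∀ d : ℕ, (d : ℝ) ^ (1 / α) = (d : ℝ) ^ k := by
    intro d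
    rw [hα, one_div_one_div, Real.rpow_natCast]
  rw [e3, key]
  unfold ExpForm
  simp only [e4]
  exact Iff.rfl

end Pool.Agent.N721.SR
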