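import Pool.Agent.N721.SR.Spec

/-! # Regular partitions in operator norm of matrices with a bound for the diagonal of `A ^ (2 k)` -/

set_option autoImplicit false
set_option maxHeartbeats 400000

set_option linter.unusedSectionVars false

open Finset

namespace Pool.Agent.N721.SR

variable {V : Type} [Fintype V] [DecidableEq V]

/-- the average of `A` over the block of `(u, v)` -/
noncomputable def avg {K : ℕ} (A : Matrix V V ℝ) (P : V → Fin K) (u v : V) : ℝ :=
  (∑ x ∈ univ.filter (fun x => P x = P u), ∑ y ∈ univ.filter (fun y => P y = P v), A x y) /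
    ((#(univ.filter fun x => P x = P u) : ℝ) * (#(univ.filter fun y => P y = P v) : ℝ))

/-- the averaging kernel -/
noncomputable def ker {K : ℕ} (P : V → Fin K) (u x : V) : ℝ :=
  if P x = P u then (#(univ.filter fun y => P y = P u) : ℝ)⁻¹ else 0

/-- the average of a function -/
noncomputable def av {K : ℕ} (P : V → Fin K) (f : V → ℝ) (u : V) : ℝ := ∑ x, ker P u x * f x

theorem ker_symm {K : ℕ} (P : V → Fin K) (u x : V) : ker P u x = ker P x u := by
  unfold ker
  by_cases h : P x = P u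
  · rw [if_pos h, if_pos h.symm, h]
  · rw [if_neg h, if_neg (fun h' => h h'.symm)]

theorem ker_nonneg {K : ℕ} (P : V → Fin K) (u x : V) : 0 ≤ ker P u x := by
  unfold ker
  split_ifs
  · positivity
  · exact le_refl 0

theorem ker_sum {K : ℕ} (P : V → Fin K) (u : V) : ∑ x, ker P u x = 1 := by
  unfold ker
  rw [← Finset.sum_filter, Finset.sum_const, nsmul_eq_mul]
  have : (0 : ℝ) < #(univ.filter fun y => P y = P u) := by
    exact_mod_cast Finset.card_pos.2 ⟨u, by simp⟩
  exact mul_inv_cancel₀ this.ne'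

theorem av_co {K : ℕ} (P : V → Fin K) (f g : V → ℝ) :
    ∑ u, f u * av P g u = ∑ u, av P f u * g u := by
  unfold av
  simp only [Finset.mul_sum, Finset.sum_mul]
  rw [Finset.sum_comm]
  refine Finset.sum_congr rfl fun x _ => Finset.sum_congr rfl fun u _ => ?_
  rw [ker_symm]; ring

theorem av_sq {K : ℕ} (P : V → Fin K) (f : V → ℝ) : ∑ u, av P f u ^ 2 ≤ ∑ u, f u ^ 2 := by
  have h1 : ∀ u, av P f u ^ 2 ≤ ∑ x, ker P u x * f x ^ 2 := by
    intro u
    have h := Finset.sum_mul_sq_le_sq_mul_sq univ (fun x => Real.sqrt (ker P u x))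
      (fun x => Real.sqrt (ker P u x) * f x)
    have e1 : ∀ x, Real.sqrt (ker P u x) * (Real.sqrt (ker P u x) * f x) = ker P u x * f x := by
      intro x
      rw [← mul_assoc, Real.mul_self_sqrt (ker_nonneg P u x)]
    have e2 : ∀ x, Real.sqrt (ker P u x) ^ 2 = ker P u x := fun x =>
      Real.sq_sqrt (ker_nonneg P u x)
    have e3 : ∀ x, (Real.sqrt (ker P u x) * f x) ^ 2 = ker P u x * f x ^ 2 := fun x => by
      rw [mul_pow, e2]
    simp only [e1, e2, e3, ker_sum, one_mul] at h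
    exact h
  calc ∑ u, av P f u ^ 2 ≤ ∑ u, ∑ x, ker P u x * f x ^ 2 := Finset.sum_le_sum fun u _ => h1 u
    _ = ∑ x, (∑ u, ker P x u) * f x ^ 2 := by
        rw [Finset.sum_comm]
        refine Finset.sum_congr rfl fun x _ => ?_
        rw [Finset.sum_mul]
        exact Finset.sum_congr rfl fun u _ => by rw [ker_symm]
    _ = _ := by simp only [ker_sum, one_mul]

theorem avg_eq {K : ℕ} (A : Matrix V V ℝ) (P : V → Fin K) (u v : V) :
    avg A P u v = ∑ x, ∑ y, ker P u x * A x y * ker P v y := by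
  unfold avg ker
  have h1 : ∀ x, ∑ y, (if P x = P u then (#(univ.filter fun y => P y = P u) : ℝ)⁻¹ else 0) *
      A x y * (if P y = P v then (#(univ.filter fun z => P z = P v) : ℝ)⁻¹ else 0) =
      if P x = P u then (#(univ.filter fun y => P y = P u) : ℝ)⁻¹ *
        (#(univ.filter fun z => P z = P v) : ℝ)⁻¹ *
        ∑ y ∈ univ.filter (fun y => P y = P v), A x y else 0 := by
    intro x
    split_ifs with h
    · rw [Finset.sum_filter, Finset.mul_sum]
      refine Finset.sum_congr rfl fun y _ => ?_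
      split_ifs <;> ring
    · simp
  simp only [h1]
  rw [← Finset.sum_filter, ← Finset.mul_sum]
  field_simp

omit [DecidableEq V] in
theorem sum4 (F : V → V → V → V → ℝ) :
    ∑ u, ∑ v, ∑ x, ∑ y, F u v x y = ∑ x, ∑ y, ∑ u, ∑ v, F u v x y := by
  calc ∑ u, ∑ v, ∑ x, ∑ y, F u v x y = ∑ u, ∑ x, ∑ v, ∑ y, F u v x y :=
        Finset.sum_congr rfl fun u _ => Finset.sum_comm
    _ = ∑ x, ∑ u, ∑ v, ∑ y, F u v x y := Finset.sum_comm
    _ = ∑ x, ∑ u, ∑ y, ∑ v, F u v x y :=
        Finset.sum_congr rfl fun x _ => Finset.sum_congr rfl fun u _ => Finset.sum_comm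
    _ = ∑ x, ∑ y, ∑ u, ∑ v, F u v x y := Finset.sum_congr rfl fun x _ => Finset.sum_comm

theorem bilin_avg {K : ℕ} (A : Matrix V V ℝ) (P : V → Fin K) (f g : V → ℝ) :
    ∑ u, ∑ v, avg A P u v * f u * g v = ∑ x, ∑ y, A x y * av P f x * av P g y := by
  simp only [avg_eq]
  have h1 : ∀ x y, A x y * av P f x * av P g y =
      ∑ u, ∑ v, ker P u x * A x y * ker P v y * f u * g v := by
    intro x y
    unfold av
    rw [mul_assoc, Finset.sum_mul_sum, Finset.mul_sum]
    refine Finset.sum_congr rfl fun u _ => ?_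
    rw [Finset.mul_sum]
    refine Finset.sum_congr rfl fun v _ => ?_
    rw [ker_symm P x u, ker_symm P y v]; ring
  have h2 : ∀ u v, (∑ x, ∑ y, ker P u x * A x y * ker P v y) * f u * g v =
      ∑ x, ∑ y, ker P u x * A x y * ker P v y * f u * g v := by
    intro u v
    rw [Finset.sum_mul, Finset.sum_mul]
    refine Finset.sum_congr rfl fun x _ => ?_
    rw [Finset.sum_mul, Finset.sum_mul]
  simp only [h1, h2]
  exact sum4 fun u v x y => ker P u x * A x y * ker P v y * f u * g v

/-- `A` is `δ`-regular for the partition `P`, in operator norm -/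
def Regular {K : ℕ} (A : Matrix V V ℝ) (P : V → Fin K) (δ : ℝ) : Prop :=
  ∀ f g : V → ℝ, |∑ u, ∑ v, (A u v - avg A P u v) * f u * g v| ≤
    δ * Real.sqrt (∑ u, f u ^ 2) * Real.sqrt (∑ v, g v ^ 2)

section
variable {A : Matrix V V ℝ} {φ : V → V → ℝ} {l : V → ℝ}

theorem Eig.co_le (h : Eig A φ l) (f : V → ℝ) (i : V) : |co φ f i| ≤ Real.sqrt (∑ u, f u ^ 2) := by
  rw [← h.parseval f]
  exact Real.abs_le_sqrt (Finset.single_le_sum (f := fun i => co φ f i ^ 2)
    (fun i _ => sq_nonneg _) (mem_univ i))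

theorem cs (f g : V → ℝ) : |∑ i, f i * g i| ≤
    Real.sqrt (∑ i, f i ^ 2) * Real.sqrt (∑ i, g i ^ 2) := by
  rw [← Real.sqrt_mul (Finset.sum_nonneg fun i _ => sq_nonneg _)]
  exact Real.abs_le_sqrt (Finset.sum_mul_sq_le_sq_mul_sq univ f g)

/-- the part of the form which belongs to the small eigenvalues -/
theorem Eig.small (h : Eig A φ l) (S : Finset V) (t : ℝ) (ht : 0 ≤ t) (hS : ∀ i ∉ S, |l i| ≤ t)
    (f g : V → ℝ) : |∑ i ∈ univ \ S, l i * co φ f i * co φ g i| ≤
      t * Real.sqrt (∑ u, f u ^ 2) * Real.sqrt (∑ v, g v ^ 2) := by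
  calc |∑ i ∈ univ \ S, l i * co φ f i * co φ g i|
      ≤ ∑ i ∈ univ \ S, |l i * co φ f i * co φ g i| := Finset.abs_sum_le_sum_abs _ _
    _ ≤ ∑ i ∈ univ \ S, t * (|co φ f i| * |co φ g i|) := by
        refine Finset.sum_le_sum fun i hi => ?_
        rw [abs_mul, abs_mul, mul_assoc]
        exact mul_le_mul_of_nonneg_right (hS i (by simpa using hi)) (by positivity)
    _ ≤ ∑ i, t * (|co φ f i| * |co φ g i|) :=
        Finset.sum_le_sum_of_subset_of_nonneg (Finset.subset_univ _) fun i _ _ => by positivity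
    _ = t * ∑ i, |co φ f i| * |co φ g i| := by rw [Finset.mul_sum]
    _ ≤ t * (Real.sqrt (∑ u, f u ^ 2) * Real.sqrt (∑ v, g v ^ 2)) := by
        refine mul_le_mul_of_nonneg_left ?_ ht
        have := cs (fun i => |co φ f i|) (fun i => |co φ g i|)
        simp only [sq_abs, h.parseval] at this
        exact (le_abs_self _).trans this
    _ = _ := by ring

theorem abs_prod_sub (a b a' b' F G e : ℝ) (h1 : |a - a'| ≤ e * F) (h2 : |b - b'| ≤ e * G)
    (hb : |b| ≤ G) (ha : |a'| ≤ F) (hF : 0 ≤ F) (hG : 0 ≤ G) (he : 0 ≤ e) :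
    |a * b - a' * b'| ≤ 2 * e * F * G := by
  have : a * b - a' * b' = (a - a') * b + a' * (b - b') := by ring
  rw [this]
  calc |(a - a') * b + a' * (b - b')| ≤ |(a - a') * b| + |a' * (b - b')| := abs_add_le _ _
    _ = |a - a'| * |b| + |a'| * |b - b'| := by rw [abs_mul, abs_mul]
    _ ≤ (e * F) * G + F * (e * G) := by
        gcongr
    _ = _ := by ring

/-- the main step: if the eigenvectors of the large eigenvalues are nearly constant on the cells,
then the partition is regular -/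
theorem Eig.regular (h : Eig A φ l) {K : ℕ} (P : V → Fin K) (S : Finset V) (t L ε : ℝ) (ht : 0 ≤ t)
    (hε : 0 ≤ ε) (hS : ∀ i ∉ S, |l i| ≤ t) (hL : ∀ i ∈ S, |l i| ≤ L)
    (hP : ∀ i ∈ S, ∑ v, (φ i v - av P (φ i) v) ^ 2 ≤ ε ^ 2) :
    Regular A P (2 * t + #S * (L * (2 * ε))) := by
  intro f g
  set F := Real.sqrt (∑ u, f u ^ 2) with hF
  set G := Real.sqrt (∑ v, g v ^ 2) with hG
  have hF0 : 0 ≤ F := Real.sqrt_nonneg _
  have hG0 : 0 ≤ G := Real.sqrt_nonneg _
  have hF' : Real.sqrt (∑ u, av P f u ^ 2) ≤ F := Real.sqrt_le_sqrt (av_sq P f)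
  have hG' : Real.sqrt (∑ u, av P g u ^ 2) ≤ G := Real.sqrt_le_sqrt (av_sq P g)
  have e1 : ∑ u, ∑ v, (A u v - avg A P u v) * f u * g v =
      ∑ i, l i * co φ f i * co φ g i - ∑ i, l i * co φ (av P f) i * co φ (av P g) i := by
    rw [← h.bilin, ← h.bilin, ← bilin_avg, ← Finset.sum_sub_distrib]
    refine Finset.sum_congr rfl fun u _ => ?_
    rw [← Finset.sum_sub_distrib]
    exact Finset.sum_congr rfl fun v _ => by ring
  have sp : ∀ c : V → ℝ, ∑ i, c i = ∑ i ∈ univ \ S, c i + ∑ i ∈ S, c i := fun c =>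
    (Finset.sum_sdiff (Finset.subset_univ S)).symm
  rw [e1, sp, sp]
  have b1 := h.small S t ht hS f g
  have b2 := h.small S t ht hS (av P f) (av P g)
  have b2' : |∑ i ∈ univ \ S, l i * co φ (av P f) i * co φ (av P g) i| ≤ t * F * G := by
    refine b2.trans ?_
    gcongr
  have b3 : |∑ i ∈ S, l i * co φ f i * co φ g i -
      ∑ i ∈ S, l i * co φ (av P f) i * co φ (av P g) i| ≤ #S * (L * (2 * ε)) * F * G := by
    rw [← Finset.sum_sub_distrib]
    have hc : ∀ (w : V → ℝ), ∀ i ∈ S, |co φ w i - co φ (av P w) i| ≤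
        ε * Real.sqrt (∑ u, w u ^ 2) := by
      intro w i hi
      have e2 : co φ w i - co φ (av P w) i = ∑ v, (φ i v - av P (φ i) v) * w v := by
        unfold co
        rw [av_co P (φ i) w, ← Finset.sum_sub_distrib]
        exact Finset.sum_congr rfl fun v _ => by ring
      rw [e2]
      refine (cs _ _).trans ?_
      refine mul_le_mul_of_nonneg_right ?_ (Real.sqrt_nonneg _)
      exact (Real.sqrt_le_sqrt (hP i hi)).trans (by rw [Real.sqrt_sq hε])
    calc |∑ i ∈ S, (l i * co φ f i * co φ g i - l i * co φ (av P f) i * co φ (av P g) i)|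
        ≤ ∑ i ∈ S, |l i * co φ f i * co φ g i - l i * co φ (av P f) i * co φ (av P g) i| :=
          Finset.abs_sum_le_sum_abs _ _
      _ ≤ ∑ i ∈ S, L * (2 * ε * F * G) := by
          refine Finset.sum_le_sum fun i hi => ?_
          have e3 : l i * co φ f i * co φ g i - l i * co φ (av P f) i * co φ (av P g) i =
            l i * (co φ f i * co φ g i - co φ (av P f) i * co φ (av P g) i) := by ring
          rw [e3, abs_mul]
          have h4 := abs_prod_sub (co φ f i) (co φ g i) (co φ (av P f) i) (co φ (av P g) i) F G ε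
            (hc f i hi) (hc g i hi) (h.co_le g i) ((h.co_le _ i).trans hF') hF0 hG0 hε
          exact mul_le_mul (hL i hi) h4 (abs_nonneg _) ((abs_nonneg _).trans (hL i hi))
      _ = _ := by rw [Finset.sum_const, nsmul_eq_mul]; ring
  set a1 := ∑ i ∈ univ \ S, l i * co φ f i * co φ g i
  set a2 := ∑ i ∈ univ \ S, l i * co φ (av P f) i * co φ (av P g) i
  set a3 := ∑ i ∈ S, l i * co φ f i * co φ g i
  set a4 := ∑ i ∈ S, l i * co φ (av P f) i * co φ (av P g) i
  calc |a1 + a3 - (a2 + a4)| = |a1 + (-a2) + (a3 - a4)| := by congr 1; ring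
    _ ≤ |a1 + (-a2)| + |a3 - a4| := abs_add_le _ _
    _ ≤ |a1| + |a2| + |a3 - a4| := by
        have := abs_add_le a1 (-a2)
        rw [abs_neg] at this
        linarith
    _ ≤ t * F * G + t * F * G + #S * (L * (2 * ε)) * F * G := by gcongr
    _ = _ := by ring

end

end Pool.Agent.N721.SR
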