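import Pool.Agent.N721.SR.Cut
import Pool.Agent.TH815.GR11

/-! # Extremal graphs of girth greater than `2 k` are expanders: preparations -/

set_option autoImplicit false
set_option maxHeartbeats 400000
set_option linter.unusedSectionVars false

open Finset

namespace Pool.Agent.N721.SR

open Pool.TH815.GR

/-- no cycle of length at most `2 k` -/
def NC (k : ℕ) {V : Type} (G : SimpleGraph V) : Prop :=
  ∀ (v : V) (p : G.Walk v v), p.IsCycle → 2 * k < p.length

open Classical in
/-- the number of adjacent pairs in `X × Y` -/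
noncomputable def ee {V : Type} (G : SimpleGraph V) (X Y : Finset V) : ℝ :=
  ∑ x ∈ X, ∑ y ∈ Y, if G.Adj x y then (1 : ℝ) else 0

theorem ee_nonneg {V : Type} (G : SimpleGraph V) (X Y : Finset V) : 0 ≤ ee G X Y := by
  unfold ee
  exact sum_nonneg fun x _ => sum_nonneg fun y _ => by split_ifs <;> norm_num

open Classical in
theorem ee_mono {V : Type} (G : SimpleGraph V) {X X' Y Y' : Finset V} (h : X ⊆ X') (h' : Y ⊆ Y') :
    ee G X Y ≤ ee G X' Y' := by
  unfold ee
  calc _ ≤ ∑ x ∈ X, ∑ y ∈ Y', (if G.Adj x y then (1 : ℝ) else 0) :=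
        sum_le_sum fun x _ => sum_le_sum_of_subset_of_nonneg h' fun y _ _ => by
          split_ifs <;> norm_num
    _ ≤ _ := sum_le_sum_of_subset_of_nonneg h fun x _ _ => sum_nonneg fun y _ => by
          split_ifs <;> norm_num

theorem ee_comm {V : Type} (G : SimpleGraph V) (X Y : Finset V) : ee G X Y = ee G Y X := by
  classical
  unfold ee
  rw [sum_comm]
  exact sum_congr rfl fun x _ => sum_congr rfl fun y _ => if_congr (G.adj_comm _ _) rfl rfl

theorem ee_union_left {V : Type} [DecidableEq V] (G : SimpleGraph V) (X X' Y : Finset V)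
    (h : Disjoint X X') : ee G (X ∪ X') Y = ee G X Y + ee G X' Y := by
  unfold ee
  exact sum_union h

theorem ee_union_right {V : Type} [DecidableEq V] (G : SimpleGraph V) (X Y Y' : Finset V)
    (h : Disjoint Y Y') : ee G X (Y ∪ Y') = ee G X Y + ee G X Y' := by
  rw [ee_comm, ee_union_left _ _ _ _ h, ee_comm G Y, ee_comm G Y']

theorem ee_univ {V : Type} [Fintype V] [DecidableEq V] (G : SimpleGraph V) (X : Finset V) :
    ee G univ univ = ee G X X + ee G Xᶜ Xᶜ + 2 * ee G X Xᶜ := by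
  have h : (univ : Finset V) = X ∪ Xᶜ := (union_compl X).symm
  have hd : Disjoint X Xᶜ := disjoint_compl_right
  rw [h, ee_union_left _ _ _ _ hd, ee_union_right _ _ _ _ hd, ee_union_right _ _ _ _ hd,
    ee_comm G Xᶜ X]
  ring

theorem ee_degree {V : Type} [Fintype V] [DecidableEq V] (G : SimpleGraph V) [DecidableRel G.Adj]
    (X : Finset V) : ee G X univ = ∑ x ∈ X, (G.degree x : ℝ) := by
  unfold ee
  refine sum_congr rfl fun x _ => ?_
  rw [← G.card_neighborFinset_eq_degree, G.neighborFinset_eq_filter, card_filter]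
  push_cast
  refine sum_congr rfl fun y _ => ?_
  by_cases h : G.Adj x y <;> simp [h]

/-- restriction to a set of vertices, as a graph on `Fin` -/
theorem restrict {V : Type} (U : Finset V) :
    ∃ φ : Fin #U ↪ V, (∀ i, φ i ∈ U) ∧ (∀ u ∈ U, ∃ i, φ i = u) := by
  refine ⟨U.equivFin.symm.toEmbedding.trans (Function.Embedding.subtype _), fun i => ?_, ?_⟩
  · exact (U.equivFin.symm i).2
  · intro u hu
    exact ⟨U.equivFin ⟨u, hu⟩, by simp⟩

theorem NC.comap {k : ℕ} {V W : Type} {G : SimpleGraph V} (h : NC k G) (φ : W ↪ V) :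
    NC k (G.comap φ) := by
  intro v p hp
  have h1 := h _ (p.map (SimpleGraph.Embedding.comap φ G).toHom)
    ((SimpleGraph.Walk.isCycle_map_iff_of_injective
      (SimpleGraph.Embedding.comap φ G).injective).2 hp)
  rwa [SimpleGraph.Walk.length_map] at h1

theorem ee_comap {V W : Type} (G : SimpleGraph V) (φ : W ↪ V) (X Y : Finset W) :
    ee (G.comap φ) X Y = ee G (X.map φ) (Y.map φ) := by
  unfold ee
  rw [sum_map]
  refine sum_congr rfl fun x _ => ?_
  rw [sum_map]
  refine sum_congr rfl fun y _ => ?_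
  rfl

theorem exists_best (k n : ℕ) : ∃ G : SimpleGraph (Fin n), NC k G ∧
    ∀ G' : SimpleGraph (Fin n), NC k G' → ee G' univ univ ≤ ee G univ univ := by
  have hne : {G : SimpleGraph (Fin n) | NC k G}.Nonempty := by
    refine ⟨⊥, fun v p hp => ?_⟩
    exact absurd hp.not_nil (by
      cases p with
      | nil => simp
      | cons h _ => exact absurd h (by simp))
  obtain ⟨G, hG, hmax⟩ := Set.exists_max_image {G : SimpleGraph (Fin n) | NC k G}
    (fun G => ee G univ univ) (Set.toFinite _) hne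
  exact ⟨G, hG, fun G' hG' => hmax G' hG'⟩

noncomputable def best (k n : ℕ) : SimpleGraph (Fin n) := Classical.choose (exists_best k n)

theorem best_NC (k n : ℕ) : NC k (best k n) := (Classical.choose_spec (exists_best k n)).1

noncomputable def FF (k n : ℕ) : ℝ := ee (best k n) univ univ

theorem le_FF {k : ℕ} {V : Type} (G : SimpleGraph V) (hG : NC k G) (X : Finset V) :
    ee G X X ≤ FF k #X := by
  obtain ⟨φ, h1, h2⟩ := restrict X
  have h3 := (Classical.choose_spec (exists_best k #X)).2 (G.comap φ) (hG.comap φ)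
  have h4 : (univ : Finset (Fin #X)).map φ = X := by
    ext x
    simp only [mem_map, mem_univ, true_and]
    exact ⟨fun ⟨i, hi⟩ => hi ▸ h1 i, fun hx => h2 x hx⟩
  rw [ee_comap, h4] at h3
  exact h3

theorem FF_le {k : ℕ} (hk : 1 ≤ k) (n : ℕ) (hn : 1 ≤ n) :
    FF k n ≤ 24 * (n : ℝ) ^ (1 + 1 / (k : ℝ)) := by
  classical
  have h1 := edges_le (best k n) hk (best_NC k n)
  have h2 : FF k n = 2 * ((best k n).edgeFinset.card : ℝ) := by
    unfold FF
    rw [ee_degree, ← Nat.cast_sum, SimpleGraph.sum_degrees_eq_twice_card_edges]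
    push_cast
    rfl
  rw [Fintype.card_fin] at h1
  rw [h2]
  have hn1 : (1 : ℝ) ≤ n := by exact_mod_cast hn
  have h3 : (n : ℝ) ≤ (n : ℝ) ^ (1 + 1 / (k : ℝ)) := by
    calc (n : ℝ) = (n : ℝ) ^ (1 : ℝ) := (Real.rpow_one _).symm
      _ ≤ _ := Real.rpow_le_rpow_of_exponent_le hn1 (by
        have : 0 ≤ 1 / (k : ℝ) := by positivity
        linarith)
  linarith

theorem le_FF_of_girthConj {k : ℕ} (h : GirthConj k) :
    ∃ c : ℝ, 0 < c ∧ ∃ N : ℕ, ∀ n ≥ N, c * (n : ℝ) ^ (1 + 1 / (k : ℝ)) ≤ FF k n := by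
  classical
  obtain ⟨c, hc, N, hN⟩ := h
  refine ⟨c, hc, N, fun n hn => ?_⟩
  obtain ⟨G, hG, hE⟩ := hN n hn
  rw [egirth_iff] at hG
  have h1 := le_FF G hG univ
  rw [card_univ, Fintype.card_fin] at h1
  refine hE.trans (le_trans ?_ h1)
  rw [ee_degree, ← Nat.cast_sum, SimpleGraph.sum_degrees_eq_twice_card_edges,
    Set.ncard_eq_toFinset_card']
  have : G.edgeSet.toFinset.card ≤ 2 * G.edgeFinset.card := by
    have e : G.edgeSet.toFinset = G.edgeFinset := rfl
    rw [e]
    omega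
  exact_mod_cast this

/-- selection of a scale -/
theorem select (a : ℕ → ℝ) (c C ε : ℝ) (hc : 0 < c) (hε : 0 < ε) (N : ℕ) (hN : 1 ≤ N)
    (ha : ∀ n ≥ N, c ≤ a n) (hC : ∀ n, 1 ≤ n → a n ≤ C) :
    ∃ J : ℕ, ∀ n, 4 ^ J * N ≤ n → ∃ m, m ≤ n ∧ n ≤ 4 ^ J * m ∧ N ≤ m ∧
      ∀ m', m ≤ 4 * m' → m' ≤ m → a m' ≤ (1 + ε) * a m := by
  have key : ∀ j : ℕ, ∀ n, 4 ^ j * N ≤ n → C < a n * (1 + ε) ^ j → ∃ m, m ≤ n ∧ n ≤ 4 ^ j * m ∧
      N ≤ m ∧ ∀ m', m ≤ 4 * m' → m' ≤ m → a m' ≤ (1 + ε) * a m := by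
    intro j
    induction j with
    | zero =>
      intro n hn hlt
      have := hC n (by simpa using hN.trans (by simpa using hn))
      simp at hlt
      exact absurd this (not_le.2 hlt)
    | succ j ih =>
      intro n hn hlt
      by_cases hg : ∀ m', n ≤ 4 * m' → m' ≤ n → a m' ≤ (1 + ε) * a n
      · have h1 : 1 ≤ 4 ^ (j + 1) := Nat.one_le_pow _ _ (by norm_num)
        exact ⟨n, le_rfl, by nlinarith, by nlinarith, hg⟩
      · push Not at hg
        obtain ⟨m', h1, h2, h3⟩ := hg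
        have h4 : 4 ^ j * N ≤ m' := by
          rw [pow_succ] at hn
          nlinarith
        have h5 : C < a m' * (1 + ε) ^ j := by
          refine hlt.trans_le ?_
          rw [pow_succ']
          have : 0 ≤ (1 + ε) ^ j := by positivity
          nlinarith
        obtain ⟨m, h6, h7, h8, h9⟩ := ih m' h4 h5
        refine ⟨m, h6.trans h2, ?_, h8, h9⟩
        rw [pow_succ]
        nlinarith
  obtain ⟨J, hJ⟩ := pow_unbounded_of_one_lt (C / c) (show (1 : ℝ) < 1 + ε by linarith)
  refine ⟨J, fun n hn => key J n hn ?_⟩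
  have h1 : N ≤ n := by
    have : 1 ≤ 4 ^ J := Nat.one_le_pow _ _ (by norm_num)
    nlinarith
  rw [div_lt_iff₀ hc] at hJ
  have h2 : 0 ≤ (1 + ε) ^ J := by positivity
  nlinarith [ha n h1]

end Pool.Agent.N721.SR
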