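import Pool.Agent.N721.SR.Exp1

/-! # Extremal graphs of girth greater than `2 k` are expanders: large sets, cleaning -/

set_option autoImplicit false
set_option maxHeartbeats 400000
set_option linter.unusedSectionVars false

open Finset

namespace Pool.Agent.N721.SR

open Pool.TH815.GR

theorem root_three_quarters {k : ℕ} (hk : 1 ≤ k) :
    (3 / 4 : ℝ) ^ (1 / (k : ℝ)) ≤ 1 - 1 / (4 * k) := by
  have hk0 : (0 : ℝ) < k := by exact_mod_cast hk
  have hk1 : (1 : ℝ) ≤ k := by exact_mod_cast hk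
  have h1 : (0 : ℝ) ≤ 1 - 1 / (4 * k) := by
    rw [sub_nonneg, div_le_one (by positivity)]
    linarith
  have h2 : (3 / 4 : ℝ) ≤ (1 - 1 / (4 * k)) ^ k := by
    have h3 := one_add_mul_le_pow (a := -(1 / (4 * (k : ℝ)))) (by
      have : 1 / (4 * (k : ℝ)) ≤ 1 := by
        rw [div_le_one (by positivity)]; linarith
      linarith) k
    have h4 : 1 + (k : ℝ) * -(1 / (4 * (k : ℝ))) = 3 / 4 := by field_simp; ring
    rw [h4] at h3
    rwa [sub_eq_add_neg]
  calc (3 / 4 : ℝ) ^ (1 / (k : ℝ)) ≤ ((1 - 1 / (4 * (k : ℝ))) ^ k) ^ (1 / (k : ℝ)) :=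
        Real.rpow_le_rpow (by norm_num) h2 (by positivity)
    _ = 1 - 1 / (4 * k) := by
        rw [← Real.rpow_natCast, ← Real.rpow_mul h1]
        rw [mul_one_div_cancel hk0.ne', Real.rpow_one]

/-- expansion of large sets in an extremal graph whose order is well chosen -/
theorem large_sets {k : ℕ} (hk : 1 ≤ k) (c : ℝ) (hc : 0 < c) (m : ℕ) (hm : 1 ≤ m)
    (hcm : c * (m : ℝ) ^ (1 + 1 / (k : ℝ)) ≤ FF k m)
    (hgood : ∀ m', m ≤ 4 * m' → m' ≤ m →
      FF k m' / (m' : ℝ) ^ (1 + 1 / (k : ℝ)) ≤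
        (1 + 1 / (8 * k)) * (FF k m / (m : ℝ) ^ (1 + 1 / (k : ℝ))))
    (X : Finset (Fin m)) (h1 : m ≤ 4 * #X) (h2 : 4 * #X ≤ 3 * m) :
    c / (16 * k) * (m : ℝ) ^ (1 + 1 / (k : ℝ)) ≤ ee (best k m) X Xᶜ := by
  have hk0 : (0 : ℝ) < k := by exact_mod_cast hk
  have hm0 : (0 : ℝ) < m := by exact_mod_cast hm
  set a : ℝ := FF k m / (m : ℝ) ^ (1 + 1 / (k : ℝ)) with ha
  set N : ℝ := (m : ℝ) ^ (1 / (k : ℝ)) with hN
  have hN0 : 0 < N := by positivity
  have hrp : (m : ℝ) ^ (1 + 1 / (k : ℝ)) = m * N := by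
    rw [Real.rpow_add hm0, Real.rpow_one]
  have hca : c ≤ a := by
    rw [ha, le_div_iff₀ (by positivity)]
    exact hcm
  have ha0 : 0 < a := hc.trans_le hca
  have hF : FF k m = a * (m * N) := by
    rw [← hrp, ha, div_mul_cancel₀ _ (by positivity)]
  have hpart : ∀ Y : Finset (Fin m), m ≤ 4 * #Y → 4 * #Y ≤ 3 * m →
      ee (best k m) Y Y ≤ (1 - 1 / (8 * k)) * a * (#Y * N) := by
    intro Y hY1 hY2
    have hY0 : 1 ≤ #Y := by omega
    have hYr : (0 : ℝ) < (#Y : ℝ) := by exact_mod_cast hY0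
    have hYr2 : (#Y : ℝ) ≤ 3 / 4 * m := by
      have : (4 * #Y : ℝ) ≤ 3 * m := by exact_mod_cast hY2
      linarith
    have h3 := le_FF (best k m) (best_NC k m) Y
    have h4 := hgood #Y hY1 (by omega)
    rw [div_le_iff₀ (Real.rpow_pos_of_pos hYr _)] at h4
    have h5 : ((#Y : ℕ) : ℝ) ^ (1 + 1 / (k : ℝ)) ≤ #Y * ((1 - 1 / (4 * k)) * N) := by
      rw [Real.rpow_add hYr, Real.rpow_one]
      refine mul_le_mul_of_nonneg_left ?_ hYr.le
      calc (#Y : ℝ) ^ (1 / (k : ℝ)) ≤ (3 / 4 * (m : ℝ)) ^ (1 / (k : ℝ)) :=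
            Real.rpow_le_rpow hYr.le hYr2 (by positivity)
        _ = (3 / 4 : ℝ) ^ (1 / (k : ℝ)) * N := by
            rw [Real.mul_rpow (by norm_num) hm0.le]
        _ ≤ _ := mul_le_mul_of_nonneg_right (root_three_quarters hk) hN0.le
    have h6 : (1 + 1 / (8 * (k : ℝ))) * (1 - 1 / (4 * k)) ≤ 1 - 1 / (8 * k) := by
      have e1 : 1 / (4 * (k : ℝ)) = 2 * (1 / (8 * k)) := by
        rw [show (8 : ℝ) * k = 2 * (4 * k) by ring, one_div, one_div, mul_inv 2 (4 * (k : ℝ))]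
        ring
      rw [e1]
      have e2 : 0 ≤ 1 / (8 * (k : ℝ)) := by positivity
      nlinarith [mul_nonneg e2 e2]
    calc ee (best k m) Y Y ≤ (1 + 1 / (8 * k)) * a * (#Y : ℝ) ^ (1 + 1 / (k : ℝ)) := h3.trans h4
      _ ≤ (1 + 1 / (8 * k)) * a * (#Y * ((1 - 1 / (4 * k)) * N)) :=
          mul_le_mul_of_nonneg_left h5 (by positivity)
      _ = ((1 + 1 / (8 * (k : ℝ))) * (1 - 1 / (4 * k))) * (a * (#Y * N)) := by ring
      _ ≤ (1 - 1 / (8 * k)) * (a * (#Y * N)) :=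
          mul_le_mul_of_nonneg_right h6 (mul_nonneg ha0.le (mul_nonneg hYr.le hN0.le))
      _ = _ := by ring
  have hXc : #Xᶜ = m - #X := by rw [card_compl, Fintype.card_fin]
  have hXm : #X ≤ m := by omega
  have e1 := hpart X h1 h2
  have e2 := hpart Xᶜ (by omega) (by omega)
  have e3 := ee_univ (best k m) X
  have e4 : ee (best k m) univ univ = a * (m * N) := hF
  have e5 : (#Xᶜ : ℝ) = m - #X := by
    rw [hXc, Nat.cast_sub hXm]
  rw [e4] at e3
  rw [e5] at e2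
  have e6 : (1 - 1 / (8 * (k : ℝ))) * a * (#X * N) + (1 - 1 / (8 * k)) * a * ((m - #X) * N) =
      a * (m * N) - 1 / (8 * k) * a * (m * N) := by ring
  have e7 : 1 / (8 * (k : ℝ)) * c * (m * N) ≤ 1 / (8 * k) * a * (m * N) := by gcongr
  have e8 : c / (16 * k) * (m * N) = (1 / (8 * (k : ℝ)) * c * (m * N)) / 2 := by
    rw [show (16 : ℝ) * k = 2 * (8 * k) by ring, one_div, div_eq_mul_inv c, mul_inv 2 (8 * (k : ℝ))]
    ring
  rw [hrp, e8]
  linarith

/-- cleaning -/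
theorem clean_exp {V : Type} [Fintype V] [DecidableEq V] (G : SimpleGraph V) (N β s : ℝ)
    (hn : 0 < Fintype.card V) (hN : 0 < N) (hβ : 0 < β) (H : Finset V)
    (hs : ee G H Hᶜ ≤ s) (hs2 : s ≤ β / 4 * (Fintype.card V * N)) (hH : 2 * #H ≤ Fintype.card V)
    (hexp : ∀ X : Finset V, Fintype.card V ≤ 4 * #X → 4 * #X ≤ 3 * Fintype.card V →
      β * (Fintype.card V * N) ≤ ee G X Xᶜ) :
    ∃ U : Finset V, Disjoint U H ∧ 3 * Fintype.card V < 4 * #U ∧
      ∀ X ⊆ U, 2 * #X ≤ #U → β / 2 * N * #X ≤ ee G X (U \ X) := by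
  classical
  set n := Fintype.card V with hnd
  have hn0 : (0 : ℝ) < n := by exact_mod_cast hn
  have hs0 : 0 ≤ s := (ee_nonneg G H Hᶜ).trans hs
  set F : Finset (Finset V) := univ.filter fun Z => H ⊆ Z ∧ 2 * #Z ≤ n ∧
    ee G Z Zᶜ ≤ β / 2 * N * #Z + s with hF
  have hne : F.Nonempty := by
    refine ⟨H, ?_⟩
    rw [hF, mem_filter]
    refine ⟨mem_univ _, Subset.rfl, hH, ?_⟩
    have : 0 ≤ β / 2 * N * #H := by positivity
    linarith
  obtain ⟨Z, hZ, hmax⟩ := exists_max_image F (fun Z => #Z) hne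
  rw [hF, mem_filter] at hZ
  obtain ⟨-, hHZ, hZ2, hZe⟩ := hZ
  have hZr : 2 * (#Z : ℝ) ≤ n := by exact_mod_cast hZ2
  have hnN : 0 < (n : ℝ) * N := by positivity
  have hZsmall : 4 * #Z < n := by
    by_contra hcon
    push Not at hcon
    have h1 := hexp Z hcon (by omega)
    have h2 : β / 2 * N * #Z ≤ β / 4 * (n * N) := by
      have : β / 2 * N * #Z = β / 4 * N * (2 * #Z) := by ring
      rw [this]
      calc β / 4 * N * (2 * #Z) ≤ β / 4 * N * n := by gcongr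
        _ = _ := by ring
    have h3 : 0 < β * (n * N) := by positivity
    linarith
  have hUc : #Zᶜ = n - #Z := card_compl Z
  refine ⟨Zᶜ, ?_, by omega, ?_⟩
  · exact Disjoint.mono_right hHZ disjoint_compl_left
  · intro X hX hX2
    by_contra hcon
    push Not at hcon
    have hXne : 0 < #X := by
      rcases Nat.eq_zero_or_pos #X with h0 | h0
      · rw [h0] at hcon
        have := ee_nonneg G X (Zᶜ \ X)
        simp at hcon
        linarith
      · exact h0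
    have hdisj : Disjoint Z X := Disjoint.mono_right hX disjoint_compl_right
    have hcard : #(Z ∪ X) = #Z + #X := card_union_of_disjoint hdisj
    have hcompl : (Z ∪ X)ᶜ = Zᶜ \ X := by
      ext x
      simp only [mem_compl, mem_union, mem_sdiff, not_or]
    have hZ'e : ee G (Z ∪ X) (Z ∪ X)ᶜ ≤ β / 2 * N * #(Z ∪ X) + s := by
      rw [hcompl, ee_union_left _ _ _ _ hdisj, hcard]
      have h1 : ee G Z (Zᶜ \ X) ≤ ee G Z Zᶜ := ee_mono G Subset.rfl sdiff_subset
      push_cast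
      linarith
    by_cases hbig : 2 * #(Z ∪ X) ≤ n
    · have hmem : Z ∪ X ∈ F := by
        rw [hF, mem_filter]
        exact ⟨mem_univ _, hHZ.trans subset_union_left, hbig, hZ'e⟩
      have := hmax _ hmem
      simp only [hcard] at this
      omega
    · have h1 := hexp (Z ∪ X) (by omega) (by omega)
      have h2 : (#(Z ∪ X) : ℝ) ≤ 3 / 4 * n := by
        have : (4 * #(Z ∪ X) : ℝ) ≤ 3 * n := by
          have h3 : 4 * #(Z ∪ X) ≤ 3 * n := by omega
          exact_mod_cast h3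
        linarith
      have h3 : β / 2 * N * #(Z ∪ X) ≤ 3 / 8 * (β * (n * N)) := by
        calc β / 2 * N * #(Z ∪ X) ≤ β / 2 * N * (3 / 4 * n) := by gcongr
          _ = _ := by ring
      have h4 : 0 < β * (n * N) := by positivity
      linarith

end Pool.Agent.N721.SR
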