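import Pool.Agent.N721.SR.Exp1
import Pool.Agent.H339R3.CE.Cheeger

/-! # From edge expansion to a spectral gap -/

set_option autoImplicit false
set_option maxHeartbeats 400000
set_option linter.unusedSectionVars false

open Finset

namespace Pool.Agent.N721.SR

variable {V : Type} [Fintype V] [DecidableEq V]

open Classical in
/-- the adjacency matrix -/
noncomputable def aa (G : SimpleGraph V) (x y : V) : ℝ := if G.Adj x y then 1 else 0

theorem ee_eq (G : SimpleGraph V) (X Y : Finset V) : ee G X Y = ∑ x ∈ X, ∑ y ∈ Y, aa G x y := rfl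

theorem aa_nonneg (G : SimpleGraph V) (x y : V) : 0 ≤ aa G x y := by
  unfold aa; split_ifs <;> norm_num

theorem aa_sq (G : SimpleGraph V) (x y : V) : aa G x y * aa G x y = aa G x y := by
  unfold aa; split_ifs <;> norm_num

theorem aa_comm (G : SimpleGraph V) (x y : V) : aa G x y = aa G y x := by
  classical
  unfold aa
  exact if_congr (G.adj_comm _ _) rfl rfl

theorem exists_median [Nonempty V] (f : V → ℝ) :
    ∃ c : ℝ, 2 * #(univ.filter fun v => c < f v) ≤ Fintype.card V ∧
      2 * #(univ.filter fun v => f v < c) ≤ Fintype.card V := by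
  classical
  set S : Finset V := univ.filter fun v =>
    2 * #(univ.filter fun w => f v < f w) ≤ Fintype.card V with hS
  have hne : S.Nonempty := by
    obtain ⟨v, -, hv⟩ := exists_max_image univ f univ_nonempty
    refine ⟨v, ?_⟩
    rw [hS, mem_filter]
    refine ⟨mem_univ _, ?_⟩
    have : (univ.filter fun w => f v < f w) = ∅ := by
      rw [filter_eq_empty_iff]
      intro w hw
      exact not_lt.2 (hv w hw)
    rw [this, card_empty]
    omega
  obtain ⟨v, hv, hmin⟩ := exists_min_image S f hne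
  refine ⟨f v, (mem_filter.1 hv).2, ?_⟩
  by_contra hcon
  push Not at hcon
  have hne2 : (univ.filter fun w => f w < f v).Nonempty := card_pos.1 (by omega)
  obtain ⟨u, hu, hmax⟩ := exists_max_image _ f hne2
  have huS : u ∈ S := by
    have hsub : (univ.filter fun w => f u < f w) ⊆ (univ.filter fun w => f w < f v)ᶜ := by
      intro w hw
      rw [mem_filter] at hw
      rw [mem_compl]
      intro hlt
      exact absurd (hmax w hlt) (not_le.2 hw.2)
    have h1 := card_le_card hsub
    rw [card_compl] at h1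
    rw [hS, mem_filter]
    refine ⟨mem_univ _, ?_⟩
    omega
  have h2 := hmin u huS
  have h3 := (mem_filter.1 hu).2
  exact absurd h3 (not_lt.2 h2)

theorem coarea_ineq (G : SimpleGraph V) (h : ℝ) (φ : V → ℝ) (hφ : ∀ v, 0 ≤ φ v)
    (hexp : ∀ X : Finset V, (∀ v ∈ X, 0 < φ v) → h * #X ≤ ee G X Xᶜ) :
    2 * h * ∑ v, φ v ≤ ∑ x, ∑ y, aa G x y * |φ x - φ y| := by
  classical
  set s : V → V → ℝ := fun x y => if φ y < φ x then 1 else if φ x < φ y then -1 else 0 with hs
  have hs1 : ∀ x y, |φ x - φ y| = s x y * (φ x - φ y) := by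
    intro x y
    simp only [hs]
    rcases lt_trichotomy (φ x) (φ y) with h1 | h1 | h1
    · rw [if_neg (not_lt.2 h1.le), if_pos h1, abs_of_neg (by linarith)]
      ring
    · rw [h1, sub_self, abs_zero, mul_zero]
    · rw [if_pos h1, abs_of_pos (by linarith)]
      ring
  have hs2 : ∀ x y, s y x = - s x y := by
    intro x y
    simp only [hs]
    rcases lt_trichotomy (φ x) (φ y) with h1 | h1 | h1
    · rw [if_pos h1, if_neg (not_lt.2 h1.le), if_pos h1]; norm_num
    · simp [h1]
    · rw [if_neg (not_lt.2 h1.le), if_pos h1, if_pos h1]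
  set w : V → ℝ := fun v => 2 * ∑ y, aa G v y * s v y - 2 * h with hw
  have hanti : ∀ ψ : V → ℝ, ∑ x, ∑ y, aa G x y * (s x y * (ψ x - ψ y)) =
      ∑ v, (2 * ∑ y, aa G v y * s v y) * ψ v := by
    intro ψ
    have e1 : ∑ x, ∑ y, aa G x y * (s x y * (ψ x - ψ y)) =
        ∑ x, ∑ y, aa G x y * s x y * ψ x - ∑ x, ∑ y, aa G x y * s x y * ψ y := by
      rw [← sum_sub_distrib]
      refine sum_congr rfl fun x _ => ?_
      rw [← sum_sub_distrib]
      exact sum_congr rfl fun y _ => by ring
    have e2 : ∑ x, ∑ y, aa G x y * s x y * ψ y = - ∑ x, ∑ y, aa G x y * s x y * ψ x := by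
      rw [sum_comm, ← sum_neg_distrib]
      refine sum_congr rfl fun x _ => ?_
      rw [← sum_neg_distrib]
      refine sum_congr rfl fun y _ => ?_
      rw [aa_comm G y x, hs2 x y]
      ring
    rw [e1, e2, sub_neg_eq_add, ← sum_add_distrib]
    refine sum_congr rfl fun x _ => ?_
    rw [← sum_mul]
    ring
  by_contra hcon
  push Not at hcon
  have hneg : ∑ v, w v * φ v < 0 := by
    have e1 : ∑ v, w v * φ v = ∑ x, ∑ y, aa G x y * |φ x - φ y| - 2 * h * ∑ v, φ v := by
      simp only [hs1]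
      rw [hanti φ, mul_sum, ← sum_sub_distrib]
      exact sum_congr rfl fun v _ => by simp only [hw]; ring
    rw [e1]
    linarith
  obtain ⟨t, ht, hneg2⟩ := Pool.Agent.H339R3.CE.coarea univ w _ φ le_rfl (fun i _ => hφ i) hneg
  set X : Finset V := univ.filter fun v => t < φ v with hX
  set ψ : V → ℝ := fun v => if t < φ v then (1 : ℝ) else 0 with hψ
  have hsumψ : ∑ v, ψ v = #X := by
    rw [hX, card_filter]
    push_cast
    rfl
  have e2 : ∑ v, w v * ψ v = ∑ x, ∑ y, aa G x y * (s x y * (ψ x - ψ y)) - 2 * h * #X := by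
    rw [hanti ψ, ← hsumψ, mul_sum, ← sum_sub_distrib]
    exact sum_congr rfl fun v _ => by simp only [hw]; ring
  have e3 : ∑ x, ∑ y, aa G x y * (s x y * (ψ x - ψ y)) = 2 * ee G X Xᶜ := by
    have hpt : ∀ x y, aa G x y * (s x y * (ψ x - ψ y)) =
        (if x ∈ X then (if y ∈ Xᶜ then aa G x y else 0) else 0) +
          (if y ∈ X then (if x ∈ Xᶜ then aa G x y else 0) else 0) := by
      intro x y
      simp only [hX, mem_compl, mem_filter, mem_univ, true_and, hψ]
      by_cases h1 : t < φ x <;> by_cases h2 : t < φ y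
      · simp [h1, h2]
      · have h3 : φ y < φ x := lt_of_le_of_lt (not_lt.1 h2) h1
        simp [h1, h2, hs, h3]
      · have h3 : φ x < φ y := lt_of_le_of_lt (not_lt.1 h1) h2
        simp [h1, h2, hs, h3, not_lt.2 h3.le]
      · simp [h1, h2]
    simp only [hpt, sum_add_distrib]
    have f1 : ∑ x, ∑ y, (if x ∈ X then (if y ∈ Xᶜ then aa G x y else 0) else 0) = ee G X Xᶜ := by
      rw [ee_eq, ← sum_filter_add_sum_filter_not univ (fun x => x ∈ X)]
      have z : ∑ x ∈ univ.filter (fun x => ¬ x ∈ X),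
          ∑ y, (if x ∈ X then (if y ∈ Xᶜ then aa G x y else 0) else 0) = 0 :=
        sum_eq_zero fun x hx => by
          have := (mem_filter.1 hx).2
          simp [this]
      rw [z, add_zero, filter_univ_mem]
      refine sum_congr rfl fun x hx => ?_
      simp only [hx, if_true]
      rw [sum_ite_mem, univ_inter]
    have f2 : ∑ x, ∑ y, (if y ∈ X then (if x ∈ Xᶜ then aa G x y else 0) else 0) = ee G X Xᶜ := by
      rw [← f1, sum_comm]
      refine sum_congr rfl fun x _ => sum_congr rfl fun y _ => ?_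
      rw [aa_comm G y x]
    rw [f1, f2]
    ring
  have e4 := hexp X (fun v hv => by
    rw [hX, mem_filter] at hv
    exact lt_of_le_of_lt ht hv.2)
  have e5 : ∑ v, w v * ψ v < 0 := hneg2
  rw [e2, e3] at e5
  linarith

theorem half (G : SimpleGraph V) (h D : ℝ) (hh : 0 ≤ h)
    (hD : ∀ x, ∑ y, aa G x y ≤ D)
    (hexp : ∀ X : Finset V, 2 * #X ≤ Fintype.card V → h * #X ≤ ee G X Xᶜ)
    (g : V → ℝ) (hg : ∀ v, 0 ≤ g v) (hs : 2 * #(univ.filter fun v => 0 < g v) ≤ Fintype.card V) :
    h ^ 2 * ∑ v, g v ^ 2 ≤ D * ∑ x, ∑ y, aa G x y * (g x - g y) ^ 2 := by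
  classical
  set S := ∑ v, g v ^ 2 with hS
  set W := ∑ x, ∑ y, aa G x y * (g x - g y) ^ 2 with hW
  have hS0 : 0 ≤ S := sum_nonneg fun v _ => sq_nonneg _
  have hW0 : 0 ≤ W := sum_nonneg fun x _ => sum_nonneg fun y _ =>
    mul_nonneg (aa_nonneg G x y) (sq_nonneg _)
  rcases isEmpty_or_nonempty V with hV | ⟨⟨v0⟩⟩
  · simp [hS, hW]
  have hD0 : 0 ≤ D := (sum_nonneg fun y _ => aa_nonneg G v0 y).trans (hD v0)
  have h1 := coarea_ineq G h (fun v => g v ^ 2) (fun v => sq_nonneg _) (fun X hX => by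
    refine hexp X (le_trans ?_ hs)
    have : X ⊆ univ.filter fun v => 0 < g v := by
      intro v hv
      rw [mem_filter]
      refine ⟨mem_univ _, lt_of_le_of_ne (hg v) ?_⟩
      intro h0
      have := hX v hv
      rw [← h0] at this
      norm_num at this
    have := card_le_card this
    omega)
  have h2 : ∑ x, ∑ y, aa G x y * |g x ^ 2 - g y ^ 2| =
      ∑ p ∈ (univ : Finset V) ×ˢ (univ : Finset V),
        (aa G p.1 p.2 * |g p.1 - g p.2|) * (aa G p.1 p.2 * (g p.1 + g p.2)) := by
    rw [sum_product]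
    refine sum_congr rfl fun x _ => sum_congr rfl fun y _ => ?_
    have e1 : |g x ^ 2 - g y ^ 2| = |g x - g y| * (g x + g y) := by
      rw [show g x ^ 2 - g y ^ 2 = (g x - g y) * (g x + g y) by ring, abs_mul,
        abs_of_nonneg (add_nonneg (hg x) (hg y))]
    rw [e1]
    calc aa G x y * (|g x - g y| * (g x + g y)) =
        (aa G x y * aa G x y) * (|g x - g y| * (g x + g y)) := by rw [aa_sq]
      _ = _ := by ring
  have h3 := sum_mul_sq_le_sq_mul_sq ((univ : Finset V) ×ˢ (univ : Finset V))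
    (fun p => aa G p.1 p.2 * |g p.1 - g p.2|) (fun p => aa G p.1 p.2 * (g p.1 + g p.2))
  have h4 : ∑ p ∈ (univ : Finset V) ×ˢ (univ : Finset V), (aa G p.1 p.2 * |g p.1 - g p.2|) ^ 2 =
      W := by
    rw [sum_product, hW]
    refine sum_congr rfl fun x _ => sum_congr rfl fun y _ => ?_
    rw [mul_pow, sq_abs, pow_two (aa G x y), aa_sq]
  have h5 : ∑ p ∈ (univ : Finset V) ×ˢ (univ : Finset V), (aa G p.1 p.2 * (g p.1 + g p.2)) ^ 2 ≤
      4 * D * S := by
    rw [sum_product]
    calc ∑ x, ∑ y, (aa G x y * (g x + g y)) ^ 2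
        ≤ ∑ x, ∑ y, (2 * (aa G x y * g x ^ 2) + 2 * (aa G y x * g y ^ 2)) := by
          refine sum_le_sum fun x _ => sum_le_sum fun y _ => ?_
          rw [mul_pow, pow_two (aa G x y), aa_sq, aa_comm G y x]
          have : (g x + g y) ^ 2 ≤ 2 * g x ^ 2 + 2 * g y ^ 2 := by nlinarith [sq_nonneg (g x - g y)]
          nlinarith [mul_le_mul_of_nonneg_left this (aa_nonneg G x y)]
      _ = 4 * ∑ x, (∑ y, aa G x y) * g x ^ 2 := by
          simp only [sum_add_distrib]
          have e1 : ∑ x, ∑ y, 2 * (aa G y x * g y ^ 2) = ∑ x, ∑ y, 2 * (aa G x y * g x ^ 2) :=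
            sum_comm
          rw [e1, ← two_mul, mul_sum, mul_sum]
          refine sum_congr rfl fun x _ => ?_
          rw [sum_mul, mul_sum, mul_sum]
          exact sum_congr rfl fun y _ => by ring
      _ ≤ 4 * ∑ x, D * g x ^ 2 := by
          refine mul_le_mul_of_nonneg_left (sum_le_sum fun x _ => ?_) (by norm_num)
          exact mul_le_mul_of_nonneg_right (hD x) (sq_nonneg _)
      _ = _ := by rw [← mul_sum, hS]; ring
  rw [h4] at h3
  have h6 : (2 * h * S) ^ 2 ≤ W * (4 * D * S) := by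
    calc (2 * h * S) ^ 2 ≤ (∑ x, ∑ y, aa G x y * |g x ^ 2 - g y ^ 2|) ^ 2 :=
          pow_le_pow_left₀ (by positivity) h1 2
      _ ≤ _ := by
          rw [h2]
          exact h3.trans (mul_le_mul_of_nonneg_left h5 hW0)
  rcases hS0.eq_or_lt with h0 | h0
  · rw [← h0, mul_zero]
    exact mul_nonneg hD0 hW0
  · have h7 : (h ^ 2 * S) * (4 * S) ≤ (D * W) * (4 * S) := by nlinarith
    exact le_of_mul_le_mul_right h7 (by positivity)

/-- **Poincaré inequality** -/
theorem poincare (G : SimpleGraph V) (h D : ℝ) (hh : 0 ≤ h) (hD0 : 0 ≤ D)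
    (hD : ∀ x, ∑ y, aa G x y ≤ D)
    (hexp : ∀ X : Finset V, 2 * #X ≤ Fintype.card V → h * #X ≤ ee G X Xᶜ)
    (f : V → ℝ) (hf : ∑ v, f v = 0) :
    h ^ 2 * ∑ v, f v ^ 2 ≤ D * ∑ x, ∑ y, aa G x y * (f x - f y) ^ 2 := by
  classical
  rcases isEmpty_or_nonempty V with hV | hV
  · simp
  obtain ⟨c, hc1, hc2⟩ := exists_median f
  have e1 : ∀ v, (0 < max (f v - c) 0) ↔ c < f v := by
    intro v
    rw [lt_max_iff]
    constructor
    · rintro (h1 | h1)
      · linarith
      · exact absurd h1 (lt_irrefl _)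
    · intro h1
      exact Or.inl (by linarith)
  have e2 : ∀ v, (0 < max (c - f v) 0) ↔ f v < c := by
    intro v
    rw [lt_max_iff]
    constructor
    · rintro (h1 | h1)
      · linarith
      · exact absurd h1 (lt_irrefl _)
    · intro h1
      exact Or.inl (by linarith)
  have h1 := half G h D hh hD hexp (fun v => max (f v - c) 0) (fun v => le_max_right _ _)
    (by simp only [e1]; exact hc1)
  have h2 := half G h D hh hD hexp (fun v => max (c - f v) 0) (fun v => le_max_right _ _)
    (by simp only [e2]; exact hc2)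
  have h3 : ∑ v, f v ^ 2 ≤ ∑ v, (max (f v - c) 0) ^ 2 + ∑ v, (max (c - f v) 0) ^ 2 := by
    have e3 : ∀ v, (max (f v - c) 0) ^ 2 + (max (c - f v) 0) ^ 2 = f v ^ 2 - 2 * c * f v + c ^ 2 := by
      intro v
      rcases le_total (f v) c with h | h
      · rw [max_eq_right (by linarith), max_eq_left (by linarith)]; ring
      · rw [max_eq_left (by linarith), max_eq_right (by linarith)]; ring
    rw [← sum_add_distrib]
    simp only [e3, sum_add_distrib, sum_sub_distrib, ← mul_sum, hf, mul_zero, sub_zero]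
    have : 0 ≤ ∑ _v : V, c ^ 2 := sum_nonneg fun _ _ => sq_nonneg _
    linarith
  have h4 : ∑ x, ∑ y, aa G x y * (max (f x - c) 0 - max (f y - c) 0) ^ 2 +
      ∑ x, ∑ y, aa G x y * (max (c - f x) 0 - max (c - f y) 0) ^ 2 ≤
        ∑ x, ∑ y, aa G x y * (f x - f y) ^ 2 := by
    rw [← sum_add_distrib]
    refine sum_le_sum fun x _ => ?_
    rw [← sum_add_distrib]
    refine sum_le_sum fun y _ => ?_
    rw [← mul_add]
    refine mul_le_mul_of_nonneg_left ?_ (aa_nonneg G x y)
    rcases le_total (f x) c with hx | hx <;> rcases le_total (f y) c with hy | hy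
    · rw [max_eq_right (by linarith : f x - c ≤ 0), max_eq_right (by linarith : f y - c ≤ 0),
        max_eq_left (by linarith : 0 ≤ c - f x), max_eq_left (by linarith : 0 ≤ c - f y)]
      exact le_of_eq (by ring)
    · rw [max_eq_right (by linarith : f x - c ≤ 0), max_eq_left (by linarith : 0 ≤ f y - c),
        max_eq_left (by linarith : 0 ≤ c - f x), max_eq_right (by linarith : c - f y ≤ 0)]
      nlinarith
    · rw [max_eq_left (by linarith : 0 ≤ f x - c), max_eq_right (by linarith : f y - c ≤ 0),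
        max_eq_right (by linarith : c - f x ≤ 0), max_eq_left (by linarith : 0 ≤ c - f y)]
      nlinarith
    · rw [max_eq_left (by linarith : 0 ≤ f x - c), max_eq_left (by linarith : 0 ≤ f y - c),
        max_eq_right (by linarith : c - f x ≤ 0), max_eq_right (by linarith : c - f y ≤ 0)]
      exact le_of_eq (by ring)
  calc h ^ 2 * ∑ v, f v ^ 2 ≤ h ^ 2 * (∑ v, (max (f v - c) 0) ^ 2 + ∑ v, (max (c - f v) 0) ^ 2) :=
        mul_le_mul_of_nonneg_left h3 (sq_nonneg _)
    _ ≤ D * (∑ x, ∑ y, aa G x y * (max (f x - c) 0 - max (f y - c) 0) ^ 2 +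
          ∑ x, ∑ y, aa G x y * (max (c - f x) 0 - max (c - f y) 0) ^ 2) := by
        rw [mul_add, mul_add]
        exact add_le_add h1 h2
    _ ≤ _ := mul_le_mul_of_nonneg_left h4 hD0

end Pool.Agent.N721.SR
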