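import Pool.Agent.N721.SR.Exp2
import Pool.Agent.N721.SR.Poin

/-! # The expander form of the girth conjecture -/

set_option autoImplicit false
set_option maxHeartbeats 400000
set_option linter.unusedSectionVars false

open Finset

namespace Pool.Agent.N721.SR

open Pool.TH815.GR

/-- The expander form: graphs of girth greater than `2 k` with at most `C d ^ k` vertices, all
degrees between `d` and `C d`, edge expansion at least `d` and spectral gap at least `d / C`,
for all `d`. -/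
def ExpanderForm (k : ℕ) : Prop :=
  ∃ C : ℝ, ∀ d : ℕ, 1 ≤ d → ∃ (m : ℕ) (G : SimpleGraph (Fin m)) (_ : DecidableRel G.Adj),
    0 < m ∧ (m : ℝ) ≤ C * (d : ℝ) ^ k ∧ ((2 * k : ℕ) : ℕ∞) < G.egirth ∧
    (∀ x, d ≤ G.degree x ∧ (G.degree x : ℝ) ≤ C * d) ∧
    (∀ X : Finset (Fin m), 2 * #X ≤ m →
      d * #X ≤ #((X ×ˢ Xᶜ).filter fun p => G.Adj p.1 p.2)) ∧
    ∀ f : Fin m → ℝ, ∑ x, f x = 0 →
      d * ∑ x, f x ^ 2 ≤ C * ∑ x, ∑ y, G.adjMatrix ℝ x y * (f x - f y) ^ 2

theorem expander_scale {k : ℕ} (hk : 1 ≤ k) (hG : GirthConj k) :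
    ∃ (β K : ℝ) (J N₀ : ℕ), 0 < β ∧ 0 < K ∧ ∀ n : ℕ, 4 ^ J * N₀ ≤ n →
      ∃ (m u : ℕ) (G : SimpleGraph (Fin u)), m ≤ n ∧ n ≤ 4 ^ J * m ∧ u ≤ m ∧ 2 ≤ u ∧ NC k G ∧
        (∀ x, ee G {x} univ ≤ K * (m : ℝ) ^ (1 / (k : ℝ))) ∧
        ∀ X : Finset (Fin u), 2 * #X ≤ u → β * (m : ℝ) ^ (1 / (k : ℝ)) * #X ≤ ee G X Xᶜ := by
  classical
  obtain ⟨c, hc, N, hN⟩ := le_FF_of_girthConj hG
  have hk0 : (0 : ℝ) < k := by exact_mod_cast hk
  set β : ℝ := c / (16 * k) with hβ
  have hβ0 : 0 < β := by positivity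
  set K : ℝ := 512 / β + β with hK
  have hK0 : 0 < K := by positivity
  set N₀ : ℕ := max N (⌈(64 / β) ^ k⌉₊ + 4) with hN₀
  have hN₀1 : 1 ≤ N₀ := by
    rw [hN₀]; exact le_trans (by omega) (le_max_right _ _)
  obtain ⟨J, hJ⟩ := select (fun n => FF k n / (n : ℝ) ^ (1 + 1 / (k : ℝ))) c 24 (1 / (8 * k)) hc
    (by positivity) N₀ hN₀1 (fun n hn => by
      have h1 : (0 : ℝ) < n := by
        have : 1 ≤ n := hN₀1.trans hn
        exact_mod_cast this
      rw [le_div_iff₀ (by positivity)]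
      exact hN n ((le_max_left _ _).trans hn)) (fun n hn => by
      have h1 : (0 : ℝ) < n := by exact_mod_cast hn
      rw [div_le_iff₀ (by positivity)]
      exact FF_le hk n hn)
  refine ⟨β / 2, K, J, N₀, by positivity, hK0, fun n hn => ?_⟩
  obtain ⟨m, hmn, hnm, hNm, hgood⟩ := hJ n hn
  have hm1 : 1 ≤ m := hN₀1.trans hNm
  have hm4 : 4 ≤ m := by
    have : 4 ≤ N₀ := by rw [hN₀]; exact le_trans (by omega) (le_max_right _ _)
    omega
  have hm0 : (0 : ℝ) < m := by exact_mod_cast hm1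
  set T : ℝ := (m : ℝ) ^ (1 / (k : ℝ)) with hT
  have hT0 : 0 < T := by positivity
  have hrp : (m : ℝ) ^ (1 + 1 / (k : ℝ)) = m * T := by
    rw [Real.rpow_add hm0, Real.rpow_one]
  have hTβ : 64 / β ≤ T := by
    have h1 : (64 / β) ^ k ≤ T ^ k := by
      rw [hT, rpow_root hk _ hm0.le]
      calc (64 / β) ^ k ≤ (⌈(64 / β) ^ k⌉₊ : ℝ) := Nat.le_ceil _
        _ ≤ m := by
          have : ⌈(64 / β) ^ k⌉₊ ≤ m := by
            refine le_trans ?_ hNm
            rw [hN₀]
            exact le_trans (by omega) (le_max_right _ _)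
          exact_mod_cast this
    exact le_of_pow_le_pow_left₀ (by omega) hT0.le h1
  set G := best k m with hGdef
  have hNC : NC k G := best_NC k m
  have hlarge := large_sets hk c hc m hm1 (hN m ((le_max_left _ _).trans hNm)) hgood
  set H : Finset (Fin m) := univ.filter fun x => K * T < (G.degree x : ℝ) with hH
  have htail := tail G hk hNC K hK0
  rw [Fintype.card_fin, ← hT, ← hH, hrp] at htail
  set s : ℝ := ∑ x ∈ H, (G.degree x : ℝ) with hs
  have hs2 : s ≤ β / 4 * (m * T) := by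
    have h1 : 64 / K ≤ β / 8 := by
      rw [div_le_iff₀ hK0, hK]
      have : β / 8 * (512 / β + β) = 64 + β ^ 2 / 8 := by field_simp; norm_num
      rw [this]
      have : 0 ≤ β ^ 2 / 8 := by positivity
      linarith
    have h2 : 64 ≤ β * T := by
      rw [div_le_iff₀ hβ0] at hTβ
      linarith
    have h3 : 64 / K * (m * T) ≤ β / 8 * (m * T) := mul_le_mul_of_nonneg_right h1 (by positivity)
    nlinarith [mul_le_mul_of_nonneg_left h2 hm0.le]
  have hHs : ee G H Hᶜ ≤ s := by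
    rw [hs, ← ee_degree]
    exact ee_mono G Subset.rfl (subset_univ _)
  have hHc : 2 * #H ≤ Fintype.card (Fin m) := by
    rw [Fintype.card_fin]
    have h1 : (#H : ℝ) * (K * T) ≤ s := by
      rw [hs, ← nsmul_eq_mul]
      exact card_nsmul_le_sum _ _ _ fun x hx => by
        rw [hH, mem_filter] at hx
        exact hx.2.le
    have h2 : (#H : ℝ) * (K * T) ≤ (m / 4) * (K * T) := by
      refine h1.trans (hs2.trans ?_)
      have h3 : β ≤ K := by
        rw [hK]
        have : 0 ≤ 512 / β := by positivity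
        linarith
      calc β / 4 * (m * T) ≤ K / 4 * (m * T) := by gcongr
        _ = _ := by ring
    have h3 : (#H : ℝ) ≤ m / 4 := le_of_mul_le_mul_right h2 (by positivity)
    have h4 : (4 * #H : ℝ) ≤ m := by linarith
    have h5 : 4 * #H ≤ m := by exact_mod_cast h4
    omega
  obtain ⟨U, hUH, hU, hUexp⟩ := clean_exp G T β s (by rw [Fintype.card_fin]; omega) hT0 hβ0 H hHs
    (by rw [Fintype.card_fin]; exact hs2) hHc (fun X h1 h2 => by
      rw [Fintype.card_fin] at h1 h2 ⊢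
      have := hlarge X h1 h2
      rwa [hrp] at this)
  rw [Fintype.card_fin] at hU
  obtain ⟨φ, hφ1, hφ2⟩ := restrict U
  have hmap : (univ : Finset (Fin #U)).map φ = U := by
    ext x
    simp only [mem_map, mem_univ, true_and]
    exact ⟨fun ⟨i, hi⟩ => hi ▸ hφ1 i, fun hx => hφ2 x hx⟩
  have hUm : #U ≤ m := by
    have := card_le_univ U
    rwa [Fintype.card_fin] at this
  refine ⟨m, #U, G.comap φ, hmn, hnm, hUm, by omega, hNC.comap φ, fun x => ?_, fun X hX => ?_⟩
  · rw [ee_comap, hmap, map_singleton]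
    calc ee G {φ x} U ≤ ee G {φ x} univ := ee_mono G Subset.rfl (subset_univ _)
      _ = G.degree (φ x) := by rw [ee_degree, sum_singleton]
      _ ≤ K * T := by
          have h1 : φ x ∉ H := fun h => (disjoint_left.1 hUH (hφ1 x)) h
          rw [hH, mem_filter] at h1
          push Not at h1
          exact h1 (mem_univ _)
  · rw [ee_comap]
    have h1 : X.map φ ⊆ U := by
      intro y hy
      obtain ⟨i, -, rfl⟩ := mem_map.1 hy
      exact hφ1 i
    have h2 : Xᶜ.map φ = U \ X.map φ := by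
      ext y
      simp only [mem_map, mem_compl, mem_sdiff]
      constructor
      · rintro ⟨i, hi, rfl⟩
        refine ⟨hφ1 i, ?_⟩
        rintro ⟨j, hj, hji⟩
        exact hi (φ.injective hji ▸ hj)
      · rintro ⟨hy, hny⟩
        obtain ⟨i, rfl⟩ := hφ2 y hy
        exact ⟨i, fun hi => hny ⟨i, hi, rfl⟩, rfl⟩
    rw [h2]
    have h3 := hUexp (X.map φ) h1 (by rw [card_map]; exact hX)
    rwa [card_map] at h3

theorem expanderForm_of_girthConj {k : ℕ} (hk : 1 ≤ k) (hG : GirthConj k) : ExpanderForm k := by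
  classical
  obtain ⟨β, K, J, N₀, hβ, hK, h⟩ := expander_scale hk hG
  have hk0 : (0 : ℝ) < k := by exact_mod_cast hk
  set R : ℝ := 1 / β + N₀ + 1 with hR
  have hR1 : 1 ≤ R := by
    rw [hR]
    have : 0 ≤ 1 / β := by positivity
    have : (0 : ℝ) ≤ N₀ := Nat.cast_nonneg _
    linarith
  set Q : ℝ := 4 ^ J * (2 * R ^ k) with hQ
  have hQ0 : 0 < Q := by positivity
  set L : ℝ := K * Q ^ (1 / (k : ℝ)) with hL
  have hL0 : 0 < L := by positivity
  refine ⟨Q + L, fun d hd => ?_⟩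
  have hd1 : (1 : ℝ) ≤ d := by exact_mod_cast hd
  set q : ℕ := ⌈((d : ℝ) * R) ^ k⌉₊ with hq
  have hdR : 1 ≤ (d : ℝ) * R := by nlinarith
  have hqge : ((d : ℝ) * R) ^ k ≤ q := Nat.le_ceil _
  have hqle : (q : ℝ) ≤ 2 * ((d : ℝ) * R) ^ k := by
    have h1 : (q : ℝ) < ((d : ℝ) * R) ^ k + 1 := Nat.ceil_lt_add_one (by positivity)
    have h2 : 1 ≤ ((d : ℝ) * R) ^ k := one_le_pow₀ hdR
    linarith
  have hRpow : (N₀ : ℝ) ≤ ((d : ℝ) * R) ^ k := by
    calc (N₀ : ℝ) ≤ R := by
          rw [hR]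
          have : 0 ≤ 1 / β := by positivity
          linarith
      _ ≤ d * R := by nlinarith
      _ = (d * R) ^ 1 := (pow_one _).symm
      _ ≤ _ := pow_le_pow_right₀ hdR hk
  have hqN : N₀ ≤ q := by
    have := hRpow.trans hqge
    exact_mod_cast this
  obtain ⟨m, u, G, hmn, hnm, hum, hu2, hNC, hdeg, hexp⟩ := h (4 ^ J * q)
    (Nat.mul_le_mul_left _ hqN)
  have hqm : q ≤ m := Nat.le_of_mul_le_mul_left hnm (by positivity)
  have hm0 : (0 : ℝ) < m := by
    have : 0 < m := by omega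
    exact_mod_cast this
  set T : ℝ := (m : ℝ) ^ (1 / (k : ℝ)) with hT
  have hT0 : 0 < T := by positivity
  have hTk : T ^ k = m := by rw [hT, rpow_root hk _ hm0.le]
  have hdT : (d : ℝ) * R ≤ T := by
    refine le_of_pow_le_pow_left₀ (n := k) (by omega) hT0.le ?_
    rw [hTk]
    refine hqge.trans ?_
    exact_mod_cast hqm
  have hβT : (d : ℝ) ≤ β * T := by
    have h1 : 1 ≤ β * R := by
      rw [hR]
      have : β * (1 / β + N₀ + 1) = 1 + β * (N₀ + 1) := by
        field_simp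
        ring
      rw [this]
      have : 0 ≤ β * ((N₀ : ℝ) + 1) := by positivity
      linarith
    calc (d : ℝ) = d * 1 := (mul_one _).symm
      _ ≤ d * (β * R) := by gcongr
      _ = β * (d * R) := by ring
      _ ≤ β * T := by gcongr
  have hmQ : (m : ℝ) ≤ Q * (d : ℝ) ^ k := by
    have h1 : (m : ℝ) ≤ 4 ^ J * q := by exact_mod_cast hmn
    calc (m : ℝ) ≤ 4 ^ J * q := h1
      _ ≤ 4 ^ J * (2 * ((d : ℝ) * R) ^ k) := by gcongr
      _ = Q * (d : ℝ) ^ k := by rw [hQ, mul_pow]; ring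
  have hTL : K * T ≤ L * d := by
    have h1 : T ≤ Q ^ (1 / (k : ℝ)) * d := by
      calc T ≤ (Q * (d : ℝ) ^ k) ^ (1 / (k : ℝ)) :=
            Real.rpow_le_rpow hm0.le hmQ (by positivity)
        _ = Q ^ (1 / (k : ℝ)) * ((d : ℝ) ^ k) ^ (1 / (k : ℝ)) :=
            Real.mul_rpow hQ0.le (by positivity)
        _ = _ := by
            congr 1
            rw [← Real.rpow_natCast, ← Real.rpow_mul (by positivity), mul_one_div_cancel hk0.ne',
              Real.rpow_one]
    rw [hL]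
    calc K * T ≤ K * (Q ^ (1 / (k : ℝ)) * d) := by gcongr
      _ = _ := by ring
  have hdegG : ∀ x, (G.degree x : ℝ) = ee G {x} univ := by
    intro x; rw [ee_degree, sum_singleton]
  have hcut : ∀ X : Finset (Fin u), 2 * #X ≤ u → (d : ℝ) * #X ≤ ee G X Xᶜ := by
    intro X hX
    refine le_trans ?_ (hexp X hX)
    gcongr
  have haa : ∀ x y, G.adjMatrix ℝ x y = aa G x y := by
    intro x y
    unfold aa
    rw [SimpleGraph.adjMatrix_apply]
  refine ⟨u, G, Classical.decRel _, by omega, ?_, ?_, fun x => ⟨?_, ?_⟩, fun X hX => ?_,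
    fun f hf => ?_⟩
  · calc (u : ℝ) ≤ m := by exact_mod_cast hum
      _ ≤ Q * (d : ℝ) ^ k := hmQ
      _ ≤ _ := by
          refine mul_le_mul_of_nonneg_right ?_ (by positivity)
          linarith
  · rw [egirth_iff]
    exact hNC
  · have h1 := hcut {x} (by rw [card_singleton]; omega)
    rw [card_singleton, Nat.cast_one, mul_one] at h1
    have h2 : ee G {x} {x}ᶜ ≤ ee G {x} univ := ee_mono G Subset.rfl (subset_univ _)
    have h3 := h1.trans h2
    rw [← hdegG x] at h3
    exact_mod_cast h3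
  · rw [hdegG x]
    refine (hdeg x).trans (hTL.trans ?_)
    refine mul_le_mul_of_nonneg_right ?_ (by positivity)
    linarith
  · have h1 := hcut X hX
    have h2 : ee G X Xᶜ = (#((X ×ˢ Xᶜ).filter fun p => G.Adj p.1 p.2) : ℝ) := by
      rw [card_filter, sum_product]
      push_cast
      rfl
    rw [h2] at h1
    exact_mod_cast h1
  · have h1 := poincare G (β * T) (K * T) (by positivity) (by positivity) (fun x => by
      have := hdeg x
      rwa [ee_eq, sum_singleton] at this) (fun X hX => by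
        rw [Fintype.card_fin] at hX
        exact hexp X hX) f hf
    set S := ∑ x, f x ^ 2 with hS
    set W := ∑ x, ∑ y, aa G x y * (f x - f y) ^ 2 with hW
    have hW0 : 0 ≤ W := sum_nonneg fun x _ => sum_nonneg fun y _ =>
      mul_nonneg (aa_nonneg G x y) (sq_nonneg _)
    have hS0 : 0 ≤ S := sum_nonneg fun x _ => sq_nonneg _
    have h2 : (d : ℝ) * ((d : ℝ) * S) ≤ d * (L * W) := by
      calc (d : ℝ) * ((d : ℝ) * S) = (d : ℝ) ^ 2 * S := by ring
        _ ≤ (β * T) ^ 2 * S := by gcongr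
        _ ≤ K * T * W := h1
        _ ≤ L * d * W := by gcongr
        _ = _ := by ring
    have h3 : (d : ℝ) * S ≤ L * W := le_of_mul_le_mul_left h2 (by linarith)
    have h4 : ∑ x, ∑ y, G.adjMatrix ℝ x y * (f x - f y) ^ 2 = W := by
      simp only [haa, hW]
    refine le_trans ?_ (le_trans h3 ?_)
    · exact le_rfl
    · have h5 : L * W ≤ (Q + L) * W := by
        refine mul_le_mul_of_nonneg_right ?_ hW0
        linarith
      refine h5.trans (le_of_eq ?_)
      rw [← h4]

theorem girthConj_iff_expanderForm {k : ℕ} (hk : 1 ≤ k) : GirthConj k ↔ ExpanderForm k := by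
  refine ⟨expanderForm_of_girthConj hk, fun ⟨C, hC⟩ =>
    girthConj_of_almostRegularForm hk ⟨C, fun d hd => ?_⟩⟩
  obtain ⟨m, G, inst, h1, h2, h3, h4, -⟩ := hC d hd
  refine ⟨m, G, h1, h2, h3, fun x => ?_⟩
  have e : (G.neighborSet x).ncard = G.degree x := by
    rw [← G.card_neighborFinset_eq_degree, ← Set.ncard_coe_finset]
    congr 1
    ext y
    simp
  rw [e]
  refine ⟨?_, (h4 x).2⟩
  exact_mod_cast (h4 x).1

end Pool.Agent.N721.SR
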