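import Pool.Agent.N721.SR.Exp2
import Pool.Agent.N721.SR.Poin

/-! # Expanders in hereditary classes of graphs -/

set_option autoImplicit false
set_option maxHeartbeats 400000
set_option linter.unusedSectionVars false

open Finset

namespace Pool.Agent.N721.SR

/-- a hereditary class of graphs which contains the graphs without edges -/
structure Her (P : ∀ (V : Type), SimpleGraph V → Prop) : Prop where
  comap : ∀ (V W : Type) (φ : W ↪ V) (G : SimpleGraph V), P V G → P W (G.comap φ)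
  bot : ∀ n : ℕ, P (Fin n) ⊥

variable {P : ∀ (V : Type), SimpleGraph V → Prop}

theorem Her.exists_best (hP : Her P) (n : ℕ) : ∃ G : SimpleGraph (Fin n), P (Fin n) G ∧
    ∀ G' : SimpleGraph (Fin n), P (Fin n) G' → ee G' univ univ ≤ ee G univ univ := by
  obtain ⟨G, hG, hmax⟩ := Set.exists_max_image {G : SimpleGraph (Fin n) | P (Fin n) G}
    (fun G => ee G univ univ) (Set.toFinite _) ⟨⊥, hP.bot n⟩
  exact ⟨G, hG, fun G' hG' => hmax G' hG'⟩

noncomputable def Her.best (hP : Her P) (n : ℕ) : SimpleGraph (Fin n) :=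
  Classical.choose (hP.exists_best n)

theorem Her.best_P (hP : Her P) (n : ℕ) : P (Fin n) (hP.best n) :=
  (Classical.choose_spec (hP.exists_best n)).1

noncomputable def Her.F (hP : Her P) (n : ℕ) : ℝ := ee (hP.best n) univ univ

theorem Her.le_F (hP : Her P) {V : Type} (G : SimpleGraph V) (hG : P V G) (X : Finset V) :
    ee G X X ≤ hP.F #X := by
  obtain ⟨φ, h1, h2⟩ := restrict X
  have h3 := (Classical.choose_spec (hP.exists_best #X)).2 (G.comap φ) (hP.comap _ _ φ G hG)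
  have h4 : (univ : Finset (Fin #X)).map φ = X := by
    ext x
    simp only [mem_map, mem_univ, true_and]
    exact ⟨fun ⟨i, hi⟩ => hi ▸ h1 i, fun hx => h2 x hx⟩
  rw [ee_comap, h4] at h3
  exact h3

/-- partition of a set into few parts of bounded size -/
theorem exists_parts (V : Type) [Fintype V] (s : ℕ) (hs : 1 ≤ s) :
    ∃ p : V → Fin (Fintype.card V / s + 1), ∀ j, #(univ.filter fun v => p v = j) ≤ s := by
  classical
  set e := Fintype.equivFin V
  refine ⟨fun v => ⟨(e v).val / s, ?_⟩, fun j => ?_⟩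
  · have h1 := (e v).isLt
    exact Nat.lt_succ_of_le (Nat.div_le_div_right h1.le)
  · have h1 : #(univ.filter fun v => (⟨(e v).val / s, by
        have h1 := (e v).isLt
        exact Nat.lt_succ_of_le (Nat.div_le_div_right h1.le)⟩ :
          Fin (Fintype.card V / s + 1)) = j) ≤ #(Finset.Ico (j.val * s) ((j.val + 1) * s)) := by
      refine card_le_card_of_injOn (fun v => (e v).val) ?_ ?_
      · intro v hv
        rw [mem_coe, mem_filter] at hv
        have h2 := congrArg Fin.val hv.2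
        simp only at h2
        rw [mem_coe, mem_Ico]
        have h3 := Nat.div_add_mod (e v).val s
        have h4 := Nat.mod_lt (e v).val (by omega : 0 < s)
        rw [h2] at h3
        show j.val * s ≤ (e v).val ∧ (e v).val < (j.val + 1) * s
        constructor
        · rw [mul_comm]; omega
        · rw [add_mul, mul_comm, one_mul]; omega
      · intro v _ w _ h
        exact e.injective (Fin.ext h)
    refine h1.trans ?_
    rw [Nat.card_Ico, add_mul, one_mul]
    omega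

/-- the edges at a small set of vertices -/
theorem Her.small_set (hP : Her P) {V : Type} [Fintype V] [DecidableEq V] (G : SimpleGraph V)
    (hG : P V G) (H : Finset V) (s : ℕ) (hs : 1 ≤ s) (B : ℝ)
    (hB : ∀ t : ℕ, t ≤ #H + s → hP.F t ≤ B) :
    ee G H univ ≤ (Fintype.card V / s + 1 : ℕ) * B := by
  classical
  obtain ⟨p, hp⟩ := exists_parts V s hs
  have h1 : ee G H univ = ∑ j, ee G H (univ.filter fun v => p v = j) := by
    calc ee G H univ = ∑ x ∈ H, ∑ j, ∑ y ∈ univ.filter (fun v => p v = j), aa G x y := by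
          rw [ee_eq]
          refine sum_congr rfl fun x _ => ?_
          exact (sum_fiberwise (univ : Finset V) p (fun y => aa G x y)).symm
      _ = _ := by
          rw [sum_comm]
          rfl
  rw [h1]
  calc ∑ j, ee G H (univ.filter fun v => p v = j) ≤
      ∑ _j : Fin (Fintype.card V / s + 1), B := by
        refine sum_le_sum fun j _ => ?_
        set Y := univ.filter fun v => p v = j
        calc ee G H Y ≤ ee G (H ∪ Y) (H ∪ Y) := ee_mono G subset_union_left subset_union_right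
          _ ≤ hP.F #(H ∪ Y) := hP.le_F G hG _
          _ ≤ B := hB _ ((card_union_le _ _).trans (Nat.add_le_add_left (hp j) _))
    _ = _ := by rw [sum_const, card_univ, Fintype.card_fin, nsmul_eq_mul]

theorem ee_degree' {V : Type} [Fintype V] [DecidableEq V] (G : SimpleGraph V) (X : Finset V) :
    ee G X univ = ∑ x ∈ X, ee G {x} univ := by
  unfold ee
  refine sum_congr rfl fun x _ => ?_
  rw [sum_singleton]

/-- **the degree tail** -/
theorem Her.tail (hP : Her P) (α C₀ : ℝ) (hα : 0 < α) (hα1 : α ≤ 1) (hC₀ : 0 < C₀)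
    (hF : ∀ n : ℕ, 1 ≤ n → hP.F n ≤ C₀ * (n : ℝ) ^ (1 + α)) (ε : ℝ) (hε : 0 < ε) :
    ∃ (K : ℝ) (n₀ : ℕ), 0 < K ∧ 1 ≤ n₀ ∧ ∀ (V : Type) [Fintype V] [DecidableEq V]
      (G : SimpleGraph V), P V G → n₀ ≤ Fintype.card V → ∀ H : Finset V,
      (∀ x ∈ H, K * (Fintype.card V : ℝ) ^ α < ee G {x} univ) →
      ee G H univ ≤ ε * (Fintype.card V * (Fintype.card V : ℝ) ^ α) ∧
      4 * #H ≤ Fintype.card V := by
  obtain ⟨ρ, hρ0, hρ1, hρ⟩ : ∃ ρ : ℝ, 0 < ρ ∧ ρ ≤ 1 / 4 ∧ 18 * C₀ * ρ ^ α ≤ ε := by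
    refine ⟨min (1 / 4) ((ε / (18 * C₀)) ^ (1 / α)), by positivity, min_le_left _ _, ?_⟩
    have h1 : (min (1 / 4) ((ε / (18 * C₀)) ^ (1 / α))) ^ α ≤ ((ε / (18 * C₀)) ^ (1 / α)) ^ α :=
      Real.rpow_le_rpow (by positivity) (min_le_right _ _) hα.le
    rw [← Real.rpow_mul (by positivity), one_div_mul_cancel hα.ne', Real.rpow_one] at h1
    calc 18 * C₀ * (min (1 / 4) ((ε / (18 * C₀)) ^ (1 / α))) ^ α ≤ 18 * C₀ * (ε / (18 * C₀)) :=
          mul_le_mul_of_nonneg_left h1 (by positivity)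
      _ = ε := by field_simp
  set K : ℝ := C₀ / ρ with hK
  have hK0 : 0 < K := by positivity
  refine ⟨K, ⌈1 / ρ⌉₊ + 1, hK0, by omega, fun V _ _ G hG hn H hH => ?_⟩
  set n := Fintype.card V with hnd
  have hnρ : 1 / ρ ≤ n := by
    calc 1 / ρ ≤ (⌈1 / ρ⌉₊ : ℝ) := Nat.le_ceil _
      _ ≤ n := by
        have : ⌈1 / ρ⌉₊ ≤ n := by omega
        exact_mod_cast this
  have hn0 : (0 : ℝ) < n := lt_of_lt_of_le (by positivity) hnρ
  have hn1 : 1 ≤ n := by omega
  set N : ℝ := (n : ℝ) ^ α with hN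
  have hN0 : 0 < N := by positivity
  have hrp : (n : ℝ) ^ (1 + α) = n * N := by rw [Real.rpow_add hn0, Real.rpow_one]
  have hρn : 1 ≤ ρ * n := by
    rw [div_le_iff₀ hρ0] at hnρ
    linarith
  have hHle : (#H : ℝ) ≤ ρ * n := by
    have h1 : (#H : ℝ) * (K * N) ≤ ee G H univ := by
      rw [ee_degree', ← nsmul_eq_mul]
      exact card_nsmul_le_sum _ _ _ fun x hx => (hH x hx).le
    have h2 : ee G H univ ≤ C₀ * (n * N) := by
      calc ee G H univ ≤ ee G univ univ := ee_mono G (subset_univ _) Subset.rfl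
        _ ≤ hP.F #(univ : Finset V) := hP.le_F G hG univ
        _ ≤ C₀ * (n : ℝ) ^ (1 + α) := by rw [card_univ]; exact hF n hn1
        _ = _ := by rw [hrp]
    have h3 : (#H : ℝ) * (K * N) ≤ (ρ * n) * (K * N) := by
      refine (h1.trans h2).trans (le_of_eq ?_)
      rw [hK]; field_simp
    exact le_of_mul_le_mul_right h3 (by positivity)
  refine ⟨?_, ?_⟩
  · set s : ℕ := ⌈ρ * n⌉₊ with hs
    have hs1 : 1 ≤ s := by
      rw [hs, Nat.one_le_ceil_iff]
      positivity
    have hs2 : ρ * n ≤ s := Nat.le_ceil _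
    have hs3 : (s : ℝ) ≤ 2 * (ρ * n) := by
      have : (s : ℝ) < ρ * n + 1 := Nat.ceil_lt_add_one (by positivity)
      linarith
    have hM : ((n / s + 1 : ℕ) : ℝ) ≤ 2 / ρ := by
      have h1 : ((n / s : ℕ) : ℝ) ≤ 1 / ρ := by
        calc ((n / s : ℕ) : ℝ) ≤ (n : ℝ) / s := Nat.cast_div_le
          _ ≤ n / (ρ * n) := by gcongr
          _ = 1 / ρ := by field_simp
      have h2 : 1 ≤ 1 / ρ := by
        rw [le_div_iff₀ hρ0]; linarith
      push_cast
      have : 2 / ρ = 1 / ρ + 1 / ρ := by ring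
      linarith
    set B : ℝ := C₀ * (3 * (ρ * n)) ^ (1 + α) with hB
    have hB0 : 0 ≤ B := by positivity
    have h1 := hP.small_set G hG H s hs1 B (fun t ht => by
      rcases Nat.eq_zero_or_pos t with h0 | h0
      · have h5 := hP.le_F (⊥ : SimpleGraph (Fin 0)) (hP.bot 0) univ
        have : hP.F t = 0 := by
          rw [h0]
          unfold Her.F ee
          simp
        rw [this]
        exact hB0
      · refine (hF t h0).trans ?_
        rw [hB]
        refine mul_le_mul_of_nonneg_left ?_ hC₀.le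
        refine Real.rpow_le_rpow (by positivity) ?_ (by positivity)
        have : (t : ℝ) ≤ #H + s := by exact_mod_cast ht
        linarith)
    have h2 : B ≤ 9 * C₀ * ρ * ρ ^ α * (n * N) := by
      have e1 : (3 * (ρ * (n : ℝ))) ^ (1 + α) = 3 ^ (1 + α) * (ρ * ρ ^ α * (n * N)) := by
        rw [Real.mul_rpow (by norm_num) (by positivity), Real.mul_rpow hρ0.le hn0.le,
          Real.rpow_add hρ0, Real.rpow_one, hrp]
      have e2 : (3 : ℝ) ^ (1 + α) ≤ 9 := by
        calc (3 : ℝ) ^ (1 + α) ≤ (3 : ℝ) ^ (2 : ℝ) :=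
              Real.rpow_le_rpow_of_exponent_le (by norm_num) (by linarith)
          _ = 9 := by norm_num
      rw [hB, e1]
      calc C₀ * (3 ^ (1 + α) * (ρ * ρ ^ α * (n * N))) ≤ C₀ * (9 * (ρ * ρ ^ α * (n * N))) := by
            gcongr
        _ = _ := by ring
    calc ee G H univ ≤ ((n / s + 1 : ℕ) : ℝ) * B := h1
      _ ≤ 2 / ρ * (9 * C₀ * ρ * ρ ^ α * (n * N)) := by gcongr
      _ = 18 * C₀ * ρ ^ α * (n * N) := by field_simp; norm_num
      _ ≤ ε * (n * N) := by gcongr
  · have h1 : (4 * #H : ℝ) ≤ n := by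
      have : ρ * n ≤ 1 / 4 * n := mul_le_mul_of_nonneg_right hρ1 hn0.le
      linarith
    exact_mod_cast h1

theorem rpow_three_quarters (α : ℝ) (h0 : 0 ≤ α) (h1 : α ≤ 1) :
    (3 / 4 : ℝ) ^ α ≤ 1 - α / 4 := by
  have h := rpow_one_add_le_one_add_mul_self (s := -(1 / 4 : ℝ)) (by norm_num) h0 h1
  have e1 : (1 : ℝ) + -(1 / 4) = 3 / 4 := by norm_num
  rw [e1] at h
  linarith

/-- expansion of large sets in an extremal graph whose order is well chosen -/
theorem Her.large_sets (hP : Her P) (α c : ℝ) (hα : 0 < α) (hα1 : α ≤ 1) (hc : 0 < c) (m : ℕ)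
    (hm : 1 ≤ m) (hcm : c * (m : ℝ) ^ (1 + α) ≤ hP.F m)
    (hgood : ∀ m', m ≤ 4 * m' → m' ≤ m →
      hP.F m' / (m' : ℝ) ^ (1 + α) ≤ (1 + α / 8) * (hP.F m / (m : ℝ) ^ (1 + α)))
    (X : Finset (Fin m)) (h1 : m ≤ 4 * #X) (h2 : 4 * #X ≤ 3 * m) :
    c * α / 16 * (m : ℝ) ^ (1 + α) ≤ ee (hP.best m) X Xᶜ := by
  have hm0 : (0 : ℝ) < m := by exact_mod_cast hm
  set a : ℝ := hP.F m / (m : ℝ) ^ (1 + α) with ha
  set N : ℝ := (m : ℝ) ^ α with hN
  have hN0 : 0 < N := by positivity
  have hrp : (m : ℝ) ^ (1 + α) = m * N := by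
    rw [Real.rpow_add hm0, Real.rpow_one]
  have hca : c ≤ a := by
    rw [ha, le_div_iff₀ (by positivity)]
    exact hcm
  have ha0 : 0 < a := hc.trans_le hca
  have hF : hP.F m = a * (m * N) := by
    rw [← hrp, ha, div_mul_cancel₀ _ (by positivity)]
  have hpart : ∀ Y : Finset (Fin m), m ≤ 4 * #Y → 4 * #Y ≤ 3 * m →
      ee (hP.best m) Y Y ≤ (1 - α / 8) * a * (#Y * N) := by
    intro Y hY1 hY2
    have hY0 : 1 ≤ #Y := by omega
    have hYr : (0 : ℝ) < (#Y : ℝ) := by exact_mod_cast hY0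
    have hYr2 : (#Y : ℝ) ≤ 3 / 4 * m := by
      have : (4 * #Y : ℝ) ≤ 3 * m := by exact_mod_cast hY2
      linarith
    have h3 := hP.le_F (hP.best m) (hP.best_P m) Y
    have h4 := hgood #Y hY1 (by omega)
    rw [div_le_iff₀ (Real.rpow_pos_of_pos hYr _)] at h4
    have h5 : ((#Y : ℕ) : ℝ) ^ (1 + α) ≤ #Y * ((1 - α / 4) * N) := by
      rw [Real.rpow_add hYr, Real.rpow_one]
      refine mul_le_mul_of_nonneg_left ?_ hYr.le
      calc (#Y : ℝ) ^ α ≤ (3 / 4 * (m : ℝ)) ^ α :=
            Real.rpow_le_rpow hYr.le hYr2 hα.le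
        _ = (3 / 4 : ℝ) ^ α * N := by
            rw [Real.mul_rpow (by norm_num) hm0.le]
        _ ≤ _ := mul_le_mul_of_nonneg_right (rpow_three_quarters α hα.le hα1) hN0.le
    have h6 : (1 + α / 8) * (1 - α / 4) ≤ 1 - α / 8 := by nlinarith [mul_pos hα hα]
    calc ee (hP.best m) Y Y ≤ (1 + α / 8) * a * (#Y : ℝ) ^ (1 + α) := h3.trans h4
      _ ≤ (1 + α / 8) * a * (#Y * ((1 - α / 4) * N)) :=
          mul_le_mul_of_nonneg_left h5 (by positivity)
      _ = ((1 + α / 8) * (1 - α / 4)) * (a * (#Y * N)) := by ring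
      _ ≤ (1 - α / 8) * (a * (#Y * N)) :=
          mul_le_mul_of_nonneg_right h6 (mul_nonneg ha0.le (mul_nonneg hYr.le hN0.le))
      _ = _ := by ring
  have hXc : #Xᶜ = m - #X := by rw [card_compl, Fintype.card_fin]
  have hXm : #X ≤ m := by omega
  have e1 := hpart X h1 h2
  have e2 := hpart Xᶜ (by omega) (by omega)
  have e3 := ee_univ (hP.best m) X
  have e4 : ee (hP.best m) univ univ = a * (m * N) := hF
  have e5 : (#Xᶜ : ℝ) = m - #X := by
    rw [hXc, Nat.cast_sub hXm]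
  rw [e4] at e3
  rw [e5] at e2
  have e6 : (1 - α / 8) * a * (#X * N) + (1 - α / 8) * a * ((m - #X) * N) =
      a * (m * N) - α / 8 * a * (m * N) := by ring
  have e7 : α / 8 * c * (m * N) ≤ α / 8 * a * (m * N) := by gcongr
  have e8 : c * α / 16 * (m * N) = (α / 8 * c * (m * N)) / 2 := by ring
  rw [hrp, e8]
  linarith

end Pool.Agent.N721.SR
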