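import Pool.Agent.N721.SR.Gen1

/-! # Expanders in hereditary classes of graphs: existence -/

set_option autoImplicit false
set_option maxHeartbeats 400000
set_option linter.unusedSectionVars false

open Finset

namespace Pool.Agent.N721.SR

variable {P : ∀ (V : Type), SimpleGraph V → Prop}

theorem Her.expander_scale (hP : Her P) (α C₀ : ℝ) (hα : 0 < α) (hα1 : α ≤ 1) (hC₀ : 0 < C₀)
    (hF : ∀ n : ℕ, 1 ≤ n → hP.F n ≤ C₀ * (n : ℝ) ^ (1 + α)) (c : ℝ) (hc : 0 < c) (N : ℕ)
    (hN : ∀ n : ℕ, N ≤ n → c * (n : ℝ) ^ (1 + α) ≤ hP.F n) :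
    ∃ (β K : ℝ) (J N₀ : ℕ), 0 < β ∧ 0 < K ∧ ∀ n : ℕ, 4 ^ J * N₀ ≤ n →
      ∃ (m u : ℕ) (G : SimpleGraph (Fin u)), m ≤ n ∧ n ≤ 4 ^ J * m ∧ u ≤ m ∧ 2 ≤ u ∧
        P (Fin u) G ∧ (∀ x, ee G {x} univ ≤ K * (m : ℝ) ^ α) ∧
        ∀ X : Finset (Fin u), 2 * #X ≤ u → β * (m : ℝ) ^ α * #X ≤ ee G X Xᶜ := by
  classical
  set β : ℝ := c * α / 16 with hβ
  have hβ0 : 0 < β := by positivity
  obtain ⟨K, n₁, hK0, hn₁, htail⟩ := hP.tail α C₀ hα hα1 hC₀ hF (β / 4) (by positivity)
  set N₀ : ℕ := max N (n₁ + 4) with hN₀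
  have hN₀1 : 1 ≤ N₀ := by
    rw [hN₀]; exact le_trans (by omega) (le_max_right _ _)
  obtain ⟨J, hJ⟩ := select (fun n => hP.F n / (n : ℝ) ^ (1 + α)) c C₀ (α / 8) hc
    (by positivity) N₀ hN₀1 (fun n hn => by
      have h1 : (0 : ℝ) < n := by
        have : 1 ≤ n := hN₀1.trans hn
        exact_mod_cast this
      rw [le_div_iff₀ (by positivity)]
      exact hN n ((le_max_left _ _).trans hn)) (fun n hn => by
      have h1 : (0 : ℝ) < n := by exact_mod_cast hn
      rw [div_le_iff₀ (by positivity)]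
      exact hF n hn)
  refine ⟨β / 2, K, J, N₀, by positivity, hK0, fun n hn => ?_⟩
  obtain ⟨m, hmn, hnm, hNm, hgood⟩ := hJ n hn
  have hm1 : 1 ≤ m := hN₀1.trans hNm
  have hm4 : n₁ + 4 ≤ m := (le_max_right _ _).trans hNm
  have hm0 : (0 : ℝ) < m := by exact_mod_cast hm1
  set T : ℝ := (m : ℝ) ^ α with hT
  have hT0 : 0 < T := by positivity
  have hrp : (m : ℝ) ^ (1 + α) = m * T := by
    rw [Real.rpow_add hm0, Real.rpow_one]
  set G := hP.best m with hGdef
  have hPG : P (Fin m) G := hP.best_P m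
  have hlarge := hP.large_sets α c hα hα1 hc m hm1 (hN m ((le_max_left _ _).trans hNm)) hgood
  set H : Finset (Fin m) := univ.filter fun x => K * T < ee G {x} univ with hH
  obtain ⟨ht1, ht2⟩ := htail (Fin m) G hPG (by rw [Fintype.card_fin]; omega) H (fun x hx => by
    rw [hH, mem_filter] at hx
    rw [Fintype.card_fin]
    exact hx.2)
  rw [Fintype.card_fin] at ht1 ht2
  have hHs : ee G H Hᶜ ≤ ee G H univ := ee_mono G Subset.rfl (subset_univ _)
  obtain ⟨U, hUH, hU, hUexp⟩ := clean_exp G T β (ee G H univ) (by rw [Fintype.card_fin]; omega)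
    hT0 hβ0 H hHs (by rw [Fintype.card_fin]; exact ht1) (by rw [Fintype.card_fin]; omega)
    (fun X h1 h2 => by
      rw [Fintype.card_fin] at h1 h2 ⊢
      have := hlarge X h1 h2
      rwa [hrp] at this)
  rw [Fintype.card_fin] at hU
  obtain ⟨φ, hφ1, hφ2⟩ := restrict U
  have hmap : (univ : Finset (Fin #U)).map φ = U := by
    ext x
    simp only [mem_map, mem_univ, true_and]
    exact ⟨fun ⟨i, hi⟩ => hi ▸ hφ1 i, fun hx => hφ2 x hx⟩
  have hUm : #U ≤ m := by
    have := card_le_univ U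
    rwa [Fintype.card_fin] at this
  refine ⟨m, #U, G.comap φ, hmn, hnm, hUm, by omega, hP.comap _ _ φ G hPG, fun x => ?_,
    fun X hX => ?_⟩
  · rw [ee_comap, hmap, map_singleton]
    calc ee G {φ x} U ≤ ee G {φ x} univ := ee_mono G Subset.rfl (subset_univ _)
      _ ≤ K * T := by
          have h1 : φ x ∉ H := fun h => (disjoint_left.1 hUH (hφ1 x)) h
          rw [hH, mem_filter] at h1
          push Not at h1
          exact h1 (mem_univ _)
  · rw [ee_comap]
    have h1 : X.map φ ⊆ U := by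
      intro y hy
      obtain ⟨i, -, rfl⟩ := mem_map.1 hy
      exact hφ1 i
    have h2 : Xᶜ.map φ = U \ X.map φ := by
      ext y
      simp only [mem_map, mem_compl, mem_sdiff]
      constructor
      · rintro ⟨i, hi, rfl⟩
        refine ⟨hφ1 i, ?_⟩
        rintro ⟨j, hj, hji⟩
        exact hi (φ.injective hji ▸ hj)
      · rintro ⟨hy, hny⟩
        obtain ⟨i, rfl⟩ := hφ2 y hy
        exact ⟨i, fun hi => hny ⟨i, hi, rfl⟩, rfl⟩
    rw [h2]
    have h3 := hUexp (X.map φ) h1 (by rw [card_map]; exact hX)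
    rwa [card_map] at h3

/-- The expander form. -/
def ExpForm (P : ∀ (V : Type), SimpleGraph V → Prop) (α : ℝ) : Prop :=
  ∃ C : ℝ, ∀ d : ℕ, 1 ≤ d → ∃ (m : ℕ) (G : SimpleGraph (Fin m)) (_ : DecidableRel G.Adj),
    0 < m ∧ (m : ℝ) ≤ C * (d : ℝ) ^ (1 / α) ∧ P (Fin m) G ∧
    (∀ x, d ≤ G.degree x ∧ (G.degree x : ℝ) ≤ C * d) ∧
    (∀ X : Finset (Fin m), 2 * #X ≤ m →
      d * #X ≤ #((X ×ˢ Xᶜ).filter fun p => G.Adj p.1 p.2)) ∧
    ∀ f : Fin m → ℝ, ∑ x, f x = 0 →
      d * ∑ x, f x ^ 2 ≤ C * ∑ x, ∑ y, G.adjMatrix ℝ x y * (f x - f y) ^ 2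

theorem Her.expForm (hP : Her P) (α C₀ : ℝ) (hα : 0 < α) (hα1 : α ≤ 1) (hC₀ : 0 < C₀)
    (hF : ∀ n : ℕ, 1 ≤ n → hP.F n ≤ C₀ * (n : ℝ) ^ (1 + α)) (c : ℝ) (hc : 0 < c) (N : ℕ)
    (hN : ∀ n : ℕ, N ≤ n → c * (n : ℝ) ^ (1 + α) ≤ hP.F n) : ExpForm P α := by
  classical
  obtain ⟨β, K, J, N₀, hβ, hK, h⟩ := hP.expander_scale α C₀ hα hα1 hC₀ hF c hc N hN
  set R : ℝ := 1 / β + N₀ + 1 with hR
  have hR1 : 1 ≤ R := by
    rw [hR]
    have : 0 ≤ 1 / β := by positivity
    have : (0 : ℝ) ≤ N₀ := Nat.cast_nonneg _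
    linarith
  have hR0 : 0 < R := by linarith
  set Q : ℝ := 4 ^ J * (2 * R ^ (1 / α)) with hQ
  have hQ0 : 0 < Q := by positivity
  set L : ℝ := K * Q ^ α with hL
  have hL0 : 0 < L := by positivity
  refine ⟨Q + L, fun d hd => ?_⟩
  have hd1 : (1 : ℝ) ≤ d := by exact_mod_cast hd
  have hd0 : (0 : ℝ) < d := by linarith
  have hdR : 1 ≤ (d : ℝ) * R := by nlinarith
  have hdR0 : 0 < (d : ℝ) * R := by linarith
  have hinv : 1 ≤ 1 / α := by rw [le_div_iff₀ hα]; linarith
  set q : ℕ := ⌈((d : ℝ) * R) ^ (1 / α)⌉₊ with hq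
  have hqge : ((d : ℝ) * R) ^ (1 / α) ≤ q := Nat.le_ceil _
  have hone : 1 ≤ ((d : ℝ) * R) ^ (1 / α) := Real.one_le_rpow hdR (by positivity)
  have hqle : (q : ℝ) ≤ 2 * ((d : ℝ) * R) ^ (1 / α) := by
    have h1 : (q : ℝ) < ((d : ℝ) * R) ^ (1 / α) + 1 := Nat.ceil_lt_add_one (by positivity)
    linarith
  have hRpow : (N₀ : ℝ) ≤ ((d : ℝ) * R) ^ (1 / α) := by
    calc (N₀ : ℝ) ≤ R := by
          rw [hR]
          have : 0 ≤ 1 / β := by positivity
          linarith
      _ ≤ d * R := by nlinarith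
      _ = (d * R) ^ (1 : ℝ) := (Real.rpow_one _).symm
      _ ≤ _ := Real.rpow_le_rpow_of_exponent_le hdR hinv
  have hqN : N₀ ≤ q := by
    have := hRpow.trans hqge
    exact_mod_cast this
  obtain ⟨m, u, G, hmn, hnm, hum, hu2, hPG, hdeg, hexp⟩ := h (4 ^ J * q)
    (Nat.mul_le_mul_left _ hqN)
  have hqm : q ≤ m := Nat.le_of_mul_le_mul_left hnm (by positivity)
  have hm0 : (0 : ℝ) < m := by
    have : 0 < m := by omega
    exact_mod_cast this
  set T : ℝ := (m : ℝ) ^ α with hT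
  have hT0 : 0 < T := by positivity
  have hdT : (d : ℝ) * R ≤ T := by
    calc (d : ℝ) * R = (((d : ℝ) * R) ^ (1 / α)) ^ α := by
          rw [← Real.rpow_mul hdR0.le, one_div_mul_cancel hα.ne', Real.rpow_one]
      _ ≤ (m : ℝ) ^ α := by
          refine Real.rpow_le_rpow (by positivity) (hqge.trans ?_) hα.le
          exact_mod_cast hqm
  have hβT : (d : ℝ) ≤ β * T := by
    have h1 : 1 ≤ β * R := by
      rw [hR]
      have : β * (1 / β + N₀ + 1) = 1 + β * (N₀ + 1) := by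
        field_simp
        ring
      rw [this]
      have : 0 ≤ β * ((N₀ : ℝ) + 1) := by positivity
      linarith
    calc (d : ℝ) = d * 1 := (mul_one _).symm
      _ ≤ d * (β * R) := by gcongr
      _ = β * (d * R) := by ring
      _ ≤ β * T := by gcongr
  have hmQ : (m : ℝ) ≤ Q * (d : ℝ) ^ (1 / α) := by
    have h1 : (m : ℝ) ≤ 4 ^ J * q := by exact_mod_cast hmn
    calc (m : ℝ) ≤ 4 ^ J * q := h1
      _ ≤ 4 ^ J * (2 * ((d : ℝ) * R) ^ (1 / α)) := by gcongr
      _ = Q * (d : ℝ) ^ (1 / α) := by rw [hQ, Real.mul_rpow hd0.le hR0.le]; ring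
  have hTL : K * T ≤ L * d := by
    have h1 : T ≤ Q ^ α * d := by
      calc T ≤ (Q * (d : ℝ) ^ (1 / α)) ^ α := Real.rpow_le_rpow hm0.le hmQ hα.le
        _ = Q ^ α * ((d : ℝ) ^ (1 / α)) ^ α := Real.mul_rpow hQ0.le (by positivity)
        _ = _ := by
            rw [← Real.rpow_mul hd0.le, one_div_mul_cancel hα.ne', Real.rpow_one]
    rw [hL]
    calc K * T ≤ K * (Q ^ α * d) := by gcongr
      _ = _ := by ring
  have hdegG : ∀ x, (G.degree x : ℝ) = ee G {x} univ := by
    intro x; rw [ee_degree, sum_singleton]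
  have hcut : ∀ X : Finset (Fin u), 2 * #X ≤ u → (d : ℝ) * #X ≤ ee G X Xᶜ := by
    intro X hX
    refine le_trans ?_ (hexp X hX)
    gcongr
  have haa : ∀ x y, G.adjMatrix ℝ x y = aa G x y := by
    intro x y
    unfold aa
    rw [SimpleGraph.adjMatrix_apply]
  refine ⟨u, G, Classical.decRel _, by omega, ?_, hPG, fun x => ⟨?_, ?_⟩, fun X hX => ?_,
    fun f hf => ?_⟩
  · calc (u : ℝ) ≤ m := by exact_mod_cast hum
      _ ≤ Q * (d : ℝ) ^ (1 / α) := hmQ
      _ ≤ _ := by
          refine mul_le_mul_of_nonneg_right ?_ (by positivity)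
          linarith
  · have h1 := hcut {x} (by rw [card_singleton]; omega)
    rw [card_singleton, Nat.cast_one, mul_one] at h1
    have h2 : ee G {x} {x}ᶜ ≤ ee G {x} univ := ee_mono G Subset.rfl (subset_univ _)
    have h3 := h1.trans h2
    rw [← hdegG x] at h3
    exact_mod_cast h3
  · rw [hdegG x]
    refine (hdeg x).trans (hTL.trans ?_)
    refine mul_le_mul_of_nonneg_right ?_ (by positivity)
    linarith
  · have h1 := hcut X hX
    have h2 : ee G X Xᶜ = (#((X ×ˢ Xᶜ).filter fun p => G.Adj p.1 p.2) : ℝ) := by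
      rw [card_filter, sum_product]
      push_cast
      rfl
    rw [h2] at h1
    exact_mod_cast h1
  · have h1 := poincare G (β * T) (K * T) (by positivity) (by positivity) (fun x => by
      have := hdeg x
      rwa [ee_eq, sum_singleton] at this) (fun X hX => by
        rw [Fintype.card_fin] at hX
        exact hexp X hX) f hf
    set S := ∑ x, f x ^ 2 with hS
    set W := ∑ x, ∑ y, aa G x y * (f x - f y) ^ 2 with hW
    have hW0 : 0 ≤ W := sum_nonneg fun x _ => sum_nonneg fun y _ =>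
      mul_nonneg (aa_nonneg G x y) (sq_nonneg _)
    have hS0 : 0 ≤ S := sum_nonneg fun x _ => sq_nonneg _
    have h2 : (d : ℝ) * ((d : ℝ) * S) ≤ d * (L * W) := by
      calc (d : ℝ) * ((d : ℝ) * S) = (d : ℝ) ^ 2 * S := by ring
        _ ≤ (β * T) ^ 2 * S := by gcongr
        _ ≤ K * T * W := h1
        _ ≤ L * d * W := by gcongr
        _ = _ := by ring
    have h3 : (d : ℝ) * S ≤ L * W := le_of_mul_le_mul_left h2 hd0
    have h4 : ∑ x, ∑ y, G.adjMatrix ℝ x y * (f x - f y) ^ 2 = W := by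
      simp only [haa, hW]
    refine h3.trans ?_
    have h5 : L * W ≤ (Q + L) * W := by
      refine mul_le_mul_of_nonneg_right ?_ hW0
      linarith
    refine h5.trans (le_of_eq ?_)
    rw [← h4]

/-! ### copies -/

/-- the disjoint union of `n / m` copies of `G` -/
def copG (m n : ℕ) (hm : 0 < m) (G : SimpleGraph (Fin m)) : SimpleGraph (Fin n) where
  Adj i j := i.val < n / m * m ∧ j.val < n / m * m ∧ i.val / m = j.val / m ∧
    G.Adj ⟨i.val % m, Nat.mod_lt _ hm⟩ ⟨j.val % m, Nat.mod_lt _ hm⟩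
  symm := by
    constructor
    rintro i j ⟨h1, h2, h3, h4⟩
    exact ⟨h2, h1, h3.symm, h4.symm⟩
  loopless := ⟨fun i h => G.irrefl h.2.2.2⟩

theorem copG_inj (m : ℕ) {n : ℕ} {i j : Fin n} (h1 : i.val / m = j.val / m)
    (h2 : i.val % m = j.val % m) : i = j := by
  apply Fin.ext
  rw [← Nat.div_add_mod i.val m, ← Nat.div_add_mod j.val m, h1, h2]

/-- a preconnected graph contained in a disjoint union of copies is contained in one of them -/
theorem copG_free {W : Type} (H : SimpleGraph W) (hH : H.Preconnected) (m n : ℕ) (hm : 0 < m)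
    (G : SimpleGraph (Fin m)) (hG : H.Free G) : H.Free (copG m n hm G) := by
  rintro ⟨f⟩
  apply hG
  have hadj : ∀ a b, H.Adj a b → (f a).val / m = (f b).val / m := fun a b hab =>
    (f.toHom.map_adj hab).2.2.1
  have hclass : ∀ a b, (f a).val / m = (f b).val / m := by
    intro a b
    obtain ⟨w⟩ := hH a b
    induction w with
    | nil => rfl
    | cons h _ ih => exact (hadj _ _ h).trans ih
  refine ⟨⟨⟨fun a => ⟨(f a).val % m, Nat.mod_lt _ hm⟩, fun {a b} hab => ?_⟩, ?_⟩⟩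
  · exact (f.toHom.map_adj hab).2.2.2
  · intro a b hab
    have h1 : (f a).val % m = (f b).val % m := congrArg Fin.val hab
    exact f.injective (copG_inj m (hclass a b) h1)

theorem copG_edges (m n d : ℕ) (hm : 0 < m) (hmn : m ≤ n) (G : SimpleGraph (Fin m))
    [DecidableRel G.Adj] (hd : ∀ v, d ≤ G.degree v) :
    (n : ℝ) * d ≤ 2 * ee (copG m n hm G) univ univ := by
  classical
  have hdeg : ∀ i : Fin n, i.val < n / m * m → d ≤ (copG m n hm G).degree i := by
    intro i hi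
    apply (hd ⟨i.val % m, Nat.mod_lt _ hm⟩).trans
    rw [← SimpleGraph.card_neighborFinset_eq_degree, ← SimpleGraph.card_neighborFinset_eq_degree]
    have hlt : ∀ j : Fin m, i.val / m * m + j.val < n / m * m := by
      intro j
      have h1 : i.val / m < n / m := by
        rw [Nat.div_lt_iff_lt_mul hm]; exact hi
      have h2 : (i.val / m + 1) * m ≤ n / m * m := Nat.mul_le_mul_right m h1
      have := j.isLt
      rw [Nat.add_mul] at h2
      omega
    have hn : n / m * m ≤ n := Nat.div_mul_le_self n m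
    apply Finset.card_le_card_of_injOn
      (fun j : Fin m => (⟨i.val / m * m + j.val, (hlt j).trans_le hn⟩ : Fin n))
    · intro j hj
      have hj' : G.Adj ⟨i.val % m, Nat.mod_lt _ hm⟩ j := by simpa using hj
      have h1 : (i.val / m * m + j.val) / m = i.val / m := by
        rw [Nat.mul_comm, Nat.mul_add_div hm, Nat.div_eq_of_lt j.isLt, add_zero]
      have h2 : (i.val / m * m + j.val) % m = j.val := by
        rw [Nat.mul_comm, Nat.mul_add_mod, Nat.mod_eq_of_lt j.isLt]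
      have h3 : (copG m n hm G).Adj i ⟨i.val / m * m + j.val, (hlt j).trans_le hn⟩ := by
        refine ⟨hi, hlt j, h1.symm, ?_⟩
        have h4 : (⟨(i.val / m * m + j.val) % m, Nat.mod_lt _ hm⟩ : Fin m) = j := Fin.ext h2
        show G.Adj _ (⟨(i.val / m * m + j.val) % m, Nat.mod_lt _ hm⟩ : Fin m)
        rw [h4]
        exact hj'
      simpa using h3
    · intro j _ j' _ hjj
      have := congrArg Fin.val hjj
      apply Fin.ext
      simp only at this
      omega
  have h1 : n / m * m * d ≤ ∑ v, (copG m n hm G).degree v := by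
    have h2 : ∑ v ∈ Finset.univ.filter (fun i : Fin n => i.val < n / m * m),
        (copG m n hm G).degree v ≤ ∑ v, (copG m n hm G).degree v :=
      Finset.sum_le_sum_of_subset (Finset.filter_subset _ _)
    refine le_trans ?_ h2
    have h3 : (Finset.univ.filter (fun i : Fin n => i.val < n / m * m)).card = n / m * m := by
      rw [Fin.card_filter_val_lt]
      exact min_eq_right (Nat.div_mul_le_self n m)
    have h4 := Finset.card_nsmul_le_sum
      (Finset.univ.filter (fun i : Fin n => i.val < n / m * m))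
      (fun v => (copG m n hm G).degree v) d (fun v hv => hdeg v (by simpa using hv))
    rw [h3, smul_eq_mul] at h4
    exact h4
  have h5 : n ≤ 2 * (n / m * m) := by
    have h6 : 1 ≤ n / m := by
      rw [Nat.one_le_div_iff hm]; exact hmn
    have h7 : n % m < m := Nat.mod_lt _ hm
    have h8 : m ≤ n / m * m := by
      calc m = 1 * m := (one_mul m).symm
        _ ≤ n / m * m := Nat.mul_le_mul_right m h6
    have h9 := Nat.div_add_mod n m
    rw [Nat.mul_comm] at h9
    omega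
  have h6 : n * d ≤ 2 * ∑ v, (copG m n hm G).degree v := by
    calc n * d ≤ 2 * (n / m * m) * d := Nat.mul_le_mul_right d h5
      _ = 2 * (n / m * m * d) := by ring
      _ ≤ _ := Nat.mul_le_mul_left 2 h1
  rw [ee_degree, ← Nat.cast_sum]
  exact_mod_cast h6

/-- from the expander form back to the order of magnitude -/
theorem Her.lower_of_expForm (hP : Her P)
    (hcop : ∀ (m n : ℕ) (hm : 0 < m) (G : SimpleGraph (Fin m)), P (Fin m) G →
      P (Fin n) (copG m n hm G)) (α : ℝ) (hα : 0 < α) (h : ExpForm P α) :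
    ∃ c : ℝ, 0 < c ∧ ∃ N : ℕ, ∀ n : ℕ, N ≤ n → c * (n : ℝ) ^ (1 + α) ≤ hP.F n := by
  classical
  obtain ⟨C, hC⟩ := h
  have hC0 : 0 < C := by
    obtain ⟨m, G, _, hm, hm2, -⟩ := hC 1 le_rfl
    have : (0 : ℝ) < m := by exact_mod_cast hm
    rw [Nat.cast_one, Real.one_rpow, mul_one] at hm2
    linarith
  refine ⟨1 / (4 * C ^ α), by positivity, ⌈C⌉₊, fun n hn => ?_⟩
  have hnC : C ≤ n := (Nat.le_ceil C).trans (by exact_mod_cast hn)
  have hn0 : (0 : ℝ) < n := hC0.trans_le hnC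
  set r : ℝ := (n / C) ^ α with hr
  have hr1 : 1 ≤ r := Real.one_le_rpow (by rw [le_div_iff₀ hC0]; linarith) hα.le
  have hrk : r ^ (1 / α) = n / C := by
    rw [hr, ← Real.rpow_mul (by positivity), mul_one_div_cancel hα.ne', Real.rpow_one]
  set d : ℕ := ⌊r⌋₊ with hd
  have hd1 : 1 ≤ d := by
    rw [hd, Nat.le_floor_iff (by linarith)]
    exact_mod_cast hr1
  have hdr : (d : ℝ) ≤ r := Nat.floor_le (by linarith)
  have hdr2 : r / 2 ≤ d := by
    have h1 : r < d + 1 := Nat.lt_floor_add_one r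
    have h2 : (1 : ℝ) ≤ d := by exact_mod_cast hd1
    linarith
  obtain ⟨m, G, inst, hm, hmC, hg, hdeg, -⟩ := hC d hd1
  have hmn : m ≤ n := by
    have : (m : ℝ) ≤ n := by
      calc (m : ℝ) ≤ C * (d : ℝ) ^ (1 / α) := hmC
        _ ≤ C * r ^ (1 / α) := by gcongr
        _ = n := by rw [hrk]; field_simp
    exact_mod_cast this
  have h1 := copG_edges m n d hm hmn G (fun v => (hdeg v).1)
  have h2 : ee (copG m n hm G) univ univ ≤ hP.F n := by
    have := hP.le_F (copG m n hm G) (hcop m n hm G hg) univ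
    rwa [card_univ, Fintype.card_fin] at this
  have h3 : (n : ℝ) ^ (1 + α) = n * (n : ℝ) ^ α := by
    rw [Real.rpow_add hn0, Real.rpow_one]
  have h4 : r = (n : ℝ) ^ α / C ^ α := by
    rw [hr, Real.div_rpow hn0.le hC0.le]
  have h5 : 1 / (4 * C ^ α) * (n : ℝ) ^ (1 + α) = n * (r / 2) / 2 := by
    rw [h3, h4]
    have : C ^ α ≠ 0 := by positivity
    field_simp
    norm_num
  rw [h5]
  have h6 : (n : ℝ) * (r / 2) ≤ n * d := mul_le_mul_of_nonneg_left hdr2 hn0.le
  linarith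

end Pool.Agent.N721.SR
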