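import Pool.Agent.N721.SR.Part
import Pool.Agent.H268R2.LB.NW

/-! # Closed walks in graphs without short cycles -/

set_option autoImplicit false
set_option maxHeartbeats 400000

open Finset

namespace Pool.Agent.N721.SR

open Pool.Agent.H268R2.LB

variable {V : Type} [Fintype V] [DecidableEq V] (G : SimpleGraph V) [DecidableRel G.Adj]

/-- weights of nonbacktracking walks from `v`, by the last arc -/
def QQ (v : V) : ℕ → V → V → ℝ
  | 0 => fun a b => if a = v ∧ G.Adj a b then 1 else 0
  | j + 1 => fun b c => if G.Adj b c then ∑ a ∈ univ.erase c, QQ v j a b else 0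

/-- the same by the last vertex -/
def SS (v : V) : ℕ → V → ℝ
  | 0 => fun b => if b = v then 1 else 0
  | j + 1 => fun b => ∑ a, QQ G v j a b

theorem QQ_nonneg (v : V) (j : ℕ) : ∀ a b, 0 ≤ QQ G v j a b := by
  induction j with
  | zero => intro a b; unfold QQ; split_ifs <;> norm_num
  | succ j ih =>
    intro a b
    unfold QQ
    split_ifs
    · exact Finset.sum_nonneg fun x _ => ih x a
    · exact le_rfl

theorem SS_nonneg (v : V) (j : ℕ) (b : V) : 0 ≤ SS G v j b := by
  cases j with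
  | zero =>
    show (0 : ℝ) ≤ if b = v then 1 else 0
    split_ifs <;> norm_num
  | succ j => exact Finset.sum_nonneg fun a _ => QQ_nonneg G v j a b

theorem QQ_nw (v : V) (j : ℕ) : ∀ a b, QQ G v j a b ≠ 0 → ∃ x, NW G (j + 1) v x a b := by
  induction j with
  | zero =>
    intro a b h
    unfold QQ at h
    split_ifs at h with h1
    · obtain ⟨rfl, h2⟩ := h1
      exact ⟨b, NW.one h2⟩
    · exact absurd rfl h
  | succ j ih =>
    intro b c h
    unfold QQ at h
    split_ifs at h with h1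
    · obtain ⟨a, ha, hne⟩ := Finset.exists_ne_zero_of_sum_ne_zero h
      obtain ⟨x, hx⟩ := ih a b hne
      exact ⟨x, NW.step hx h1 (Finset.ne_of_mem_erase ha)⟩
    · exact absurd rfl h

theorem SS_zero {M : ℕ} (hg : ∀ (v : V) (p : G.Walk v v), p.IsCycle → M < p.length) (v : V) (j : ℕ)
    (h1 : 1 ≤ j) (hj : j ≤ M) : SS G v j v = 0 := by
  obtain ⟨j, rfl⟩ : ∃ i, j = i + 1 := ⟨j - 1, by omega⟩
  refine Finset.sum_eq_zero fun a _ => ?_
  by_contra h
  obtain ⟨x, hx⟩ := QQ_nw G v j a v h
  exact no_closed hg hx hj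

theorem QQ_out (v : V) (D : ℝ) (hD : ∀ v, (G.degree v : ℝ) ≤ D) (j : ℕ) (c : V) :
    ∑ b, QQ G v j c b ≤ D * SS G v j c := by
  have hdeg : ∀ (c : V) (x : ℝ), ∑ b, (if G.Adj c b then x else 0) = G.degree c * x := by
    intro c x
    rw [← Finset.sum_filter, Finset.sum_const, nsmul_eq_mul, ← G.card_neighborFinset_eq_degree,
      G.neighborFinset_eq_filter]
  cases j with
  | zero =>
    by_cases hc : c = v
    · have h1 : ∀ b, QQ G v 0 c b = if G.Adj c b then 1 else 0 := by
        intro b; unfold QQ; simp [hc]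
      have h2 : SS G v 0 c = 1 := by unfold SS; simp [hc]
      rw [Finset.sum_congr rfl fun b _ => h1 b, hdeg, h2, mul_one, mul_one]
      exact hD c
    · have h1 : ∀ b, QQ G v 0 c b = 0 := by
        intro b; unfold QQ; simp [hc]
      have h2 : SS G v 0 c = 0 := by unfold SS; simp [hc]
      rw [Finset.sum_congr rfl fun b _ => h1 b, h2, mul_zero, Finset.sum_const_zero]
  | succ j =>
    have h1 : ∀ b, QQ G v (j + 1) c b ≤ if G.Adj c b then SS G v (j + 1) c else 0 := by
      intro b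
      unfold QQ SS
      split_ifs
      · exact Finset.sum_le_univ_sum_of_nonneg fun a => QQ_nonneg G v j a c
      · exact le_rfl
    calc ∑ b, QQ G v (j + 1) c b ≤ ∑ b, (if G.Adj c b then SS G v (j + 1) c else 0) :=
          Finset.sum_le_sum fun b _ => h1 b
      _ = G.degree c * SS G v (j + 1) c := hdeg c _
      _ ≤ D * SS G v (j + 1) c := mul_le_mul_of_nonneg_right (hD c) (SS_nonneg G v _ c)

theorem SS_zero_step (v c : V) : ∑ b, SS G v 0 b * G.adjMatrix ℝ b c = SS G v 1 c := by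
  unfold SS QQ
  refine Finset.sum_congr rfl fun b _ => ?_
  rw [SimpleGraph.adjMatrix_apply]
  by_cases h1 : b = v <;> by_cases h2 : G.Adj b c <;> simp [h1, h2]

theorem SS_succ_step (v : V) (D : ℝ) (hD : ∀ v, (G.degree v : ℝ) ≤ D) (j : ℕ) (c : V) :
    ∑ b, SS G v (j + 1) b * G.adjMatrix ℝ b c ≤ SS G v (j + 2) c + D * SS G v j c := by
  have h1 : ∀ b, SS G v (j + 1) b * G.adjMatrix ℝ b c ≤ QQ G v (j + 1) b c + QQ G v j c b := by
    intro b
    have h2 : SS G v (j + 1) b = ∑ a ∈ univ.erase c, QQ G v j a b + QQ G v j c b := by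
      unfold SS
      exact (Finset.sum_erase_add univ _ (Finset.mem_univ c)).symm
    rw [SimpleGraph.adjMatrix_apply]
    by_cases hbc : G.Adj b c
    · have h3 : QQ G v (j + 1) b c = ∑ a ∈ univ.erase c, QQ G v j a b := by
        conv_lhs => unfold QQ
        simp [hbc]
      rw [if_pos hbc, mul_one, h2, h3]
    · rw [if_neg hbc, mul_zero]
      exact add_nonneg (QQ_nonneg G v _ _ _) (QQ_nonneg G v _ _ _)
  calc ∑ b, SS G v (j + 1) b * G.adjMatrix ℝ b c
      ≤ ∑ b, (QQ G v (j + 1) b c + QQ G v j c b) := Finset.sum_le_sum fun b _ => h1 b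
    _ = SS G v (j + 2) c + ∑ b, QQ G v j c b := by
        rw [Finset.sum_add_distrib]; rfl
    _ ≤ _ := by
        have := QQ_out G v D hD j c
        linarith

/-- indexed by integers -/
def SZ (v : V) (j : ℤ) (c : V) : ℝ := if j < 0 then 0 else SS G v j.toNat c

theorem SZ_nonneg (v : V) (j : ℤ) (c : V) : 0 ≤ SZ G v j c := by
  unfold SZ
  split_ifs
  · exact le_rfl
  · exact SS_nonneg G v _ c

theorem SZ_step (v : V) (D : ℝ) (hD : ∀ v, (G.degree v : ℝ) ≤ D) (j : ℤ) (c : V) :
    ∑ b, SZ G v j b * G.adjMatrix ℝ b c ≤ SZ G v (j + 1) c + D * SZ G v (j - 1) c := by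
  have hD0 : 0 ≤ D := le_trans (Nat.cast_nonneg _) (hD v)
  rcases lt_or_ge j 0 with hj | hj
  · have h1 : ∀ b, SZ G v j b * G.adjMatrix ℝ b c = 0 := by
      intro b; unfold SZ; simp [hj]
    rw [Finset.sum_congr rfl fun b _ => h1 b, Finset.sum_const_zero]
    exact add_nonneg (SZ_nonneg G v _ _) (mul_nonneg hD0 (SZ_nonneg G v _ _))
  · obtain ⟨m, rfl⟩ := Int.eq_ofNat_of_zero_le hj
    have h0 : ∀ b, SZ G v (m : ℤ) b = SS G v m b := by
      intro b; unfold SZ; simp
    have h1 : SZ G v ((m : ℤ) + 1) c = SS G v (m + 1) c := by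
      unfold SZ
      rw [if_neg (by omega)]
      congr 1
    simp only [h0, h1]
    cases m with
    | zero =>
      rw [SS_zero_step]
      have := mul_nonneg hD0 (SZ_nonneg G v (((0 : ℕ) : ℤ) - 1) c)
      linarith
    | succ m =>
      have h2 : SZ G v (((m + 1 : ℕ) : ℤ) - 1) c = SS G v m c := by
        unfold SZ
        rw [if_neg (by omega)]
        congr 1
        omega
      rw [h2]
      exact SS_succ_step G v D hD m c

theorem pow_le_sum (v : V) (D : ℝ) (hD : ∀ v, (G.degree v : ℝ) ≤ D) (i : ℕ) (c : V) :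
    (G.adjMatrix ℝ ^ i) v c ≤
      ∑ m ∈ range (i + 1), (i.choose m : ℝ) * D ^ m * SZ G v ((i : ℤ) - 2 * m) c := by
  have hD0 : 0 ≤ D := le_trans (Nat.cast_nonneg _) (hD v)
  induction i generalizing c with
  | zero =>
    simp only [pow_zero, zero_add, Finset.range_one, Finset.sum_singleton,
      Nat.choose_self, Nat.cast_one, mul_one, one_mul, CharP.cast_eq_zero, mul_zero, sub_zero]
    unfold SZ SS
    rw [Matrix.one_apply]
    by_cases h : v = c
    · simp [h]
    · have h' : ¬ c = v := fun e => h e.symm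
      simp [h, h']
  | succ i ih =>
    set F : ℕ → ℝ := fun m => D ^ m * SZ G v (((i + 1 : ℕ) : ℤ) - 2 * m) c with hF
    have e1 : (G.adjMatrix ℝ ^ (i + 1)) v c =
        ∑ b, (G.adjMatrix ℝ ^ i) v b * G.adjMatrix ℝ b c := by
      rw [pow_succ, Matrix.mul_apply]
    have e2 : ∑ b, (G.adjMatrix ℝ ^ i) v b * G.adjMatrix ℝ b c ≤
        ∑ m ∈ range (i + 1), (i.choose m : ℝ) * (F m + F (m + 1)) := by
      calc ∑ b, (G.adjMatrix ℝ ^ i) v b * G.adjMatrix ℝ b c
          ≤ ∑ b, (∑ m ∈ range (i + 1), (i.choose m : ℝ) * D ^ m * SZ G v ((i : ℤ) - 2 * m) b) *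
              G.adjMatrix ℝ b c := by
            refine Finset.sum_le_sum fun b _ => mul_le_mul_of_nonneg_right (ih b) ?_
            rw [SimpleGraph.adjMatrix_apply]
            split_ifs <;> norm_num
        _ = ∑ m ∈ range (i + 1), (i.choose m : ℝ) * (D ^ m *
              ∑ b, SZ G v ((i : ℤ) - 2 * m) b * G.adjMatrix ℝ b c) := by
            simp only [Finset.sum_mul, Finset.mul_sum]
            rw [Finset.sum_comm]
            refine Finset.sum_congr rfl fun m _ => Finset.sum_congr rfl fun b _ => by ring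
        _ ≤ ∑ m ∈ range (i + 1), (i.choose m : ℝ) * (F m + F (m + 1)) := by
            refine Finset.sum_le_sum fun m _ => mul_le_mul_of_nonneg_left ?_ (Nat.cast_nonneg _)
            have h1 := mul_le_mul_of_nonneg_left (SZ_step G v D hD ((i : ℤ) - 2 * m) c)
              (pow_nonneg hD0 m)
            refine h1.trans (le_of_eq ?_)
            have e3 : (i : ℤ) - 2 * m + 1 = ((i + 1 : ℕ) : ℤ) - 2 * m := by push_cast; ring
            have e4 : (i : ℤ) - 2 * m - 1 = ((i + 1 : ℕ) : ℤ) - 2 * ((m + 1 : ℕ) : ℤ) := by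
              push_cast; ring
            rw [e3, e4, hF]
            simp only
            ring
    rw [e1]
    refine e2.trans (le_of_eq ?_)
    have e5 : ∑ m ∈ range (i + 1 + 1), ((i + 1).choose m : ℝ) * D ^ m *
        SZ G v (((i + 1 : ℕ) : ℤ) - 2 * m) c = ∑ m ∈ range (i + 1 + 1), ((i + 1).choose m : ℝ) * F m := by
      refine Finset.sum_congr rfl fun m _ => ?_
      rw [hF]
      simp only
      ring
    have e7 : ∑ m ∈ range (i + 1 + 1), ((i + 1).choose m : ℝ) * F m =
        ∑ m ∈ range (i + 1), (i.choose m : ℝ) * F (m + 1) +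
          ∑ m ∈ range (i + 1), (i.choose (m + 1) : ℝ) * F (m + 1) + F 0 := by
      rw [Finset.sum_range_succ' _ (i + 1), ← Finset.sum_add_distrib]
      simp only [Nat.choose_succ_succ, Nat.cast_add, add_mul, Nat.choose_zero_right,
        Nat.cast_one, one_mul]
    rw [e5, e7]
    have e8 : ∑ m ∈ range (i + 1), (i.choose m : ℝ) * (F m + F (m + 1)) =
        ∑ m ∈ range (i + 1), (i.choose m : ℝ) * F m +
          ∑ m ∈ range (i + 1), (i.choose m : ℝ) * F (m + 1) := by
      rw [← Finset.sum_add_distrib]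
      exact Finset.sum_congr rfl fun m _ => by ring
    rw [e8]
    have e6 : ∑ m ∈ range (i + 1), (i.choose m : ℝ) * F m =
        ∑ m ∈ range (i + 1), (i.choose (m + 1) : ℝ) * F (m + 1) + F 0 := by
      have h1 : ∑ m ∈ range (i + 1 + 1), (i.choose m : ℝ) * F m =
          ∑ m ∈ range (i + 1), (i.choose m : ℝ) * F m := by
        rw [Finset.sum_range_succ _ (i + 1)]
        simp
      rw [← h1, Finset.sum_range_succ']
      simp
    rw [e6]
    ring

/-- closed walks of length `2 k` in a graph without cycles of length at most `2 k` -/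
theorem diag_le {k : ℕ} (hg : ∀ (v : V) (p : G.Walk v v), p.IsCycle → 2 * k < p.length)
    (D : ℝ) (hD : ∀ v, (G.degree v : ℝ) ≤ D) (v : V) :
    (G.adjMatrix ℝ ^ (2 * k)) v v ≤ ((2 * k).choose k : ℝ) * D ^ k := by
  refine (pow_le_sum G v D hD (2 * k) v).trans (le_of_eq ?_)
  rw [Finset.sum_eq_single_of_mem k (by rw [Finset.mem_range]; omega)]
  · unfold SZ
    have h1 : ¬ (((2 * k : ℕ) : ℤ) - 2 * (k : ℤ) < 0) := by push_cast; omega
    have h2 : (((2 * k : ℕ) : ℤ) - 2 * (k : ℤ)).toNat = 0 := by push_cast; omega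
    rw [if_neg h1, h2]
    unfold SS
    simp
  · intro m _ hm
    unfold SZ
    split_ifs with h1
    · ring
    · have h2 : 1 ≤ (((2 * k : ℕ) : ℤ) - 2 * (m : ℤ)).toNat := by omega
      have h3 : (((2 * k : ℕ) : ℤ) - 2 * (m : ℤ)).toNat ≤ 2 * k := by omega
      rw [SS_zero G hg v _ h2 h3, mul_zero]

end Pool.Agent.N721.SR
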