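import Pool.Agent.N721.SR.Part
import Pool.Agent.H268R2.LB.NW

/-! # Closed walks in graphs without `C_{2k}` -/

set_option autoImplicit false
set_option maxHeartbeats 400000
set_option linter.unusedSectionVars false

open Finset

namespace Pool.Agent.N721.SR

variable {V : Type} [Fintype V] [DecidableEq V] (G : SimpleGraph V) [DecidableRel G.Adj]

theorem three (v u : V) (n i j : ℕ) (hij : i ≤ j) (hj : j ≤ n) :
    #((G.finsetWalkLength n v v).filter fun p => p.getVert i = u ∧ p.getVert j = u) ≤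
      #(G.finsetWalkLength i v u) * #(G.finsetWalkLength (j - i) u u) *
        #(G.finsetWalkLength (n - j) u v) := by
  rw [mul_assoc, ← card_product, ← card_product]
  refine le_trans (card_le_card ?_) (card_image_le (s := G.finsetWalkLength i v u ×ˢ
    (G.finsetWalkLength (j - i) u u ×ˢ G.finsetWalkLength (n - j) u v))
    (f := fun q : G.Walk v u × (G.Walk u u × G.Walk u v) => q.1.append (q.2.1.append q.2.2)))
  intro p hp
  rw [mem_filter, SimpleGraph.mem_finsetWalkLength_iff] at hp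
  obtain ⟨hl, h1, h2⟩ := hp
  rw [mem_image]
  have h3 : (p.drop i).getVert (j - i) = u := by
    rw [SimpleGraph.Walk.drop_getVert, ← h2]
    congr 1
    omega
  refine ⟨((p.take i).copy rfl h1, (((p.drop i).take (j - i)).copy h1 h3,
    (p.drop j).copy h2 rfl)), ?_, ?_⟩
  · simp only [mem_product, SimpleGraph.mem_finsetWalkLength_iff, SimpleGraph.Walk.length_copy,
      SimpleGraph.Walk.take_length, SimpleGraph.Walk.drop_length, hl]
    exact ⟨min_eq_left (by omega), min_eq_left (by omega), trivial⟩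
  · apply SimpleGraph.Walk.ext_getVert
    intro t
    simp only [SimpleGraph.Walk.getVert_append, SimpleGraph.Walk.getVert_copy,
      SimpleGraph.Walk.length_copy, SimpleGraph.Walk.take_length, SimpleGraph.Walk.drop_length,
      SimpleGraph.Walk.take_getVert, SimpleGraph.Walk.drop_getVert, hl]
    split_ifs with h4 h5
    · congr 1; omega
    · congr 1; omega
    · congr 1; omega

theorem pow_eq_card (n : ℕ) (u v : V) :
    (G.adjMatrix ℝ ^ n) u v = (#(G.finsetWalkLength n u v) : ℝ) := by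
  rw [SimpleGraph.adjMatrix_pow_apply_eq_card_walk, SimpleGraph.card_set_walk_length_eq]

theorem two_eq (v : V) (n i j : ℕ) (hij : i ≤ j) (hj : j ≤ n) :
    (#((G.finsetWalkLength n v v).filter fun p => p.getVert i = p.getVert j) : ℝ) ≤
      ∑ u, (G.adjMatrix ℝ ^ i) v u * (G.adjMatrix ℝ ^ (j - i)) u u *
        (G.adjMatrix ℝ ^ (n - j)) u v := by
  have h1 : #((G.finsetWalkLength n v v).filter fun p => p.getVert i = p.getVert j) =
      ∑ u, #((G.finsetWalkLength n v v).filter fun p => p.getVert i = u ∧ p.getVert j = u) := by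
    rw [card_eq_sum_card_fiberwise (f := fun p => p.getVert i) (t := univ)
      (fun _ _ => mem_coe.2 (mem_univ _))]
    refine sum_congr rfl fun u _ => ?_
    congr 1
    ext p
    simp only [mem_filter]
    constructor
    · rintro ⟨⟨h1, h2⟩, h3⟩
      exact ⟨h1, h3, h2 ▸ h3⟩
    · rintro ⟨h1, h2, h3⟩
      exact ⟨⟨h1, h2.trans h3.symm⟩, h2⟩
  rw [h1]
  push_cast
  refine sum_le_sum fun u _ => ?_
  simp only [pow_eq_card]
  exact_mod_cast three G v u n i j hij hj

theorem sum_two_eq (n i j : ℕ) (hij : i ≤ j) (hj : j ≤ n) :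
    ∑ v, (#((G.finsetWalkLength n v v).filter fun p => p.getVert i = p.getVert j) : ℝ) ≤
      ∑ u, (G.adjMatrix ℝ ^ (j - i)) u u * (G.adjMatrix ℝ ^ (n - (j - i))) u u := by
  calc _ ≤ ∑ v, ∑ u, (G.adjMatrix ℝ ^ i) v u * (G.adjMatrix ℝ ^ (j - i)) u u *
        (G.adjMatrix ℝ ^ (n - j)) u v := sum_le_sum fun v _ => two_eq G v n i j hij hj
    _ = ∑ u, (G.adjMatrix ℝ ^ (j - i)) u u *
          ∑ v, (G.adjMatrix ℝ ^ (n - j)) u v * (G.adjMatrix ℝ ^ i) v u := by
        rw [sum_comm]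
        refine sum_congr rfl fun u _ => ?_
        rw [mul_sum]
        exact sum_congr rfl fun v _ => by ring
    _ = _ := by
        refine sum_congr rfl fun u _ => ?_
        have e : n - j + i = n - (j - i) := by omega
        rw [← Matrix.mul_apply, ← pow_add, e]

open Pool.Agent.H268R2.LB in
theorem degenerate {k : ℕ} (hk : 2 ≤ k) (hG : (SimpleGraph.cycleGraph (2 * k)).Free G) (v : V)
    (p : G.Walk v v) (hp : p.length = 2 * k) :
    ∃ i j, i < j ∧ j < 2 * k ∧ p.getVert i = p.getVert j := by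
  by_contra hcon
  push Not at hcon
  obtain ⟨w, q, hq, hl⟩ := cycle_of_fun (G := G) (fun t => p.getVert t) (2 * k) (by omega)
    (fun i hi => p.adj_getVert_succ (by omega))
    (by simp only [SimpleGraph.Walk.getVert_zero]; rw [← hp, SimpleGraph.Walk.getVert_length])
    (by
      intro i j hi hj hij
      rcases lt_trichotomy i j with h | h | h
      · exact absurd hij (hcon i j h hj)
      · exact h
      · exact absurd hij.symm (hcon j i h hi))
  exact hG ((SimpleGraph.cycleGraph_isContained_iff (by omega)).2 ⟨w, q, hq, hl⟩)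

theorem trace_le_pairs {k : ℕ} (hk : 2 ≤ k) (hG : (SimpleGraph.cycleGraph (2 * k)).Free G) :
    ∑ v, (G.adjMatrix ℝ ^ (2 * k)) v v ≤
      ∑ q ∈ (range (2 * k) ×ˢ range (2 * k)).filter (fun q => q.1 < q.2),
        ∑ u, (G.adjMatrix ℝ ^ (q.2 - q.1)) u u * (G.adjMatrix ℝ ^ (2 * k - (q.2 - q.1))) u u := by
  set Q := (range (2 * k) ×ˢ range (2 * k)).filter (fun q => q.1 < q.2) with hQ
  have h1 : ∀ v, (G.adjMatrix ℝ ^ (2 * k)) v v ≤ ∑ q ∈ Q,
      (#((G.finsetWalkLength (2 * k) v v).filter fun p => p.getVert q.1 = p.getVert q.2) : ℝ) := by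
    intro v
    rw [pow_eq_card]
    have h2 : G.finsetWalkLength (2 * k) v v ⊆ Q.biUnion fun q =>
        (G.finsetWalkLength (2 * k) v v).filter fun p => p.getVert q.1 = p.getVert q.2 := by
      intro p hp
      obtain ⟨i, j, hij, hj, he⟩ := degenerate G hk hG v p
        (SimpleGraph.mem_finsetWalkLength_iff.1 hp)
      rw [mem_biUnion]
      refine ⟨(i, j), ?_, ?_⟩
      · rw [hQ, mem_filter, mem_product, mem_range, mem_range]
        exact ⟨⟨by simp only; omega, hj⟩, hij⟩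
      · rw [mem_filter]
        exact ⟨hp, he⟩
    exact_mod_cast (card_le_card h2).trans card_biUnion_le
  calc ∑ v, (G.adjMatrix ℝ ^ (2 * k)) v v ≤ ∑ v, ∑ q ∈ Q,
      (#((G.finsetWalkLength (2 * k) v v).filter fun p => p.getVert q.1 = p.getVert q.2) : ℝ) :=
        sum_le_sum fun v _ => h1 v
    _ = ∑ q ∈ Q, ∑ v, (#((G.finsetWalkLength (2 * k) v v).filter
          fun p => p.getVert q.1 = p.getVert q.2) : ℝ) := sum_comm
    _ ≤ _ := by
        refine sum_le_sum fun q hq => ?_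
        rw [hQ, mem_filter, mem_product, mem_range, mem_range] at hq
        exact sum_two_eq G (2 * k) q.1 q.2 hq.2.le hq.1.2.le

theorem muirhead (a b : ℝ) (ha : 0 ≤ a) (hb : 0 ≤ b) (p q : ℕ) :
    a ^ (p + 2) * b ^ (q + 2) + a ^ (q + 2) * b ^ (p + 2) ≤
      a ^ 2 * b ^ (p + q + 2) + a ^ (p + q + 2) * b ^ 2 := by
  have h : 0 ≤ (a ^ p - b ^ p) * (a ^ q - b ^ q) := by
    rcases le_total a b with h | h
    · exact mul_nonneg_of_nonpos_of_nonpos (sub_nonpos.2 (pow_le_pow_left₀ ha h p))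
        (sub_nonpos.2 (pow_le_pow_left₀ ha h q))
    · exact mul_nonneg (sub_nonneg.2 (pow_le_pow_left₀ hb h p))
        (sub_nonneg.2 (pow_le_pow_left₀ hb h q))
  have h2 : 0 ≤ a ^ 2 * b ^ 2 * ((a ^ p - b ^ p) * (a ^ q - b ^ q)) := by positivity
  have e : a ^ 2 * b ^ (p + q + 2) + a ^ (p + q + 2) * b ^ 2 -
      (a ^ (p + 2) * b ^ (q + 2) + a ^ (q + 2) * b ^ (p + 2)) =
      a ^ 2 * b ^ 2 * ((a ^ p - b ^ p) * (a ^ q - b ^ q)) := by
    simp only [pow_add]; ring
  linarith

variable {G}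

theorem diag_mul {φ : V → V → ℝ} {l : V → ℝ} {A : Matrix V V ℝ} (h : Eig A φ l) (u : V)
    (p q : ℕ) :
    (A ^ (p + 2)) u u * (A ^ (q + 2)) u u ≤
      (∑ i, l i ^ 2 * φ i u ^ 2) * ∑ i, |l i| ^ (p + q + 2) * φ i u ^ 2 := by
  have h1 : ∀ m, |(A ^ m) u u| ≤ ∑ i, |l i| ^ m * φ i u ^ 2 := by
    intro m
    rw [h.pow_entry m u u]
    refine (abs_sum_le_sum_abs _ _).trans (le_of_eq ?_)
    refine sum_congr rfl fun i _ => ?_
    have e : l i ^ m * φ i u * φ i u = l i ^ m * φ i u ^ 2 := by ring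
    rw [e, abs_mul, abs_pow, abs_of_nonneg (sq_nonneg (φ i u))]
  have h2 : (A ^ (p + 2)) u u * (A ^ (q + 2)) u u ≤
      (∑ i, |l i| ^ (p + 2) * φ i u ^ 2) * ∑ j, |l j| ^ (q + 2) * φ j u ^ 2 := by
    calc _ ≤ |(A ^ (p + 2)) u u * (A ^ (q + 2)) u u| := le_abs_self _
      _ = |(A ^ (p + 2)) u u| * |(A ^ (q + 2)) u u| := abs_mul _ _
      _ ≤ _ := mul_le_mul (h1 _) (h1 _) (abs_nonneg _)
        (sum_nonneg fun i _ => mul_nonneg (pow_nonneg (abs_nonneg _) _) (sq_nonneg _))
  have h3 : ∀ F : V → V → ℝ, ∑ i, ∑ j, F i j + ∑ i, ∑ j, F i j =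
      ∑ i, ∑ j, (F i j + F j i) := by
    intro F
    simp only [sum_add_distrib]
    congr 1
    exact sum_comm
  have h4 : (∑ i, |l i| ^ (p + 2) * φ i u ^ 2) * ∑ j, |l j| ^ (q + 2) * φ j u ^ 2 =
      ∑ i, ∑ j, |l i| ^ (p + 2) * φ i u ^ 2 * (|l j| ^ (q + 2) * φ j u ^ 2) := by
    rw [sum_mul_sum]
  have h5 : (∑ i, l i ^ 2 * φ i u ^ 2) * ∑ j, |l j| ^ (p + q + 2) * φ j u ^ 2 =
      ∑ i, ∑ j, |l i| ^ 2 * φ i u ^ 2 * (|l j| ^ (p + q + 2) * φ j u ^ 2) := by
    rw [sum_mul_sum]
    simp only [sq_abs]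
  have h6 := h3 fun i j => |l i| ^ (p + 2) * φ i u ^ 2 * (|l j| ^ (q + 2) * φ j u ^ 2)
  have h7 := h3 fun i j => |l i| ^ 2 * φ i u ^ 2 * (|l j| ^ (p + q + 2) * φ j u ^ 2)
  have h8 : ∑ i, ∑ j, (|l i| ^ (p + 2) * φ i u ^ 2 * (|l j| ^ (q + 2) * φ j u ^ 2) +
      |l j| ^ (p + 2) * φ j u ^ 2 * (|l i| ^ (q + 2) * φ i u ^ 2)) ≤
      ∑ i, ∑ j, (|l i| ^ 2 * φ i u ^ 2 * (|l j| ^ (p + q + 2) * φ j u ^ 2) +
      |l j| ^ 2 * φ j u ^ 2 * (|l i| ^ (p + q + 2) * φ i u ^ 2)) := by
    refine sum_le_sum fun i _ => sum_le_sum fun j _ => ?_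
    have hm := muirhead |l i| |l j| (abs_nonneg _) (abs_nonneg _) p q
    have hp : 0 ≤ φ i u ^ 2 * φ j u ^ 2 := by positivity
    have := mul_le_mul_of_nonneg_right hm hp
    calc _ = (|l i| ^ (p + 2) * |l j| ^ (q + 2) + |l i| ^ (q + 2) * |l j| ^ (p + 2)) *
          (φ i u ^ 2 * φ j u ^ 2) := by ring
      _ ≤ _ := this
      _ = _ := by ring
  rw [h4] at h2
  rw [h5]
  linarith

theorem trace_C2k (G : SimpleGraph V) [DecidableRel G.Adj] {k : ℕ} (hk : 2 ≤ k)
    (hG : (SimpleGraph.cycleGraph (2 * k)).Free G) (D : ℝ)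
    (hD : ∀ v, (G.degree v : ℝ) ≤ D) :
    ∑ v, (G.adjMatrix ℝ ^ (2 * k)) v v ≤
      (8 * (k : ℝ) ^ 2) ^ (k - 1) * D ^ k * Fintype.card V := by
  rcases isEmpty_or_nonempty V with hV | ⟨⟨v0⟩⟩
  · simp
  have hD0 : 0 ≤ D := le_trans (Nat.cast_nonneg _) (hD v0)
  have hA : (G.adjMatrix ℝ).IsHermitian := by
    rw [Matrix.IsHermitian, Matrix.conjTranspose_eq_transpose_of_trivial]
    exact G.transpose_adjMatrix
  have h := exists_eig hA
  set φ : V → V → ℝ := fun i v => hA.eigenvectorBasis i v with hφ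
  set l := hA.eigenvalues with hl
  set A := G.adjMatrix ℝ with hAdef
  set T : ℝ := ∑ i, l i ^ (2 * k - 2) with hT
  set W : ℝ := ∑ i, l i ^ (2 * k) with hW
  have hA2 : ∀ u, (A ^ 2) u u = G.degree u := by
    intro u
    rw [hAdef, pow_two, SimpleGraph.adjMatrix_mul_self_apply_self]
  have hsq : ∀ u, ∑ i, l i ^ 2 * φ i u ^ 2 ≤ D := by
    intro u
    have e : (A ^ 2) u u = ∑ i, l i ^ 2 * φ i u ^ 2 := h.diag 1 u
    rw [← e, hA2]
    exact hD u
  have hT0 : 0 ≤ T := by
    refine sum_nonneg fun i _ => ?_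
    have e : 2 * k - 2 = 2 * (k - 1) := by omega
    rw [e, pow_mul]; positivity
  have hpair : ∀ m : ℕ, 1 ≤ m → m ≤ 2 * k - 1 →
      ∑ u, (A ^ m) u u * (A ^ (2 * k - m)) u u ≤ D * T := by
    intro m h1 h2
    have hA1 : ∀ u, (A ^ 1) u u = 0 := by
      intro u
      rw [pow_one, hAdef, SimpleGraph.adjMatrix_apply, if_neg (G.loopless.irrefl u)]
    rcases Nat.eq_or_lt_of_le h1 with h3 | h3
    · have : ∀ u, (A ^ m) u u * (A ^ (2 * k - m)) u u = 0 := by
        intro u
        rw [← h3, hA1 u, zero_mul]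
      rw [sum_congr rfl fun u _ => this u, sum_const_zero]
      positivity
    rcases Nat.eq_or_lt_of_le h2 with h4 | h4
    · have : ∀ u, (A ^ m) u u * (A ^ (2 * k - m)) u u = 0 := by
        intro u
        have e : 2 * k - m = 1 := by omega
        rw [e, hA1 u, mul_zero]
      rw [sum_congr rfl fun u _ => this u, sum_const_zero]
      positivity
    · obtain ⟨p, rfl⟩ : ∃ p, m = p + 2 := ⟨m - 2, by omega⟩
      obtain ⟨q, hq⟩ : ∃ q, 2 * k - (p + 2) = q + 2 := ⟨2 * k - (p + 2) - 2, by omega⟩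
      rw [hq]
      have hpq : p + q + 2 = 2 * k - 2 := by omega
      have h5 : ∀ u, (A ^ (p + 2)) u u * (A ^ (q + 2)) u u ≤
          D * ∑ i, |l i| ^ (2 * k - 2) * φ i u ^ 2 := by
        intro u
        refine (diag_mul h u p q).trans ?_
        rw [hpq]
        exact mul_le_mul_of_nonneg_right (hsq u)
          (sum_nonneg fun i _ => mul_nonneg (pow_nonneg (abs_nonneg _) _) (sq_nonneg _))
      calc _ ≤ ∑ u, D * ∑ i, |l i| ^ (2 * k - 2) * φ i u ^ 2 := sum_le_sum fun u _ => h5 u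
        _ = D * ∑ i, |l i| ^ (2 * k - 2) * ∑ u, φ i u ^ 2 := by
            rw [← mul_sum, sum_comm]
            congr 1
            exact sum_congr rfl fun i _ => by rw [mul_sum]
        _ = D * T := by
            congr 1
            refine sum_congr rfl fun i _ => ?_
            have e1 : ∑ u, φ i u ^ 2 = 1 := by
              have := h.orth i i
              rw [if_pos rfl] at this
              rw [← this]
              exact sum_congr rfl fun u _ => by ring
            have e2 : 2 * k - 2 = 2 * (k - 1) := by omega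
            rw [e1, mul_one, e2, pow_mul, pow_mul, sq_abs]
  have htr : ∑ v, (A ^ (2 * k)) v v = W := h.trace k
  have htr2 : ∑ i, l i ^ 2 ≤ D * Fintype.card V := by
    have e : ∑ v, (A ^ 2) v v = ∑ i, l i ^ 2 := h.trace 1
    rw [← e]
    calc ∑ v, (A ^ 2) v v ≤ ∑ _v : V, D := sum_le_sum fun v _ => by rw [hA2]; exact hD v
      _ = _ := by rw [sum_const, nsmul_eq_mul, card_univ]; ring
  set B : ℝ := 4 * (k : ℝ) ^ 2 * D with hB
  have hB0 : 0 ≤ B := by positivity
  have hWT : W ≤ B * T := by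
    rw [← htr]
    refine (trace_le_pairs G hk hG).trans ?_
    set Q := (range (2 * k) ×ˢ range (2 * k)).filter (fun q => q.1 < q.2) with hQ
    calc ∑ q ∈ Q, ∑ u, (A ^ (q.2 - q.1)) u u * (A ^ (2 * k - (q.2 - q.1))) u u
        ≤ ∑ _q ∈ Q, D * T := by
          refine sum_le_sum fun q hq => ?_
          rw [hQ, mem_filter, mem_product, mem_range, mem_range] at hq
          exact hpair _ (by omega) (by omega)
      _ = (#Q : ℝ) * (D * T) := by rw [sum_const, nsmul_eq_mul]
      _ ≤ (4 * (k : ℝ) ^ 2) * (D * T) := by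
          refine mul_le_mul_of_nonneg_right ?_ (by positivity)
          have h1 : #Q ≤ #(range (2 * k) ×ˢ range (2 * k)) := card_filter_le _ _
          rw [card_product, card_range] at h1
          have h2 : ((#Q : ℕ) : ℝ) ≤ ((2 * k * (2 * k) : ℕ) : ℝ) := by exact_mod_cast h1
          refine h2.trans (le_of_eq ?_)
          push_cast
          ring
      _ = B * T := by rw [hB]; ring
  rw [htr]
  rcases hB0.eq_or_lt with hBz | hBpos
  · rw [← hBz, zero_mul] at hWT
    refine hWT.trans (by positivity)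
  · have hpt : ∀ i, l i ^ (2 * k - 2) ≤ l i ^ (2 * k) / (2 * B) + (2 * B) ^ (k - 2) * l i ^ 2 := by
      intro i
      have e1 : l i ^ (2 * k - 2) = (l i ^ 2) ^ (k - 1) := by
        rw [← pow_mul]; congr 1; omega
      have e2 : l i ^ (2 * k) = (l i ^ 2) ^ k := by rw [← pow_mul]
      rw [e1, e2]
      set x := l i ^ 2 with hx
      have hx0 : 0 ≤ x := sq_nonneg _
      rcases le_total (2 * B) x with hc | hc
      · have h1 : x ^ (k - 1) ≤ x ^ k / (2 * B) := by
          rw [le_div_iff₀ (by positivity)]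
          have : x ^ k = x ^ (k - 1) * x := by
            rw [← pow_succ]; congr 1; omega
          rw [this]
          exact mul_le_mul_of_nonneg_left hc (by positivity)
        have h2 : 0 ≤ (2 * B) ^ (k - 2) * x := by positivity
        linarith
      · have h1 : x ^ (k - 1) ≤ (2 * B) ^ (k - 2) * x := by
          have : x ^ (k - 1) = x ^ (k - 2) * x := by
            rw [← pow_succ]; congr 1; omega
          rw [this]
          exact mul_le_mul_of_nonneg_right (pow_le_pow_left₀ hx0 hc _) hx0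
        have h2 : 0 ≤ x ^ k / (2 * B) := by positivity
        linarith
    have hTle : T ≤ W / (2 * B) + (2 * B) ^ (k - 2) * (D * Fintype.card V) := by
      calc T ≤ ∑ i, (l i ^ (2 * k) / (2 * B) + (2 * B) ^ (k - 2) * l i ^ 2) :=
            sum_le_sum fun i _ => hpt i
        _ = W / (2 * B) + (2 * B) ^ (k - 2) * ∑ i, l i ^ 2 := by
            rw [sum_add_distrib, ← sum_div, ← mul_sum]
        _ ≤ _ := by gcongr
    have h1 : W ≤ W / 2 + B * ((2 * B) ^ (k - 2) * (D * Fintype.card V)) := by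
      calc W ≤ B * T := hWT
        _ ≤ B * (W / (2 * B) + (2 * B) ^ (k - 2) * (D * Fintype.card V)) := by gcongr
        _ = _ := by field_simp
    have h2 : W ≤ (2 * B) ^ (k - 1) * (D * Fintype.card V) := by
      have : (2 * B) ^ (k - 1) = 2 * B * (2 * B) ^ (k - 2) := by
        rw [← pow_succ']; congr 1; omega
      rw [this]
      linarith
    refine h2.trans (le_of_eq ?_)
    have e1 : 2 * B = 8 * (k : ℝ) ^ 2 * D := by rw [hB]; ring
    rw [e1, mul_pow]
    have e2 : D ^ k = D ^ (k - 1) * D := by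
      rw [← pow_succ]; congr 1; omega
    rw [e2]
    ring

end Pool.Agent.N721.SR
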