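import Pool.Agent.N721.SR.Kst
import Pool.Agent.N721.SR.Trace

/-! # Graphs without `K_{r,r}`: second moments of degrees into sets -/

set_option autoImplicit false
set_option maxHeartbeats 400000
set_option linter.unusedSectionVars false

open Finset

namespace Pool.Agent.N721.SR

variable {V : Type} [Fintype V] [DecidableEq V] (G : SimpleGraph V) [DecidableRel G.Adj]

/-- the number of neighbours in `Q` -/
def dQ (Q : Finset V) (u : V) : ℕ := #(Q.filter fun v => G.Adj u v)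

theorem dQ_count (r : ℕ) (hG : (completeBipartiteGraph (Fin r) (Fin r)).Free G) (Q : Finset V) :
    ∑ v, (dQ G Q v + 1 - r) ^ r ≤ r * #Q ^ r := by
  classical
  have h1 : ∑ v, (dQ G Q v).choose r = ∑ S ∈ powersetCard r Q,
      #(univ.filter fun v => S ⊆ G.neighborFinset v) := by
    have e1 : ∀ v, (dQ G Q v).choose r =
        #((powersetCard r Q).filter fun S => S ⊆ G.neighborFinset v) := by
      intro v
      rw [dQ, ← card_powersetCard]
      congr 1
      ext S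
      simp only [mem_powersetCard, mem_filter]
      constructor
      · rintro ⟨h1, h2⟩
        refine ⟨⟨fun x hx => (mem_filter.1 (h1 hx)).1, h2⟩, fun x hx => ?_⟩
        rw [SimpleGraph.mem_neighborFinset]
        exact (mem_filter.1 (h1 hx)).2
      · rintro ⟨⟨h1, h2⟩, h3⟩
        refine ⟨fun x hx => mem_filter.2 ⟨h1 hx, ?_⟩, h2⟩
        have := h3 hx
        rwa [SimpleGraph.mem_neighborFinset] at this
    simp only [e1, card_filter]
    exact sum_comm
  have h2 : ∑ v, (dQ G Q v).choose r ≤ (#Q).choose r * r := by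
    rw [h1]
    calc _ ≤ ∑ _S ∈ powersetCard r Q, r :=
          sum_le_sum fun S hS => (kst_free G r hG S (mem_powersetCard.1 hS).2).le
      _ = _ := by rw [sum_const, card_powersetCard, smul_eq_mul]
  calc ∑ v, (dQ G Q v + 1 - r) ^ r ≤ ∑ v, r.factorial * (dQ G Q v).choose r := by
        refine sum_le_sum fun v _ => ?_
        rw [← Nat.descFactorial_eq_factorial_mul_choose]
        exact Nat.pow_sub_le_descFactorial _ _
    _ = r.factorial * ∑ v, (dQ G Q v).choose r := by rw [mul_sum]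
    _ ≤ r.factorial * ((#Q).choose r * r) := Nat.mul_le_mul_left _ h2
    _ = r * (r.factorial * (#Q).choose r) := by ring
    _ = r * (#Q).descFactorial r := by
        rw [Nat.descFactorial_eq_factorial_mul_choose]
    _ ≤ _ := Nat.mul_le_mul_left _ (Nat.descFactorial_le_pow _ _)

/-- the second moment -/
theorem dQ_sq (r : ℕ) (hr : 2 ≤ r) (hG : (completeBipartiteGraph (Fin r) (Fin r)).Free G)
    (Q : Finset V) (hn : 0 < Fintype.card V) :
    ∑ v, (dQ G Q v : ℝ) ^ 2 ≤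
      2 * r * (Fintype.card V : ℝ) ^ (1 - 2 / (r : ℝ)) * (#Q : ℝ) ^ 2 +
        2 * (r : ℝ) ^ 2 * Fintype.card V := by
  set n : ℝ := (Fintype.card V : ℝ) with hnd
  have hn0 : 0 < n := by rw [hnd]; exact_mod_cast hn
  have hr0 : (0 : ℝ) < r := by
    have : 0 < r := by omega
    exact_mod_cast this
  have hr2 : (2 : ℝ) ≤ r := by exact_mod_cast hr
  set e : V → ℝ := fun v => ((dQ G Q v + 1 - r : ℕ) : ℝ) with he
  have he0 : ∀ v, 0 ≤ e v := fun v => Nat.cast_nonneg _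
  have h1 : ∑ v, e v ^ r ≤ (r : ℝ) * (#Q : ℝ) ^ r := by
    have h0 : ((∑ v, (dQ G Q v + 1 - r) ^ r : ℕ) : ℝ) ≤ ((r * #Q ^ r : ℕ) : ℝ) := by
      exact_mod_cast dQ_count G r hG Q
    simp only [Nat.cast_sum, Nat.cast_pow, Nat.cast_mul] at h0
    exact h0
  have h2 := Real.rpow_arith_mean_le_arith_mean_rpow univ (fun _ : V => 1 / n) (fun v => e v ^ 2)
    (fun _ _ => by positivity) (by
      rw [sum_const, card_univ, nsmul_eq_mul, ← hnd, mul_one_div_cancel hn0.ne'])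
    (fun v _ => sq_nonneg _) (p := (r : ℝ) / 2) (by linarith)
  have h3 : ∀ v, (e v ^ 2) ^ ((r : ℝ) / 2) = e v ^ r := by
    intro v
    rw [← Real.rpow_natCast (e v) 2, ← Real.rpow_mul (he0 v), ← Real.rpow_natCast (e v) r]
    congr 1
    push_cast
    ring
  simp only [h3, ← mul_sum] at h2
  set E := ∑ v, e v ^ 2 with hE
  have hE0 : 0 ≤ E := sum_nonneg fun v _ => sq_nonneg _
  have h4 : (1 / n * E) ^ ((r : ℝ) / 2) ≤ (r : ℝ) * (#Q : ℝ) ^ r / n := by
    calc (1 / n * E) ^ ((r : ℝ) / 2) ≤ 1 / n * ∑ v, e v ^ r := h2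
      _ ≤ 1 / n * ((r : ℝ) * (#Q : ℝ) ^ r) := mul_le_mul_of_nonneg_left h1 (by positivity)
      _ = _ := by ring
  have h5 : 1 / n * E ≤ ((r : ℝ) * (#Q : ℝ) ^ r / n) ^ (2 / (r : ℝ)) := by
    calc 1 / n * E = ((1 / n * E) ^ ((r : ℝ) / 2)) ^ (2 / (r : ℝ)) := by
          rw [← Real.rpow_mul (by positivity)]
          have : (r : ℝ) / 2 * (2 / (r : ℝ)) = 1 := by field_simp
          rw [this, Real.rpow_one]
      _ ≤ _ := Real.rpow_le_rpow (by positivity) h4 (by positivity)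
  have h6 : ((r : ℝ) * (#Q : ℝ) ^ r / n) ^ (2 / (r : ℝ)) ≤
      (r : ℝ) * (#Q : ℝ) ^ 2 * n ^ (-(2 / (r : ℝ))) := by
    rw [div_eq_mul_inv, Real.mul_rpow (by positivity) (by positivity),
      Real.mul_rpow (by positivity) (by positivity)]
    have e1 : ((#Q : ℝ) ^ r) ^ (2 / (r : ℝ)) = (#Q : ℝ) ^ 2 := by
      rw [← Real.rpow_natCast, ← Real.rpow_mul (by positivity)]
      have : (r : ℝ) * (2 / (r : ℝ)) = ((2 : ℕ) : ℝ) := by push_cast; field_simp
      rw [this, Real.rpow_natCast]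
    have e2 : (r : ℝ) ^ (2 / (r : ℝ)) ≤ r := by
      calc (r : ℝ) ^ (2 / (r : ℝ)) ≤ (r : ℝ) ^ (1 : ℝ) := by
            refine Real.rpow_le_rpow_of_exponent_le (by linarith) ?_
            rw [div_le_one hr0]; exact hr2
        _ = r := Real.rpow_one _
    have e3 : (n⁻¹) ^ (2 / (r : ℝ)) = n ^ (-(2 / (r : ℝ))) := by
      rw [Real.inv_rpow hn0.le, Real.rpow_neg hn0.le]
    rw [e1, e3]
    gcongr
  have h7 : E ≤ r * n ^ (1 - 2 / (r : ℝ)) * (#Q : ℝ) ^ 2 := by
    have h8 : n ^ (1 - 2 / (r : ℝ)) = n * n ^ (-(2 / (r : ℝ))) := by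
      rw [sub_eq_add_neg, Real.rpow_add hn0, Real.rpow_one]
    have h9 : E = n * (1 / n * E) := by field_simp
    rw [h9, h8]
    calc n * (1 / n * E) ≤ n * ((r : ℝ) * (#Q : ℝ) ^ 2 * n ^ (-(2 / (r : ℝ)))) :=
          mul_le_mul_of_nonneg_left (h5.trans h6) hn0.le
      _ = _ := by ring
  calc ∑ v, (dQ G Q v : ℝ) ^ 2 ≤ ∑ v, (2 * e v ^ 2 + 2 * (r : ℝ) ^ 2) := by
        refine sum_le_sum fun v _ => ?_
        have h8 : (dQ G Q v : ℝ) ≤ e v + r := by
          have : dQ G Q v ≤ (dQ G Q v + 1 - r) + r := by omega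
          have h9 : (dQ G Q v : ℝ) ≤ ((dQ G Q v + 1 - r : ℕ) : ℝ) + (r : ℝ) := by
            exact_mod_cast this
          exact h9
        have h10 : (0 : ℝ) ≤ dQ G Q v := Nat.cast_nonneg _
        nlinarith [sq_nonneg (e v - r), he0 v]
    _ = 2 * E + n * (2 * (r : ℝ) ^ 2) := by
        rw [sum_add_distrib, ← mul_sum, sum_const, card_univ, nsmul_eq_mul]
    _ ≤ _ := by linarith

theorem dQ_eq (Q : Finset V) (u : V) : (dQ G Q u : ℝ) = ∑ v ∈ Q, G.adjMatrix ℝ u v := by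
  unfold dQ
  rw [card_filter]
  push_cast
  exact sum_congr rfl fun v _ => by rw [SimpleGraph.adjMatrix_apply]

theorem pow_four_diag (u : V) :
    (G.adjMatrix ℝ ^ 4) u u = ∑ v, (dQ G (G.neighborFinset u) v : ℝ) ^ 2 := by
  have h1 : ∀ v, (G.adjMatrix ℝ ^ 2) u v = (dQ G (G.neighborFinset u) v : ℝ) := by
    intro v
    rw [dQ_eq, pow_two, Matrix.mul_apply, G.neighborFinset_eq_filter, sum_filter]
    refine sum_congr rfl fun w _ => ?_
    rw [SimpleGraph.adjMatrix_apply, SimpleGraph.adjMatrix_apply, SimpleGraph.adjMatrix_apply]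
    by_cases h1 : G.Adj u w <;> by_cases h2 : G.Adj v w
    · simp [h1, h2, h2.symm]
    · have h3 : ¬ G.Adj w v := fun h => h2 h.symm
      simp [h1, h2, h3]
    · simp [h1]
    · simp [h1]
  have h2 : (G.adjMatrix ℝ ^ 2).transpose = G.adjMatrix ℝ ^ 2 := by
    rw [Matrix.transpose_pow, SimpleGraph.transpose_adjMatrix]
  have h3 : (4 : ℕ) = 2 + 2 := rfl
  rw [h3, pow_add, Matrix.mul_apply]
  refine sum_congr rfl fun v _ => ?_
  have h4 : (G.adjMatrix ℝ ^ 2) v u = (G.adjMatrix ℝ ^ 2) u v := by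
    have := congrFun (congrFun h2 u) v
    rwa [Matrix.transpose_apply] at this
  rw [h4, h1]
  ring

/-- the diagonal of `A ^ 4` -/
theorem diag_four (r : ℕ) (hr : 2 ≤ r) (hG : (completeBipartiteGraph (Fin r) (Fin r)).Free G)
    (b : ℝ)
    (hD : ∀ v, (G.degree v : ℝ) ≤ b * (Fintype.card V : ℝ) ^ (1 - 1 / (r : ℝ))) (u : V) :
    (G.adjMatrix ℝ ^ (2 * 2)) u u * (Fintype.card V : ℝ) ≤
      (2 * r * b ^ 2 + 2 * (r : ℝ) ^ 2) *
        ((Fintype.card V : ℝ) ^ (1 - 1 / (r : ℝ))) ^ (2 * 2) := by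
  have hn : 0 < Fintype.card V := Fintype.card_pos_iff.2 ⟨u⟩
  have h1 := dQ_sq G r hr hG (G.neighborFinset u) hn
  rw [← pow_four_diag, G.card_neighborFinset_eq_degree] at h1
  set n : ℝ := (Fintype.card V : ℝ) with hnd
  have hn1 : 1 ≤ n := by
    rw [hnd]; exact_mod_cast hn
  have hn0 : 0 < n := by linarith
  have hr0 : (0 : ℝ) < r := by
    have : 0 < r := by omega
    exact_mod_cast this
  have hr2 : (2 : ℝ) ≤ r := by exact_mod_cast hr
  set N : ℝ := n ^ (1 - 1 / (r : ℝ)) with hN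
  have hN0 : 0 < N := by positivity
  have hN2 : n ^ (1 - 2 / (r : ℝ)) * n = N ^ 2 := by
    rw [hN, ← Real.rpow_natCast, ← Real.rpow_mul hn0.le]
    nth_rewrite 2 [← Real.rpow_one n]
    rw [← Real.rpow_add hn0]
    congr 1
    push_cast
    ring
  have hnN : n ≤ N ^ 2 := by
    rw [← hN2]
    have : 1 ≤ n ^ (1 - 2 / (r : ℝ)) := by
      refine Real.one_le_rpow hn1 ?_
      have : 2 / (r : ℝ) ≤ 1 := by rw [div_le_one hr0]; exact hr2
      linarith
    nlinarith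
  have hdeg : (G.degree u : ℝ) ^ 2 ≤ b ^ 2 * N ^ 2 := by
    rw [← mul_pow]
    exact pow_le_pow_left₀ (Nat.cast_nonneg _) (hD u) 2
  have e1 : (2 * 2 : ℕ) = 4 := rfl
  rw [e1]
  calc (G.adjMatrix ℝ ^ 4) u u * n ≤
      (2 * r * n ^ (1 - 2 / (r : ℝ)) * (G.degree u : ℝ) ^ 2 + 2 * (r : ℝ) ^ 2 * n) * n :=
        mul_le_mul_of_nonneg_right h1 hn0.le
    _ = 2 * r * (n ^ (1 - 2 / (r : ℝ)) * n) * (G.degree u : ℝ) ^ 2 + 2 * (r : ℝ) ^ 2 * (n * n) := by
        ring
    _ ≤ 2 * r * (N ^ 2) * (b ^ 2 * N ^ 2) + 2 * (r : ℝ) ^ 2 * (N ^ 2 * N ^ 2) := by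
        rw [hN2]
        gcongr
    _ = _ := by ring

end Pool.Agent.N721.SR
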