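import Pool.Agent.N721.SR.KR1

/-! # Cells, pieces, and the energy of the large eigenvalues -/

set_option autoImplicit false
set_option maxHeartbeats 400000
set_option linter.unusedSectionVars false

open Finset

namespace Pool.Agent.N721.SR

variable {V : Type} [Fintype V] [DecidableEq V]

/-- cells on which finitely many bounded functions are nearly constant -/
theorem cells_pt (S : Finset V) (φ : V → V → ℝ) (B ε : ℝ) (hB : 0 ≤ B) (hε : 0 < ε) (r : ℕ)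
    (hr : #S ≤ r) (hφ : ∀ i ∈ S, ∀ v, φ i v ^ 2 * (Fintype.card V : ℝ) ≤ B ^ 2) :
    ∃ P : V → Fin ((2 * (⌈B / ε⌉₊ + 1) + 1) ^ r),
      ∀ i ∈ S, ∀ u x, P x = P u → |φ i u - φ i x| ≤ ε / Real.sqrt (Fintype.card V : ℝ) := by
  classical
  set m : ℕ := ⌈B / ε⌉₊ + 1 with hm
  set n : ℝ := (Fintype.card V : ℝ) with hn
  rcases isEmpty_or_nonempty V with hV | hV
  · exact ⟨fun v => (hV.false v).elim, fun i => (hV.false i).elim⟩
  have hn0 : 0 < n := by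
    rw [hn]; exact_mod_cast Fintype.card_pos
  set s : ℝ := Real.sqrt n with hs
  have hs0 : 0 < s := Real.sqrt_pos.2 hn0
  have hs2 : s ^ 2 = n := Real.sq_sqrt hn0.le
  have hbd : ∀ i ∈ S, ∀ v, |φ i v * s / ε| ≤ B / ε := by
    intro i hi v
    rw [abs_div, abs_of_pos hε]
    refine div_le_div_of_nonneg_right ?_ hε.le
    refine abs_le_of_sq_le_sq ?_ hB
    have := hφ i hi v
    rw [mul_pow, hs2]
    exact this
  have hfl : ∀ i ∈ S, ∀ v, ⌊φ i v * s / ε⌋ ∈ Finset.Icc (-(m : ℤ)) (m : ℤ) := by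
    intro i hi v
    have h1 := abs_le.1 (hbd i hi v)
    have h2 : B / ε ≤ (⌈B / ε⌉₊ : ℝ) := Nat.le_ceil _
    rw [Finset.mem_Icc]
    constructor
    · refine Int.le_floor.2 ?_
      push_cast
      rw [hm]; push_cast
      linarith [h1.1]
    · have h3 : (⌊φ i v * s / ε⌋ : ℝ) ≤ φ i v * s / ε := Int.floor_le _
      have h4 : (⌊φ i v * s / ε⌋ : ℝ) ≤ (m : ℝ) := by
        rw [hm]; push_cast
        linarith [h1.2]
      exact_mod_cast h4
  let code : V → (S → Finset.Icc (-(m : ℤ)) (m : ℤ)) :=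
    fun v i => ⟨⌊φ i.1 v * s / ε⌋, hfl i.1 i.2 v⟩
  have hcard : Fintype.card (S → Finset.Icc (-(m : ℤ)) (m : ℤ)) ≤
      Fintype.card (Fin ((2 * (⌈B / ε⌉₊ + 1) + 1) ^ r)) := by
    rw [Fintype.card_fun, Fintype.card_coe, Fintype.card_coe, Fintype.card_fin, Int.card_Icc]
    have : ((m : ℤ) + 1 - -(m : ℤ)).toNat = 2 * m + 1 := by omega
    rw [this]
    exact Nat.pow_le_pow_right (by omega) hr
  obtain ⟨emb⟩ := Function.Embedding.nonempty_of_card_le hcard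
  refine ⟨fun v => emb (code v), fun i hi u x hux => ?_⟩
  have h1 : code x = code u := emb.injective hux
  have h2 : ⌊φ i x * s / ε⌋ = ⌊φ i u * s / ε⌋ := congrArg Subtype.val (congrFun h1 ⟨i, hi⟩)
  have h3 := Int.abs_sub_lt_one_of_floor_eq_floor h2
  have h4 : φ i x * s / ε - φ i u * s / ε = (φ i x - φ i u) * (s / ε) := by ring
  rw [h4, abs_mul, abs_of_pos (div_pos hs0 hε)] at h3
  rw [abs_sub_comm]
  rw [le_div_iff₀ hs0]
  have h5 : |φ i x - φ i u| * (s / ε) = |φ i x - φ i u| * s / ε := by ring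
  rw [h5, div_lt_one hε] at h3
  exact h3.le

/-- pieces of the same size inside the cells -/
theorem exists_pieces {K : ℕ} (P : V → Fin K) (s : ℕ) (hs : 1 ≤ s) :
    ∃ F : Finset (Finset V), (∀ Q ∈ F, #Q = s ∧ ∀ u ∈ Q, ∀ x ∈ Q, P x = P u) ∧
      (∀ Q ∈ F, ∀ Q' ∈ F, Q ≠ Q' → Disjoint Q Q') ∧ #(univ \ F.biUnion id) ≤ K * s := by
  classical
  set 𝒢 : Finset (Finset (Finset V)) := univ.filter fun F =>
    (∀ Q ∈ F, #Q = s ∧ ∀ u ∈ Q, ∀ x ∈ Q, P x = P u) ∧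
      (∀ Q ∈ F, ∀ Q' ∈ F, Q ≠ Q' → Disjoint Q Q') with h𝒢
  have hne : 𝒢.Nonempty := ⟨∅, by rw [h𝒢, mem_filter]; simp⟩
  obtain ⟨F, hF, hmax⟩ := exists_max_image 𝒢 (fun F => #F) hne
  rw [h𝒢, mem_filter] at hF
  obtain ⟨-, h1, h2⟩ := hF
  refine ⟨F, h1, h2, ?_⟩
  by_contra hcon
  push Not at hcon
  obtain ⟨j, -, hj⟩ := exists_lt_card_fiber_of_mul_lt_card_of_maps_to
    (s := univ \ F.biUnion id) (t := (univ : Finset (Fin K))) (f := P) (n := s)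
    (fun _ _ => mem_univ _) (by rw [card_univ, Fintype.card_fin]; exact hcon)
  obtain ⟨Q, hQ, hQc⟩ := Finset.exists_subset_card_eq hj.le
  have hQR : ∀ x ∈ Q, x ∉ F.biUnion id ∧ P x = j := by
    intro x hx
    have := hQ hx
    rw [mem_filter, mem_sdiff] at this
    exact ⟨this.1.2, this.2⟩
  have hdis : ∀ Q' ∈ F, Disjoint Q Q' := by
    intro Q' hQ'
    rw [disjoint_left]
    intro x hx hx'
    exact (hQR x hx).1 (mem_biUnion.2 ⟨Q', hQ', hx'⟩)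
  have hQF : Q ∉ F := by
    intro hmem
    have := hdis Q hmem
    rw [disjoint_self_iff_empty] at this
    rw [this, card_empty] at hQc
    omega
  have hins : insert Q F ∈ 𝒢 := by
    rw [h𝒢, mem_filter]
    refine ⟨mem_univ _, ?_, ?_⟩
    · intro Q' hQ'
      rcases mem_insert.1 hQ' with rfl | hQ'
      · exact ⟨hQc, fun u hu x hx => (hQR x hx).2.trans (hQR u hu).2.symm⟩
      · exact h1 Q' hQ'
    · intro Q₁ h₁ Q₂ h₂ hne
      rcases mem_insert.1 h₁ with e₁ | m₁ <;> rcases mem_insert.1 h₂ with e₂ | m₂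
      · exact absurd (e₁.trans e₂.symm) hne
      · rw [e₁]; exact hdis Q₂ m₂
      · rw [e₂]; exact (hdis Q₁ m₁).symm
      · exact h2 Q₁ m₁ Q₂ m₂ hne
  have := hmax _ hins
  simp only [card_insert_of_notMem hQF] at this
  omega

theorem sum_pieces {F : Finset (Finset V)}
    (h2 : ∀ Q ∈ F, ∀ Q' ∈ F, Q ≠ Q' → Disjoint Q Q') (g : V → ℝ) :
    ∑ Q ∈ F, ∑ v ∈ Q, g v = ∑ v ∈ F.biUnion id, g v := by
  rw [sum_biUnion]
  · rfl
  · intro Q hQ Q' hQ' hne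
    exact h2 Q hQ Q' hQ' hne

theorem card_pieces {F : Finset (Finset V)} {s : ℕ} (h1 : ∀ Q ∈ F, #Q = s)
    (h2 : ∀ Q ∈ F, ∀ Q' ∈ F, Q ≠ Q' → Disjoint Q Q') : (#F : ℝ) * s ≤ Fintype.card V := by
  have h := sum_pieces h2 (fun _ => (1 : ℝ))
  have e1 : ∑ Q ∈ F, ∑ _v ∈ Q, (1 : ℝ) = (#F : ℝ) * s := by
    rw [← nsmul_eq_mul, ← sum_const]
    refine sum_congr rfl fun Q hQ => ?_
    rw [sum_const, h1 Q hQ]
    simp
  rw [e1] at h
  rw [h, sum_const, nsmul_eq_mul, mul_one]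
  exact_mod_cast card_le_univ _

variable {A : Matrix V V ℝ} {φ : V → V → ℝ} {l : V → ℝ}

theorem Eig.unit (h : Eig A φ l) (i : V) : ∑ v, φ i v ^ 2 = 1 := by
  have := h.orth i i
  rw [if_pos rfl] at this
  rw [← this]
  exact sum_congr rfl fun u _ => by ring

/-- a nearly constant unit vector is captured by the pieces -/
theorem piece_mass (h : Eig A φ l) {F : Finset (Finset V)} {s : ℕ} (hs : 1 ≤ s)
    (h1 : ∀ Q ∈ F, #Q = s) (h2 : ∀ Q ∈ F, ∀ Q' ∈ F, Q ≠ Q' → Disjoint Q Q') (i : V) (e B : ℝ)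
    (hn : 0 < Fintype.card V)
    (hc : ∀ Q ∈ F, ∀ u ∈ Q, ∀ x ∈ Q, |φ i u - φ i x| ≤ e / Real.sqrt (Fintype.card V : ℝ))
    (hB : ∀ v, φ i v ^ 2 * (Fintype.card V : ℝ) ≤ B ^ 2) :
    1 - #(univ \ F.biUnion id) * (B ^ 2 / Fintype.card V) - e ^ 2 ≤
      ∑ Q ∈ F, (∑ v ∈ Q, φ i v) ^ 2 / s := by
  set n : ℝ := (Fintype.card V : ℝ) with hnd
  have hn0 : 0 < n := by rw [hnd]; exact_mod_cast hn
  have hs0 : (0 : ℝ) < s := by exact_mod_cast hs
  have hpiece : ∀ Q ∈ F, ∑ v ∈ Q, φ i v ^ 2 - s * (e ^ 2 / n) ≤ (∑ v ∈ Q, φ i v) ^ 2 / s := by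
    intro Q hQ
    have hcard := h1 Q hQ
    obtain ⟨v0, hv0⟩ : Q.Nonempty := card_pos.1 (by omega)
    set c := φ i v0 with hcd
    have e1 : ∑ v ∈ Q, (φ i v - c) ^ 2 ≤ s * (e ^ 2 / n) := by
      calc ∑ v ∈ Q, (φ i v - c) ^ 2 ≤ ∑ _v ∈ Q, e ^ 2 / n := by
            refine sum_le_sum fun v hv => ?_
            have := hc Q hQ v hv v0 hv0
            calc (φ i v - c) ^ 2 = |φ i v - c| ^ 2 := (sq_abs _).symm
              _ ≤ (e / Real.sqrt n) ^ 2 := pow_le_pow_left₀ (abs_nonneg _) this 2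
              _ = e ^ 2 / n := by rw [div_pow, Real.sq_sqrt hn0.le]
        _ = _ := by rw [sum_const, hcard, nsmul_eq_mul]
    have e2 : ∑ v ∈ Q, (φ i v - c) ^ 2 =
        ∑ v ∈ Q, φ i v ^ 2 - 2 * c * ∑ v ∈ Q, φ i v + s * c ^ 2 := by
      have : ∀ v, (φ i v - c) ^ 2 = φ i v ^ 2 - 2 * c * φ i v + c ^ 2 := fun v => by ring
      simp only [this, sum_add_distrib, sum_sub_distrib, ← mul_sum, sum_const, hcard,
        nsmul_eq_mul]
    set T := ∑ v ∈ Q, φ i v with hT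
    have e3 : 2 * c * T - s * c ^ 2 ≤ T ^ 2 / s := by
      rw [le_div_iff₀ hs0]
      nlinarith [sq_nonneg (T - s * c)]
    linarith
  have hsum := sum_le_sum hpiece
  rw [sum_sub_distrib, sum_pieces h2, sum_const, nsmul_eq_mul] at hsum
  have hcov : ∑ v ∈ F.biUnion id, φ i v ^ 2 = 1 - ∑ v ∈ univ \ F.biUnion id, φ i v ^ 2 := by
    rw [← h.unit i, ← sum_sdiff (subset_univ (F.biUnion id))]
    ring
  have hleft : ∑ v ∈ univ \ F.biUnion id, φ i v ^ 2 ≤ #(univ \ F.biUnion id) * (B ^ 2 / n) := by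
    rw [← nsmul_eq_mul, ← sum_const]
    refine sum_le_sum fun v _ => ?_
    rw [le_div_iff₀ hn0]
    exact hB v
  have hM : (#F : ℝ) * (s * (e ^ 2 / n)) ≤ e ^ 2 := by
    have := card_pieces h1 h2
    calc (#F : ℝ) * (s * (e ^ 2 / n)) = (#F * s) * (e ^ 2 / n) := by ring
      _ ≤ n * (e ^ 2 / n) := by gcongr
      _ = e ^ 2 := by field_simp
  linarith

/-- the images of the indicator functions of the pieces -/
theorem energy_le (h : Eig A φ l) (hsym : ∀ u v, A u v = A v u) (S : Finset V)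
    {F : Finset (Finset V)} {s : ℕ} (hs : 1 ≤ s)
    (hhalf : ∀ i ∈ S, 1 / 2 ≤ ∑ Q ∈ F, (∑ v ∈ Q, φ i v) ^ 2 / s) :
    ∑ i ∈ S, l i ^ 2 ≤ 2 * ∑ Q ∈ F, (∑ u, (∑ v ∈ Q, A u v) ^ 2) / s := by
  have hs0 : (0 : ℝ) < s := by exact_mod_cast hs
  have hQ : ∀ Q : Finset V, ∑ i, l i ^ 2 * (∑ v ∈ Q, φ i v) ^ 2 = ∑ u, (∑ v ∈ Q, A u v) ^ 2 := by
    intro Q
    rw [← h.parseval (fun u => ∑ v ∈ Q, A u v)]
    refine sum_congr rfl fun i _ => ?_
    have e1 : co φ (fun u => ∑ v ∈ Q, A u v) i = l i * ∑ v ∈ Q, φ i v := by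
      unfold co
      simp only [mul_sum]
      rw [sum_comm]
      refine sum_congr rfl fun v _ => ?_
      rw [← h.eig i v]
      exact sum_congr rfl fun u _ => by rw [hsym v u]; ring
    rw [e1]
    ring
  calc ∑ i ∈ S, l i ^ 2 ≤ ∑ i ∈ S, 2 * (l i ^ 2 * ∑ Q ∈ F, (∑ v ∈ Q, φ i v) ^ 2 / s) := by
        refine sum_le_sum fun i hi => ?_
        nlinarith [hhalf i hi, sq_nonneg (l i)]
    _ ≤ ∑ i, 2 * (l i ^ 2 * ∑ Q ∈ F, (∑ v ∈ Q, φ i v) ^ 2 / s) :=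
        sum_le_sum_of_subset_of_nonneg (subset_univ _) fun i _ _ => by positivity
    _ = 2 * ∑ Q ∈ F, (∑ i, l i ^ 2 * (∑ v ∈ Q, φ i v) ^ 2) / s := by
        rw [← mul_sum]
        congr 1
        simp only [mul_sum, sum_div]
        rw [sum_comm]
        exact sum_congr rfl fun Q _ => sum_congr rfl fun i _ => by ring
    _ = _ := by simp only [hQ]

end Pool.Agent.N721.SR
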