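import Pool.Agent.N721.SR.KR2

/-! # Finding a quasirandom pair -/

set_option autoImplicit false
set_option maxHeartbeats 400000
set_option linter.unusedSectionVars false

open Finset

namespace Pool.Agent.N721.SR

variable {V : Type} [Fintype V] [DecidableEq V]

section
variable {A : Matrix V V ℝ} {φ : V → V → ℝ} {l : V → ℝ}

theorem Eig.comb_sq (h : Eig A φ l) (T : Finset V) (a : V → ℝ) :
    ∑ v, (∑ i ∈ T, a i * φ i v) ^ 2 = ∑ i ∈ T, a i ^ 2 := by
  have h1 : ∀ v, (∑ i ∈ T, a i * φ i v) ^ 2 =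
      ∑ i ∈ T, ∑ j ∈ T, a i * a j * (φ i v * φ j v) := by
    intro v
    rw [pow_two, sum_mul_sum]
    exact sum_congr rfl fun i _ => sum_congr rfl fun j _ => by ring
  simp only [h1]
  rw [sum_comm]
  refine sum_congr rfl fun i hi => ?_
  rw [sum_comm]
  have h2 : ∀ j, ∑ v, a i * a j * (φ i v * φ j v) = if i = j then a i * a j else 0 := by
    intro j
    rw [← mul_sum, h.orth]
    split_ifs <;> ring
  simp only [h2]
  rw [sum_ite_eq, if_pos hi]
  ring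

theorem Eig.hs (h : Eig A φ l) (T : Finset V) :
    ∑ u, ∑ v, (∑ i ∈ T, l i * φ i u * φ i v) ^ 2 = ∑ i ∈ T, l i ^ 2 := by
  have h1 : ∀ u, ∑ v, (∑ i ∈ T, l i * φ i u * φ i v) ^ 2 = ∑ i ∈ T, (l i * φ i u) ^ 2 :=
    fun u => h.comb_sq T fun i => l i * φ i u
  simp only [h1]
  rw [sum_comm]
  refine sum_congr rfl fun i _ => ?_
  have : ∀ u, (l i * φ i u) ^ 2 = l i ^ 2 * φ i u ^ 2 := fun u => by ring
  simp only [this]
  rw [← mul_sum, h.unit, mul_one]

theorem params (h : Eig A φ l) (M N t : ℝ) (hM : 0 ≤ M) (hN : 0 < N) (ht : 0 < t)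
    (hn : 0 < Fintype.card V)
    (hdiag : ∀ v, (A ^ (2 * 2)) v v * (Fintype.card V : ℝ) ≤ M * N ^ (2 * 2)) :
    #(univ.filter fun i => t * N ≤ |l i|) ≤ ⌈M / t ^ (2 * 2)⌉₊ ∧
      (∀ i ∈ univ.filter (fun i => t * N ≤ |l i|), ∀ v,
        φ i v ^ 2 * (Fintype.card V : ℝ) ≤ (Real.sqrt (M / t ^ (2 * 2))) ^ 2) ∧
      ∀ i, |l i| ≤ (1 + M) * N := by
  set n : ℝ := (Fintype.card V : ℝ) with hnd
  have hn0 : 0 < n := by rw [hnd]; exact_mod_cast hn
  have htr : ∑ v, (A ^ (2 * 2)) v v ≤ M * N ^ (2 * 2) := by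
    have h1 : ∀ v, (A ^ (2 * 2)) v v ≤ M * N ^ (2 * 2) / n := fun v => by
      rw [le_div_iff₀ hn0]; exact hdiag v
    calc ∑ v, (A ^ (2 * 2)) v v ≤ ∑ _v : V, M * N ^ (2 * 2) / n := sum_le_sum fun v _ => h1 v
      _ = _ := by
          rw [sum_const, nsmul_eq_mul, card_univ, ← hnd]
          field_simp
  have hN4 : 0 < N ^ (2 * 2) := by positivity
  refine ⟨?_, ?_, ?_⟩
  · have h1 := h.count 2 (t * N) _ (by positivity) htr
    rw [mul_pow, ← mul_assoc] at h1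
    have h2 := le_of_mul_le_mul_right h1 hN4
    have h3 : (#(univ.filter fun i => t * N ≤ |l i|) : ℝ) ≤ M / t ^ (2 * 2) := by
      rw [le_div_iff₀ (by positivity)]
      exact h2
    have h4 := h3.trans (Nat.le_ceil _)
    exact_mod_cast h4
  · intro i hi v
    rw [Real.sq_sqrt (by positivity), le_div_iff₀ (by positivity)]
    have h1 := h.sup 2 i v
    have h2 : (t * N) ^ (2 * 2) ≤ l i ^ (2 * 2) := by
      calc (t * N) ^ (2 * 2) ≤ |l i| ^ (2 * 2) :=
            pow_le_pow_left₀ (by positivity) (Finset.mem_filter.1 hi).2 _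
        _ = l i ^ (2 * 2) := by rw [pow_mul, sq_abs, ← pow_mul]
    have h5 : (φ i v ^ 2 * n * t ^ (2 * 2)) * N ^ (2 * 2) ≤ M * N ^ (2 * 2) := by
      calc _ = (t * N) ^ (2 * 2) * φ i v ^ 2 * n := by rw [mul_pow]; ring
        _ ≤ l i ^ (2 * 2) * φ i v ^ 2 * n := by gcongr
        _ ≤ (A ^ (2 * 2)) v v * n := by gcongr
        _ ≤ _ := hdiag v
    exact le_of_mul_le_mul_right h5 hN4
  · intro i
    by_contra hlt
    push Not at hlt
    have h1 : ((1 + M) * N) ^ (2 * 2) < |l i| ^ (2 * 2) :=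
      pow_lt_pow_left₀ hlt (by positivity) (by omega)
    have h2 : |l i| ^ (2 * 2) ≤ M * N ^ (2 * 2) := by
      have : |l i| ^ (2 * 2) = l i ^ (2 * 2) := by rw [pow_mul, sq_abs, ← pow_mul]
      rw [this]
      refine le_trans ?_ (h.trace 2 ▸ htr)
      exact Finset.single_le_sum (f := fun i => l i ^ (2 * 2))
        (fun i _ => by rw [pow_mul]; positivity) (mem_univ i)
    rw [mul_pow] at h1
    have h3 : (1 + M) ^ (2 * 2) < M := lt_of_mul_lt_mul_right (h1.trans_le h2) hN4.le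
    have h4 : 1 + M ≤ (1 + M) ^ (2 * 2) := by
      calc 1 + M = (1 + M) ^ 1 := (pow_one _).symm
        _ ≤ _ := pow_le_pow_right₀ (by linarith) (by omega)
    linarith

theorem cs_on (Q : Finset V) (f g : V → ℝ) : |∑ i ∈ Q, f i * g i| ≤
    Real.sqrt (∑ i ∈ Q, f i ^ 2) * Real.sqrt (∑ i ∈ Q, g i ^ 2) := by
  rw [← Real.sqrt_mul (Finset.sum_nonneg fun i _ => sq_nonneg _)]
  exact Real.abs_le_sqrt (Finset.sum_mul_sq_le_sq_mul_sq Q f g)

/-- a matrix acts on a block with norm at most its Hilbert-Schmidt norm -/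
theorem hs_block (B : V → V → ℝ) (Q Q' : Finset V) (f g : V → ℝ) :
    |∑ u ∈ Q, ∑ v ∈ Q', B u v * f u * g v| ≤ Real.sqrt (∑ u ∈ Q, ∑ v ∈ Q', B u v ^ 2) *
      Real.sqrt (∑ u ∈ Q, f u ^ 2) * Real.sqrt (∑ v ∈ Q', g v ^ 2) := by
  have h0 : 0 ≤ ∑ u ∈ Q, ∑ v ∈ Q', B u v ^ 2 :=
    sum_nonneg fun u _ => sum_nonneg fun v _ => sq_nonneg _
  have h1 : 0 ≤ ∑ u ∈ Q, f u ^ 2 := sum_nonneg fun u _ => sq_nonneg _
  have h2 : 0 ≤ ∑ v ∈ Q', g v ^ 2 := sum_nonneg fun u _ => sq_nonneg _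
  rw [← Real.sqrt_mul h0, ← Real.sqrt_mul (mul_nonneg h0 h1)]
  refine Real.abs_le_sqrt ?_
  have e1 : ∑ u ∈ Q, ∑ v ∈ Q', B u v * f u * g v = ∑ u ∈ Q, f u * ∑ v ∈ Q', B u v * g v := by
    refine sum_congr rfl fun u _ => ?_
    rw [mul_sum]
    exact sum_congr rfl fun v _ => by ring
  rw [e1]
  calc (∑ u ∈ Q, f u * ∑ v ∈ Q', B u v * g v) ^ 2
      ≤ (∑ u ∈ Q, f u ^ 2) * ∑ u ∈ Q, (∑ v ∈ Q', B u v * g v) ^ 2 :=
        sum_mul_sq_le_sq_mul_sq _ _ _
    _ ≤ (∑ u ∈ Q, f u ^ 2) * ∑ u ∈ Q, (∑ v ∈ Q', B u v ^ 2) * ∑ v ∈ Q', g v ^ 2 :=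
        mul_le_mul_of_nonneg_left (sum_le_sum fun u _ => sum_mul_sq_le_sq_mul_sq _ _ _) h1
    _ = _ := by rw [← sum_mul]; ring

/-- bounded entries -/
theorem sup_block (B : V → V → ℝ) (Q Q' : Finset V) (s : ℕ) (hQ : #Q = s) (hQ' : #Q' = s)
    (δ : ℝ) (hδ : 0 ≤ δ) (hB : ∀ u ∈ Q, ∀ v ∈ Q', |B u v| ≤ δ) (f g : V → ℝ) :
    |∑ u ∈ Q, ∑ v ∈ Q', B u v * f u * g v| ≤ δ * s *
      Real.sqrt (∑ u ∈ Q, f u ^ 2) * Real.sqrt (∑ v ∈ Q', g v ^ 2) := by
  refine (hs_block B Q Q' f g).trans ?_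
  have h1 : Real.sqrt (∑ u ∈ Q, ∑ v ∈ Q', B u v ^ 2) ≤ δ * s := by
    rw [Real.sqrt_le_left (by positivity)]
    calc ∑ u ∈ Q, ∑ v ∈ Q', B u v ^ 2 ≤ ∑ _u ∈ Q, ∑ _v ∈ Q', δ ^ 2 := by
          refine sum_le_sum fun u hu => sum_le_sum fun v hv => ?_
          rw [← sq_abs]
          exact pow_le_pow_left₀ (abs_nonneg _) (hB u hu v hv) 2
      _ = _ := by
          rw [sum_const, sum_const, hQ, hQ', nsmul_eq_mul, nsmul_eq_mul]
          ring
  gcongr

end

/-- **a quasirandom pair**, if there are few eigenvalues in the middle -/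
theorem step (M b c ε t : ℝ) (hM : 0 ≤ M) (hb : 0 ≤ b) (hc : 0 < c) (hε : 0 < ε) (ht : 0 < t) :
    ∃ (t' σ : ℝ) (n₁ : ℕ), 0 < t' ∧ t' ≤ t ∧ 0 < σ ∧ ∀ (V : Type) [Fintype V] [DecidableEq V]
      (A : Matrix V V ℝ) (φ : V → V → ℝ) (l : V → ℝ) (N : ℝ), Eig A φ l →
      (∀ u v, 0 ≤ A u v) → (∀ u v, A u v = A v u) → 0 < N → n₁ ≤ Fintype.card V →
      (∀ v, (A ^ (2 * 2)) v v * (Fintype.card V : ℝ) ≤ M * N ^ (2 * 2)) →
      (∀ u, ∑ v, A u v ≤ b * N) → c * (Fintype.card V * N) ≤ ∑ u, ∑ v, A u v →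
      ∑ i ∈ (univ.filter fun i => t' * N ≤ |l i|) \ (univ.filter fun i => t * N ≤ |l i|),
        l i ^ 2 ≤ (ε / 8) ^ 2 * c ^ 2 / 32 * N ^ 2 →
      ∃ (s : ℕ) (X Y : Finset V) (d : ℝ), 1 ≤ s ∧ σ * Fintype.card V ≤ s ∧ #X = s ∧ #Y = s ∧
        c / 4 * (N / Fintype.card V) ≤ d ∧ ∀ f g : V → ℝ,
          |∑ u ∈ X, ∑ v ∈ Y, (A u v - d) * f u * g v| ≤
            ε * (d * s) * Real.sqrt (∑ u ∈ X, f u ^ 2) * Real.sqrt (∑ v ∈ Y, g v ^ 2) := by
  set rt : ℕ := ⌈M / t ^ (2 * 2)⌉₊ with hrt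
  set B : ℝ := Real.sqrt (M / t ^ (2 * 2)) with hB
  have hB0 : 0 ≤ B := Real.sqrt_nonneg _
  set ε' : ℝ := ε * c / 32 with hε'
  have hε'0 : 0 < ε' := by positivity
  set e : ℝ := ε' / (2 * ((rt : ℝ) + 1) * (1 + M) * (B + 1)) with he
  have he0 : 0 < e := by positivity
  set K : ℕ := (2 * (⌈B / e⌉₊ + 1) + 1) ^ rt with hK
  have hK1 : (1 : ℝ) ≤ K := by
    rw [hK]
    exact_mod_cast Nat.one_le_pow _ _ (by omega)
  have hK0 : (0 : ℝ) < K := by linarith
  set R : ℝ := K * (4 * (b + 1) / c + 1) with hR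
  have hR0 : 0 < R := by positivity
  set σ : ℝ := 1 / (2 * R) with hσ
  have hσ0 : 0 < σ := by positivity
  refine ⟨min t (ε * c / 32 * σ), σ, ⌈2 * R⌉₊ + 1, by positivity, min_le_left _ _, hσ0, ?_⟩
  intro V _ _ A φ l N h hA0 hsym hN hn₁ hdiag hdeg hedge hmid
  set t' : ℝ := min t (ε * c / 32 * σ) with ht'
  have ht'0 : 0 < t' := by positivity
  set n : ℝ := (Fintype.card V : ℝ) with hnd
  have hnpos : 0 < Fintype.card V := by omega
  have hn0 : 0 < n := by rw [hnd]; exact_mod_cast hnpos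
  have hnR : 2 * R ≤ n := by
    calc 2 * R ≤ (⌈2 * R⌉₊ : ℝ) := Nat.le_ceil _
      _ ≤ n := by
        have : ⌈2 * R⌉₊ ≤ Fintype.card V := by omega
        rw [hnd]; exact_mod_cast this
  obtain ⟨hp1, hp2, hp3⟩ := params h M N t hM hN ht hnpos hdiag
  set S := univ.filter fun i => t * N ≤ |l i| with hS
  set S' := univ.filter fun i => t' * N ≤ |l i| with hS'
  obtain ⟨P, hP⟩ := cells_pt S φ B e hB0 he0 rt hp1 hp2
  set s : ℕ := ⌊n / R⌋₊ with hs
  have hx1 : 2 ≤ n / R := by rw [le_div_iff₀ hR0]; exact hnR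
  have hs1 : 1 ≤ s := by
    rw [hs, Nat.one_le_floor_iff]
    linarith
  have hs0 : (0 : ℝ) < s := by exact_mod_cast hs1
  have hsle : (s : ℝ) ≤ n / R := Nat.floor_le (by positivity)
  have hsge : σ * n ≤ s := by
    have h1 : n / R < s + 1 := Nat.lt_floor_add_one _
    have h2 : σ * n = n / R / 2 := by rw [hσ]; field_simp
    rw [h2]
    linarith
  obtain ⟨F, hF1, hF2, hF3⟩ := exists_pieces P s hs1
  have hFc := card_pieces (fun Q hQ => (hF1 Q hQ).1) hF2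
  -- the structured part
  set A₁ : V → V → ℝ := fun u v => ∑ i ∈ S, l i * φ i u * φ i v with hA₁
  set A₂ : V → V → ℝ := fun u v => ∑ i ∈ S' \ S, l i * φ i u * φ i v with hA₂
  have hφb : ∀ i ∈ S, ∀ v, |φ i v| ≤ (B + 1) / Real.sqrt n := by
    intro i hi v
    rw [le_div_iff₀ (Real.sqrt_pos.2 hn0)]
    have h1 := hp2 i hi v
    have h2 : (|φ i v| * Real.sqrt n) ^ 2 ≤ B ^ 2 := by
      rw [mul_pow, sq_abs, Real.sq_sqrt hn0.le]
      exact h1
    have h3 := abs_le_of_sq_le_sq h2 hB0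
    have h4 := (le_abs_self _).trans h3
    linarith
  have hA₁c : ∀ Q ∈ F, ∀ Q' ∈ F, ∀ u ∈ Q, ∀ u' ∈ Q, ∀ v ∈ Q', ∀ v' ∈ Q',
      |A₁ u v - A₁ u' v'| ≤ ε' * (N / n) := by
    intro Q hQ Q' hQ' u hu u' hu' v hv v' hv'
    have h1 : A₁ u v - A₁ u' v' =
        ∑ i ∈ S, l i * (φ i u * (φ i v - φ i v') + (φ i u - φ i u') * φ i v') := by
      rw [hA₁]
      simp only
      rw [← sum_sub_distrib]
      exact sum_congr rfl fun i _ => by ring
    rw [h1]
    calc |∑ i ∈ S, l i * (φ i u * (φ i v - φ i v') + (φ i u - φ i u') * φ i v')|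
        ≤ ∑ i ∈ S, |l i * (φ i u * (φ i v - φ i v') + (φ i u - φ i u') * φ i v')| :=
          abs_sum_le_sum_abs _ _
      _ ≤ ∑ _i ∈ S, (1 + M) * N * (2 * ((B + 1) * e / n)) := by
          refine sum_le_sum fun i hi => ?_
          rw [abs_mul]
          refine mul_le_mul (hp3 i) ?_ (abs_nonneg _) (by positivity)
          refine (abs_add_le _ _).trans ?_
          rw [abs_mul, abs_mul]
          have a1 := hφb i hi u
          have a2 := hφb i hi v'
          have a3 := hP i hi v v' ((hF1 Q' hQ').2 v hv v' hv')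
          have a4 := hP i hi u u' ((hF1 Q hQ).2 u hu u' hu')
          have hsq : Real.sqrt n * Real.sqrt n = n := Real.mul_self_sqrt hn0.le
          have hsq0 : 0 < Real.sqrt n := Real.sqrt_pos.2 hn0
          calc |φ i u| * |φ i v - φ i v'| + |φ i u - φ i u'| * |φ i v'|
              ≤ (B + 1) / Real.sqrt n * (e / Real.sqrt n) +
                e / Real.sqrt n * ((B + 1) / Real.sqrt n) := by gcongr
            _ = 2 * ((B + 1) * e / (Real.sqrt n * Real.sqrt n)) := by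
                field_simp
                ring
            _ = _ := by rw [hsq]
      _ = (#S : ℝ) * ((1 + M) * N * (2 * ((B + 1) * e / n))) := by
          rw [sum_const, nsmul_eq_mul]
      _ ≤ ((rt : ℝ) + 1) * ((1 + M) * N * (2 * ((B + 1) * e / n))) := by
          refine mul_le_mul_of_nonneg_right ?_ (by positivity)
          have : (#S : ℝ) ≤ rt := by exact_mod_cast hp1
          linarith
      _ = ε' * (N / n) := by rw [he]; field_simp
  -- edges between pieces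
  set E : Finset V → Finset V → ℝ := fun Q Q' => ∑ u ∈ Q, ∑ v ∈ Q', A u v with hE
  set Z := F.biUnion id with hZ
  have htot : c / 2 * (n * N) ≤ ∑ Q ∈ F, ∑ Q' ∈ F, E Q Q' := by
    have h1 : ∑ Q ∈ F, ∑ Q' ∈ F, E Q Q' = ∑ u ∈ Z, ∑ v ∈ Z, A u v := by
      rw [← sum_pieces hF2]
      refine sum_congr rfl fun Q _ => ?_
      rw [hE]
      simp only
      rw [sum_comm]
      refine sum_congr rfl fun u _ => ?_
      exact sum_pieces hF2 (fun v => A u v)
    rw [h1]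
    have h2 : ∑ u, ∑ v, A u v ≤ ∑ u ∈ Z, ∑ v ∈ Z, A u v + 2 * ∑ u ∈ univ \ Z, ∑ v, A u v := by
      have e1 : ∑ u, ∑ v, A u v = ∑ u ∈ univ \ Z, ∑ v, A u v + ∑ u ∈ Z, ∑ v, A u v :=
        (sum_sdiff (subset_univ Z)).symm
      have e2 : ∑ u ∈ Z, ∑ v, A u v = ∑ u ∈ Z, ∑ v ∈ univ \ Z, A u v +
          ∑ u ∈ Z, ∑ v ∈ Z, A u v := by
        rw [← sum_add_distrib]
        exact sum_congr rfl fun u _ => (sum_sdiff (subset_univ Z)).symm
      have e3 : ∑ u ∈ Z, ∑ v ∈ univ \ Z, A u v ≤ ∑ u ∈ univ \ Z, ∑ v, A u v := by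
        have e4 : ∑ u ∈ Z, ∑ v ∈ univ \ Z, A u v = ∑ v ∈ univ \ Z, ∑ u ∈ Z, A u v := sum_comm
        rw [e4]
        refine sum_le_sum fun u _ => ?_
        calc ∑ v ∈ Z, A v u = ∑ v ∈ Z, A u v := sum_congr rfl fun v _ => hsym v u
          _ ≤ ∑ v, A u v := sum_le_univ_sum_of_nonneg fun v => hA0 u v
      linarith
    have h3 : ∑ u ∈ univ \ Z, ∑ v, A u v ≤ c / 4 * (n * N) := by
      calc ∑ u ∈ univ \ Z, ∑ v, A u v ≤ ∑ _u ∈ univ \ Z, b * N := sum_le_sum fun u _ => hdeg u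
        _ = (#(univ \ Z) : ℝ) * (b * N) := by rw [sum_const, nsmul_eq_mul]
        _ ≤ (K * (n / R)) * (b * N) := by
            refine mul_le_mul_of_nonneg_right ?_ (by positivity)
            have : ((#(univ \ Z) : ℕ) : ℝ) ≤ K * s := by exact_mod_cast hF3
            refine this.trans ?_
            gcongr
        _ ≤ c / 4 * (n * N) := by
            have e1 : (K : ℝ) * (n / R) = n / (4 * (b + 1) / c + 1) := by
              rw [hR]; field_simp
            rw [e1]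
            have e2 : n / (4 * (b + 1) / c + 1) ≤ c / (4 * (b + 1)) * n := by
              rw [div_le_iff₀ (by positivity)]
              have : c / (4 * (b + 1)) * n * (4 * (b + 1) / c + 1) =
                  n + c / (4 * (b + 1)) * n := by field_simp
              rw [this]
              have : 0 ≤ c / (4 * (b + 1)) * n := by positivity
              linarith
            calc n / (4 * (b + 1) / c + 1) * (b * N) ≤ (c / (4 * (b + 1)) * n) * ((b + 1) * N) := by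
                  gcongr
                  linarith
              _ = c / 4 * (n * N) := by field_simp
    linarith
  -- the pair
  set HS : Finset V → Finset V → ℝ := fun Q Q' => ∑ u ∈ Q, ∑ v ∈ Q', A₂ u v ^ 2 with hHS
  have hHS0 : ∀ Q Q', 0 ≤ HS Q Q' := fun Q Q' =>
    sum_nonneg fun u _ => sum_nonneg fun v _ => sq_nonneg _
  have hHStot : ∑ Q ∈ F, ∑ Q' ∈ F, HS Q Q' ≤ (ε / 8) ^ 2 * c ^ 2 / 32 * N ^ 2 := by
    have h1 : ∑ Q ∈ F, ∑ Q' ∈ F, HS Q Q' = ∑ u ∈ Z, ∑ v ∈ Z, A₂ u v ^ 2 := by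
      rw [← sum_pieces hF2]
      refine sum_congr rfl fun Q _ => ?_
      rw [hHS]
      simp only
      rw [sum_comm]
      refine sum_congr rfl fun u _ => ?_
      exact sum_pieces hF2 (fun v => A₂ u v ^ 2)
    rw [h1]
    calc ∑ u ∈ Z, ∑ v ∈ Z, A₂ u v ^ 2 ≤ ∑ u ∈ Z, ∑ v, A₂ u v ^ 2 :=
          sum_le_sum fun u _ => sum_le_univ_sum_of_nonneg fun v => sq_nonneg _
      _ ≤ ∑ u, ∑ v, A₂ u v ^ 2 :=
          sum_le_univ_sum_of_nonneg fun u => sum_nonneg fun v _ => sq_nonneg _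
      _ = ∑ i ∈ S' \ S, l i ^ 2 := h.hs _
      _ ≤ _ := hmid
  obtain ⟨Q, hQ, Q', hQ', hEQ, hHQ⟩ : ∃ Q ∈ F, ∃ Q' ∈ F,
      c / 4 * (N / n) * (s : ℝ) ^ 2 ≤ E Q Q' ∧
        HS Q Q' ≤ (ε / 8) ^ 2 * (c / 4 * (N / n)) * E Q Q' := by
    by_contra hcon
    push Not at hcon
    have h1 : ∀ Q ∈ F, ∀ Q' ∈ F, (ε / 8) ^ 2 * (c / 4 * (N / n)) *
        (E Q Q' - c / 4 * (N / n) * (s : ℝ) ^ 2) ≤ HS Q Q' := by
      intro Q hQ Q' hQ'
      rcases le_or_gt (c / 4 * (N / n) * (s : ℝ) ^ 2) (E Q Q') with h2 | h2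
      · refine le_trans ?_ (hcon Q hQ Q' hQ' h2).le
        refine mul_le_mul_of_nonneg_left ?_ (by positivity)
        have : 0 ≤ c / 4 * (N / n) * (s : ℝ) ^ 2 := by positivity
        linarith
      · refine le_trans ?_ (hHS0 Q Q')
        refine mul_nonpos_of_nonneg_of_nonpos (by positivity) ?_
        linarith
    have h2 : (ε / 8) ^ 2 * (c / 4 * (N / n)) * (∑ Q ∈ F, ∑ Q' ∈ F, E Q Q' -
        (#F : ℝ) * ((#F : ℝ) * (c / 4 * (N / n) * (s : ℝ) ^ 2))) ≤ ∑ Q ∈ F, ∑ Q' ∈ F, HS Q Q' := by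
      have h3 := sum_le_sum fun Q hQ => sum_le_sum fun Q' hQ' => h1 Q hQ Q' hQ'
      refine le_trans (le_of_eq ?_) h3
      simp only [← mul_sum, sum_sub_distrib, sum_const, nsmul_eq_mul]
      ring
    have h4 : (#F : ℝ) * ((#F : ℝ) * (c / 4 * (N / n) * (s : ℝ) ^ 2)) ≤ c / 4 * (n * N) := by
      have h5 : (#F : ℝ) * s ≤ n := hFc
      calc (#F : ℝ) * ((#F : ℝ) * (c / 4 * (N / n) * (s : ℝ) ^ 2)) =
          c / 4 * (N / n) * ((#F * s) * (#F * s)) := by ring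
        _ ≤ c / 4 * (N / n) * (n * n) := by gcongr
        _ = _ := by field_simp
    have h6 : (ε / 8) ^ 2 * (c / 4 * (N / n)) * (c / 4 * (n * N)) ≤
        ∑ Q ∈ F, ∑ Q' ∈ F, HS Q Q' := by
      refine le_trans ?_ h2
      refine mul_le_mul_of_nonneg_left ?_ (by positivity)
      linarith
    have h7 : (ε / 8) ^ 2 * (c / 4 * (N / n)) * (c / 4 * (n * N)) =
        (ε / 8) ^ 2 * c ^ 2 / 16 * N ^ 2 := by field_simp; norm_num
    rw [h7] at h6
    have h8 := h6.trans hHStot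
    have h9 : 0 < (ε / 8) ^ 2 * c ^ 2 * N ^ 2 := by positivity
    linarith
  have hQc := (hF1 Q hQ).1
  have hQc' := (hF1 Q' hQ').1
  set d : ℝ := E Q Q' / (s : ℝ) ^ 2 with hd
  have hdE : d * (s : ℝ) ^ 2 = E Q Q' := by rw [hd]; field_simp
  have hdge : c / 4 * (N / n) ≤ d := by
    rw [hd, le_div_iff₀ (by positivity)]
    exact hEQ
  have hd0 : 0 < d := lt_of_lt_of_le (by positivity) hdge
  obtain ⟨q, hq⟩ : Q.Nonempty := card_pos.1 (by omega)
  obtain ⟨q', hq'⟩ : Q'.Nonempty := card_pos.1 (by omega)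
  set a : ℝ := A₁ q q' with ha
  set δ : ℝ := 3 * (ε / 8) * (d * s) with hδ
  have hδ0 : 0 < δ := by positivity
  have hmain : ∀ f g : V → ℝ, |∑ u ∈ Q, ∑ v ∈ Q', (A u v - a) * f u * g v| ≤
      δ * Real.sqrt (∑ u ∈ Q, f u ^ 2) * Real.sqrt (∑ v ∈ Q', g v ^ 2) := by
    intro f g
    set f' : V → ℝ := fun u => if u ∈ Q then f u else 0 with hf'
    set g' : V → ℝ := fun v => if v ∈ Q' then g v else 0 with hg'
    have hff : ∑ u, f' u ^ 2 = ∑ u ∈ Q, f u ^ 2 := by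
      have : ∀ u, f' u ^ 2 = if u ∈ Q then f u ^ 2 else 0 := by
        intro u; rw [hf']; simp only; split_ifs <;> ring
      simp only [this, sum_ite_mem, univ_inter]
    have hgg : ∑ v, g' v ^ 2 = ∑ v ∈ Q', g v ^ 2 := by
      have : ∀ v, g' v ^ 2 = if v ∈ Q' then g v ^ 2 else 0 := by
        intro v; rw [hg']; simp only; split_ifs <;> ring
      simp only [this, sum_ite_mem, univ_inter]
    have hres : ∀ B : V → V → ℝ, ∑ u, ∑ v, B u v * f' u * g' v =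
        ∑ u ∈ Q, ∑ v ∈ Q', B u v * f u * g v := by
      intro B
      have e1 : ∀ u, ∑ v, B u v * f' u * g' v =
          if u ∈ Q then ∑ v ∈ Q', B u v * f u * g v else 0 := by
        intro u
        rw [hf', hg']
        simp only
        split_ifs with hu
        · simp only [mul_ite, mul_zero, sum_ite_mem, univ_inter]
        · simp
      simp only [e1, sum_ite_mem, univ_inter]
    have hpart : ∀ T : Finset V, ∑ i ∈ T, l i * co φ f' i * co φ g' i =
        ∑ u ∈ Q, ∑ v ∈ Q', (∑ i ∈ T, l i * φ i u * φ i v) * f u * g v := by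
      intro T
      rw [← hres]
      unfold co
      have e1 : ∀ i, l i * (∑ v, φ i v * f' v) * (∑ v, φ i v * g' v) =
          ∑ u, ∑ v, l i * φ i u * φ i v * f' u * g' v := by
        intro i
        rw [mul_assoc, sum_mul_sum, mul_sum]
        refine sum_congr rfl fun u _ => ?_
        rw [mul_sum]
        exact sum_congr rfl fun v _ => by ring
      simp only [e1, sum_mul]
      rw [sum_comm]
      refine sum_congr rfl fun u _ => ?_
      exact sum_comm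
    have hsplit : ∑ u ∈ Q, ∑ v ∈ Q', A u v * f u * g v =
        ∑ u ∈ Q, ∑ v ∈ Q', A₁ u v * f u * g v + ∑ u ∈ Q, ∑ v ∈ Q', A₂ u v * f u * g v +
          ∑ i ∈ univ \ S', l i * co φ f' i * co φ g' i := by
      rw [← hres A, h.bilin f' g', ← hpart S, ← hpart (S' \ S)]
      have hSS : S ⊆ S' := by
        intro i hi
        rw [hS, mem_filter] at hi
        rw [hS', mem_filter]
        refine ⟨mem_univ _, le_trans ?_ hi.2⟩
        exact mul_le_mul_of_nonneg_right (min_le_left _ _) hN.le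
      rw [← sum_sdiff (subset_univ S'), ← sum_sdiff hSS]
      ring
    have h1 := sup_block (fun u v => A₁ u v - a) Q Q' s hQc hQc' (ε' * (N / n)) (by positivity)
      (fun u hu v hv => hA₁c Q hQ Q' hQ' u hu q hq v hv q' hq') f g
    have h2 := hs_block A₂ Q Q' f g
    have h3 := h.small S' (t' * N) (by positivity) (fun i hi => by
      rw [hS', mem_filter, not_and] at hi
      exact (not_le.1 (hi (mem_univ i))).le) f' g'
    rw [hff, hgg] at h3
    have h4 : ∑ u ∈ Q, ∑ v ∈ Q', (A u v - a) * f u * g v =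
        ∑ u ∈ Q, ∑ v ∈ Q', (A₁ u v - a) * f u * g v + ∑ u ∈ Q, ∑ v ∈ Q', A₂ u v * f u * g v +
          ∑ i ∈ univ \ S', l i * co φ f' i * co φ g' i := by
      have e1 : ∀ B : V → V → ℝ, ∑ u ∈ Q, ∑ v ∈ Q', (B u v - a) * f u * g v =
          ∑ u ∈ Q, ∑ v ∈ Q', B u v * f u * g v - ∑ u ∈ Q, ∑ v ∈ Q', a * f u * g v := by
        intro B
        rw [← sum_sub_distrib]
        refine sum_congr rfl fun u _ => ?_
        rw [← sum_sub_distrib]
        exact sum_congr rfl fun v _ => by ring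
      rw [e1 A, e1 A₁, hsplit]
      ring
    rw [h4]
    set x := Real.sqrt (∑ u ∈ Q, f u ^ 2) with hx
    set y := Real.sqrt (∑ v ∈ Q', g v ^ 2) with hy
    have hx0 : 0 ≤ x := Real.sqrt_nonneg _
    have hy0 : 0 ≤ y := Real.sqrt_nonneg _
    have hbase : c / 4 * (N / n) * s ≤ d * s := mul_le_mul_of_nonneg_right hdge hs0.le
    have b1 : ε' * (N / n) * s ≤ ε / 8 * (d * s) := by
      calc ε' * (N / n) * s = ε / 8 * (c / 4 * (N / n) * s) := by rw [hε']; ring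
        _ ≤ _ := by gcongr
    have b2 : Real.sqrt (HS Q Q') ≤ ε / 8 * (d * s) := by
      rw [Real.sqrt_le_left (by positivity)]
      refine hHQ.trans ?_
      calc (ε / 8) ^ 2 * (c / 4 * (N / n)) * E Q Q' ≤ (ε / 8) ^ 2 * d * (d * (s : ℝ) ^ 2) := by
            rw [hdE]
            have : 0 ≤ E Q Q' := by rw [← hdE]; positivity
            gcongr
        _ = _ := by ring
    have b3 : t' * N ≤ ε / 8 * (d * s) := by
      calc t' * N ≤ (ε * c / 32 * σ) * N := mul_le_mul_of_nonneg_right (min_le_right _ _) hN.le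
        _ = ε / 8 * (c / 4 * (N / n) * (σ * n)) := by field_simp; norm_num
        _ ≤ ε / 8 * (c / 4 * (N / n) * s) := by gcongr
        _ ≤ _ := by gcongr
    calc _ ≤ |∑ u ∈ Q, ∑ v ∈ Q', (A₁ u v - a) * f u * g v| +
          |∑ u ∈ Q, ∑ v ∈ Q', A₂ u v * f u * g v| +
          |∑ i ∈ univ \ S', l i * co φ f' i * co φ g' i| := by
          refine (abs_add_le _ _).trans ?_
          gcongr
          exact abs_add_le _ _
      _ ≤ ε / 8 * (d * s) * x * y + ε / 8 * (d * s) * x * y + ε / 8 * (d * s) * x * y := by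
          refine add_le_add (add_le_add ?_ ?_) ?_
          · exact h1.trans (by gcongr)
          · exact h2.trans (by gcongr)
          · exact h3.trans (by gcongr)
      _ = _ := by rw [hδ]; ring
  have had : |d - a| * s ≤ δ := by
    have h1 := hmain (fun _ => 1) (fun _ => 1)
    have e1 : ∑ u ∈ Q, ∑ v ∈ Q', (A u v - a) * 1 * 1 = (d - a) * (s : ℝ) ^ 2 := by
      have : ∑ u ∈ Q, ∑ v ∈ Q', (A u v - a) * 1 * 1 = E Q Q' - (s : ℝ) * (s * a) := by
        simp only [mul_one, sum_sub_distrib, sum_const, hQc, hQc', nsmul_eq_mul]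
        rfl
      rw [this, ← hdE]
      ring
    have e2 : Real.sqrt (∑ _u ∈ Q, (1 : ℝ) ^ 2) = Real.sqrt s := by
      simp [hQc]
    have e3 : Real.sqrt (∑ _u ∈ Q', (1 : ℝ) ^ 2) = Real.sqrt s := by
      simp [hQc']
    rw [e1, e2, e3, mul_assoc δ, Real.mul_self_sqrt hs0.le, abs_mul,
      abs_of_nonneg (by positivity : (0 : ℝ) ≤ (s : ℝ) ^ 2)] at h1
    have h2 : (|d - a| * s) * s ≤ δ * s := by
      calc (|d - a| * s) * s = |d - a| * (s : ℝ) ^ 2 := by ring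
        _ ≤ _ := h1
    exact le_of_mul_le_mul_right h2 hs0
  refine ⟨s, Q, Q', d, hs1, hsge, hQc, hQc', hdge, fun f g => ?_⟩
  have h1 := hmain f g
  have h2 := sup_block (fun _ _ => d - a) Q Q' s hQc hQc' |d - a| (abs_nonneg _)
    (fun _ _ _ _ => le_rfl) f g
  have h3 : ∑ u ∈ Q, ∑ v ∈ Q', (A u v - d) * f u * g v =
      ∑ u ∈ Q, ∑ v ∈ Q', (A u v - a) * f u * g v -
        ∑ u ∈ Q, ∑ v ∈ Q', (d - a) * f u * g v := by
    rw [← sum_sub_distrib]
    refine sum_congr rfl fun u _ => ?_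
    rw [← sum_sub_distrib]
    exact sum_congr rfl fun v _ => by ring
  rw [h3]
  set x := Real.sqrt (∑ u ∈ Q, f u ^ 2) with hx
  set y := Real.sqrt (∑ v ∈ Q', g v ^ 2) with hy
  have hx0 : 0 ≤ x := Real.sqrt_nonneg _
  have hy0 : 0 ≤ y := Real.sqrt_nonneg _
  calc _ ≤ |∑ u ∈ Q, ∑ v ∈ Q', (A u v - a) * f u * g v| +
        |∑ u ∈ Q, ∑ v ∈ Q', (d - a) * f u * g v| := abs_sub _ _
    _ ≤ δ * x * y + δ * x * y := by
        refine add_le_add h1 (h2.trans ?_)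
        gcongr
    _ = 3 / 4 * (ε * (d * s) * x * y) := by rw [hδ]; ring
    _ ≤ _ := by
        have : 0 ≤ ε * (d * s) * x * y := by positivity
        linarith

end Pool.Agent.N721.SR
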