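import Pool.Agent.N721.SR.KR3

/-! # The energy of the large eigenvalues of a graph without `K_{r,r}`, and the pair -/

set_option autoImplicit false
set_option maxHeartbeats 400000
set_option linter.unusedSectionVars false

open Finset

namespace Pool.Agent.N721.SR

theorem energy_kst (r : ℕ) (hr : 2 ≤ r) (M t : ℝ) (hM : 0 ≤ M) (ht : 0 < t) :
    ∃ n₀ : ℕ, ∀ (V : Type) [Fintype V] [DecidableEq V] (G : SimpleGraph V) [DecidableRel G.Adj]
      (φ : V → V → ℝ) (l : V → ℝ), Eig (G.adjMatrix ℝ) φ l →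
      (completeBipartiteGraph (Fin r) (Fin r)).Free G → n₀ ≤ Fintype.card V →
      (∀ v, (G.adjMatrix ℝ ^ (2 * 2)) v v * (Fintype.card V : ℝ) ≤
        M * ((Fintype.card V : ℝ) ^ (1 - 1 / (r : ℝ))) ^ (2 * 2)) →
      ∑ i ∈ univ.filter (fun i => t * (Fintype.card V : ℝ) ^ (1 - 1 / (r : ℝ)) ≤ |l i|), l i ^ 2 ≤
        2 * (2 * r + 2 * (r : ℝ) ^ 2) * ((Fintype.card V : ℝ) ^ (1 - 1 / (r : ℝ))) ^ 2 := by
  set rt : ℕ := ⌈M / t ^ (2 * 2)⌉₊ with hrt
  set B : ℝ := Real.sqrt (M / t ^ (2 * 2)) with hB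
  have hB0 : 0 ≤ B := Real.sqrt_nonneg _
  set K : ℕ := (2 * (⌈B / (1 / 2)⌉₊ + 1) + 1) ^ rt with hK
  have hK1 : (1 : ℝ) ≤ K := by
    rw [hK]
    exact_mod_cast Nat.one_le_pow _ _ (by omega)
  have hK0 : (0 : ℝ) < K := by linarith
  set R : ℝ := 4 * (B ^ 2 + 1) * K with hR
  have hR0 : 0 < R := by positivity
  refine ⟨⌈4 * R ^ 2 + 2 * R⌉₊ + 1, ?_⟩
  intro V _ _ G _ φ l h hfree hn₁ hdiag
  set n : ℝ := (Fintype.card V : ℝ) with hnd
  have hnpos : 0 < Fintype.card V := by omega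
  have hn0 : 0 < n := by rw [hnd]; exact_mod_cast hnpos
  have hn1 : 1 ≤ n := by rw [hnd]; exact_mod_cast hnpos
  have hnR : 4 * R ^ 2 + 2 * R ≤ n := by
    calc 4 * R ^ 2 + 2 * R ≤ (⌈4 * R ^ 2 + 2 * R⌉₊ : ℝ) := Nat.le_ceil _
      _ ≤ n := by
        have : ⌈4 * R ^ 2 + 2 * R⌉₊ ≤ Fintype.card V := by omega
        rw [hnd]; exact_mod_cast this
  have hr0 : (0 : ℝ) < r := by
    have : 0 < r := by omega
    exact_mod_cast this
  have hr2 : (2 : ℝ) ≤ r := by exact_mod_cast hr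
  set N : ℝ := n ^ (1 - 1 / (r : ℝ)) with hN
  have hN0 : 0 < N := by positivity
  obtain ⟨hp1, hp2, -⟩ := params h M N t hM hN0 ht hnpos hdiag
  set S := univ.filter fun i => t * N ≤ |l i| with hS
  obtain ⟨P, hP⟩ := cells_pt S φ B (1 / 2) hB0 (by norm_num) rt hp1 hp2
  set s : ℕ := ⌊n / R⌋₊ with hs
  have hx1 : 2 ≤ n / R := by
    rw [le_div_iff₀ hR0]
    nlinarith [sq_nonneg R]
  have hs1 : 1 ≤ s := by
    rw [hs, Nat.one_le_floor_iff]
    linarith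
  have hs0 : (0 : ℝ) < s := by exact_mod_cast hs1
  have hsle : (s : ℝ) ≤ n / R := Nat.floor_le (by positivity)
  have hsge : n / R / 2 ≤ s := by
    have h1 : n / R < s + 1 := Nat.lt_floor_add_one _
    linarith
  have hsn : n ≤ (s : ℝ) ^ 2 := by
    calc n = n * 1 := (mul_one n).symm
      _ ≤ n * (n / (4 * R ^ 2)) := by
          gcongr
          rw [le_div_iff₀ (by positivity)]
          nlinarith [hR0]
      _ = (n / R / 2) ^ 2 := by field_simp; norm_num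
      _ ≤ (s : ℝ) ^ 2 := pow_le_pow_left₀ (by positivity) hsge 2
  obtain ⟨F, hF1, hF2, hF3⟩ := exists_pieces P s hs1
  have hFc := card_pieces (fun Q hQ => (hF1 Q hQ).1) hF2
  have hmass : ∀ i ∈ S, 1 / 2 ≤ ∑ Q ∈ F, (∑ v ∈ Q, φ i v) ^ 2 / s := by
    intro i hi
    have h1 := piece_mass h hs1 (fun Q hQ => (hF1 Q hQ).1) hF2 i (1 / 2) B hnpos
      (fun Q hQ u hu x hx => hP i hi u x ((hF1 Q hQ).2 u hu x hx)) (hp2 i hi)
    refine le_trans ?_ h1
    have h2 : (#(univ \ F.biUnion id) : ℝ) * (B ^ 2 / n) ≤ 1 / 4 := by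
      calc (#(univ \ F.biUnion id) : ℝ) * (B ^ 2 / n) ≤ (K * (n / R)) * (B ^ 2 / n) := by
            refine mul_le_mul_of_nonneg_right ?_ (by positivity)
            have : ((#(univ \ F.biUnion id) : ℕ) : ℝ) ≤ K * s := by exact_mod_cast hF3
            refine this.trans ?_
            gcongr
        _ = B ^ 2 / (4 * (B ^ 2 + 1)) := by rw [hR]; field_simp
        _ ≤ 1 / 4 := by
            rw [div_le_div_iff₀ (by positivity) (by norm_num)]
            linarith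
    rw [← hnd]
    linarith
  have hsym : ∀ u v, G.adjMatrix ℝ u v = G.adjMatrix ℝ v u := by
    intro u v
    simp only [SimpleGraph.adjMatrix_apply]
    by_cases hc : G.Adj u v
    · rw [if_pos hc, if_pos hc.symm]
    · rw [if_neg hc, if_neg (fun h => hc h.symm)]
  refine (energy_le h hsym S hs1 hmass).trans ?_
  have hpow : n ^ (1 - 2 / (r : ℝ)) * n = N ^ 2 := by
    rw [hN, ← Real.rpow_natCast, ← Real.rpow_mul hn0.le]
    nth_rewrite 2 [← Real.rpow_one n]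
    rw [← Real.rpow_add hn0]
    congr 1
    push_cast
    ring
  have hnN : n ≤ N ^ 2 := by
    rw [← hpow]
    have : 1 ≤ n ^ (1 - 2 / (r : ℝ)) := by
      refine Real.one_le_rpow hn1 ?_
      have : 2 / (r : ℝ) ≤ 1 := by rw [div_le_one hr0]; exact hr2
      linarith
    nlinarith
  have hterm : ∀ Q ∈ F, (∑ u, (∑ v ∈ Q, G.adjMatrix ℝ u v) ^ 2) / s ≤
      2 * r * n ^ (1 - 2 / (r : ℝ)) * s + 2 * (r : ℝ) ^ 2 * (n / s) := by
    intro Q hQ
    have h1 := dQ_sq G r hr hfree Q hnpos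
    simp only [dQ_eq] at h1
    rw [(hF1 Q hQ).1, ← hnd] at h1
    rw [div_le_iff₀ hs0]
    refine h1.trans (le_of_eq ?_)
    field_simp
  have hsum : ∑ Q ∈ F, (∑ u, (∑ v ∈ Q, G.adjMatrix ℝ u v) ^ 2) / s ≤
      (2 * r + 2 * (r : ℝ) ^ 2) * N ^ 2 := by
    calc ∑ Q ∈ F, (∑ u, (∑ v ∈ Q, G.adjMatrix ℝ u v) ^ 2) / s
        ≤ ∑ _Q ∈ F, (2 * r * n ^ (1 - 2 / (r : ℝ)) * s + 2 * (r : ℝ) ^ 2 * (n / s)) :=
          sum_le_sum hterm
      _ = 2 * r * n ^ (1 - 2 / (r : ℝ)) * ((#F : ℝ) * s) +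
          2 * (r : ℝ) ^ 2 * (((#F : ℝ) * s) * n / (s : ℝ) ^ 2) := by
          rw [sum_const, nsmul_eq_mul]
          field_simp
      _ ≤ 2 * r * n ^ (1 - 2 / (r : ℝ)) * n + 2 * (r : ℝ) ^ 2 * (n * n / (s : ℝ) ^ 2) := by
          gcongr
      _ ≤ 2 * r * n ^ (1 - 2 / (r : ℝ)) * n + 2 * (r : ℝ) ^ 2 * N ^ 2 := by
          gcongr
          rw [div_le_iff₀ (by positivity)]
          calc n * n ≤ N ^ 2 * (s : ℝ) ^ 2 := by gcongr
            _ = _ := rfl
      _ = _ := by rw [mul_assoc (2 * (r : ℝ)), hpow]; ring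
  linarith

/-- a set of few indices in the middle -/
theorem pigeon {V : Type} [Fintype V] [DecidableEq V] (l : V → ℝ) (N : ℝ) (hN : 0 < N)
    (T : ℕ → ℝ) (hT : ∀ j, T (j + 1) ≤ T j) (J : ℕ) (C γ : ℝ)
    (hJ : C < J * γ)
    (hC : ∑ i ∈ univ.filter (fun i => T J * N ≤ |l i|), l i ^ 2 ≤ C * N ^ 2) :
    ∃ j < J, ∑ i ∈ (univ.filter fun i => T (j + 1) * N ≤ |l i|) \
      (univ.filter fun i => T j * N ≤ |l i|), l i ^ 2 ≤ γ * N ^ 2 := by
  by_contra hcon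
  push Not at hcon
  have h1 : ∀ k ≤ J, (k : ℝ) * (γ * N ^ 2) ≤
      ∑ i ∈ univ.filter (fun i => T k * N ≤ |l i|), l i ^ 2 := by
    intro k hk
    induction k with
    | zero =>
      rw [Nat.cast_zero, zero_mul]
      exact sum_nonneg fun i _ => sq_nonneg _
    | succ k ih =>
      have h2 := ih (by omega)
      have h3 := (hcon k (by omega)).le
      have hsub : (univ.filter fun i => T k * N ≤ |l i|) ⊆
          univ.filter fun i => T (k + 1) * N ≤ |l i| := by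
        intro i hi
        rw [mem_filter] at hi ⊢
        exact ⟨hi.1, le_trans (mul_le_mul_of_nonneg_right (hT k) hN.le) hi.2⟩
      have h4 := sum_sdiff (f := fun i => l i ^ 2) hsub
      rw [← h4]
      push_cast
      linarith
  have h2 := h1 J le_rfl
  have h3 := h2.trans hC
  have h4 : (J * γ) * N ^ 2 ≤ C * N ^ 2 := by linarith
  have h5 := le_of_mul_le_mul_right h4 (by positivity)
  linarith

/-- **a quasirandom pair of linear size** in every dense graph without `K_{r,r}` -/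
theorem pair_exists (r : ℕ) (hr : 2 ≤ r) (b c ε : ℝ) (hb : 0 ≤ b) (hc : 0 < c) (hε : 0 < ε) :
    ∃ (σ : ℝ) (n₁ : ℕ), 0 < σ ∧ ∀ (V : Type) [Fintype V] [DecidableEq V] (G : SimpleGraph V)
      [DecidableRel G.Adj], (completeBipartiteGraph (Fin r) (Fin r)).Free G →
      n₁ ≤ Fintype.card V →
      (∀ v, (G.degree v : ℝ) ≤ b * (Fintype.card V : ℝ) ^ (1 - 1 / (r : ℝ))) →
      c * (Fintype.card V * (Fintype.card V : ℝ) ^ (1 - 1 / (r : ℝ))) ≤
        ∑ u, ∑ v, G.adjMatrix ℝ u v →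
      ∃ (s : ℕ) (X Y : Finset V) (d : ℝ), 1 ≤ s ∧ σ * Fintype.card V ≤ s ∧ #X = s ∧ #Y = s ∧
        c / 4 * ((Fintype.card V : ℝ) ^ (1 - 1 / (r : ℝ)) / Fintype.card V) ≤ d ∧
        ∀ f g : V → ℝ,
          |∑ u ∈ X, ∑ v ∈ Y, (G.adjMatrix ℝ u v - d) * f u * g v| ≤
            ε * (d * s) * Real.sqrt (∑ u ∈ X, f u ^ 2) * Real.sqrt (∑ v ∈ Y, g v ^ 2) := by
  classical
  set M : ℝ := 2 * r * b ^ 2 + 2 * (r : ℝ) ^ 2 with hM
  have hM0 : 0 ≤ M := by positivity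
  set γ : ℝ := (ε / 8) ^ 2 * c ^ 2 / 32 with hγ
  have hγ0 : 0 < γ := by positivity
  set C : ℝ := 2 * (2 * r + 2 * (r : ℝ) ^ 2) with hC
  have hst : ∀ t : {t : ℝ // 0 < t}, ∃ (t' σ : ℝ) (n₁ : ℕ), 0 < t' ∧ t' ≤ t.1 ∧ 0 < σ ∧
      ∀ (V : Type) [Fintype V] [DecidableEq V]
      (A : Matrix V V ℝ) (φ : V → V → ℝ) (l : V → ℝ) (N : ℝ), Eig A φ l →
      (∀ u v, 0 ≤ A u v) → (∀ u v, A u v = A v u) → 0 < N → n₁ ≤ Fintype.card V →
      (∀ v, (A ^ (2 * 2)) v v * (Fintype.card V : ℝ) ≤ M * N ^ (2 * 2)) →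
      (∀ u, ∑ v, A u v ≤ b * N) → c * (Fintype.card V * N) ≤ ∑ u, ∑ v, A u v →
      ∑ i ∈ (univ.filter fun i => t' * N ≤ |l i|) \ (univ.filter fun i => t.1 * N ≤ |l i|),
        l i ^ 2 ≤ γ * N ^ 2 →
      ∃ (s : ℕ) (X Y : Finset V) (d : ℝ), 1 ≤ s ∧ σ * Fintype.card V ≤ s ∧ #X = s ∧ #Y = s ∧
        c / 4 * (N / Fintype.card V) ≤ d ∧ ∀ f g : V → ℝ,
          |∑ u ∈ X, ∑ v ∈ Y, (A u v - d) * f u * g v| ≤
            ε * (d * s) * Real.sqrt (∑ u ∈ X, f u ^ 2) * Real.sqrt (∑ v ∈ Y, g v ^ 2) :=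
    fun t => step M b c ε t.1 hM0 hb hc hε t.2
  choose t' σ n₁ ht' ht'le hσ hstep using hst
  set T : ℕ → {t : ℝ // 0 < t} := fun j => (fun t => (⟨t' t, ht' t⟩ : {t : ℝ // 0 < t}))^[j]
    ⟨1, one_pos⟩ with hT
  have hTs : ∀ j, (T (j + 1)).1 = t' (T j) := by
    intro j
    rw [hT]
    simp only [Function.iterate_succ_apply']
  obtain ⟨J, hJ⟩ := exists_nat_gt (C / γ)
  rw [div_lt_iff₀ hγ0] at hJ
  have hJ0 : 0 < J := by
    rcases Nat.eq_zero_or_pos J with h0 | h0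
    · rw [h0, Nat.cast_zero, zero_mul] at hJ
      have : 0 ≤ C := by positivity
      linarith
    · exact h0
  obtain ⟨n₀, hn₀⟩ := energy_kst r hr M (T J).1 hM0 (T J).2
  have hne : (range J).Nonempty := ⟨0, mem_range.2 hJ0⟩
  refine ⟨(range J).inf' hne (fun j => σ (T j)), max n₀ ((range J).sup fun j => n₁ (T j)) + 1,
    ?_, ?_⟩
  · rw [lt_inf'_iff]
    exact fun j _ => hσ (T j)
  intro V _ _ G _ hfree hn hdeg hedge
  have hherm : (G.adjMatrix ℝ).IsHermitian := by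
    ext u v
    simp only [Matrix.conjTranspose_apply, SimpleGraph.adjMatrix_apply, star_trivial]
    by_cases hc : G.Adj u v
    · rw [if_pos hc, if_pos hc.symm]
    · rw [if_neg hc, if_neg (fun h => hc h.symm)]
  have hE := exists_eig hherm
  set φ : V → V → ℝ := fun i v => hherm.eigenvectorBasis i v
  set l := hherm.eigenvalues
  have hdiag := diag_four G r hr hfree b hdeg
  have hcard : 0 < Fintype.card V := by omega
  have hN : 0 < (Fintype.card V : ℝ) ^ (1 - 1 / (r : ℝ)) := by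
    have : (0 : ℝ) < Fintype.card V := by exact_mod_cast hcard
    positivity
  have hen := hn₀ V G φ l hE hfree ((le_max_left n₀ ((range J).sup fun j => n₁ (T j))).trans (by omega)) hdiag
  obtain ⟨j, hj, hmid⟩ := pigeon l _ hN (fun j => (T j).1) (fun j => by
    rw [hTs]
    exact ht'le _) J C γ hJ hen
  simp only [hTs] at hmid
  obtain ⟨s, X, Y, d, h1, h2, h3, h4, h5, h6⟩ := hstep (T j) V (G.adjMatrix ℝ) φ l _ hE
    (fun u v => by rw [SimpleGraph.adjMatrix_apply]; split_ifs <;> norm_num)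
    (fun u v => by
      simp only [SimpleGraph.adjMatrix_apply]
      by_cases hc : G.Adj u v
      · rw [if_pos hc, if_pos hc.symm]
      · rw [if_neg hc, if_neg (fun h => hc h.symm)])
    hN (((Finset.le_sup (f := fun j => n₁ (T j)) (mem_range.2 hj)).trans
      (le_max_right n₀ _)).trans (by omega)) hdiag
    (fun u => by
      have := hdeg u
      rw [← SimpleGraph.card_neighborFinset_eq_degree] at this
      simp only [SimpleGraph.adjMatrix_apply, sum_boole]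
      rw [← SimpleGraph.neighborFinset_eq_filter]
      exact this)
    hedge hmid
  refine ⟨s, X, Y, d, h1, le_trans ?_ h2, h3, h4, h5, h6⟩
  refine mul_le_mul_of_nonneg_right ?_ (Nat.cast_nonneg _)
  exact Finset.inf'_le _ (mem_range.2 hj)

end Pool.Agent.N721.SR
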