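import Pool.Agent.N721.SR.KR4
import Pool.Agent.N721.SR.Bs

/-! # The quasirandom form -/

set_option autoImplicit false
set_option maxHeartbeats 400000
set_option linter.unusedSectionVars false

open Finset

namespace Pool.Agent.N721.SR

/-- a copy of `K_{r,r}` from two injective families -/
theorem kst_copy {V : Type} (G : SimpleGraph V) (r : ℕ)
    (hG : (completeBipartiteGraph (Fin r) (Fin r)).Free G) (f g : Fin r → V)
    (hf : Function.Injective f) (hg : Function.Injective g) (hadj : ∀ i j, G.Adj (f i) (g j)) :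
    False := by
  apply hG
  refine ⟨⟨⟨Sum.elim f g, ?_⟩, ?_⟩⟩
  · rintro (i | i) (j | j) h
    · simp [completeBipartiteGraph] at h
    · exact hadj i j
    · exact (hadj j i).symm
    · simp [completeBipartiteGraph] at h
  · rintro (i | i) (j | j) h
    · exact congrArg Sum.inl (hf h)
    · exact absurd h (hadj i j).ne
    · exact absurd h.symm (hadj j i).ne
    · exact congrArg Sum.inr (hg h)

/-- the bipartite graph of a matrix of zeros and ones -/
def bip (m : ℕ) (A : Fin m → Fin m → ℝ) : SimpleGraph (Fin m ⊕ Fin m) where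
  Adj x y := (∃ i j, x = Sum.inl i ∧ y = Sum.inr j ∧ A i j = 1) ∨
    (∃ i j, y = Sum.inl i ∧ x = Sum.inr j ∧ A i j = 1)
  symm := ⟨fun _ _ h => h.symm⟩
  loopless := ⟨fun x h => by
    rcases h with ⟨i, j, h1, h2, -⟩ | ⟨i, j, h1, h2, -⟩
    · rw [h1] at h2; cases h2
    · rw [h1] at h2; cases h2⟩

theorem bip_lr (m : ℕ) (A : Fin m → Fin m → ℝ) (i j : Fin m) :
    (bip m A).Adj (Sum.inl i) (Sum.inr j) ↔ A i j = 1 := by
  constructor
  · rintro (⟨i', j', h1, h2, h3⟩ | ⟨i', j', h1, h2, h3⟩)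
    · cases h1; cases h2; exact h3
    · cases h1
  · intro h
    exact Or.inl ⟨i, j, rfl, rfl, h⟩

theorem bip_free (m r : ℕ) (hr : 1 ≤ r) (A : Fin m → Fin m → ℝ)
    (hA : ∀ a b : Fin r → Fin m, Function.Injective a → Function.Injective b →
      ∃ i j, A (a i) (b j) = 0) :
    (completeBipartiteGraph (Fin r) (Fin r)).Free (bip m A) := by
  rintro ⟨f⟩
  have hadj : ∀ i j, (bip m A).Adj (f (Sum.inl i)) (f (Sum.inr j)) := fun i j =>
    f.toHom.map_adj (by simp [completeBipartiteGraph])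
  have finj : ∀ x y, f x = f y → x = y := fun x y h => f.injective h
  set z : Fin r := ⟨0, by omega⟩
  rcases hadj z z with ⟨i0, j0, h1, h2, -⟩ | ⟨i0, j0, h1, h2, -⟩
  · have hr' : ∀ j, ∃ b, f (Sum.inr j) = Sum.inr b := by
      intro j
      rcases hadj z j with ⟨i1, j1, h3, h4, -⟩ | ⟨i1, j1, h3, h4, -⟩
      · exact ⟨j1, h4⟩
      · rw [h1] at h4; cases h4
    have hl : ∀ i, ∃ a, f (Sum.inl i) = Sum.inl a := by
      intro i
      rcases hadj i z with ⟨i1, j1, h3, h4, -⟩ | ⟨i1, j1, h3, h4, -⟩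
      · exact ⟨i1, h3⟩
      · rw [h2] at h3; cases h3
    choose b hb using hr'
    choose a ha using hl
    obtain ⟨i, j, hij⟩ := hA a b
      (fun x y hxy => Sum.inl_injective (finj _ _ (by rw [ha, ha, hxy])))
      (fun x y hxy => Sum.inr_injective (finj _ _ (by rw [hb, hb, hxy])))
    have := hadj i j
    rw [ha, hb, bip_lr, hij] at this
    norm_num at this
  · -- `f (inr z) = inl i0`, `f (inl z) = inr j0`
    have hr' : ∀ j, ∃ b, f (Sum.inr j) = Sum.inl b := by
      intro j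
      rcases hadj z j with ⟨i1, j1, h3, h4, -⟩ | ⟨i1, j1, h3, h4, -⟩
      · rw [h2] at h3; cases h3
      · exact ⟨i1, h3⟩
    have hl : ∀ i, ∃ a, f (Sum.inl i) = Sum.inr a := by
      intro i
      rcases hadj i z with ⟨i1, j1, h3, h4, -⟩ | ⟨i1, j1, h3, h4, -⟩
      · rw [h1] at h4; cases h4
      · exact ⟨j1, h4⟩
    choose b hb using hr'
    choose a ha using hl
    obtain ⟨i, j, hij⟩ := hA b a
      (fun x y hxy => Sum.inr_injective (finj _ _ (by rw [hb, hb, hxy])))
      (fun x y hxy => Sum.inl_injective (finj _ _ (by rw [ha, ha, hxy])))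
    have := (hadj j i).symm
    rw [ha, hb, bip_lr, hij] at this
    norm_num at this

theorem bip_ee (m : ℕ) (A : Fin m → Fin m → ℝ) (hA : ∀ x y, A x y = 0 ∨ A x y = 1) :
    ∑ x, ∑ y, A x y ≤ ee (bip m A) univ univ := by
  classical
  unfold ee
  rw [Fintype.sum_sum_type]
  have h1 : ∑ x, ∑ y, A x y ≤
      ∑ x, ∑ y, (if (bip m A).Adj (Sum.inl x) y then (1 : ℝ) else 0) := by
    refine sum_le_sum fun x _ => ?_
    rw [Fintype.sum_sum_type]
    have h2 : 0 ≤ ∑ y, (if (bip m A).Adj (Sum.inl x) (Sum.inl y) then (1 : ℝ) else 0) :=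
      sum_nonneg fun y _ => by split_ifs <;> norm_num
    have h3 : ∑ y, A x y = ∑ y, (if (bip m A).Adj (Sum.inl x) (Sum.inr y) then (1 : ℝ) else 0) := by
      refine sum_congr rfl fun y _ => ?_
      simp only [bip_lr]
      rcases hA x y with h | h
      · rw [h]; norm_num
      · rw [h]; norm_num
    linarith
  have h4 : 0 ≤ ∑ x, ∑ y, (if (bip m A).Adj (Sum.inr x) y then (1 : ℝ) else 0) :=
    sum_nonneg fun x _ => sum_nonneg fun y _ => by split_ifs <;> norm_num
  linarith

theorem copG_ee (m n : ℕ) (hm : 0 < m) (G : SimpleGraph (Fin m)) :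
    ((n / m : ℕ) : ℝ) * ee G univ univ ≤ ee (copG m n hm G) univ univ := by
  classical
  have hlt : ∀ (q : Fin (n / m)) (x : Fin m), q.val * m + x.val < n / m * m := by
    intro q x
    have h1 := q.isLt
    have h2 : (q.val + 1) * m ≤ n / m * m := Nat.mul_le_mul_right m h1
    have := x.isLt
    rw [Nat.add_mul] at h2
    omega
  have hn : n / m * m ≤ n := Nat.div_mul_le_self n m
  set e : Fin (n / m) × (Fin m × Fin m) → Fin n × Fin n := fun p =>
    (⟨p.1.val * m + p.2.1.val, (hlt p.1 p.2.1).trans_le hn⟩,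
      ⟨p.1.val * m + p.2.2.val, (hlt p.1 p.2.2).trans_le hn⟩) with he
  have hdiv : ∀ (q : Fin (n / m)) (x : Fin m), (q.val * m + x.val) / m = q.val := by
    intro q x
    rw [Nat.mul_comm, Nat.mul_add_div hm, Nat.div_eq_of_lt x.isLt, add_zero]
  have hmod : ∀ (q : Fin (n / m)) (x : Fin m), (q.val * m + x.val) % m = x.val := by
    intro q x
    rw [Nat.mul_comm, Nat.mul_add_mod, Nat.mod_eq_of_lt x.isLt]
  have hinj : Function.Injective e := by
    rintro ⟨q, x, y⟩ ⟨q', x', y'⟩ h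
    have h1 : q.val * m + x.val = q'.val * m + x'.val := congrArg (fun p => p.1.val) h
    have h2 : q.val * m + y.val = q'.val * m + y'.val := congrArg (fun p => p.2.val) h
    have hq : q = q' := Fin.ext (by rw [← hdiv q x, ← hdiv q' x', h1])
    have hx : x = x' := Fin.ext (by rw [← hmod q x, ← hmod q' x', h1])
    have hy : y = y' := Fin.ext (by rw [← hmod q y, ← hmod q' y', h2])
    rw [hq, hx, hy]
  have hadj : ∀ p, (copG m n hm G).Adj (e p).1 (e p).2 ↔ G.Adj p.2.1 p.2.2 := by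
    rintro ⟨q, x, y⟩
    constructor
    · rintro ⟨-, -, -, h⟩
      have h1 : (⟨(q.val * m + x.val) % m, Nat.mod_lt _ hm⟩ : Fin m) = x := Fin.ext (hmod q x)
      have h2 : (⟨(q.val * m + y.val) % m, Nat.mod_lt _ hm⟩ : Fin m) = y := Fin.ext (hmod q y)
      change G.Adj (⟨(q.val * m + x.val) % m, Nat.mod_lt _ hm⟩ : Fin m)
        (⟨(q.val * m + y.val) % m, Nat.mod_lt _ hm⟩ : Fin m) at h
      rwa [h1, h2] at h
    · intro h
      refine ⟨hlt q x, hlt q y, ?_, ?_⟩
      · show (q.val * m + x.val) / m = (q.val * m + y.val) / m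
        rw [hdiv, hdiv]
      · have h1 : (⟨(q.val * m + x.val) % m, Nat.mod_lt _ hm⟩ : Fin m) = x := Fin.ext (hmod q x)
        have h2 : (⟨(q.val * m + y.val) % m, Nat.mod_lt _ hm⟩ : Fin m) = y := Fin.ext (hmod q y)
        show G.Adj (⟨(q.val * m + x.val) % m, Nat.mod_lt _ hm⟩ : Fin m)
          (⟨(q.val * m + y.val) % m, Nat.mod_lt _ hm⟩ : Fin m)
        rw [h1, h2]
        exact h
  have haa : ∀ p, aa (copG m n hm G) (e p).1 (e p).2 = aa G p.2.1 p.2.2 := by
    intro p
    unfold aa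
    by_cases h : G.Adj p.2.1 p.2.2
    · rw [if_pos h, if_pos ((hadj p).2 h)]
    · rw [if_neg h, if_neg (fun h' => h ((hadj p).1 h'))]
  rw [ee_eq, ee_eq]
  calc ((n / m : ℕ) : ℝ) * ∑ x, ∑ y, aa G x y
      = ∑ p : Fin (n / m) × (Fin m × Fin m), aa G p.2.1 p.2.2 := by
        rw [Fintype.sum_prod_type]
        simp only [Fintype.sum_prod_type, sum_const, card_univ, Fintype.card_fin, nsmul_eq_mul]
    _ = ∑ p : Fin (n / m) × (Fin m × Fin m), aa (copG m n hm G) (e p).1 (e p).2 :=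
        sum_congr rfl fun p _ => (haa p).symm
    _ = ∑ z ∈ univ.image e, aa (copG m n hm G) z.1 z.2 :=
        (sum_image (f := fun z : Fin n × Fin n => aa (copG m n hm G) z.1 z.2)
          fun a _ b _ h => hinj h).symm
    _ ≤ ∑ z : Fin n × Fin n, aa (copG m n hm G) z.1 z.2 :=
        sum_le_sum_of_subset_of_nonneg (subset_univ _) fun z _ _ => aa_nonneg _ _ _
    _ = _ := Fintype.sum_prod_type _

end Pool.Agent.N721.SR
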