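import Pool.Agent.N721.SR.KR5

/-! # The quasirandom form of the conjecture on `ex (n, K_{r,r})` -/

set_option autoImplicit false
set_option maxHeartbeats 400000
set_option linter.unusedSectionVars false

open Finset

namespace Pool.Agent.N721.SR

/-- the quasirandom form -/
def QForm (r : ℕ) : Prop := ∀ ε : ℝ, 0 < ε → ∃ C : ℝ, ∀ D : ℝ, 1 ≤ D →
  ∃ (m : ℕ) (A : Fin m → Fin m → ℝ) (δ : ℝ),
    0 < m ∧ (m : ℝ) ≤ C * D ^ ((r : ℝ) / ((r : ℝ) - 1)) ∧ D ≤ δ * m ∧
    (∀ x y, A x y = 0 ∨ A x y = 1) ∧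
    (∀ a b : Fin r → Fin m, Function.Injective a → Function.Injective b →
      ∃ i j, A (a i) (b j) = 0) ∧
    ∀ f g : Fin m → ℝ, |∑ x, ∑ y, (A x y - δ) * f x * g y| ≤
      ε * (δ * m) * Real.sqrt (∑ x, f x ^ 2) * Real.sqrt (∑ y, g y ^ 2)

theorem restrict' {V : Type} (U : Finset V) (s : ℕ) (h : #U = s) :
    ∃ φ : Fin s ↪ V, univ.map φ = U := by
  subst h
  obtain ⟨φ, h1, h2⟩ := restrict U
  refine ⟨φ, ?_⟩
  ext x
  simp only [mem_map, mem_univ, true_and]
  exact ⟨fun ⟨i, hi⟩ => hi ▸ h1 i, fun hx => h2 x hx⟩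

theorem alpha_facts (r : ℕ) (hr : 2 ≤ r) : 0 < 1 - 1 / (r : ℝ) ∧ 1 - 1 / (r : ℝ) ≤ 1 ∧
    1 / (1 - 1 / (r : ℝ)) = (r : ℝ) / ((r : ℝ) - 1) := by
  have hr2 : (2 : ℝ) ≤ r := by exact_mod_cast hr
  have h1r : 1 / (r : ℝ) ≤ 1 / 2 := one_div_le_one_div_of_le (by norm_num) hr2
  have h1r0 : 0 < 1 / (r : ℝ) := by positivity
  refine ⟨by linarith, by linarith, ?_⟩
  have h3 : (r : ℝ) - 1 ≠ 0 := by
    have : (0 : ℝ) < (r : ℝ) - 1 := by linarith
    exact this.ne'
  field_simp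

theorem qform_of_lower (r : ℕ) (hr : 2 ≤ r)
    (hP : Her (FreeCls (completeBipartiteGraph (Fin r) (Fin r)))) (c : ℝ) (hc : 0 < c) (N₀ : ℕ)
    (hN₀ : ∀ n : ℕ, N₀ ≤ n → c * (n : ℝ) ^ (1 + (1 - 1 / (r : ℝ))) ≤ hP.F n) : QForm r := by
  classical
  obtain ⟨hα0, hα1, hαr⟩ := alpha_facts r hr
  have hr0 : (0 : ℝ) < r := by
    have : 0 < r := by omega
    exact_mod_cast this
  set α : ℝ := 1 - 1 / (r : ℝ) with hα
  have e1 : (1 : ℝ) + α = 2 - 1 / (r : ℝ) := by rw [hα]; ring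
  have hF : ∀ n : ℕ, 1 ≤ n → hP.F n ≤ (2 * r) * (n : ℝ) ^ (1 + α) := by
    intro n hn
    have h2 := kst_bound (hP.best n) r (by omega) (hP.best_P n) (by
      rw [Fintype.card_fin]; exact hn)
    rw [Fintype.card_fin, ← ee_degree, ← e1] at h2
    exact h2
  intro ε hε
  obtain ⟨K, n₀, hK, hn₀1, htail⟩ := hP.tail α (2 * r) hα0 hα1 (by positivity) hF (c / 4)
    (by positivity)
  obtain ⟨σ, n₁, hσ, hpair⟩ := pair_exists r hr K (c / 2) ε hK.le (by positivity) hε
  set n₂ : ℕ := N₀ + n₀ + n₁ with hn₂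
  set Q : ℝ := (8 / (c * σ)) ^ (1 / α) + 1 + n₂ with hQ
  refine ⟨Q, fun D hD => ?_⟩
  have hD0 : 0 < D := by linarith
  set x : ℝ := (8 * D / (c * σ)) ^ (1 / α) with hx
  have hx0 : 0 < x := by positivity
  set n : ℕ := ⌈x⌉₊ + n₂ with hn
  have hxα : x ^ α = 8 * D / (c * σ) := by
    rw [hx, ← Real.rpow_mul (by positivity), one_div_mul_cancel hα0.ne', Real.rpow_one]
  have hnx : x ≤ n := by
    rw [hn]
    push_cast
    have h1 := Nat.le_ceil x
    have h2 : (0 : ℝ) ≤ (n₂ : ℝ) := Nat.cast_nonneg _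
    linarith
  have hn0 : (0 : ℝ) < n := lt_of_lt_of_le hx0 hnx
  have hDr : 1 ≤ D ^ (1 / α) := Real.one_le_rpow hD (by positivity)
  have hnQ : (n : ℝ) ≤ Q * D ^ (1 / α) := by
    have h1 : (n : ℝ) ≤ x + 1 + n₂ := by
      rw [hn]
      push_cast
      have := (Nat.ceil_lt_add_one hx0.le).le
      linarith
    have h2 : x = (8 / (c * σ)) ^ (1 / α) * D ^ (1 / α) := by
      rw [hx, ← Real.mul_rpow (by positivity) hD0.le]
      congr 1
      ring
    have h3 : (1 + (n₂ : ℝ)) ≤ (1 + n₂) * D ^ (1 / α) := by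
      have : (0 : ℝ) ≤ 1 + (n₂ : ℝ) := by positivity
      nlinarith
    rw [hQ]
    calc (n : ℝ) ≤ x + 1 + n₂ := h1
      _ ≤ (8 / (c * σ)) ^ (1 / α) * D ^ (1 / α) + (1 + n₂) * D ^ (1 / α) := by
          rw [← h2]; linarith
      _ = _ := by ring
  -- the graph
  set G := hP.best n with hGd
  have hG : (completeBipartiteGraph (Fin r) (Fin r)).Free G := hP.best_P n
  set Hs : Finset (Fin n) := univ.filter fun v => K * (n : ℝ) ^ α < ee G {v} univ with hHs
  obtain ⟨ht1, -⟩ := htail (Fin n) G hG (by rw [Fintype.card_fin]; omega) Hs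
    (fun x hx => by rw [Fintype.card_fin]; exact (mem_filter.1 hx).2)
  rw [Fintype.card_fin] at ht1
  have hdel := ee_del G Hs
  set G' := del G Hs with hG'd
  have hG' : (completeBipartiteGraph (Fin r) (Fin r)).Free G' := fun hcon =>
    hG (hcon.trans (SimpleGraph.IsContained.of_le (del_le G Hs)))
  have hdeg : ∀ v, (G'.degree v : ℝ) ≤ K * (n : ℝ) ^ α := fun v =>
    del_degree G Hs (K * (n : ℝ) ^ α) (by positivity)
      (fun x hx => not_lt.1 fun h => hx (mem_filter.2 ⟨mem_univ _, h⟩)) v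
  have hFn := hN₀ n (by omega)
  have hrp : (n : ℝ) ^ (1 + α) = n * (n : ℝ) ^ α := by rw [Real.rpow_add hn0, Real.rpow_one]
  rw [hrp] at hFn
  have hedge : c / 2 * (n * (n : ℝ) ^ α) ≤ ee G' univ univ := by
    have h1 : hP.F n = ee G univ univ := rfl
    rw [h1] at hFn
    linarith
  have hee : ee G' univ univ = ∑ u, ∑ v, G'.adjMatrix ℝ u v := by
    unfold ee
    refine sum_congr rfl fun u _ => sum_congr rfl fun v _ => ?_
    rw [SimpleGraph.adjMatrix_apply]
    by_cases h : G'.Adj u v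
    · rw [if_pos h, if_pos h]
    · rw [if_neg h, if_neg h]
  rw [hee] at hedge
  obtain ⟨s, X, Y, d, h1, h2, h3, h4, h5, h6⟩ := hpair (Fin n) G' hG'
    (by rw [Fintype.card_fin]; omega) (by rw [Fintype.card_fin]; exact hdeg)
    (by rw [Fintype.card_fin]; exact hedge)
  rw [Fintype.card_fin] at h2 h5
  obtain ⟨φ, hφ⟩ := restrict' X s h3
  obtain ⟨ψ, hψ⟩ := restrict' Y s h4
  refine ⟨s, fun x y => G'.adjMatrix ℝ (φ x) (ψ y), d, h1, ?_, ?_, ?_, ?_, ?_⟩
  · have h7 : s ≤ n := by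
      have := card_le_univ X
      rw [Fintype.card_fin] at this
      omega
    rw [← hαr]
    refine le_trans ?_ hnQ
    exact_mod_cast h7
  · have hd0 : 0 ≤ d := le_trans (by positivity) h5
    calc D = c * σ / 8 * (8 * D / (c * σ)) := by field_simp
      _ = c * σ / 8 * x ^ α := by rw [hxα]
      _ ≤ c * σ / 8 * (n : ℝ) ^ α := by gcongr
      _ = c / 2 / 4 * ((n : ℝ) ^ α / n) * (σ * n) := by field_simp; norm_num
      _ ≤ d * s := by gcongr
  · intro x y
    simp only [SimpleGraph.adjMatrix_apply]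
    by_cases h : G'.Adj (φ x) (ψ y)
    · rw [if_pos h]; exact Or.inr rfl
    · rw [if_neg h]; exact Or.inl rfl
  · intro a b ha hb
    by_contra hcon
    push Not at hcon
    refine kst_copy G' r hG' (fun i => φ (a i)) (fun j => ψ (b j))
      (φ.injective.comp ha) (ψ.injective.comp hb) fun i j => ?_
    have := hcon i j
    rw [SimpleGraph.adjMatrix_apply] at this
    by_contra h
    rw [if_neg h] at this
    exact this rfl
  · intro f g
    have hX : ∀ F : Fin n → ℝ, ∑ u ∈ X, F u = ∑ x, F (φ x) := fun F => by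
      rw [← hφ, sum_map]
    have hY : ∀ F : Fin n → ℝ, ∑ u ∈ Y, F u = ∑ x, F (ψ x) := fun F => by
      rw [← hψ, sum_map]
    have h7 := h6 (Function.extend φ f 0) (Function.extend ψ g 0)
    simp only [hX, hY, φ.injective.extend_apply, ψ.injective.extend_apply] at h7
    exact h7

theorem lower_of_qform (r : ℕ) (hr : 2 ≤ r)
    (hP : Her (FreeCls (completeBipartiteGraph (Fin r) (Fin r)))) (h : QForm r) :
    ∃ c : ℝ, 0 < c ∧ ∃ N : ℕ, ∀ n : ℕ, N ≤ n →
      c * (n : ℝ) ^ (1 + (1 - 1 / (r : ℝ))) ≤ hP.F n := by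
  classical
  obtain ⟨hα0, hα1, hαr⟩ := alpha_facts r hr
  set α : ℝ := 1 - 1 / (r : ℝ) with hα
  obtain ⟨C, hC⟩ := h (1 / 2) (by norm_num)
  rw [← hαr] at hC
  have hC0 : 0 < C := by
    obtain ⟨m, A, δ, hm, hmC, -⟩ := hC 1 le_rfl
    have : (0 : ℝ) < m := by exact_mod_cast hm
    rw [Real.one_rpow, mul_one] at hmC
    linarith
  refine ⟨1 / (8 * (2 * C) ^ α), by positivity, ⌈2 * C⌉₊, fun n hn => ?_⟩
  have hnC : 2 * C ≤ n := (Nat.le_ceil _).trans (by exact_mod_cast hn)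
  have hn0 : (0 : ℝ) < n := by linarith
  set D : ℝ := (n / (2 * C)) ^ α with hD
  have hD1 : 1 ≤ D := Real.one_le_rpow (by rw [le_div_iff₀ (by positivity)]; linarith) hα0.le
  have hDα : D ^ (1 / α) = n / (2 * C) := by
    rw [hD, ← Real.rpow_mul (by positivity), mul_one_div_cancel hα0.ne', Real.rpow_one]
  obtain ⟨m, A, δ, hm, hmC, hDδ, h01, hrr, hop⟩ := hC D hD1
  have hm0 : (0 : ℝ) < m := by exact_mod_cast hm
  have hmn : m + m ≤ n := by
    have h1 : (m : ℝ) ≤ n / 2 := by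
      calc (m : ℝ) ≤ C * D ^ (1 / α) := hmC
        _ = n / 2 := by rw [hDα]; field_simp
    have h2 : (m : ℝ) + m ≤ n := by linarith
    exact_mod_cast h2
  have hsum : δ * m * m / 2 ≤ ∑ x, ∑ y, A x y := by
    have h1 := hop (fun _ => 1) (fun _ => 1)
    have h2 : ∑ x : Fin m, ∑ y : Fin m, (A x y - δ) * 1 * 1 = ∑ x, ∑ y, A x y - m * (m * δ) := by
      simp only [mul_one, sum_sub_distrib, sum_const, card_univ, Fintype.card_fin, nsmul_eq_mul]
    have h3 : Real.sqrt (∑ _x : Fin m, (1 : ℝ) ^ 2) = Real.sqrt m := by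
      simp
    rw [h2, h3, mul_assoc (1 / 2 * (δ * (m : ℝ))), Real.mul_self_sqrt hm0.le] at h1
    have h4 := (abs_le.1 h1).1
    linarith
  set φ : Fin (m + m) ↪ Fin m ⊕ Fin m := finSumFinEquiv.symm.toEmbedding with hφ
  set G₀ : SimpleGraph (Fin (m + m)) := (bip m A).comap φ with hG₀
  have hfree₀ : FreeCls (completeBipartiteGraph (Fin r) (Fin r)) (Fin (m + m)) G₀ :=
    hP.comap _ _ φ _ (bip_free m r (by omega) A hrr)
  have hee₀ : δ * m * m / 2 ≤ ee G₀ univ univ := by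
    have h1 : ee G₀ univ univ = ee (bip m A) univ univ := by
      rw [hG₀, ee_comap]
      have : (univ : Finset (Fin (m + m))).map φ = univ := by
        rw [hφ]
        exact Finset.map_univ_equiv _
      rw [this]
    rw [h1]
    exact hsum.trans (bip_ee m A h01)
  have hmm : 0 < m + m := by omega
  have h1 := copG_ee (m + m) n hmm G₀
  have h2 : ee (copG (m + m) n hmm G₀) univ univ ≤ hP.F n := by
    have := hP.le_F (copG (m + m) n hmm G₀)
      (copG_free _ (kst_preconnected r (by omega)) (m + m) n hmm G₀ hfree₀) univ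
    rwa [card_univ, Fintype.card_fin] at this
  have h3 : (n : ℝ) / (4 * m) ≤ ((n / (m + m) : ℕ) : ℝ) := by
    have h6 : 1 ≤ n / (m + m) := by
      rw [Nat.one_le_div_iff hmm]; exact hmn
    have h7 : n < (n / (m + m) + 1) * (m + m) := by
      have e1 := Nat.div_add_mod n (m + m)
      have e2 := Nat.mod_lt n hmm
      rw [Nat.add_mul, one_mul, Nat.mul_comm]
      omega
    have h8 : (n : ℝ) < ((n / (m + m) : ℕ) + 1) * (m + m) := by exact_mod_cast h7
    have h9 : (1 : ℝ) ≤ ((n / (m + m) : ℕ) : ℝ) := by exact_mod_cast h6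
    rw [div_le_iff₀ (by positivity)]
    nlinarith

  have h4 : (n : ℝ) ^ (1 + α) = n * (n : ℝ) ^ α := by
    rw [Real.rpow_add hn0, Real.rpow_one]
  have h5 : D = (n : ℝ) ^ α / (2 * C) ^ α := by
    rw [hD, Real.div_rpow hn0.le (by positivity)]
  have h8 : 1 / (8 * (2 * C) ^ α) * (n : ℝ) ^ (1 + α) = n * D / 8 := by
    rw [h4, h5]
    field_simp
  rw [h8]
  calc n * D / 8 ≤ n * (δ * m) / 8 := by gcongr
    _ = n / (4 * m) * (δ * m * m / 2) := by field_simp; ring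
    _ ≤ ((n / (m + m) : ℕ) : ℝ) * ee G₀ univ univ := by
        have : 0 ≤ δ * m * m / 2 := by
          have : 0 ≤ δ * m := by linarith
          positivity
        gcongr
    _ ≤ _ := h1.trans h2

end Pool.Agent.N721.SR
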