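import Pool.Agent.N721.SR.Core

/-! # Regular partitions in operator norm: existence -/

set_option autoImplicit false
set_option maxHeartbeats 400000
set_option linter.unusedSectionVars false

open Finset

namespace Pool.Agent.N721.SR

variable {V : Type} [Fintype V] [DecidableEq V]

/-- cells on which finitely many bounded functions are nearly constant -/
theorem exists_cells (S : Finset V) (φ : V → V → ℝ) (B ε : ℝ) (hB : 0 ≤ B) (hε : 0 < ε) (r : ℕ)
    (hr : #S ≤ r) (hφ : ∀ i ∈ S, ∀ v, φ i v ^ 2 * (Fintype.card V : ℝ) ≤ B ^ 2) :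
    ∃ P : V → Fin ((2 * (⌈B / ε⌉₊ + 1) + 1) ^ r),
      ∀ i ∈ S, ∑ v, (φ i v - av P (φ i) v) ^ 2 ≤ ε ^ 2 := by
  classical
  set m : ℕ := ⌈B / ε⌉₊ + 1 with hm
  set n : ℝ := (Fintype.card V : ℝ) with hn
  rcases isEmpty_or_nonempty V with hV | hV
  · exact ⟨fun v => (hV.false v).elim, fun i => (hV.false i).elim⟩
  have hn0 : 0 < n := by
    rw [hn]; exact_mod_cast Fintype.card_pos
  set s : ℝ := Real.sqrt n with hs
  have hs0 : 0 < s := Real.sqrt_pos.2 hn0
  have hs2 : s ^ 2 = n := Real.sq_sqrt hn0.le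
  have hbd : ∀ i ∈ S, ∀ v, |φ i v * s / ε| ≤ B / ε := by
    intro i hi v
    rw [abs_div, abs_of_pos hε]
    refine div_le_div_of_nonneg_right ?_ hε.le
    refine abs_le_of_sq_le_sq ?_ hB
    have := hφ i hi v
    rw [mul_pow, hs2]
    exact this
  have hfl : ∀ i ∈ S, ∀ v, ⌊φ i v * s / ε⌋ ∈ Finset.Icc (-(m : ℤ)) (m : ℤ) := by
    intro i hi v
    have h1 := abs_le.1 (hbd i hi v)
    have h2 : B / ε ≤ (⌈B / ε⌉₊ : ℝ) := Nat.le_ceil _
    rw [Finset.mem_Icc]
    constructor
    · refine Int.le_floor.2 ?_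
      push_cast
      rw [hm]; push_cast
      linarith [h1.1]
    · have h3 : (⌊φ i v * s / ε⌋ : ℝ) ≤ φ i v * s / ε := Int.floor_le _
      have h4 : (⌊φ i v * s / ε⌋ : ℝ) ≤ (m : ℝ) := by
        rw [hm]; push_cast
        linarith [h1.2]
      exact_mod_cast h4
  let code : V → (S → Finset.Icc (-(m : ℤ)) (m : ℤ)) :=
    fun v i => ⟨⌊φ i.1 v * s / ε⌋, hfl i.1 i.2 v⟩
  have hcard : Fintype.card (S → Finset.Icc (-(m : ℤ)) (m : ℤ)) ≤
      Fintype.card (Fin ((2 * (⌈B / ε⌉₊ + 1) + 1) ^ r)) := by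
    rw [Fintype.card_fun, Fintype.card_coe, Fintype.card_coe, Fintype.card_fin, Int.card_Icc]
    have : ((m : ℤ) + 1 - -(m : ℤ)).toNat = 2 * m + 1 := by omega
    rw [this]
    exact Nat.pow_le_pow_right (by omega) hr
  obtain ⟨emb⟩ := Function.Embedding.nonempty_of_card_le hcard
  refine ⟨fun v => emb (code v), fun i hi => ?_⟩
  set P : V → Fin ((2 * (⌈B / ε⌉₊ + 1) + 1) ^ r) := fun v => emb (code v) with hP
  have hclose : ∀ u x, P x = P u → |φ i u - φ i x| ≤ ε / s := by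
    intro u x hux
    have h1 : code x = code u := emb.injective hux
    have h2 : ⌊φ i x * s / ε⌋ = ⌊φ i u * s / ε⌋ := congrArg Subtype.val (congrFun h1 ⟨i, hi⟩)
    have h3 := Int.abs_sub_lt_one_of_floor_eq_floor h2
    have h4 : φ i x * s / ε - φ i u * s / ε = (φ i x - φ i u) * (s / ε) := by ring
    rw [h4, abs_mul, abs_of_pos (div_pos hs0 hε)] at h3
    rw [abs_sub_comm]
    rw [le_div_iff₀ hs0]
    have h5 : |φ i x - φ i u| * (s / ε) = |φ i x - φ i u| * s / ε := by ring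
    rw [h5, div_lt_one hε] at h3
    exact h3.le
  have hav : ∀ v, |φ i v - av P (φ i) v| ≤ ε / s := by
    intro v
    have h1 : φ i v - av P (φ i) v = ∑ x, ker P v x * (φ i v - φ i x) := by
      unfold av
      simp only [mul_sub, Finset.sum_sub_distrib, ← Finset.sum_mul, ker_sum, one_mul]
    rw [h1]
    calc |∑ x, ker P v x * (φ i v - φ i x)| ≤ ∑ x, |ker P v x * (φ i v - φ i x)| :=
          Finset.abs_sum_le_sum_abs _ _
      _ ≤ ∑ x, ker P v x * (ε / s) := by
          refine Finset.sum_le_sum fun x _ => ?_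
          rw [abs_mul, abs_of_nonneg (ker_nonneg P v x)]
          by_cases hx : P x = P v
          · exact mul_le_mul_of_nonneg_left (hclose v x hx) (ker_nonneg P v x)
          · have : ker P v x = 0 := if_neg hx
            rw [this, zero_mul, zero_mul]
      _ = ε / s := by rw [← Finset.sum_mul, ker_sum, one_mul]
  calc ∑ v, (φ i v - av P (φ i) v) ^ 2 ≤ ∑ _v : V, (ε / s) ^ 2 := by
        refine Finset.sum_le_sum fun v _ => ?_
        rw [← sq_abs]
        exact pow_le_pow_left₀ (abs_nonneg _) (hav v) 2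
    _ = n * (ε / s) ^ 2 := by rw [Finset.sum_const, nsmul_eq_mul, Finset.card_univ]
    _ = ε ^ 2 := by
        rw [div_pow, hs2]
        field_simp

section
variable {A : Matrix V V ℝ} {φ : V → V → ℝ} {l : V → ℝ}

theorem Eig.diag (h : Eig A φ l) (k : ℕ) (v : V) :
    (A ^ (2 * k)) v v = ∑ i, l i ^ (2 * k) * φ i v ^ 2 := by
  rw [h.pow_entry]
  exact Finset.sum_congr rfl fun i _ => by ring

theorem Eig.trace (h : Eig A φ l) (k : ℕ) :
    ∑ v, (A ^ (2 * k)) v v = ∑ i, l i ^ (2 * k) := by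
  simp only [h.diag]
  rw [Finset.sum_comm]
  refine Finset.sum_congr rfl fun i _ => ?_
  rw [← Finset.mul_sum]
  have := h.orth i i
  rw [if_pos rfl] at this
  have h2 : ∑ v, φ i v ^ 2 = 1 := by rw [← this]; exact Finset.sum_congr rfl fun v _ => by ring
  rw [h2, mul_one]

/-- sup norm of the eigenvectors -/
theorem Eig.sup (h : Eig A φ l) (k : ℕ) (i v : V) :
    l i ^ (2 * k) * φ i v ^ 2 ≤ (A ^ (2 * k)) v v := by
  rw [h.diag]
  exact Finset.single_le_sum (f := fun i => l i ^ (2 * k) * φ i v ^ 2)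
    (fun i _ => mul_nonneg (by rw [pow_mul]; positivity) (sq_nonneg _)) (mem_univ i)

/-- the number of large eigenvalues -/
theorem Eig.count (h : Eig A φ l) (k : ℕ) (t T : ℝ) (ht : 0 ≤ t)
    (hT : ∑ v, (A ^ (2 * k)) v v ≤ T) :
    (#(univ.filter fun i => t ≤ |l i|) : ℝ) * t ^ (2 * k) ≤ T := by
  rw [h.trace] at hT
  refine le_trans ?_ hT
  have h1 : (#(univ.filter fun i => t ≤ |l i|) : ℝ) * t ^ (2 * k) =
      ∑ i ∈ univ.filter (fun i => t ≤ |l i|), t ^ (2 * k) := by
    rw [Finset.sum_const, nsmul_eq_mul]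
  rw [h1]
  calc ∑ i ∈ univ.filter (fun i => t ≤ |l i|), t ^ (2 * k)
      ≤ ∑ i ∈ univ.filter (fun i => t ≤ |l i|), l i ^ (2 * k) := by
        refine Finset.sum_le_sum fun i hi => ?_
        have := (Finset.mem_filter.1 hi).2
        calc t ^ (2 * k) ≤ |l i| ^ (2 * k) := pow_le_pow_left₀ ht this _
          _ = l i ^ (2 * k) := by rw [pow_mul, sq_abs, ← pow_mul]
    _ ≤ ∑ i, l i ^ (2 * k) := Finset.sum_le_sum_of_subset_of_nonneg (Finset.subset_univ _)
        fun i _ _ => by rw [pow_mul]; positivity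

end

/-- A symmetric matrix all of whose diagonal entries of `A ^ (2 k)` are at most `M D ^ (2 k) / n`
has a partition with `K (k, M, η)` cells which is `η D`-regular in operator norm. -/
theorem regular_of_diag (k : ℕ) (hk : 1 ≤ k) (M η : ℝ) (hM : 0 ≤ M) (hη : 0 < η) :
    ∃ K : ℕ, ∀ (V : Type) [Fintype V] [DecidableEq V] (A : Matrix V V ℝ) (_ : A.IsHermitian)
      (D : ℝ), 0 < D → (∀ v, (A ^ (2 * k)) v v * (Fintype.card V : ℝ) ≤ M * D ^ (2 * k)) →
      ∃ P : V → Fin K, Regular A P (η * D) := by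
  set η' : ℝ := η / 4 with hη'
  have hη'0 : 0 < η' := by positivity
  set r : ℕ := ⌈M / η' ^ (2 * k)⌉₊ with hr
  set B : ℝ := Real.sqrt (M / η' ^ (2 * k)) with hB
  set ε : ℝ := η / (4 * ((r : ℝ) + 1) * (1 + M)) with hε
  have hε0 : 0 < ε := by positivity
  refine ⟨(2 * (⌈B / ε⌉₊ + 1) + 1) ^ r, ?_⟩
  intro V _ _ A hA D hD hdiag
  rcases isEmpty_or_nonempty V with hV | hV
  · exact ⟨fun v => (hV.false v).elim, fun f g => by simp⟩
  have hn0 : (0 : ℝ) < (Fintype.card V : ℝ) := by exact_mod_cast Fintype.card_pos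
  have h := exists_eig hA
  set φ : V → V → ℝ := fun i v => hA.eigenvectorBasis i v with hφ
  set l := hA.eigenvalues with hl
  set S : Finset V := univ.filter fun i => η' * D ≤ |l i| with hS
  have htr : ∑ v, (A ^ (2 * k)) v v ≤ M * D ^ (2 * k) := by
    have h1 : ∀ v, (A ^ (2 * k)) v v ≤ M * D ^ (2 * k) / (Fintype.card V : ℝ) := fun v => by
      rw [le_div_iff₀ hn0]; exact hdiag v
    calc ∑ v, (A ^ (2 * k)) v v ≤ ∑ _v : V, M * D ^ (2 * k) / (Fintype.card V : ℝ) :=
          Finset.sum_le_sum fun v _ => h1 v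
      _ = _ := by
          rw [Finset.sum_const, nsmul_eq_mul, Finset.card_univ]
          field_simp
  have hD2 : 0 < D ^ (2 * k) := by positivity
  have hSc : (#S : ℝ) ≤ M / η' ^ (2 * k) := by
    have := h.count k (η' * D) _ (by positivity) htr
    rw [mul_pow, ← mul_assoc] at this
    rw [le_div_iff₀ (by positivity)]
    exact le_of_mul_le_mul_right this hD2
  have hSr : #S ≤ r := by
    have : (#S : ℝ) ≤ (r : ℝ) := hSc.trans (Nat.le_ceil _)
    exact_mod_cast this
  have hbd : ∀ i ∈ S, ∀ v, φ i v ^ 2 * (Fintype.card V : ℝ) ≤ B ^ 2 := by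
    intro i hi v
    rw [hB, Real.sq_sqrt (by positivity), le_div_iff₀ (by positivity)]
    have h1 := h.sup k i v
    have h2 : (η' * D) ^ (2 * k) ≤ l i ^ (2 * k) := by
      calc (η' * D) ^ (2 * k) ≤ |l i| ^ (2 * k) :=
            pow_le_pow_left₀ (by positivity) (Finset.mem_filter.1 hi).2 _
        _ = l i ^ (2 * k) := by rw [pow_mul, sq_abs, ← pow_mul]
    have h3 := hdiag v
    have h4 : (η' * D) ^ (2 * k) * φ i v ^ 2 * (Fintype.card V : ℝ) ≤ M * D ^ (2 * k) := by
      calc (η' * D) ^ (2 * k) * φ i v ^ 2 * (Fintype.card V : ℝ)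
          ≤ l i ^ (2 * k) * φ i v ^ 2 * (Fintype.card V : ℝ) := by gcongr
        _ ≤ (A ^ (2 * k)) v v * (Fintype.card V : ℝ) := by gcongr
        _ ≤ _ := h3
    rw [mul_pow] at h4
    have h5 : (φ i v ^ 2 * (Fintype.card V : ℝ) * η' ^ (2 * k)) * D ^ (2 * k) ≤
        M * D ^ (2 * k) := by
      calc _ = η' ^ (2 * k) * D ^ (2 * k) * φ i v ^ 2 * (Fintype.card V : ℝ) := by ring
        _ ≤ _ := h4
    exact le_of_mul_le_mul_right h5 hD2
  obtain ⟨P, hP⟩ := exists_cells S φ B ε (Real.sqrt_nonneg _) hε0 r hSr hbd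
  refine ⟨P, ?_⟩
  have hL : ∀ i ∈ S, |l i| ≤ (1 + M) * D := by
    intro i _
    by_contra hlt
    push Not at hlt
    have h1 : ((1 + M) * D) ^ (2 * k) < |l i| ^ (2 * k) :=
      pow_lt_pow_left₀ hlt (by positivity) (by omega)
    have h2 : |l i| ^ (2 * k) ≤ M * D ^ (2 * k) := by
      have : |l i| ^ (2 * k) = l i ^ (2 * k) := by rw [pow_mul, sq_abs, ← pow_mul]
      rw [this]
      refine le_trans ?_ (h.trace k ▸ htr)
      exact Finset.single_le_sum (f := fun i => l i ^ (2 * k))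
        (fun i _ => by rw [pow_mul]; positivity) (mem_univ i)
    rw [mul_pow] at h1
    have h3 : (1 + M) ^ (2 * k) < M := lt_of_mul_lt_mul_right (h1.trans_le h2) hD2.le
    have h4 : 1 + M ≤ (1 + M) ^ (2 * k) := by
      calc 1 + M = (1 + M) ^ 1 := (pow_one _).symm
        _ ≤ _ := pow_le_pow_right₀ (by linarith) (by omega)
    linarith
  have hreg := h.regular P S (η' * D) ((1 + M) * D) ε (by positivity) hε0.le
    (fun i hi => by
      rw [hS, Finset.mem_filter, not_and] at hi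
      exact (not_le.1 (hi (mem_univ i))).le) hL hP
  intro f g
  refine (hreg f g).trans ?_
  have hfin : 2 * (η' * D) + #S * ((1 + M) * D * (2 * ε)) ≤ η * D := by
    have e1 : ((r : ℝ) + 1) * ((1 + M) * D * (2 * ε)) = η / 2 * D := by
      rw [hε]; field_simp; ring
    have e2 : (#S : ℝ) * ((1 + M) * D * (2 * ε)) ≤ ((r : ℝ) + 1) * ((1 + M) * D * (2 * ε)) := by
      refine mul_le_mul_of_nonneg_right ?_ (by positivity)
      have : (#S : ℝ) ≤ (r : ℝ) := by exact_mod_cast hSr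
      linarith
    rw [e1] at e2
    have e3 : 2 * (η' * D) = η / 2 * D := by rw [hη']; ring
    linarith
  gcongr

end Pool.Agent.N721.SR
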