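import Mathlib

/-! # Spectral decomposition of a real symmetric matrix, as sums over entries -/

set_option autoImplicit false
set_option maxHeartbeats 400000

open Finset

namespace Pool.Agent.N721.SR

variable {V : Type} [Fintype V] [DecidableEq V]

/-- `φ i v`: an orthonormal basis of eigenvectors, with eigenvalues `l i`, given by entries. -/
structure Eig (A : Matrix V V ℝ) (φ : V → V → ℝ) (l : V → ℝ) : Prop where
  orth : ∀ i j, ∑ v, φ i v * φ j v = if i = j then 1 else 0
  comp : ∀ u v, ∑ i, φ i u * φ i v = if u = v then 1 else 0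
  eig : ∀ i u, ∑ v, A u v * φ i v = l i * φ i u

theorem exists_eig {A : Matrix V V ℝ} (hA : A.IsHermitian) :
    Eig A (fun i v => hA.eigenvectorBasis i v) hA.eigenvalues := by
  have orth : ∀ i j, ∑ v, hA.eigenvectorBasis i v * hA.eigenvectorBasis j v =
      if i = j then 1 else 0 := by
    intro i j
    have h := orthonormal_iff_ite.1 hA.eigenvectorBasis.orthonormal i j
    rw [← h, EuclideanSpace.inner_eq_star_dotProduct]
    simp [dotProduct, mul_comm]
  refine ⟨orth, ?_, ?_⟩
  · have h1 : (Matrix.of fun i v => hA.eigenvectorBasis i v) *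
        (Matrix.of fun i v => hA.eigenvectorBasis i v).transpose = (1 : Matrix V V ℝ) := by
      ext i j
      rw [Matrix.mul_apply, Matrix.one_apply, ← orth i j]
      rfl
    have h2 := mul_eq_one_comm.1 h1
    intro u v
    have h3 := congrFun (congrFun h2 u) v
    rw [Matrix.mul_apply, Matrix.one_apply] at h3
    rw [← h3]
    rfl
  · intro i u
    have h := congrFun (hA.mulVec_eigenvectorBasis i) u
    simpa [Matrix.mulVec, dotProduct] using h

variable {A : Matrix V V ℝ} {φ : V → V → ℝ} {l : V → ℝ}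

theorem Eig.pow (h : Eig A φ l) (m : ℕ) (i u : V) : ∑ v, (A ^ m) u v * φ i v = l i ^ m * φ i u := by
  induction m generalizing u with
  | zero =>
    simp [Matrix.one_apply]
  | succ m ih =>
    simp only [pow_succ, Matrix.mul_apply, Finset.sum_mul]
    rw [Finset.sum_comm]
    have : ∀ w, ∑ v, (A ^ m) u w * A w v * φ i v = (A ^ m) u w * (l i * φ i w) := by
      intro w
      rw [← h.eig i w, Finset.mul_sum]
      exact Finset.sum_congr rfl fun v _ => by ring
    simp only [this]
    have h2 : ∀ w, (A ^ m) u w * (l i * φ i w) = l i * ((A ^ m) u w * φ i w) := fun w => by ring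
    simp only [h2]
    rw [← Finset.mul_sum, ih]
    ring

theorem Eig.pow_entry (h : Eig A φ l) (m : ℕ) (u v : V) :
    (A ^ m) u v = ∑ i, l i ^ m * φ i u * φ i v := by
  have h1 : ∀ i, l i ^ m * φ i u * φ i v = ∑ w, (A ^ m) u w * (φ i w * φ i v) := by
    intro i
    rw [← h.pow m i u, Finset.sum_mul]
    exact Finset.sum_congr rfl fun w _ => by ring
  simp only [h1]
  rw [Finset.sum_comm]
  simp only [← Finset.mul_sum, h.comp]
  simp

/-- coefficients -/
def co (φ : V → V → ℝ) (f : V → ℝ) (i : V) : ℝ := ∑ v, φ i v * f v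

theorem Eig.parseval (h : Eig A φ l) (f : V → ℝ) : ∑ i, co φ f i ^ 2 = ∑ v, f v ^ 2 := by
  have h1 : ∀ i, co φ f i ^ 2 = ∑ u, ∑ v, (φ i u * φ i v) * (f u * f v) := by
    intro i
    rw [co, sq, Finset.sum_mul_sum]
    exact Finset.sum_congr rfl fun u _ => Finset.sum_congr rfl fun v _ => by ring
  simp only [h1]
  rw [Finset.sum_comm]
  have h2 : ∀ u, ∑ i, ∑ v, (φ i u * φ i v) * (f u * f v) = f u ^ 2 := by
    intro u
    rw [Finset.sum_comm]
    simp only [← Finset.sum_mul, h.comp]
    simp [sq]
  exact Finset.sum_congr rfl fun u _ => h2 u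

theorem Eig.bilin (h : Eig A φ l) (f g : V → ℝ) :
    ∑ u, ∑ v, A u v * f u * g v = ∑ i, l i * co φ f i * co φ g i := by
  have h1 : ∀ u v, A u v * f u * g v = ∑ i, l i * (φ i u * f u) * (φ i v * g v) := by
    intro u v
    have := h.pow_entry 1 u v
    rw [pow_one] at this
    rw [this, Finset.sum_mul, Finset.sum_mul]
    exact Finset.sum_congr rfl fun i _ => by ring
  simp only [h1]
  have h2 : ∀ i, l i * co φ f i * co φ g i = ∑ u, ∑ v, l i * (φ i u * f u) * (φ i v * g v) := by
    intro i
    rw [co, co, mul_assoc, Finset.sum_mul_sum, Finset.mul_sum]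
    refine Finset.sum_congr rfl fun u _ => ?_
    rw [Finset.mul_sum]
    exact Finset.sum_congr rfl fun v _ => by ring
  simp only [h2]
  have h3 : ∀ u, ∑ v, ∑ i, l i * (φ i u * f u) * (φ i v * g v) =
      ∑ i, ∑ v, l i * (φ i u * f u) * (φ i v * g v) := fun u => Finset.sum_comm
  simp only [h3]
  exact Finset.sum_comm

end Pool.Agent.N721.SR
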