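import Pool.Agent.N721.SR.All

/-! # Eigenvalues and eigenvectors of graphs of girth greater than `2 k` -/

set_option autoImplicit false
set_option maxHeartbeats 400000
set_option linter.unusedSectionVars false

open Finset

namespace Pool.Agent.N721.SR

variable {V : Type} [Fintype V] [DecidableEq V]

theorem pow_eigen (A : Matrix V V ℝ) (f : V → ℝ) (l : ℝ) (h : ∀ u, ∑ v, A u v * f v = l * f u)
    (m : ℕ) : ∀ u, ∑ v, (A ^ m) u v * f v = l ^ m * f u := by
  induction m with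
  | zero => intro u; simp [Matrix.one_apply]
  | succ m ih =>
    intro u
    rw [pow_succ']
    simp only [Matrix.mul_apply, sum_mul]
    rw [sum_comm]
    have h1 : ∀ w, ∑ v, A u w * (A ^ m) w v * f v = A u w * (l ^ m * f w) := by
      intro w
      rw [← ih w, mul_sum]
      exact sum_congr rfl fun v _ => by ring
    simp only [h1]
    calc ∑ w, A u w * (l ^ m * f w) = l ^ m * ∑ w, A u w * f w := by
          rw [mul_sum]
          exact sum_congr rfl fun w _ => by ring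
      _ = l ^ (m + 1) * f u := by rw [h u, pow_succ]; ring

/-- sup norm of eigenvectors -/
theorem eigen_sup (A : Matrix V V ℝ) (hA : A.transpose = A) (f : V → ℝ) (l : ℝ)
    (h : ∀ u, ∑ v, A u v * f v = l * f u) (k : ℕ) (v : V) :
    l ^ (2 * k) * f v ^ 2 ≤ (A ^ (2 * k)) v v * ∑ u, f u ^ 2 := by
  have h1 := pow_eigen A f l h k v
  have h2 : (A ^ (2 * k)) v v = ∑ u, (A ^ k) v u ^ 2 := by
    have h3 : (A ^ k).transpose = A ^ k := by rw [Matrix.transpose_pow, hA]
    rw [two_mul, pow_add, Matrix.mul_apply]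
    refine sum_congr rfl fun u _ => ?_
    have h4 : (A ^ k) u v = (A ^ k) v u := by
      have := congrFun (congrFun h3 v) u
      rwa [Matrix.transpose_apply] at this
    rw [h4]
    ring
  have h5 := sum_mul_sq_le_sq_mul_sq univ (fun u => (A ^ k) v u) f
  rw [h1] at h5
  rw [h2]
  calc l ^ (2 * k) * f v ^ 2 = (l ^ k * f v) ^ 2 := by ring
    _ ≤ _ := h5

theorem eigen_stat (G : SimpleGraph V) [DecidableRel G.Adj] {k : ℕ} (hk : 1 ≤ k)
    (hg : ∀ (v : V) (p : G.Walk v v), p.IsCycle → 2 * k < p.length) (b : ℝ) (hb : 0 ≤ b)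
    (hD : ∀ v, (G.degree v : ℝ) ≤ b * (Fintype.card V : ℝ) ^ (1 / (k : ℝ))) :
    (∀ v, (G.adjMatrix ℝ ^ (2 * k)) v v ≤ ((2 * k).choose k : ℝ) * b ^ k * Fintype.card V) ∧
    ∀ t : ℝ, 0 < t →
      (∀ hA : (G.adjMatrix ℝ).IsHermitian,
        (#(univ.filter fun i => t * (Fintype.card V : ℝ) ^ (1 / (k : ℝ)) ≤
          |hA.eigenvalues i|) : ℝ) * t ^ (2 * k) ≤ ((2 * k).choose k : ℝ) * b ^ k) ∧
      ∀ (f : V → ℝ) (l : ℝ), (∀ u, ∑ v, G.adjMatrix ℝ u v * f v = l * f u) →
        t * (Fintype.card V : ℝ) ^ (1 / (k : ℝ)) ≤ |l| → ∀ v,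
        Fintype.card V * f v ^ 2 * t ^ (2 * k) ≤ ((2 * k).choose k : ℝ) * b ^ k * ∑ u, f u ^ 2 := by
  set n : ℝ := (Fintype.card V : ℝ) with hn
  set N : ℝ := n ^ (1 / (k : ℝ)) with hN
  have hn0' : 0 ≤ n := Nat.cast_nonneg _
  have hNk : N ^ k = n := rpow_root hk n hn0'
  have hN2 : N ^ (2 * k) = n * n := by rw [two_mul, pow_add, hNk]
  have hd : ∀ v, (G.adjMatrix ℝ ^ (2 * k)) v v ≤ ((2 * k).choose k : ℝ) * b ^ k * n := by
    intro v
    have h1 := diag_le G hg _ hD v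
    rw [mul_pow, hNk] at h1
    linarith
  set M : ℝ := ((2 * k).choose k : ℝ) * b ^ k with hM
  have hM0 : 0 ≤ M := by positivity
  refine ⟨hd, fun t ht => ⟨fun hA => ?_, fun f l hf hl v => ?_⟩⟩
  · rcases isEmpty_or_nonempty V with hV | hV
    · simp
      positivity
    have hn0 : 0 < n := by rw [hn]; exact_mod_cast Fintype.card_pos
    have hNpos : 0 < N := by positivity
    have h := exists_eig hA
    have htr : ∑ v, (G.adjMatrix ℝ ^ (2 * k)) v v ≤ M * (n * n) := by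
      calc ∑ v, (G.adjMatrix ℝ ^ (2 * k)) v v ≤ ∑ _v : V, M * n := sum_le_sum fun v _ => hd v
        _ = _ := by rw [sum_const, nsmul_eq_mul, card_univ]; ring
    have h1 := h.count k (t * N) _ (by positivity) htr
    rw [mul_pow, hN2, ← mul_assoc] at h1
    exact le_of_mul_le_mul_right h1 (by positivity)
  · have hn0 : 0 < n := by
      rw [hn]
      have : 0 < Fintype.card V := Fintype.card_pos_iff.2 ⟨v⟩
      exact_mod_cast this
    have hNpos : 0 < N := by positivity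
    have h1 := eigen_sup (G.adjMatrix ℝ) G.transpose_adjMatrix f l hf k v
    have h2 : (t * N) ^ (2 * k) ≤ l ^ (2 * k) := by
      calc (t * N) ^ (2 * k) ≤ |l| ^ (2 * k) := pow_le_pow_left₀ (by positivity) hl _
        _ = l ^ (2 * k) := by rw [pow_mul, sq_abs, ← pow_mul]
    have hS : 0 ≤ ∑ u, f u ^ 2 := sum_nonneg fun u _ => sq_nonneg _
    have h3 : (n * f v ^ 2 * t ^ (2 * k)) * n ≤ (M * ∑ u, f u ^ 2) * n := by
      calc (n * f v ^ 2 * t ^ (2 * k)) * n = (t * N) ^ (2 * k) * f v ^ 2 := by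
            rw [mul_pow, hN2]; ring
        _ ≤ l ^ (2 * k) * f v ^ 2 := mul_le_mul_of_nonneg_right h2 (sq_nonneg _)
        _ ≤ (G.adjMatrix ℝ ^ (2 * k)) v v * ∑ u, f u ^ 2 := h1
        _ ≤ (M * n) * ∑ u, f u ^ 2 := mul_le_mul_of_nonneg_right (hd v) hS
        _ = _ := by ring
    exact le_of_mul_le_mul_right h3 hn0

end Pool.Agent.N721.SR
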