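import Pool.Agent.N721.SR.KR6
import Pool.Agent.N721.SR.Gen2

/-! # Expanders at the records of `F(n) / n ^ (1 + β)` -/

set_option autoImplicit false
set_option maxHeartbeats 400000
set_option linter.unusedSectionVars false

open Finset

namespace Pool.Agent.N721.SR

variable {P : ∀ (V : Type), SimpleGraph V → Prop}

theorem Her.record_exp (hP : Her P) (β : ℝ) (hβ : 0 < β) (hβ1 : β ≤ 1) :
    ∃ (K : ℝ) (m₀ : ℕ), 0 < K ∧ 4 ≤ m₀ ∧ ∀ (m : ℕ) (a : ℝ), m₀ ≤ m → 0 < a →
      hP.F m = a * (m : ℝ) ^ (1 + β) →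
      (∀ t : ℕ, 1 ≤ t → t ≤ m → hP.F t ≤ a * (t : ℝ) ^ (1 + β)) →
      ∃ (u : ℕ) (G : SimpleGraph (Fin u)), u ≤ m ∧ 3 * m < 4 * u ∧ P (Fin u) G ∧
        (∀ x, ee G {x} univ ≤ K * (a * β / 32 * (m : ℝ) ^ β)) ∧
        ∀ X : Finset (Fin u), 2 * #X ≤ u → a * β / 32 * (m : ℝ) ^ β * #X ≤ ee G X Xᶜ := by
  classical
  set ρ : ℝ := min (1 / 4) ((β / 1152) ^ (1 / β)) with hρ
  have hρ0 : 0 < ρ := by
    rw [hρ]
    refine lt_min (by norm_num) (by positivity)
  have hρ1 : ρ ≤ 1 / 4 := min_le_left _ _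
  have hρβ : ρ ^ β ≤ β / 1152 := by
    calc ρ ^ β ≤ ((β / 1152) ^ (1 / β)) ^ β :=
          Real.rpow_le_rpow hρ0.le (min_le_right _ _) hβ.le
      _ = β / 1152 := by
          rw [← Real.rpow_mul (by positivity), one_div_mul_cancel hβ.ne', Real.rpow_one]
  refine ⟨32 / (ρ * β), max 4 ⌈1 / ρ⌉₊, by positivity, le_max_left _ _,
    fun m a hm ha hFm hF => ?_⟩
  have hm4 : 4 ≤ m := (le_max_left _ _).trans hm
  have hm0 : (0 : ℝ) < m := by
    have : 0 < m := by omega
    exact_mod_cast this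
  have hρm : 1 ≤ ρ * m := by
    have h1 : 1 / ρ ≤ m := by
      refine (Nat.le_ceil _).trans ?_
      exact_mod_cast (le_max_right _ _).trans hm
    rw [div_le_iff₀ hρ0] at h1
    linarith
  set T : ℝ := (m : ℝ) ^ β with hT
  have hT0 : 0 < T := by positivity
  have hrp : (m : ℝ) ^ (1 + β) = m * T := by
    rw [Real.rpow_add hm0, Real.rpow_one]
  set G := hP.best m with hGdef
  have hPG : P (Fin m) G := hP.best_P m
  have hlarge := hP.large_sets β a hβ hβ1 ha m (by omega) hFm.ge (by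
    intro m' h1 h2
    have h3 : 1 ≤ m' := by omega
    have h4 : (0 : ℝ) < m' := by exact_mod_cast h3
    have h5 : hP.F m' / (m' : ℝ) ^ (1 + β) ≤ a := by
      rw [div_le_iff₀ (by positivity)]
      exact hF m' h3 h2
    have h6 : hP.F m / (m : ℝ) ^ (1 + β) = a := by
      rw [hFm, mul_div_assoc, div_self (by positivity), mul_one]
    rw [h6]
    have h7 : 0 ≤ β / 8 * a := by positivity
    linarith)
  set H : Finset (Fin m) := univ.filter fun x => a / ρ * T < ee G {x} univ with hH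
  have hHx : ∀ x ∈ H, a / ρ * T < ee G {x} univ := fun x hx => by
    rw [hH, mem_filter] at hx
    exact hx.2
  have ht1 : ee G H univ ≤ 18 * a * ρ ^ β * (m * T) := by
    have := hP.tail_core β a ρ hβ hβ1 ha hρ0 hρ1 G hPG (by rw [Fintype.card_fin]; exact hρm)
      (by rw [Fintype.card_fin]; exact hF) H (by rw [Fintype.card_fin]; exact hHx)
    rwa [Fintype.card_fin] at this
  have ht2 : (4 * #H : ℝ) ≤ m := by
    have h1 : (#H : ℝ) * (a / ρ * T) ≤ ee G H univ := by
      rw [ee_degree', ← nsmul_eq_mul]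
      exact card_nsmul_le_sum _ _ _ fun x hx => (hHx x hx).le
    have h2 : ee G H univ ≤ a * (m * T) := by
      calc ee G H univ ≤ ee G univ univ := ee_mono G (subset_univ _) Subset.rfl
        _ = hP.F m := rfl
        _ = _ := by rw [hFm, hrp]
    have h3 : (#H : ℝ) * (a / ρ * T) ≤ (ρ * m) * (a / ρ * T) := by
      refine (h1.trans h2).trans (le_of_eq ?_)
      field_simp
    have h4 := le_of_mul_le_mul_right h3 (by positivity)
    have h5 : ρ * m ≤ 1 / 4 * m := mul_le_mul_of_nonneg_right hρ1 hm0.le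
    linarith
  have ht2' : 4 * #H ≤ m := by exact_mod_cast ht2
  have ht3 : ee G H univ ≤ (a * β / 16) / 4 * (m * T) := by
    refine ht1.trans ?_
    have h1 : 18 * a * ρ ^ β ≤ (a * β / 16) / 4 := by
      calc 18 * a * ρ ^ β ≤ 18 * a * (β / 1152) := by gcongr
        _ = _ := by ring
    exact mul_le_mul_of_nonneg_right h1 (by positivity)
  have hHs : ee G H Hᶜ ≤ ee G H univ := ee_mono G Subset.rfl (subset_univ _)
  obtain ⟨U, hUH, hU, hUexp⟩ := clean_exp G T (a * β / 16) (ee G H univ)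
    (by rw [Fintype.card_fin]; omega)
    hT0 (by positivity) H hHs (by rw [Fintype.card_fin]; exact ht3)
    (by rw [Fintype.card_fin]; omega)
    (fun X h1 h2 => by
      rw [Fintype.card_fin] at h1 h2 ⊢
      have := hlarge X h1 h2
      rwa [hrp] at this)
  rw [Fintype.card_fin] at hU
  obtain ⟨φ, hφ1, hφ2⟩ := restrict U
  have hmap : (univ : Finset (Fin #U)).map φ = U := by
    ext x
    simp only [mem_map, mem_univ, true_and]
    exact ⟨fun ⟨i, hi⟩ => hi ▸ hφ1 i, fun hx => hφ2 x hx⟩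
  have hUm : #U ≤ m := by
    have := card_le_univ U
    rwa [Fintype.card_fin] at this
  refine ⟨#U, G.comap φ, hUm, hU, hP.comap _ _ φ G hPG, fun x => ?_, fun X hX => ?_⟩
  · rw [ee_comap, hmap, map_singleton]
    calc ee G {φ x} U ≤ ee G {φ x} univ := ee_mono G Subset.rfl (subset_univ _)
      _ ≤ a / ρ * T := by
          have h1 : φ x ∉ H := fun h => (disjoint_left.1 hUH (hφ1 x)) h
          rw [hH, mem_filter] at h1
          push Not at h1
          exact h1 (mem_univ _)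
      _ = 32 / (ρ * β) * (a * β / 32 * T) := by field_simp
  · rw [ee_comap]
    have h1 : X.map φ ⊆ U := by
      intro y hy
      obtain ⟨i, -, rfl⟩ := mem_map.1 hy
      exact hφ1 i
    have h2 : Xᶜ.map φ = U \ X.map φ := by
      ext y
      simp only [mem_map, mem_compl, mem_sdiff]
      constructor
      · rintro ⟨i, hi, rfl⟩
        refine ⟨hφ1 i, ?_⟩
        rintro ⟨j, hj, hji⟩
        exact hi (φ.injective hji ▸ hj)
      · rintro ⟨hy, hny⟩
        obtain ⟨i, rfl⟩ := hφ2 y hy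
        exact ⟨i, fun hi => hny ⟨i, hi, rfl⟩, rfl⟩
    rw [h2]
    have h3 := hUexp (X.map φ) h1 (by rw [card_map]; exact hX)
    rw [card_map] at h3
    refine le_trans (le_of_eq ?_) h3
    ring

end Pool.Agent.N721.SR
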