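import Pool.Agent.N721.SR.ZE1

/-! # The exponent of a hereditary class and expanders -/

set_option autoImplicit false
set_option maxHeartbeats 400000
set_option linter.unusedSectionVars false

open Finset

namespace Pool.Agent.N721.SR

variable {P : ∀ (V : Type), SimpleGraph V → Prop}

/-- The expander form for the exponent. -/
def ExpoForm (P : ∀ (V : Type), SimpleGraph V → Prop) (α : ℝ) : Prop :=
  ∀ ε : ℝ, 0 < ε → ε < α → ∃ (K : ℝ) (N : ℕ), ∀ n : ℕ, N ≤ n →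
    ∃ (u : ℕ) (G : SimpleGraph (Fin u)) (_ : DecidableRel G.Adj) (D : ℝ),
      u ≤ n ∧ (n : ℝ) ^ (1 - ε) ≤ u ∧ (u : ℝ) ^ (α - ε) ≤ D ∧ P (Fin u) G ∧
      (∀ x, D ≤ G.degree x ∧ (G.degree x : ℝ) ≤ K * D) ∧
      (∀ X : Finset (Fin u), 2 * #X ≤ u →
        D * #X ≤ #((X ×ˢ Xᶜ).filter fun p => G.Adj p.1 p.2)) ∧
      ∀ f : Fin u → ℝ, ∑ x, f x = 0 →
        D * ∑ x, f x ^ 2 ≤ K * ∑ x, ∑ y, G.adjMatrix ℝ x y * (f x - f y) ^ 2

theorem exists_pow_ge (y : ℝ) (hy : 0 < y) (M : ℝ) :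
    ∃ N : ℕ, ∀ n : ℕ, N ≤ n → M ≤ (n : ℝ) ^ y := by
  have h := ((tendsto_rpow_atTop hy).comp tendsto_natCast_atTop_atTop).eventually_ge_atTop M
  exact Filter.eventually_atTop.1 h

theorem Her.expoForm (hP : Her P) (α C₀ : ℝ) (hα : 0 < α) (hα1 : α ≤ 1) (hC₀ : 0 < C₀)
    (hF : ∀ n : ℕ, 1 ≤ n → hP.F n ≤ C₀ * (n : ℝ) ^ (1 + α))
    (hlow : ∀ ε : ℝ, 0 < ε → ∃ N : ℕ, ∀ n : ℕ, N ≤ n → (n : ℝ) ^ (1 + α - ε) ≤ hP.F n) :
    ExpoForm P α := by
  classical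
  intro ε hε hεα
  have hε1 : ε < 1 := hεα.trans_le hα1
  set β : ℝ := α - ε / 2 with hβd
  have hβ : 0 < β := by rw [hβd]; linarith
  have hβ1 : β ≤ 1 := by rw [hβd]; linarith
  set δ : ℝ := ε ^ 2 / 8 with hδd
  have hδ : 0 < δ := by positivity
  have hδε : δ ≤ ε / 8 := by rw [hδd]; nlinarith
  obtain ⟨K, m₀, hK, hm₀, hrec⟩ := hP.record_exp β hβ hβ1
  obtain ⟨N₁, hN₁⟩ := hlow δ hδ
  set C₂ : ℝ := C₀ ^ (2 / ε) with hC₂
  have hC₂0 : 0 < C₂ := by positivity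
  obtain ⟨M₁, hM₁⟩ := exists_pow_ge (ε - δ) (by linarith) (32 / β)
  set M : ℕ := max m₀ M₁ with hM
  obtain ⟨N₂, hN₂⟩ := exists_pow_ge (1 - ε / 4) (by linarith) (C₂ * M)
  obtain ⟨N₃, hN₃⟩ := exists_pow_ge (3 * ε / 4) (by positivity) (4 / 3 * C₂)
  refine ⟨K, max (max N₁ N₂) (max N₃ 1), fun n hn => ?_⟩
  have hn1 : 1 ≤ n := (le_max_right _ _).trans ((le_max_right _ _).trans hn)
  have hnN₁ : N₁ ≤ n := (le_max_left _ _).trans ((le_max_left _ _).trans hn)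
  have hnN₂ : N₂ ≤ n := (le_max_right _ _).trans ((le_max_left _ _).trans hn)
  have hnN₃ : N₃ ≤ n := (le_max_left _ _).trans ((le_max_right _ _).trans hn)
  have hn0 : (0 : ℝ) < n := by exact_mod_cast hn1
  -- the record
  obtain ⟨m, hm, hmax⟩ := exists_max_image (Icc 1 n)
    (fun t : ℕ => hP.F t / (t : ℝ) ^ (1 + β)) ⟨n, by rw [mem_Icc]; exact ⟨hn1, le_rfl⟩⟩
  rw [mem_Icc] at hm
  have hm0 : (0 : ℝ) < m := by exact_mod_cast hm.1
  have hmn : (m : ℝ) ≤ n := by exact_mod_cast hm.2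
  set a : ℝ := hP.F m / (m : ℝ) ^ (1 + β) with ha
  have ha1 : (n : ℝ) ^ (ε / 2 - δ) ≤ a := by
    refine le_trans ?_ (hmax n (by rw [mem_Icc]; exact ⟨hn1, le_rfl⟩))
    rw [le_div_iff₀ (by positivity), ← Real.rpow_add hn0]
    refine le_trans (le_of_eq ?_) (hN₁ n hnN₁)
    congr 1
    rw [hβd]; ring
  have ha0 : 0 < a := lt_of_lt_of_le (by positivity) ha1
  have ha2 : a ≤ C₀ * (m : ℝ) ^ (ε / 2) := by
    rw [ha, div_le_iff₀ (by positivity), mul_assoc, ← Real.rpow_add hm0]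
    refine (hF m hm.1).trans (le_of_eq ?_)
    congr 2
    rw [hβd]; ring
  have hstar : (n : ℝ) ^ (1 - ε / 4) ≤ C₂ * m := by
    have h1 : ((n : ℝ) ^ (ε / 2 - δ)) ^ (2 / ε) ≤ (C₀ * (m : ℝ) ^ (ε / 2)) ^ (2 / ε) :=
      Real.rpow_le_rpow (by positivity) (ha1.trans ha2) (by positivity)
    rw [← Real.rpow_mul hn0.le, Real.mul_rpow hC₀.le (by positivity), ← Real.rpow_mul hm0.le] at h1
    have e1 : (ε / 2 - δ) * (2 / ε) = 1 - ε / 4 := by
      rw [hδd]; field_simp; ring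
    have e2 : ε / 2 * (2 / ε) = 1 := by field_simp
    rwa [e1, e2, Real.rpow_one] at h1
  have hMm : M ≤ m := by
    have h1 : C₂ * M ≤ C₂ * m := (hN₂ n hnN₂).trans hstar
    have h2 := le_of_mul_le_mul_left h1 hC₂0
    exact_mod_cast h2
  have hm₀m : m₀ ≤ m := (le_max_left _ _).trans hMm
  have hM₁m : M₁ ≤ m := (le_max_right _ _).trans hMm
  obtain ⟨u, G, hum, hu, hPG, hdeg, hexp⟩ := hrec m a hm₀m ha0 (by
      rw [ha, div_mul_cancel₀ _ (by positivity)]) (fun t h1 h2 => by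
      have h3 := hmax t (by rw [mem_Icc]; exact ⟨h1, h2.trans hm.2⟩)
      have h4 : (0 : ℝ) < t := by exact_mod_cast h1
      rwa [div_le_iff₀ (by positivity)] at h3)
  set D : ℝ := a * β / 32 * (m : ℝ) ^ β with hD
  have hD0 : 0 < D := by positivity
  have hu4 : 4 ≤ u + 1 := by omega
  have hur : 3 / 4 * (m : ℝ) ≤ u := by
    have : (3 * m : ℝ) < 4 * u := by exact_mod_cast hu
    linarith
  have hdegG : ∀ x, (G.degree x : ℝ) = ee G {x} univ := by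
    intro x; rw [ee_degree, sum_singleton]
  have haa : ∀ x y, G.adjMatrix ℝ x y = aa G x y := by
    intro x y
    unfold aa
    rw [SimpleGraph.adjMatrix_apply]
  refine ⟨u, G, Classical.decRel _, D, hum.trans hm.2, ?_, ?_, hPG, fun x => ⟨?_, ?_⟩,
    fun X hX => ?_, fun f hf => ?_⟩
  · -- the order
    have h1 : (n : ℝ) ^ (1 - ε / 4) = (n : ℝ) ^ (1 - ε) * (n : ℝ) ^ (3 * ε / 4) := by
      rw [← Real.rpow_add hn0]
      congr 1
      ring
    have h2 : (n : ℝ) ^ (1 - ε) * (4 / 3 * C₂) ≤ C₂ * m := by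
      refine le_trans ?_ hstar
      rw [h1]
      exact mul_le_mul_of_nonneg_left (hN₃ n hnN₃) (by positivity)
    have h3 : C₂ * ((n : ℝ) ^ (1 - ε) * (4 / 3)) ≤ C₂ * m := by
      refine le_trans (le_of_eq ?_) h2
      ring
    have h4 := le_of_mul_le_mul_left h3 hC₂0
    linarith
  · -- the degree
    have h1 : (u : ℝ) ^ (α - ε) ≤ (m : ℝ) ^ (α - ε) :=
      Real.rpow_le_rpow (Nat.cast_nonneg _) (by exact_mod_cast hum) (by linarith)
    have h2 : (m : ℝ) ^ (ε / 2 - δ) ≤ a :=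
      (Real.rpow_le_rpow hm0.le hmn (by linarith)).trans ha1
    have h3 : (32 / β) ≤ (m : ℝ) ^ (ε - δ) := hM₁ m hM₁m
    have h4 : (m : ℝ) ^ (α - ε) * (m : ℝ) ^ (ε - δ) = (m : ℝ) ^ (ε / 2 - δ) * (m : ℝ) ^ β := by
      rw [← Real.rpow_add hm0, ← Real.rpow_add hm0]
      congr 1
      rw [hβd]; ring
    have h5 : (m : ℝ) ^ (α - ε) * (32 / β) ≤ a * (m : ℝ) ^ β := by
      calc (m : ℝ) ^ (α - ε) * (32 / β) ≤ (m : ℝ) ^ (α - ε) * (m : ℝ) ^ (ε - δ) := by gcongr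
        _ = (m : ℝ) ^ (ε / 2 - δ) * (m : ℝ) ^ β := h4
        _ ≤ _ := by gcongr
    calc (u : ℝ) ^ (α - ε) ≤ (m : ℝ) ^ (α - ε) := h1
      _ = ((m : ℝ) ^ (α - ε) * (32 / β)) * (β / 32) := by field_simp
      _ ≤ (a * (m : ℝ) ^ β) * (β / 32) := by gcongr
      _ = D := by rw [hD]; ring
  · have h1 := hexp {x} (by rw [card_singleton]; omega)
    rw [card_singleton, Nat.cast_one, mul_one] at h1
    have h2 : ee G {x} {x}ᶜ ≤ ee G {x} univ := ee_mono G Subset.rfl (subset_univ _)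
    rw [hdegG x]
    exact h1.trans h2
  · rw [hdegG x]
    exact hdeg x
  · have h1 := hexp X hX
    have h2 : ee G X Xᶜ = (#((X ×ˢ Xᶜ).filter fun p => G.Adj p.1 p.2) : ℝ) := by
      rw [card_filter, sum_product]
      push_cast
      rfl
    rwa [h2] at h1
  · have h1 := poincare G D (K * D) hD0.le (by positivity) (fun x => by
      have := hdeg x
      rwa [ee_eq, sum_singleton] at this) (fun X hX => by
        rw [Fintype.card_fin] at hX
        exact hexp X hX) f hf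
    have h2 : D * (D * ∑ x, f x ^ 2) ≤ D * (K * ∑ x, ∑ y, aa G x y * (f x - f y) ^ 2) := by
      calc D * (D * ∑ x, f x ^ 2) = D ^ 2 * ∑ x, f x ^ 2 := by ring
        _ ≤ K * D * ∑ x, ∑ y, aa G x y * (f x - f y) ^ 2 := h1
        _ = _ := by ring
    have h3 := le_of_mul_le_mul_left h2 hD0
    simp only [haa]
    exact h3

theorem Her.lower_of_expoForm (hP : Her P)
    (hcop : ∀ (m n : ℕ) (hm : 0 < m) (G : SimpleGraph (Fin m)), P (Fin m) G →
      P (Fin n) (copG m n hm G)) (α : ℝ) (hα : 0 < α) (hα1 : α ≤ 1) (h : ExpoForm P α)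
    (ε : ℝ) (hε : 0 < ε) :
    ∃ N : ℕ, ∀ n : ℕ, N ≤ n → (n : ℝ) ^ (1 + α - ε) ≤ hP.F n := by
  classical
  set ε' : ℝ := min (ε / 4) (α / 2) with hε'
  have h0 : 0 < ε' := lt_min (by positivity) (by positivity)
  have h1 : ε' ≤ ε / 4 := min_le_left _ _
  have h2 : ε' ≤ α / 2 := min_le_right _ _
  obtain ⟨K, N, hN⟩ := h ε' h0 (by linarith)
  obtain ⟨N₂, hN₂⟩ := exists_pow_ge (ε / 2) (by positivity) 2
  refine ⟨max (max N N₂) 1, fun n hn => ?_⟩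
  have hn1 : 1 ≤ n := (le_max_right _ _).trans hn
  have hnN : N ≤ n := (le_max_left _ _).trans ((le_max_left _ _).trans hn)
  have hnN₂ : N₂ ≤ n := (le_max_right _ _).trans ((le_max_left _ _).trans hn)
  have hn0 : (0 : ℝ) < n := by exact_mod_cast hn1
  have hn1r : (1 : ℝ) ≤ n := by exact_mod_cast hn1
  obtain ⟨u, G, inst, D, hun, hnu, hD, hPG, hdeg, -, -⟩ := hN n hnN
  have hu0 : 0 < u := by
    have h3 : (0 : ℝ) < u := lt_of_lt_of_le (by positivity) hnu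
    exact_mod_cast h3
  have h3 := copG_edges u n ⌈D⌉₊ hu0 hun G (fun v => Nat.ceil_le.2 (hdeg v).1)
  have h4 : ee (copG u n hu0 G) univ univ ≤ hP.F n := by
    have := hP.le_F (copG u n hu0 G) (hcop u n hu0 G hPG) univ
    rwa [card_univ, Fintype.card_fin] at this
  have h5 : D ≤ ⌈D⌉₊ := Nat.le_ceil D
  have h6 : (n : ℝ) * D ≤ 2 * hP.F n := by
    calc (n : ℝ) * D ≤ n * ⌈D⌉₊ := by gcongr
      _ ≤ 2 * ee (copG u n hu0 G) univ univ := h3
      _ ≤ _ := by linarith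
  have h7 : (n : ℝ) ^ (α - 2 * ε') ≤ D := by
    calc (n : ℝ) ^ (α - 2 * ε') ≤ (n : ℝ) ^ ((1 - ε') * (α - ε')) := by
          refine Real.rpow_le_rpow_of_exponent_le hn1r ?_
          nlinarith [sq_nonneg ε', mul_nonneg h0.le (sub_nonneg.2 hα1)]
      _ = ((n : ℝ) ^ (1 - ε')) ^ (α - ε') := by rw [Real.rpow_mul hn0.le]
      _ ≤ (u : ℝ) ^ (α - ε') := Real.rpow_le_rpow (by positivity) hnu (by linarith)
      _ ≤ D := hD
  have h8 : (n : ℝ) ^ (1 + α - ε) * (n : ℝ) ^ (ε / 2) ≤ n * (n : ℝ) ^ (α - 2 * ε') := by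
    have e1 : (n : ℝ) * (n : ℝ) ^ (α - 2 * ε') = (n : ℝ) ^ (1 + (α - 2 * ε')) := by
      rw [Real.rpow_add hn0, Real.rpow_one]
    rw [e1, ← Real.rpow_add hn0]
    refine Real.rpow_le_rpow_of_exponent_le hn1r ?_
    linarith
  have h9 : (n : ℝ) ^ (1 + α - ε) * 2 ≤ (n : ℝ) ^ (1 + α - ε) * (n : ℝ) ^ (ε / 2) :=
    mul_le_mul_of_nonneg_left (hN₂ n hnN₂) (by positivity)
  have h10 : (n : ℝ) * (n : ℝ) ^ (α - 2 * ε') ≤ n * D := by gcongr
  linarith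

/-- **The exponent of `K_{r,r}` and expanders.** -/
theorem krr_exponent (r : ℕ) (hr : 2 ≤ r) :
    (∀ ε : ℝ, 0 < ε → ∃ N : ℕ, ∀ n : ℕ, N ≤ n → (n : ℝ) ^ (2 - 1 / (r : ℝ) - ε) ≤
      SimpleGraph.extremalNumber n (completeBipartiteGraph (Fin r) (Fin r))) ↔
    ExpoForm (FreeCls (completeBipartiteGraph (Fin r) (Fin r))) (1 - 1 / (r : ℝ)) := by
  classical
  obtain ⟨hα0, hα1, -⟩ := alpha_facts r hr
  have hr0 : (0 : ℝ) < r := by
    have : 0 < r := by omega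
    exact_mod_cast this
  have hP : Her (FreeCls (completeBipartiteGraph (Fin r) (Fin r))) :=
    freeCls_her _ (Sum.inl ⟨0, by omega⟩) (Sum.inr ⟨0, by omega⟩) (by
      simp [completeBipartiteGraph])
  set α : ℝ := 1 - 1 / (r : ℝ) with hα
  have e1 : (1 : ℝ) + α = 2 - 1 / (r : ℝ) := by rw [hα]; ring
  have hF : ∀ n : ℕ, 1 ≤ n → hP.F n ≤ (2 * r) * (n : ℝ) ^ (1 + α) := by
    intro n hn
    have h2 := kst_bound (hP.best n) r (by omega) (hP.best_P n) (by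
      rw [Fintype.card_fin]; exact hn)
    rw [Fintype.card_fin, ← ee_degree, ← e1] at h2
    exact h2
  constructor
  · intro h
    refine hP.expoForm α (2 * r) hα0 hα1 (by positivity) hF fun ε hε => ?_
    obtain ⟨N, hN⟩ := h ε hε
    refine ⟨N, fun n hn => ?_⟩
    rw [freeCls_F, e1]
    have h1 := hN n hn
    have h2 : (0 : ℝ) ≤ SimpleGraph.extremalNumber n (completeBipartiteGraph (Fin r) (Fin r)) :=
      Nat.cast_nonneg _
    linarith
  · intro h ε hε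
    obtain ⟨N, hN⟩ := hP.lower_of_expoForm (fun m n hm G hG =>
      copG_free _ (kst_preconnected r (by omega)) m n hm G hG) α hα0 hα1 h (ε / 2) (by positivity)
    obtain ⟨N₂, hN₂⟩ := exists_pow_ge (ε / 2) (by positivity) 2
    refine ⟨max (max N N₂) 1, fun n hn => ?_⟩
    have hn1 : 1 ≤ n := (le_max_right _ _).trans hn
    have hnN : N ≤ n := (le_max_left _ _).trans ((le_max_left _ _).trans hn)
    have hnN₂ : N₂ ≤ n := (le_max_right _ _).trans ((le_max_left _ _).trans hn)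
    have hn0 : (0 : ℝ) < n := by exact_mod_cast hn1
    have h1 := hN n hnN
    rw [freeCls_F, e1] at h1
    have h2 : (n : ℝ) ^ (2 - 1 / (r : ℝ) - ε / 2) =
        (n : ℝ) ^ (2 - 1 / (r : ℝ) - ε) * (n : ℝ) ^ (ε / 2) := by
      rw [← Real.rpow_add hn0]
      congr 1
      ring
    have h3 : (n : ℝ) ^ (2 - 1 / (r : ℝ) - ε) * 2 ≤
        (n : ℝ) ^ (2 - 1 / (r : ℝ) - ε) * (n : ℝ) ^ (ε / 2) :=
      mul_le_mul_of_nonneg_left (hN₂ n hnN₂) (by positivity)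
    rw [h2] at h1
    linarith

end Pool.Agent.N721.SR
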