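import Pool.Agent.N721.SR.KR5
import Pool.Agent.N721.SR.C2kReg

/-! # Graphs without `K_{r,r}`: regular partitions -/

set_option autoImplicit false
set_option maxHeartbeats 400000
set_option linter.unusedSectionVars false

open Finset

namespace Pool.Agent.N721.SR

theorem krr_pow (r : ℕ) (hr : 2 ≤ r) (n : ℝ) (hn : 0 < n) :
    n * (n ^ (1 - 1 / (r : ℝ))) ^ r = n ^ r ∧ n * n ^ (1 - 1 / (r : ℝ)) = n ^ (2 - 1 / (r : ℝ)) := by
  have hr0 : (0 : ℝ) < r := by
    have : 0 < r := by omega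
    exact_mod_cast this
  constructor
  · rw [← Real.rpow_natCast (n ^ (1 - 1 / (r : ℝ))) r, ← Real.rpow_mul hn.le,
      ← Real.rpow_natCast n r]
    nth_rewrite 1 [← Real.rpow_one n]
    rw [← Real.rpow_add hn]
    congr 1
    field_simp
    ring
  · nth_rewrite 1 [← Real.rpow_one n]
    rw [← Real.rpow_add hn]
    congr 1
    ring

/-- the degree sum of the vertices of large degree -/
theorem krr_heavy (r : ℕ) (hr : 2 ≤ r) (η : ℝ) (hη : 0 < η) :
    ∃ b : ℝ, 0 < b ∧ ∀ (V : Type) [Fintype V] [DecidableEq V] (G : SimpleGraph V)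
      [DecidableRel G.Adj], (completeBipartiteGraph (Fin r) (Fin r)).Free G →
      0 < Fintype.card V →
      ∑ x ∈ univ.filter (fun v => b * (Fintype.card V : ℝ) ^ (1 - 1 / (r : ℝ)) < G.degree v),
        (G.degree x : ℝ) ≤ η * (Fintype.card V : ℝ) ^ (2 - 1 / (r : ℝ)) := by
  have hr0 : (0 : ℝ) < r := by
    have : 0 < r := by omega
    exact_mod_cast this
  have hr2 : (2 : ℝ) ≤ r := by exact_mod_cast hr
  set b : ℝ := 2 * r + 2 ^ r * r / η with hb
  have hb0 : 0 < b := by positivity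
  have hb1 : 1 ≤ b := by
    have : 0 ≤ 2 ^ r * r / η := by positivity
    linarith
  have hb2 : 2 * (r : ℝ) ≤ b := by
    have : 0 ≤ 2 ^ r * r / η := by positivity
    linarith
  refine ⟨b, hb0, fun V _ _ G _ hG hV => ?_⟩
  set n : ℝ := (Fintype.card V : ℝ) with hn
  have hn0 : 0 < n := by rw [hn]; exact_mod_cast hV
  have hn1 : 1 ≤ n := by rw [hn]; exact_mod_cast hV
  obtain ⟨e1, e2⟩ := krr_pow r hr n hn0
  set N : ℝ := n ^ (1 - 1 / (r : ℝ)) with hN
  have hN1 : 1 ≤ N := by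
    refine Real.one_le_rpow hn1 ?_
    have : 1 / (r : ℝ) ≤ 1 := by rw [div_le_one hr0]; linarith
    linarith
  have hN0 : 0 < N := by linarith
  rw [← e2]
  set H := univ.filter (fun v => b * N < G.degree v) with hH
  have h0 := dQ_count G r hG univ
  have hd : ∀ v, dQ G univ v = G.degree v := by
    intro v
    rw [dQ, ← SimpleGraph.card_neighborFinset_eq_degree, SimpleGraph.neighborFinset_eq_filter]
  have h1 : ∑ v ∈ H, (G.degree v + 1 - r) ^ r ≤ r * Fintype.card V ^ r := by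
    refine le_trans (sum_le_sum_of_subset (subset_univ _)) ?_
    simpa only [hd, card_univ] using h0
  have h2 : ∑ v ∈ H, (((G.degree v + 1 - r) ^ r : ℕ) : ℝ) ≤ r * n ^ r := by
    rw [hn]; exact_mod_cast h1
  have h3 : ∀ v ∈ H, (G.degree v : ℝ) * (b * N) ^ (r - 1) ≤
      2 ^ r * (((G.degree v + 1 - r) ^ r : ℕ) : ℝ) := by
    intro v hv
    rw [hH, mem_filter] at hv
    have h4 : b * N < G.degree v := hv.2
    have h5 : 2 * (r : ℝ) ≤ G.degree v := by nlinarith
    have h6 : 2 * r ≤ G.degree v := by exact_mod_cast h5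
    have h7 : G.degree v ≤ 2 * (G.degree v + 1 - r) := by omega
    have h8 : (G.degree v : ℝ) ≤ 2 * ((G.degree v + 1 - r : ℕ) : ℝ) := by exact_mod_cast h7
    have h9 : (G.degree v : ℝ) ^ r ≤ (2 * ((G.degree v + 1 - r : ℕ) : ℝ)) ^ r :=
      pow_le_pow_left₀ (Nat.cast_nonneg _) h8 r
    have h10 : (b * N) ^ (r - 1) ≤ (G.degree v : ℝ) ^ (r - 1) :=
      pow_le_pow_left₀ (by positivity) h4.le _
    calc (G.degree v : ℝ) * (b * N) ^ (r - 1) ≤ (G.degree v : ℝ) * (G.degree v : ℝ) ^ (r - 1) :=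
          mul_le_mul_of_nonneg_left h10 (Nat.cast_nonneg _)
      _ = (G.degree v : ℝ) ^ r := by
          rw [← pow_succ']
          congr 1
          omega
      _ ≤ _ := h9
      _ = _ := by rw [mul_pow]; push_cast; ring
  have h4 : (∑ x ∈ H, (G.degree x : ℝ)) * (b * N) ^ (r - 1) ≤ 2 ^ r * (r * n ^ r) := by
    rw [sum_mul]
    calc _ ≤ ∑ v ∈ H, 2 ^ r * (((G.degree v + 1 - r) ^ r : ℕ) : ℝ) := sum_le_sum h3
      _ = 2 ^ r * ∑ v ∈ H, (((G.degree v + 1 - r) ^ r : ℕ) : ℝ) := by rw [mul_sum]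
      _ ≤ _ := by gcongr
  have e3 : n ^ r = n * N * N ^ (r - 1) := by
    rw [← e1, mul_assoc, ← pow_succ']
    congr 2
    omega
  have hbp : 2 ^ r * r ≤ η * b ^ (r - 1) := by
    have h5 : b ≤ b ^ (r - 1) := by
      calc b = b ^ 1 := (pow_one b).symm
        _ ≤ _ := pow_le_pow_right₀ hb1 (by omega)
    have h6 : 2 ^ r * r ≤ η * b := by
      rw [hb, mul_add]
      have h7 : η * (2 ^ r * r / η) = 2 ^ r * r := by field_simp
      rw [h7]
      have : 0 ≤ η * (2 * (r : ℝ)) := by positivity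
      linarith
    exact h6.trans (mul_le_mul_of_nonneg_left h5 hη.le)
  have h5 : (∑ x ∈ H, (G.degree x : ℝ)) * (b * N) ^ (r - 1) ≤
      (η * (n * N)) * (b * N) ^ (r - 1) := by
    refine h4.trans ?_
    rw [e3]
    calc 2 ^ r * (r * (n * N * N ^ (r - 1))) = (2 ^ r * r) * (n * N * N ^ (r - 1)) := by ring
      _ ≤ (η * b ^ (r - 1)) * (n * N * N ^ (r - 1)) := by gcongr
      _ = _ := by rw [mul_pow]; ring
  exact le_of_mul_le_mul_right h5 (by positivity)

theorem krr_regular (r : ℕ) (hr : 2 ≤ r) (η : ℝ) (hη : 0 < η) :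
    ∃ K : ℕ, ∀ (V : Type) [Fintype V] [DecidableEq V] (G : SimpleGraph V) [DecidableRel G.Adj],
      (completeBipartiteGraph (Fin r) (Fin r)).Free G → 0 < Fintype.card V →
      ∃ (H : Finset V) (P : V → Fin K),
        ∑ x ∈ H, (G.degree x : ℝ) ≤ η * (Fintype.card V : ℝ) ^ (2 - 1 / (r : ℝ)) ∧
        Regular ((del G H).adjMatrix ℝ) P (η * (Fintype.card V : ℝ) ^ (1 - 1 / (r : ℝ))) := by
  obtain ⟨b, hb, hheavy⟩ := krr_heavy r hr η hη
  obtain ⟨K, hK⟩ := regular_of_diag 2 (by norm_num) (2 * r * b ^ 2 + 2 * (r : ℝ) ^ 2) η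
    (by positivity) hη
  refine ⟨K, fun V _ _ G _ hG hV => ?_⟩
  have hn0 : (0 : ℝ) < (Fintype.card V : ℝ) := by exact_mod_cast hV
  have hN0 : 0 < (Fintype.card V : ℝ) ^ (1 - 1 / (r : ℝ)) := by positivity
  set H := univ.filter (fun v => b * (Fintype.card V : ℝ) ^ (1 - 1 / (r : ℝ)) < G.degree v)
    with hH
  have hdeg : ∀ v, ((del G H).degree v : ℝ) ≤
      b * (Fintype.card V : ℝ) ^ (1 - 1 / (r : ℝ)) := by
    refine del_degree G H _ (by positivity) fun x hx => ?_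
    rw [hH, mem_filter] at hx
    push Not at hx
    rw [ee_degree, sum_singleton]
    exact hx (mem_univ x)
  have hfree : (completeBipartiteGraph (Fin r) (Fin r)).Free (del G H) := by
    intro hcon
    exact hG (hcon.trans (SimpleGraph.IsContained.of_le (del_le G H)))
  obtain ⟨P, hP⟩ := hK V ((del G H).adjMatrix ℝ) (isHermitian_adj _)
    ((Fintype.card V : ℝ) ^ (1 - 1 / (r : ℝ))) hN0 (diag_four (del G H) r hr hfree b hdeg)
  exact ⟨H, P, hheavy V G hG hV, hP⟩

end Pool.Agent.N721.SR
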