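import Pool.Agent.N721.SR.ZR1

/-! # Matrices of zeros and ones without a `t × t` submatrix of ones: regular partitions -/

set_option autoImplicit false
set_option maxHeartbeats 400000
set_option linter.unusedSectionVars false

open Finset

namespace Pool.Agent.N721.SR

section refinement
variable {V : Type} [Fintype V] [DecidableEq V]

theorem av_av {K L : ℕ} {P : V → Fin K} {P' : V → Fin L} (href : ∀ u v, P' u = P' v → P u = P v)
    (f : V → ℝ) (u : V) : av P (av P' f) u = av P f u := by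
  unfold av
  simp only [mul_sum]
  rw [sum_comm]
  refine sum_congr rfl fun y _ => ?_
  have h1 : ∀ x, ker P u x * (ker P' x y * f y) = ker P u y * ker P' y x * f y := by
    intro x
    by_cases h : P' x = P' y
    · have h2 : ker P u x = ker P u y := by unfold ker; rw [href x y h]
      rw [h2, ker_symm P' x y]; ring
    · have h2 : ker P' x y = 0 := by unfold ker; rw [if_neg (fun e => h e.symm)]
      have h3 : ker P' y x = 0 := by unfold ker; rw [if_neg h]
      rw [h2, h3]; ring
  simp only [h1]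
  rw [← sum_mul, ← mul_sum, ker_sum, mul_one]

theorem Regular.refine {K L : ℕ} {A : Matrix V V ℝ} {P : V → Fin K} {P' : V → Fin L} {δ : ℝ}
    (hδ : 0 ≤ δ) (h : Regular A P δ) (href : ∀ u v, P' u = P' v → P u = P v) :
    Regular A P' (2 * δ) := by
  intro f g
  have e1 : ∑ u, ∑ v, (A u v - avg A P' u v) * f u * g v =
      ∑ u, ∑ v, (A u v - avg A P u v) * f u * g v -
        ∑ u, ∑ v, (A u v - avg A P u v) * av P' f u * av P' g v := by
    have e2 : ∀ (B : V → V → ℝ) (f g : V → ℝ), ∑ u, ∑ v, (A u v - B u v) * f u * g v =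
        ∑ u, ∑ v, A u v * f u * g v - ∑ u, ∑ v, B u v * f u * g v := by
      intro B f g
      rw [← sum_sub_distrib]
      refine sum_congr rfl fun u _ => ?_
      rw [← sum_sub_distrib]
      exact sum_congr rfl fun v _ => by ring
    rw [e2, e2, e2, bilin_avg A P', bilin_avg A P, bilin_avg A P]
    simp only [av_av href]
    ring
  rw [e1]
  have h1 := h f g
  have h2 := h (av P' f) (av P' g)
  have h3 : Real.sqrt (∑ u, av P' f u ^ 2) ≤ Real.sqrt (∑ u, f u ^ 2) :=
    Real.sqrt_le_sqrt (av_sq P' f)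
  have h4 : Real.sqrt (∑ u, av P' g u ^ 2) ≤ Real.sqrt (∑ u, g u ^ 2) :=
    Real.sqrt_le_sqrt (av_sq P' g)
  have h5 : δ * Real.sqrt (∑ u, av P' f u ^ 2) * Real.sqrt (∑ u, av P' g u ^ 2) ≤
      δ * Real.sqrt (∑ u, f u ^ 2) * Real.sqrt (∑ u, g u ^ 2) := by gcongr
  calc _ ≤ |∑ u, ∑ v, (A u v - avg A P u v) * f u * g v| +
        |∑ u, ∑ v, (A u v - avg A P u v) * av P' f u * av P' g v| := abs_sub _ _
    _ ≤ δ * Real.sqrt (∑ u, f u ^ 2) * Real.sqrt (∑ u, g u ^ 2) +
        δ * Real.sqrt (∑ u, f u ^ 2) * Real.sqrt (∑ u, g u ^ 2) := add_le_add h1 (h2.trans h5)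
    _ = _ := by ring

end refinement

/-- the average of the matrix `A` over the block of `(i, j)`, for the partitions of the rows and of
the columns into the fibres of `P` and `Q` -/
noncomputable def bAvg {n K : ℕ} (A : Fin n → Fin n → ℝ) (P Q : Fin n → Fin K) (i j : Fin n) : ℝ :=
  (∑ x ∈ univ.filter (fun x => P x = P i), ∑ y ∈ univ.filter (fun y => Q y = Q j), A x y) /
    ((#(univ.filter fun x => P x = P i) : ℝ) * (#(univ.filter fun y => Q y = Q j) : ℝ))

/-- the partition refined by the side -/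
def sided {n K : ℕ} (P : Fin n ⊕ Fin n → Fin K) (x : Fin n ⊕ Fin n) : Fin (K * 2) :=
  finProdFinEquiv (P x, Sum.elim (fun _ => (0 : Fin 2)) (fun _ => 1) x)

theorem sided_refines {n K : ℕ} (P : Fin n ⊕ Fin n → Fin K) (u v : Fin n ⊕ Fin n)
    (h : sided P u = sided P v) : P u = P v := by
  have h1 := finProdFinEquiv.injective h
  exact (Prod.mk.injEq _ _ _ _ ▸ h1).1

theorem sided_inl {n K : ℕ} (P : Fin n ⊕ Fin n → Fin K) (i : Fin n) :
    (univ.filter fun x => sided P x = sided P (Sum.inl i)) =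
      (univ.filter fun x => P (Sum.inl x) = P (Sum.inl i)).map Function.Embedding.inl := by
  ext x
  simp only [mem_filter, mem_univ, true_and, mem_map, Function.Embedding.inl_apply]
  unfold sided
  rw [finProdFinEquiv.injective.eq_iff, Prod.mk.injEq]
  rcases x with x | x
  · simp
  · simp

theorem sided_inr {n K : ℕ} (P : Fin n ⊕ Fin n → Fin K) (j : Fin n) :
    (univ.filter fun x => sided P x = sided P (Sum.inr j)) =
      (univ.filter fun x => P (Sum.inr x) = P (Sum.inr j)).map Function.Embedding.inr := by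
  ext x
  simp only [mem_filter, mem_univ, true_and, mem_map, Function.Embedding.inr_apply]
  unfold sided
  rw [finProdFinEquiv.injective.eq_iff, Prod.mk.injEq]
  rcases x with x | x
  · simp
  · simp

theorem avg_sided {n K : ℕ} (M : Matrix (Fin n ⊕ Fin n) (Fin n ⊕ Fin n) ℝ)
    (P : Fin n ⊕ Fin n → Fin K) (i j : Fin n) :
    avg M (sided P) (Sum.inl i) (Sum.inr j) =
      bAvg (fun i j => M (Sum.inl i) (Sum.inr j)) (fun x => P (Sum.inl x))
        (fun x => P (Sum.inr x)) i j := by
  unfold avg bAvg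
  rw [sided_inl, sided_inr]
  simp only [sum_map, card_map, Function.Embedding.inl_apply, Function.Embedding.inr_apply]

theorem zar_regular (t : ℕ) (ht : 2 ≤ t) (η : ℝ) (hη : 0 < η) :
    ∃ K : ℕ, ∀ (n : ℕ) (A : Fin n → Fin n → ℝ), (∀ x y, A x y = 0 ∨ A x y = 1) →
      (∀ a b : Fin t → Fin n, Function.Injective a → Function.Injective b →
        ∃ i j, A (a i) (b j) = 0) →
      ∃ (R S : Finset (Fin n)) (P Q : Fin n → Fin K),
        ∑ i ∈ R, ∑ j, A i j + ∑ j ∈ S, ∑ i, A i j ≤ η * (n : ℝ) ^ (2 - 1 / (t : ℝ)) ∧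
        (∀ f g : Fin n → ℝ, |∑ i, ∑ j, ((if i ∈ R ∨ j ∈ S then 0 else A i j) -
          bAvg (fun i j => if i ∈ R ∨ j ∈ S then 0 else A i j) P Q i j) * f i * g j| ≤
          η * (n : ℝ) ^ (1 - 1 / (t : ℝ)) * Real.sqrt (∑ i, f i ^ 2) *
            Real.sqrt (∑ j, g j ^ 2)) ∧
        ∀ X Y : Finset (Fin n), |∑ i ∈ X, ∑ j ∈ Y, (A i j - bAvg A P Q i j)| ≤
          η * (n : ℝ) ^ (2 - 1 / (t : ℝ)) := by
  classical
  obtain ⟨K, hK⟩ := krr_regular t ht (η / 24) (by positivity)
  refine ⟨K, fun n A hA hfree => ?_⟩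
  have ht0 : (0 : ℝ) < t := by
    have : 0 < t := by omega
    exact_mod_cast this
  have ht1 : 1 / (t : ℝ) ≤ 1 := by
    rw [div_le_one ht0]
    have : 1 ≤ t := by omega
    exact_mod_cast this
  have ht1' : 0 < 1 / (t : ℝ) := by positivity
  rcases Nat.eq_zero_or_pos n with hn | hn
  · subst hn
    refine ⟨∅, ∅, fun x => x.elim0, fun x => x.elim0, ?_, fun f g => ?_, fun X Y => ?_⟩
    · simp only [sum_empty, add_zero]; positivity
    · simp
    · have : X = ∅ := Finset.eq_empty_of_isEmpty X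
      rw [this, sum_empty, abs_zero]
      positivity
  have hn0 : (0 : ℝ) < n := by exact_mod_cast hn
  set G := bip n A with hG
  have hGf := bip_free n t (by omega) A hfree
  have hcard : Fintype.card (Fin n ⊕ Fin n) = 2 * n := by simp; ring
  obtain ⟨H, P, hH, hP⟩ := hK (Fin n ⊕ Fin n) G hGf (by rw [hcard]; omega)
  have hc : ((Fintype.card (Fin n ⊕ Fin n) : ℕ) : ℝ) = 2 * n := by rw [hcard]; push_cast; ring
  rw [hc] at hH hP
  have b1 : ((2 : ℝ) * n) ^ (2 - 1 / (t : ℝ)) ≤ 4 * (n : ℝ) ^ (2 - 1 / (t : ℝ)) := by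
    rw [Real.mul_rpow (by norm_num) hn0.le]
    have : (2 : ℝ) ^ (2 - 1 / (t : ℝ)) ≤ 2 ^ (2 : ℝ) :=
      Real.rpow_le_rpow_of_exponent_le (by norm_num) (by linarith)
    have h2 : (2 : ℝ) ^ (2 : ℝ) = 4 := by norm_num
    rw [h2] at this
    gcongr
  have b2 : ((2 : ℝ) * n) ^ (1 - 1 / (t : ℝ)) ≤ 2 * (n : ℝ) ^ (1 - 1 / (t : ℝ)) := by
    rw [Real.mul_rpow (by norm_num) hn0.le]
    have : (2 : ℝ) ^ (1 - 1 / (t : ℝ)) ≤ 2 ^ (1 : ℝ) :=
      Real.rpow_le_rpow_of_exponent_le (by norm_num) (by linarith)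
    rw [Real.rpow_one] at this
    gcongr
  have b3 : (2 * (n : ℝ)) * (2 * n) ^ (1 - 1 / (t : ℝ)) = (2 * (n : ℝ)) ^ (2 - 1 / (t : ℝ)) :=
    (krr_pow t ht (2 * n) (by positivity)).2
  have hPs := hP.refine (P' := sided P) (by positivity) (sided_refines P)
  have hadj : ∀ i j, G.adjMatrix ℝ (Sum.inl i) (Sum.inr j) = A i j := by
    intro i j
    rw [SimpleGraph.adjMatrix_apply]
    have h1 := bip_lr n A i j
    rcases hA i j with h | h
    · rw [if_neg, h]
      rw [hG, h1, h]; norm_num
    · rw [if_pos, h]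
      rw [hG, h1, h]
  set R : Finset (Fin n) := univ.filter fun i => Sum.inl i ∈ H with hR
  set S : Finset (Fin n) := univ.filter fun j => Sum.inr j ∈ H with hS
  have hdel : ∀ i j, (del G H).adjMatrix ℝ (Sum.inl i) (Sum.inr j) =
      if i ∈ R ∨ j ∈ S then 0 else A i j := by
    intro i j
    rw [adj_del]
    have h1 := hadj i j
    rw [SimpleGraph.adjMatrix_apply] at h1
    by_cases h2 : i ∈ R ∨ j ∈ S
    · rw [if_pos h2, if_neg]
      rintro ⟨-, h3, h4⟩
      rcases h2 with h2 | h2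
      · rw [hR, mem_filter] at h2; exact h3 h2.2
      · rw [hS, mem_filter] at h2; exact h4 h2.2
    · rw [if_neg h2, ← h1]
      push Not at h2
      have h3 : Sum.inl i ∉ H := fun h => h2.1 (by rw [hR, mem_filter]; exact ⟨mem_univ _, h⟩)
      have h4 : Sum.inr j ∉ H := fun h => h2.2 (by rw [hS, mem_filter]; exact ⟨mem_univ _, h⟩)
      by_cases h5 : G.Adj (Sum.inl i) (Sum.inr j)
      · rw [if_pos ⟨h5, h3, h4⟩, if_pos h5]
      · rw [if_neg (fun h => h5 h.1), if_neg h5]
  refine ⟨R, S, fun i => P (Sum.inl i), fun j => P (Sum.inr j), ?_, fun f g => ?_, fun X Y => ?_⟩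
  · -- the ones in the erased rows and columns
    have e1 : ∑ i ∈ R, ∑ j, A i j + ∑ j ∈ S, ∑ i, A i j ≤ ∑ x ∈ H, (G.degree x : ℝ) := by
      have e2 : ∀ i, ∑ j, A i j ≤ (G.degree (Sum.inl i) : ℝ) := by
        intro i
        have h1 := ee_degree G {Sum.inl i}
        rw [sum_singleton] at h1
        rw [← h1]
        unfold ee
        rw [sum_singleton, Fintype.sum_sum_type]
        refine le_trans ?_ (le_add_of_nonneg_left (sum_nonneg fun x _ => by
          split_ifs <;> norm_num))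
        refine sum_le_sum fun j _ => ?_
        rw [← hadj i j, SimpleGraph.adjMatrix_apply]
      have e3 : ∀ j, ∑ i, A i j ≤ (G.degree (Sum.inr j) : ℝ) := by
        intro j
        have h1 := ee_degree G {Sum.inr j}
        rw [sum_singleton] at h1
        rw [← h1]
        unfold ee
        rw [sum_singleton, Fintype.sum_sum_type]
        refine le_trans ?_ (le_add_of_nonneg_right (sum_nonneg fun x _ => by
          split_ifs <;> norm_num))
        refine sum_le_sum fun i _ => ?_
        rw [← hadj i j, SimpleGraph.adjMatrix_apply]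
        by_cases h5 : G.Adj (Sum.inl i) (Sum.inr j)
        · rw [if_pos h5, if_pos h5.symm]
        · rw [if_neg h5, if_neg (fun h => h5 h.symm)]
      have e4 : H = R.map Function.Embedding.inl ∪ S.map Function.Embedding.inr := by
        ext x
        rcases x with x | x
        · simp [hR]
        · simp [hS]
      have e5 : Disjoint (R.map (Function.Embedding.inl : Fin n ↪ Fin n ⊕ Fin n))
          (S.map Function.Embedding.inr) := by
        rw [Finset.disjoint_left]
        intro x h1 h2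
        rw [mem_map] at h1 h2
        obtain ⟨a, -, rfl⟩ := h1
        obtain ⟨b, -, h⟩ := h2
        cases h
      rw [e4, sum_union e5, sum_map, sum_map]
      exact add_le_add (sum_le_sum fun i _ => e2 i) (sum_le_sum fun j _ => e3 j)
    refine e1.trans (hH.trans ?_)
    have : 0 ≤ (n : ℝ) ^ (2 - 1 / (t : ℝ)) := by positivity
    nlinarith
  · -- the operator norm
    have h1 := hPs (Sum.elim f 0) (Sum.elim 0 g)
    simp only [Fintype.sum_sum_type, Sum.elim_inl, Sum.elim_inr, Pi.zero_apply, mul_zero, zero_mul,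
      sum_const_zero, add_zero, zero_add] at h1
    have e0 : (0 : ℝ) ^ 2 = 0 := by norm_num
    simp only [e0, sum_const_zero, add_zero, zero_add, avg_sided, hdel] at h1
    refine h1.trans ?_
    have h2 : 2 * (η / 24 * (2 * (n : ℝ)) ^ (1 - 1 / (t : ℝ))) ≤
        η * (n : ℝ) ^ (1 - 1 / (t : ℝ)) := by
      have : 0 ≤ (n : ℝ) ^ (1 - 1 / (t : ℝ)) := by positivity
      nlinarith
    gcongr
  · -- the cut norm
    have h1 := cut_of_regular G H (sided P) _ _ (by positivity) hH hPs
      (X.map Function.Embedding.inl) (Y.map Function.Embedding.inr)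
    simp only [sum_map, Function.Embedding.inl_apply, Function.Embedding.inr_apply, avg_sided,
      hadj] at h1
    rw [hc] at h1
    refine h1.trans ?_
    have e1 : 2 * (η / 24 * (2 * (n : ℝ)) ^ (1 - 1 / (t : ℝ))) * (2 * n) +
        4 * (η / 24 * (2 * (n : ℝ)) ^ (2 - 1 / (t : ℝ))) =
        η / 4 * (2 * (n : ℝ)) ^ (2 - 1 / (t : ℝ)) := by
      rw [← b3]; ring
    rw [e1]
    have : 0 ≤ (n : ℝ) ^ (2 - 1 / (t : ℝ)) := by positivity
    nlinarith

end Pool.Agent.N721.SR
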